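import Pool.Agent.MP_c481b3_nt.H31.SpecN

set_option autoImplicit false

/-! The logarithmic derivative of a bounded holomorphic function on a disc. -/

namespace Pool.Agent.MP_c481b3_nt.H31

open Complex Metric

namespace LF

/-- the product of the linear factors -/
noncomputable def P (Z : Multiset ℂ) (s : ℂ) : ℂ := (Z.map fun ρ => s - ρ).prod

/-- the product of the reflected factors -/
noncomputable def Q (Z : Multiset ℂ) (s : ℂ) : ℂ :=
  (Z.map fun ρ => ((13 / 8) ^ 2 - (starRingEnd ℂ) (ρ - 2) * (s - 2)) / (13 / 8)).prod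

lemma P_cons (a : ℂ) (Z : Multiset ℂ) (s : ℂ) : P (a ::ₘ Z) s = (s - a) * P Z s := by
  simp [P]

lemma Q_cons (a : ℂ) (Z : Multiset ℂ) (s : ℂ) :
    Q (a ::ₘ Z) s = ((13 / 8) ^ 2 - (starRingEnd ℂ) (a - 2) * (s - 2)) / (13 / 8) * Q Z s := by
  simp only [Q, Multiset.map_cons, Multiset.prod_cons]

lemma P_hasDerivAt (Z : Multiset ℂ) (s : ℂ) (h : P Z s ≠ 0) :
    HasDerivAt (P Z) (P Z s * (Z.map fun ρ => (s - ρ)⁻¹).sum) s := by
  induction Z using Multiset.induction_on with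
  | empty =>
    have : P 0 = fun _ => 1 := by
      funext w
      simp [P]
    rw [this]
    simpa using hasDerivAt_const s (1 : ℂ)
  | cons a Z ih =>
    rw [P_cons] at h
    have h1 := left_ne_zero_of_mul h
    have h2 := ih (right_ne_zero_of_mul h)
    have e : P (a ::ₘ Z) = fun w => (w - a) * P Z w := funext (P_cons a Z)
    have h3 := ((hasDerivAt_id s).sub_const a).fun_mul h2
    simp only [id] at h3
    rw [e]
    have e2 : (s - a) * P Z s * ((a ::ₘ Z).map fun ρ => (s - ρ)⁻¹).sum =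
        1 * P Z s + (s - a) * (P Z s * (Z.map fun ρ => (s - ρ)⁻¹).sum) := by
      rw [Multiset.map_cons, Multiset.sum_cons]
      field_simp
    simp only [e2]
    exact h3

lemma P_eq_zero {Z : Multiset ℂ} {s : ℂ} : P Z s = 0 ↔ s ∈ Z := by
  induction Z using Multiset.induction_on with
  | empty => simp [P]
  | cons a Z ih => rw [P_cons, mul_eq_zero, ih, sub_eq_zero, Multiset.mem_cons]

lemma Q_diff (Z : Multiset ℂ) : Differentiable ℂ (Q Z) := by
  induction Z using Multiset.induction_on with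
  | empty =>
    have : Q 0 = fun _ => 1 := by
      funext w
      simp [Q]
    rw [this]
    exact differentiable_const _
  | cons a Z ih =>
    have e : Q (a ::ₘ Z) = fun s =>
        ((13 / 8) ^ 2 - (starRingEnd ℂ) (a - 2) * (s - 2)) / (13 / 8) * Q Z s :=
      funext (Q_cons a Z)
    rw [e]
    fun_prop

lemma norm_refl (a z : ℂ) (hz : ‖z‖ = 13 / 8) :
    ‖((13 / 8) ^ 2 - (starRingEnd ℂ) a * z) / (13 / 8)‖ = ‖z - a‖ := by
  have h1 : ((13 / 8 : ℂ)) ^ 2 = z * (starRingEnd ℂ) z := by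
    rw [mul_conj, normSq_eq_norm_sq, hz]
    push_cast
    ring
  have h2 : (13 / 8 : ℂ) ^ 2 - (starRingEnd ℂ) a * z = z * (starRingEnd ℂ) (z - a) := by
    rw [h1, map_sub]
    ring
  have h3 : ‖(13 / 8 : ℂ)‖ = 13 / 8 := by
    rw [norm_div]
    simp
  rw [h2, norm_div, norm_mul, hz, h3, Complex.norm_conj]
  field_simp

lemma norm_Q_sphere (Z : Multiset ℂ) (s : ℂ) (hs : ‖s - 2‖ = 13 / 8) : ‖Q Z s‖ = ‖P Z s‖ := by
  induction Z using Multiset.induction_on with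
  | empty => simp [P, Q]
  | cons a Z ih =>
    rw [P_cons, Q_cons, norm_mul, norm_mul, ih, norm_refl _ _ hs]
    congr 2
    ring

lemma Q_lower (Z : Multiset ℂ) (hZ : ∀ ρ ∈ Z, ‖ρ - 2‖ ≤ 11 / 8) (s : ℂ) (hs : ‖s - 2‖ ≤ 11 / 8) :
    (1 / 3 : ℝ) ^ Z.card ≤ ‖Q Z s‖ := by
  induction Z using Multiset.induction_on with
  | empty => simp [Q]
  | cons a Z ih =>
    have h1 := ih fun ρ hρ => hZ ρ (Multiset.mem_cons_of_mem hρ)
    have ha := hZ a (Multiset.mem_cons_self a Z)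
    have h3 : ‖(13 / 8 : ℂ)‖ = 13 / 8 := by
      rw [norm_div]
      simp
    have h4 : ‖(starRingEnd ℂ) (a - 2) * (s - 2)‖ ≤ 11 / 8 * (11 / 8) := by
      rw [norm_mul, Complex.norm_conj]
      exact mul_le_mul ha hs (norm_nonneg _) (by norm_num)
    have h5 := norm_sub_norm_le ((13 / 8 : ℂ) ^ 2) ((starRingEnd ℂ) (a - 2) * (s - 2))
    rw [norm_pow, h3] at h5
    have h2 : (1 / 3 : ℝ) ≤ ‖((13 / 8) ^ 2 - (starRingEnd ℂ) (a - 2) * (s - 2)) / (13 / 8)‖ := by
      rw [norm_div, h3, le_div_iff₀ (by norm_num)]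
      linarith
    rw [Q_cons, norm_mul, Multiset.card_cons, pow_succ']
    exact mul_le_mul h2 h1 (by positivity) (norm_nonneg _)

lemma Q_two (Z : Multiset ℂ) : ‖Q Z 2‖ = (13 / 8 : ℝ) ^ Z.card := by
  induction Z using Multiset.induction_on with
  | empty => simp [Q]
  | cons a Z ih =>
    have h3 : ‖(13 / 8 : ℂ)‖ = 13 / 8 := by
      rw [norm_div]
      simp
    rw [Q_cons, norm_mul, ih, Multiset.card_cons, sub_self, mul_zero, sub_zero,
      norm_div, norm_pow, h3, pow_succ' _ Z.card]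
    norm_num

lemma P_two (Z : Multiset ℂ) (hZ : ∀ ρ ∈ Z, ‖ρ - 2‖ ≤ 11 / 8) :
    ‖P Z 2‖ ≤ (11 / 8 : ℝ) ^ Z.card := by
  induction Z using Multiset.induction_on with
  | empty => simp [P]
  | cons a Z ih =>
    have h1 := ih fun ρ hρ => hZ ρ (Multiset.mem_cons_of_mem hρ)
    have ha := hZ a (Multiset.mem_cons_self a Z)
    rw [P_cons, norm_mul, Multiset.card_cons, pow_succ', norm_sub_rev]
    exact mul_le_mul ha h1 (norm_nonneg _) (by norm_num)

/-- `f` is the product of the factors of `Z` and a holomorphic function -/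
def Fac (f : ℂ → ℂ) (Z : Multiset ℂ) (g : ℂ → ℂ) : Prop :=
  DifferentiableOn ℂ g (ball 2 (7 / 4)) ∧ (∀ ρ ∈ Z, ‖ρ - 2‖ ≤ 11 / 8) ∧ ∀ s, f s = P Z s * g s

lemma Fac.bound {f g : ℂ → ℂ} {Z : Multiset ℂ} {B : ℝ} (h : Fac f Z g)
    (hB : ∀ s ∈ ball (2 : ℂ) (7 / 4), ‖f s‖ ≤ B) {s : ℂ} (hs : s ∈ ball (2 : ℂ) (13 / 8)) :
    ‖Q Z s‖ * ‖g s‖ ≤ B := by
  have hcb : closedBall (2 : ℂ) (13 / 8) ⊆ ball 2 (7 / 4) := closedBall_subset_ball (by norm_num)
  have hd : DifferentiableOn ℂ (fun s => Q Z s * g s) (ball 2 (7 / 4)) :=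
    (Q_diff Z).differentiableOn.mul h.1
  rw [← norm_mul]
  refine norm_le_of_forall_mem_frontier_norm_le (U := ball (2 : ℂ) (13 / 8)) isBounded_ball
    (hd.diffContOnCl_ball hcb) (fun z hz => ?_) (subset_closure hs)
  rw [frontier_ball (2 : ℂ) (by norm_num)] at hz
  have h1 := hB z (hcb (sphere_subset_closedBall hz))
  rw [mem_sphere, dist_eq_norm] at hz
  rwa [norm_mul, norm_Q_sphere Z z hz, ← norm_mul, ← h.2.2 z]

lemma log_three {B : ℝ} (hB : 2 ≤ B) : Real.log (3 * B) ≤ 3 * Real.log B := by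
  have h1 : 3 * B ≤ B ^ 3 := by
    have : 4 ≤ B ^ 2 := by nlinarith
    nlinarith
  calc Real.log (3 * B) ≤ Real.log (B ^ 3) := Real.log_le_log (by linarith) h1
    _ = 3 * Real.log B := by rw [Real.log_pow]; norm_num

lemma Fac.low {f g : ℂ → ℂ} {Z : Multiset ℂ} (h : Fac f Z g) (h2 : 1 / 3 ≤ ‖f 2‖) :
    1 / 3 ≤ (11 / 8 : ℝ) ^ Z.card * ‖g 2‖ := by
  refine h2.trans ?_
  rw [h.2.2 2, norm_mul]
  exact mul_le_mul_of_nonneg_right (P_two Z h.2.1) (norm_nonneg _)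

lemma Fac.card_le {f g : ℂ → ℂ} {Z : Multiset ℂ} {B : ℝ} (h : Fac f Z g) (hB2 : 2 ≤ B)
    (hB : ∀ s ∈ ball (2 : ℂ) (7 / 4), ‖f s‖ ≤ B) (h2 : 1 / 3 ≤ ‖f 2‖) :
    (Z.card : ℝ) ≤ 20 * Real.log B := by
  have h1 := h.bound hB (s := 2) (mem_ball_self (by norm_num))
  rw [Q_two] at h1
  have h3 := h.low h2
  have h4 : (13 / 11 : ℝ) ^ Z.card ≤ 3 * B := by
    have e : (13 / 8 : ℝ) ^ Z.card = (13 / 11 : ℝ) ^ Z.card * (11 / 8 : ℝ) ^ Z.card := by
      rw [← mul_pow]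
      norm_num
    rw [e, mul_assoc] at h1
    have hp : (0 : ℝ) < (13 / 11 : ℝ) ^ Z.card := by positivity
    nlinarith
  have h5 := Real.log_le_log (by positivity) h4
  rw [Real.log_pow] at h5
  have h6 : (2 / 13 : ℝ) ≤ Real.log (13 / 11) := by
    have := Real.one_sub_inv_le_log_of_pos (show (0 : ℝ) < 13 / 11 by norm_num)
    linarith
  have h7 := log_three hB2
  have h8 : (0 : ℝ) ≤ Z.card := Nat.cast_nonneg _
  have h9 : 0 ≤ Real.log B := Real.log_nonneg (by linarith)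
  nlinarith

lemma Fac.step {f g : ℂ → ℂ} {Z : Multiset ℂ} (h : Fac f Z g) {a : ℂ} (ha : ‖a - 2‖ ≤ 11 / 8)
    (hga : g a = 0) : Fac f (a ::ₘ Z) (dslope g a) := by
  have haΩ : a ∈ ball (2 : ℂ) (7 / 4) := by
    rw [mem_ball, dist_eq_norm]
    linarith
  refine ⟨(differentiableOn_dslope (isOpen_ball.mem_nhds haΩ)).2 h.1, fun ρ hρ => ?_, fun w => ?_⟩
  · rcases Multiset.mem_cons.1 hρ with rfl | hρ
    · exact ha
    · exact h.2.1 ρ hρ
  · have h1 := sub_smul_dslope g a w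
    rw [hga, sub_zero, smul_eq_mul] at h1
    rw [P_cons, h.2.2 w, ← h1]
    ring

lemma exists_full {f : ℂ → ℂ} {B : ℝ} (hf : DifferentiableOn ℂ f (ball 2 (7 / 4))) (hB2 : 2 ≤ B)
    (hB : ∀ s ∈ ball (2 : ℂ) (7 / 4), ‖f s‖ ≤ B) (h2 : 1 / 3 ≤ ‖f 2‖) :
    ∃ Z g, Fac f Z g ∧ ∀ a, ‖a - 2‖ ≤ 11 / 8 → g a ≠ 0 := by
  by_contra hno
  push Not at hno
  have key : ∀ n : ℕ, ∃ Z g, Fac f Z g ∧ Z.card = n := by
    intro n
    induction n with
    | zero => exact ⟨0, f, ⟨hf, by simp, fun s => by simp [P]⟩, rfl⟩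
    | succ n ih =>
      obtain ⟨Z, g, h, hn⟩ := ih
      obtain ⟨a, ha, hga⟩ := hno Z g h
      exact ⟨a ::ₘ Z, _, h.step ha hga, by rw [Multiset.card_cons, hn]⟩
  obtain ⟨n, hn⟩ := exists_nat_gt (20 * Real.log B)
  obtain ⟨Z, g, h, rfl⟩ := key n
  exact absurd (h.card_le hB2 hB h2) (not_le.2 hn)

/-- A holomorphic logarithm on a ball. -/
lemma exists_log (g : ℂ → ℂ) (c : ℂ) (R : ℝ) (hR : 0 < R) (hg : DifferentiableOn ℂ g (ball c R))
    (hne : ∀ w ∈ ball c R, g w ≠ 0) :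
    ∃ h : ℂ → ℂ, (∀ w ∈ ball c R, HasDerivAt h (deriv g w / g w) w) ∧
      ∀ w ∈ ball c R, g w = exp (h w) := by
  have hq : DifferentiableOn ℂ (fun w => deriv g w / g w) (ball c R) :=
    (hg.deriv isOpen_ball).div hg hne
  obtain ⟨h, hc, hh⟩ := hq.isExactOn_ball.with_val_at c (log (g c))
  refine ⟨h, hh, fun w hw => ?_⟩
  have hk : ∀ z ∈ ball c R, HasDerivAt (fun z => g z * exp (-h z)) 0 z := by
    intro z hz
    have h1 : HasDerivAt g (deriv g z) z :=
      (hg.differentiableAt (isOpen_ball.mem_nhds hz)).hasDerivAt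
    have h2 := h1.mul ((hh z hz).neg.cexp)
    have h3 : deriv g z * exp (-h z) + g z * (exp (-h z) * -(deriv g z / g z)) = 0 := by
      have := hne z hz
      field_simp
      ring
    exact h3 ▸ h2
  have hconst := isOpen_ball.is_const_of_deriv_eq_zero (convex_ball c R).isPreconnected
    (f := fun z => g z * exp (-h z))
    (fun z hz => (hk z hz).differentiableAt.differentiableWithinAt)
    (fun z hz => (hk z hz).deriv) hw (mem_ball_self hR)
  have h0 : g c * exp (-h c) = 1 := by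
    rw [hc, exp_neg, exp_log (hne c (mem_ball_self hR))]
    exact mul_inv_cancel₀ (hne c (mem_ball_self hR))
  rw [h0, exp_neg] at hconst
  have he := exp_ne_zero (h w)
  field_simp at hconst
  exact hconst

/-- A derivative bound from an upper bound for the real part. -/
lemma deriv_bound (h : ℂ → ℂ) (M : ℝ) (hM : 0 < M) (hd : DifferentiableOn ℂ h (ball 2 (11 / 8)))
    (hre : ∀ w ∈ ball (2 : ℂ) (11 / 8), (h w - h 2).re ≤ M) {w : ℂ}
    (hw : w ∈ ball (2 : ℂ) (5 / 4)) : ‖deriv h w‖ ≤ 672 * M := by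
  have hsub : ∀ z ∈ ball (0 : ℂ) (11 / 8), 2 + z ∈ ball (2 : ℂ) (11 / 8) := by
    intro z hz
    rw [mem_ball_zero_iff] at hz
    rwa [mem_ball, dist_eq_norm, add_sub_cancel_left]
  have hF : DifferentiableOn ℂ (fun z => h (2 + z) - h 2) (ball 0 (11 / 8)) := by
    refine DifferentiableOn.sub_const ?_ _
    exact hd.comp (by fun_prop) hsub
  have hb : ∀ w ∈ ball (2 : ℂ) (21 / 16), ‖h w - h 2‖ ≤ 42 * M := by
    intro w hw
    rw [mem_ball, dist_eq_norm] at hw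
    have hz' : w - 2 ∈ ball (0 : ℂ) (11 / 8) := by
      rw [mem_ball_zero_iff]
      linarith
    have := borelCaratheodory_zero hM hF (fun z hz => hre _ (hsub z hz)) (by norm_num) hz'
      (by simp)
    simp only [add_sub_cancel] at this
    refine this.trans ?_
    rw [div_le_iff₀ (by linarith)]
    nlinarith [norm_nonneg (w - 2)]
  rw [mem_ball] at hw
  have hcb : closedBall w (1 / 16) ⊆ ball (2 : ℂ) (21 / 16) := by
    intro z hz
    rw [mem_closedBall] at hz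
    rw [mem_ball]
    linarith [dist_triangle z w 2]
  have hdd : DifferentiableOn ℂ (fun z => h z - h 2) (ball 2 (21 / 16)) :=
    (hd.mono (ball_subset_ball (by norm_num))).sub_const _
  have := norm_deriv_le_of_forall_mem_sphere_norm_le (by norm_num : (0 : ℝ) < 1 / 16)
    (hdd.diffContOnCl_ball hcb) (C := 42 * M) fun z hz => hb z (hcb (sphere_subset_closedBall hz))
  rw [deriv_sub_const] at this
  refine this.trans (le_of_eq ?_)
  ring

end LF

/-- the same with the holomorphic remainder -/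
theorem locFac_hol (f : ℂ → ℂ) (B : ℝ) (hf : DifferentiableOn ℂ f (ball 2 (7 / 4))) (hB2 : 2 ≤ B)
    (hB : ∀ s ∈ ball (2 : ℂ) (7 / 4), ‖f s‖ ≤ B) (h2 : 1 / 3 ≤ ‖f 2‖) :
    ∃ (Z : Multiset ℂ) (r : ℂ → ℂ), (Z.card : ℝ) ≤ 40000 * Real.log B ∧
      (∀ ρ ∈ Z, ρ ∈ ball (2 : ℂ) (7 / 4) ∧ f ρ = 0) ∧
      (∀ ρ ∈ ball (2 : ℂ) (5 / 4), f ρ = 0 → ρ ∈ Z) ∧
      DifferentiableOn ℂ r (ball 2 (5 / 4)) ∧
      (∀ s ∈ ball (2 : ℂ) (5 / 4), ‖r s‖ ≤ 40000 * Real.log B) ∧
      ∀ s ∈ ball (2 : ℂ) (5 / 4), f s ≠ 0 →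
        deriv f s / f s = (Z.map fun ρ => (s - ρ)⁻¹).sum + r s := by
  obtain ⟨Z, g, h, hne⟩ := LF.exists_full hf hB2 hB h2
  have hN := h.card_le hB2 hB h2
  have hL : 0 < Real.log B := Real.log_pos (by linarith)
  have hle : ∀ w ∈ ball (2 : ℂ) (11 / 8), ‖w - 2‖ ≤ 11 / 8 := by
    intro w hw
    rw [mem_ball, dist_eq_norm] at hw
    exact hw.le
  obtain ⟨l, hl, hgl⟩ := LF.exists_log g 2 (11 / 8) (by norm_num)
    (h.1.mono (ball_subset_ball (by norm_num))) fun w hw => hne w (hle w hw)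
  have hld : DifferentiableOn ℂ l (ball 2 (11 / 8)) := fun w hw =>
    (hl w hw).differentiableAt.differentiableWithinAt
  have hre : ∀ w ∈ ball (2 : ℂ) (11 / 8), (l w - l 2).re ≤ 43 * Real.log B := by
    intro w hw
    have h1 := h.bound hB (s := w) (ball_subset_ball (by norm_num) hw)
    have h3 := LF.Q_lower Z h.2.1 w (hle w hw)
    have h4 := h.low h2
    have h5 : (1 / 3 : ℝ) ^ Z.card * ‖g w‖ ≤ B :=
      (mul_le_mul_of_nonneg_right h3 (norm_nonneg _)).trans h1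
    rw [hgl w hw, norm_exp] at h5
    rw [hgl 2 (mem_ball_self (by norm_num)), norm_exp] at h4
    have p1 : (0 : ℝ) < (1 / 3 : ℝ) ^ Z.card := by positivity
    have p2 : (0 : ℝ) < (11 / 8 : ℝ) ^ Z.card := by positivity
    have h6 := Real.log_le_log (mul_pos p1 (Real.exp_pos _)) h5
    have h7 := Real.log_le_log (by norm_num) h4
    rw [Real.log_mul p1.ne' (Real.exp_pos _).ne', Real.log_pow, Real.log_exp, one_div,
      Real.log_inv] at h6
    rw [Real.log_mul p2.ne' (Real.exp_pos _).ne', Real.log_pow, Real.log_exp, one_div,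
      Real.log_inv] at h7
    have h8 := LF.log_three hB2
    rw [Real.log_mul (by norm_num) (by linarith)] at h8
    have h9 : Real.log 3 + Real.log (11 / 8) ≤ 2 := by
      rw [← Real.log_mul (by norm_num) (by norm_num), Real.log_le_iff_le_exp (by norm_num)]
      have e1 := Real.exp_one_gt_d9
      have e2 : Real.exp 2 = Real.exp 1 * Real.exp 1 := by
        rw [← Real.exp_add]
        norm_num
      nlinarith
    have h10 : (0 : ℝ) ≤ Z.card := Nat.cast_nonneg _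
    have h11 := mul_le_mul_of_nonneg_left h9 h10
    rw [sub_re]
    nlinarith
  refine ⟨Z, deriv l, by linarith, fun ρ hρ => ⟨?_, ?_⟩, fun ρ hρ h0 => ?_,
    (hld.deriv isOpen_ball).mono (ball_subset_ball (by norm_num)), fun s hs => ?_,
    fun s hs hs0 => ?_⟩
  · rw [mem_ball, dist_eq_norm]
    linarith [h.2.1 ρ hρ]
  · rw [h.2.2 ρ, LF.P_eq_zero.2 hρ, zero_mul]
  · rw [mem_ball, dist_eq_norm] at hρ
    rw [h.2.2 ρ] at h0
    exact LF.P_eq_zero.1 ((mul_eq_zero.1 h0).resolve_right (hne ρ (by linarith)))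
  · linarith [LF.deriv_bound l _ (by positivity) hld hre hs]
  have hs' : s ∈ ball (2 : ℂ) (11 / 8) := ball_subset_ball (by norm_num) hs
  have hP : LF.P Z s ≠ 0 := by
    intro h0
    exact hs0 (by rw [h.2.2 s, h0, zero_mul])
  have hg0 := hne s (hle s hs')
  have hgd : HasDerivAt g (deriv g s) s :=
    (h.1.differentiableAt (isOpen_ball.mem_nhds (ball_subset_ball (by norm_num) hs))).hasDerivAt
  have hfd := (LF.P_hasDerivAt Z s hP).fun_mul hgd
  have e : f = fun w => LF.P Z w * g w := funext h.2.2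
  rw [(hl s hs').deriv, h.2.2 s, e, hfd.deriv]
  field_simp

theorem locFac : LocFac := by
  refine ⟨40000, by norm_num, fun f B hf hB2 hB h2 => ?_⟩
  obtain ⟨Z, r, h1, h3, h4, -, h5, h6⟩ := locFac_hol f B hf hB2 hB h2
  refine ⟨Z, h1, h3, h4, fun s hs hs0 => ?_⟩
  rw [h6 s hs hs0, add_sub_cancel_left]
  exact h5 s hs

end Pool.Agent.MP_c481b3_nt.H31
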