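import Pool.Agent.MP_c481b3_nt.H31.SpecL
import Pool.Agent.MP_c481b3_nt.H31.LocFac

set_option autoImplicit false

namespace Pool.Agent.MP_c481b3_nt.H31

theorem locFac2 : LocFac2 := by
  refine ⟨40000, by norm_num, fun f B hf hB2 hB h2 => ?_⟩
  obtain ⟨Z, r, h1, h3, h4, h5, h6, h7⟩ := locFac_hol f B hf hB2 hB h2
  exact ⟨Z, r, h1, h3, h4, h5, fun s hs => ⟨h6 s hs, h7 s hs⟩⟩

end Pool.Agent.MP_c481b3_nt.H31
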