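import Pool.Agent.MP_c481b3_nt.H31.SpecN

/-! Repulsion of zeros close to one, and moments of the von Mangoldt function. -/

set_option autoImplicit false

namespace Pool.Agent.MP_c481b3_nt.H31

open Pool.Agent.MP_c481b3_nt.H63 Metric Filter ArithmeticFunction Topology

namespace Repl

open Complex

/-- the twisted von Mangoldt function -/
noncomputable def aw (w : ℕ → ℝ) : ℕ → ℂ := fun n => ((vonMangoldt n * w n : ℝ) : ℂ)

theorem aw_sum {w : ℕ → ℝ} (hw : ∀ n, |w n| ≤ 1) (s : ℂ) (hs : 1 < s.re) :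
    LSeriesSummable (aw w) s := by
  refine Summable.of_norm_bounded (LSeriesSummable_vonMangoldt hs).norm fun n =>
    LSeries.norm_term_le s ?_
  rw [aw, ofReal_mul, norm_mul, norm_real (w n)]
  exact mul_le_of_le_one_right (norm_nonneg _) (hw n)

theorem term_eq (w : ℕ → ℝ) (m : ℕ) (σ : ℝ) (n : ℕ) :
    LSeries.term (LSeries.logMul^[m] (aw w)) σ n =
      ((vonMangoldt n * w n * Real.log n ^ m / (n : ℝ) ^ σ : ℝ) : ℂ) := by
  have h : LSeries.logMul^[m] (aw w) n = (Real.log n : ℂ) ^ m * aw w n := by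
    induction m with
    | zero => simp
    | succ m ih => rw [Function.iterate_succ_apply', LSeries.logMul, ih, ← natCast_log]; ring
  rcases eq_or_ne n 0 with rfl | hn
  · simp
  · rw [LSeries.term_of_ne_zero hn, h, aw, ← ofReal_natCast, ← ofReal_cpow (Nat.cast_nonneg n)]
    push_cast
    ring

theorem mo_sum {w : ℕ → ℝ} (hw : ∀ n, |w n| ≤ 1) (m : ℕ) {σ : ℝ} (hσ : 1 < σ) :
    Summable fun n : ℕ => vonMangoldt n * w n * Real.log n ^ m / (n : ℝ) ^ σ := by
  have h : LSeriesSummable (LSeries.logMul^[m] (aw w)) σ :=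
    LSeriesSummable_of_abscissaOfAbsConv_lt_re (by
      rw [LSeries.absicssaOfAbsConv_logPowMul]; exact absc (aw_sum hw) hσ)
  rw [← summable_ofReal]
  exact h.congr (term_eq w m σ)

theorem mo_eq {w : ℕ → ℝ} (hw : ∀ n, |w n| ≤ 1) (m : ℕ) {σ : ℝ} (hσ : 1 < σ) :
    (Mo w m σ : ℂ) = (-1) ^ m * iteratedDeriv m (LSeries (aw w)) σ := by
  rw [LSeries_iteratedDeriv m (absc (aw_sum hw) hσ), ← mul_assoc, ← mul_pow, Mo, ofReal_tsum]
  simp only [LSeries, term_eq]
  simp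

theorem near {σ r : ℝ} (hσ : 1 < σ) (hr : 0 < r) :
    ∀ᶠ s in 𝓝 (σ : ℂ), s ∈ closedBall (σ : ℂ) r ∧ 1 < s.re :=
  Filter.Eventually.and (closedBall_mem_nhds _ hr)
    ((isOpen_lt continuous_const continuous_re).mem_nhds hσ)

theorem norm_real_sub {δ : ℝ} (h : 0 < δ) : dist ((1 + δ : ℝ) : ℂ) 1 = δ := by
  rw [dist_eq_norm, ofReal_add, ofReal_one, add_sub_cancel_left, norm_real, Real.norm_of_nonneg h.le]

/-- the moments for a trivial character -/
theorem triv (N : ℕ) [NeZero N] (w : ℕ → ℝ) (hw : ∀ n, |w n| ≤ 1)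
    (h1 : ∀ n : ℕ, (1 : DirichletCharacter ℂ N) n = w n) :
    ∃ δ₀ C : ℝ, 0 < δ₀ ∧ 0 < C ∧ ∀ (δ : ℝ) (m : ℕ), 0 < δ → δ ≤ δ₀ →
      |Mo w m (1 + δ) - m.factorial / δ ^ (m + 1)| ≤ C * (m.factorial / δ ^ m) := by
  set Z := DirichletCharacter.LFunctionTrivChar₁ N with hZ
  have hd : Differentiable ℂ Z := DirichletCharacter.differentiable_LFunctionTrivChar₁ N
  obtain ⟨r, hr, h0⟩ := nhds_basis_closedBall.eventually_iff.1 (hd.continuous.continuousAt.eventually_ne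
    (DirichletCharacter.LFunctionTrivChar₁_apply_one_ne_zero N))
  set G : ℂ → ℂ := fun s => -deriv Z s / Z s with hG
  have hGd : DifferentiableOn ℂ G (closedBall 1 r) :=
    hd.deriv.neg.differentiableOn.div hd.differentiableOn fun s hs => h0 hs
  obtain ⟨C, hC⟩ := (isCompact_closedBall (1 : ℂ) r).exists_bound_of_continuousOn hGd.continuousOn
  refine ⟨r / 2, max C 1, by positivity, by positivity, fun δ m hδ hδr => ?_⟩
  have hσ : 1 < 1 + δ := by linarith
  have hsub : closedBall ((1 + δ : ℝ) : ℂ) (r / 2) ⊆ closedBall 1 r :=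
    closedBall_subset_closedBall' (by rw [norm_real_sub hδ]; linarith)
  have he : LSeries (aw w) =ᶠ[𝓝 ((1 + δ : ℝ) : ℂ)] fun s => (s - 1)⁻¹ + G s := by
    filter_upwards [near hσ (half_pos hr)] with s ⟨_, hs⟩
    have hs1 : s ≠ 1 := by rintro rfl; simp at hs
    have e : aw w = (fun n : ℕ => (1 : DirichletCharacter ℂ N) n) *
        fun n : ℕ => (vonMangoldt n : ℂ) := by
      ext n
      simp only [aw, Pi.mul_apply, h1, ofReal_mul, mul_comm]
    have hn := DirichletCharacter.LSeries_ne_zero_of_one_lt_re (1 : DirichletCharacter ℂ N) hs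
    rw [e, DirichletCharacter.LSeries_twist_vonMangoldt_eq _ hs,
      ← DirichletCharacter.deriv_LFunction_eq_deriv_LSeries _ hs]
    rw [← DirichletCharacter.LFunction_eq_LSeries _ hs] at hn ⊢
    simp only [hG, hZ, DirichletCharacter.deriv_LFunctionTrivChar₁_apply_of_ne_one N hs1,
      Function.update_of_ne hs1]
    have := sub_ne_zero.2 hs1
    field_simp
    ring
  have hδ' : ((1 + δ : ℝ) : ℂ) - 1 = δ := by push_cast; ring
  have hδ0 : (δ : ℂ) ≠ 0 := by exact_mod_cast hδ.ne'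
  have c1 : ContDiffAt ℂ m (fun s : ℂ => (s - 1)⁻¹) ((1 + δ : ℝ) : ℂ) :=
    (contDiffAt_id.sub contDiffAt_const).inv (by rw [id, hδ']; exact hδ0)
  have c2 : ContDiffAt ℂ m G ((1 + δ : ℝ) : ℂ) :=
    ((hGd.mono hsub).analyticAt (closedBall_mem_nhds _ (half_pos hr))).contDiffAt
  have h2 := norm_iteratedDeriv_le_of_forall_mem_sphere_norm_le m (half_pos hr)
    (hGd.diffContOnCl_ball hsub) fun s hs =>
      (hC s (hsub (sphere_subset_closedBall hs))).trans (le_max_left C 1)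
  have h3 : ((Mo w m (1 + δ) - m.factorial / δ ^ (m + 1) : ℝ) : ℂ) =
      (-1) ^ m * iteratedDeriv m G ((1 + δ : ℝ) : ℂ) := by
    rw [ofReal_sub, mo_eq hw m hσ, he.iteratedDeriv_eq, iteratedDeriv_fun_add c1 c2,
      iteratedDeriv_comp_sub_const m (fun s : ℂ => s⁻¹) 1]
    simp only [hδ', iteratedDeriv_eq_iterate (f := fun s : ℂ => s⁻¹)]
    rw [iter_deriv_inv, mul_add, ← mul_assoc, ← mul_assoc, ← mul_pow,
      show (-1 - m : ℤ) = -((m + 1 : ℕ) : ℤ) by push_cast; ring, zpow_neg, zpow_natCast]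
    push_cast
    simp [div_eq_mul_inv]
  rw [← Real.norm_eq_abs, ← norm_real, h3, norm_mul, norm_pow, norm_neg, norm_one, one_pow, one_mul]
  refine h2.trans ?_
  rw [mul_comm, mul_div_assoc]
  gcongr

theorem twist {χ : ArithmeticFunction ℝ} (h : ∀ m n, χ (m * n) = χ m * χ n)
    (f g : ArithmeticFunction ℝ) : pmul (f * g) χ = pmul f χ * pmul g χ := by
  ext n
  simp only [pmul_apply, mul_apply, Finset.sum_mul]
  refine Finset.sum_congr rfl fun x hx => ?_
  rw [← (Nat.mem_divisorsAntidiagonal.1 hx).1, h]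
  ring

variable {χ : ArithmeticFunction ℝ} {q : ℝ}

theorem mu_abs (h : Ch χ q) (n : ℕ) : ‖cc (pmul (moebius : ArithmeticFunction ℝ) χ) n‖ ≤ 1 := by
  rw [cc_apply, norm_real, pmul_apply, Real.norm_eq_abs, abs_mul, intCoe_apply]
  exact mul_le_one₀ (by exact_mod_cast abs_moebius_le_one) (abs_nonneg _) (h.abs n)

theorem inv (h : Ch χ q) {s : ℂ} (hs : s ∈ ball (2 : ℂ) (7 / 4)) (h1 : 1 < s.re) :
    LSeries (fun n => cc (pmul (moebius : ArithmeticFunction ℝ) χ) n) s * Lc χ s = 1 := by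
  have e := twist h.mul moebius zeta
  rw [coe_moebius_mul_coe_zeta, zeta_pmul] at e
  rw [← h.eq_LSeries hs h1, ← LSeries_mul' (LSeriesSummable_of_bounded_of_one_lt_re (m := 1)
    (fun n _ => mu_abs h n) h1) (h.summable h1), ← cc_mul, ← e]
  have : (fun n => cc (pmul 1 χ) n) = LSeries.delta := by
    ext n
    by_cases hn : n = 1 <;> simp [hn, h.one, LSeries.delta]
  rw [this, LSeries_delta, Pi.one_apply]

theorem ne_zero (h : Ch χ q) {s : ℂ} (hs : s ∈ ball (2 : ℂ) (7 / 4)) (h1 : 1 < s.re) :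
    Lc χ s ≠ 0 := right_ne_zero_of_mul_eq_one (inv h hs h1)

theorem two (h : Ch χ q) : 1 / 3 ≤ ‖Lc χ 2‖ := by
  have h1 := congrArg norm (inv h (mem_ball_self (by norm_num)) (by simp))
  have h2 : ‖LSeries (fun n => cc (pmul (moebius : ArithmeticFunction ℝ) χ) n) 2‖ ≤
      Real.pi ^ 2 / 6 := by
    refine tsum_of_norm_bounded hasSum_zeta_two fun n => ?_
    rw [LSeries.norm_term_eq]
    split_ifs
    · positivity
    · rw [show (2 : ℂ).re = (2 : ℕ) by simp, Real.rpow_natCast]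
      exact div_le_div_of_nonneg_right (mu_abs h n) (by positivity)
  rw [norm_mul, norm_one] at h1
  have h3 : Real.pi ^ 2 / 6 ≤ 3 := by nlinarith [Real.pi_pos, Real.pi_le_four]
  nlinarith [mul_le_mul_of_nonneg_right (h2.trans h3) (norm_nonneg (Lc χ 2))]

theorem logd (h : Ch χ q) {s : ℂ} (hs : s ∈ ball (2 : ℂ) (7 / 4)) (h1 : 1 < s.re) :
    LSeries (aw χ) s = -(deriv (Lc χ) s / Lc χ s) := by
  have e : Lc χ =ᶠ[𝓝 s] LSeries fun n => cc χ n := by
    filter_upwards [isOpen_ball.mem_nhds hs,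
      (isOpen_lt continuous_const continuous_re).mem_nhds h1] with z a b
    exact (h.eq_LSeries a b).symm
  have e2 : LSeries.logMul (fun n => cc χ n) = fun n => (cc (pmul vonMangoldt χ) * cc χ) n := by
    rw [← cc_mul, ← log_ch h.mul]
    ext n
    simp [LSeries.logMul, log_apply]
  have e3 : aw χ = fun n => cc (pmul vonMangoldt χ) n := by
    ext n
    rw [cc_apply, pmul_apply, aw]
  have e4 := aw_sum h.abs s h1
  rw [e3] at e4 ⊢
  rw [e.deriv_eq, LSeries_deriv (absc (fun _ a => h.summable a) h1), e2,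
    LSeries_mul' e4 (h.summable h1), h.eq_LSeries hs h1, neg_div, neg_neg,
    mul_div_cancel_right₀ _ (ne_zero h hs h1)]

theorem loc (hL : LocFac) : ∃ K : ℝ, 1 ≤ K ∧ ∀ (χ : ArithmeticFunction ℝ) (q L : ℝ), Ch χ q →
    1 ≤ L → Real.log (2 * q) ≤ L → ∃ Z : Multiset ℂ, (Z.card : ℝ) ≤ K * L ∧
      (∀ ρ ∈ Z, ρ.re ≤ 1 ∧ Lc χ ρ = 0) ∧ (∀ ρ ∈ ball (2 : ℂ) (5 / 4), Lc χ ρ = 0 → ρ ∈ Z) ∧
      ∀ s ∈ ball (2 : ℂ) (5 / 4), Lc χ s ≠ 0 →
        ‖deriv (Lc χ) s / Lc χ s - (Z.map fun ρ => (s - ρ)⁻¹).sum‖ ≤ K * L := by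
  obtain ⟨K, hK, hL⟩ := hL
  obtain ⟨A, hA, hb⟩ := exists_bound
  have a0 := Real.log_nonneg hA
  refine ⟨K * (Real.log A + 1), by nlinarith, fun χ q L h h1 h2 => ?_⟩
  have hq := h.one_le
  obtain ⟨Z, z1, z2, z3, z4⟩ := hL (Lc χ) (A * (2 * q)) h.differentiableOn (by nlinarith)
    (fun s hs => (hb χ q h s hs).trans (by nlinarith)) (two h)
  have : K * Real.log (A * (2 * q)) ≤ K * (Real.log A + 1) * L := by
    rw [Real.log_mul (by linarith) (by linarith), mul_assoc]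
    exact mul_le_mul_of_nonneg_left (by nlinarith) (by linarith)
  exact ⟨Z, z1.trans this, fun ρ hρ => ⟨not_lt.1 fun a => ne_zero h (z2 ρ hρ).1 a (z2 ρ hρ).2,
    (z2 ρ hρ).2⟩, z3, fun s hs a => (z4 s hs a).trans this⟩

theorem ball_sub {s : ℂ} (h : ‖s - 1‖ ≤ 1 / 16) : s ∈ ball (2 : ℂ) (5 / 4) := by
  have h1 := dist_triangle s 1 2
  have h2 : dist (1 : ℂ) 2 = 1 := by rw [dist_eq_norm]; norm_num
  rw [dist_eq_norm s 1] at h1
  rw [mem_ball]
  linarith

theorem ball_sub' : ball (2 : ℂ) (5 / 4) ⊆ ball 2 (7 / 4) := ball_subset_ball (by norm_num)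

/-- the upper bound for the sum of weight zero, with the gain from one zero -/
theorem zero_le (hL : LocFac) : ∃ K : ℝ, 1 ≤ K ∧ ∀ (χ : ArithmeticFunction ℝ) (q L δ : ℝ), Ch χ q →
    1 ≤ L → Real.log (2 * q) ≤ L → 0 < δ → δ ≤ 1 / 16 → Mo χ 0 (1 + δ) ≤ K * L ∧
      ∀ ρ : ℂ, ‖ρ - 1‖ ≤ δ / 10 → Lc χ ρ = 0 → Mo χ 0 (1 + δ) ≤ K * L - 4 / (5 * δ) := by
  obtain ⟨K, hK, hL⟩ := loc hL
  refine ⟨K, hK, fun χ q L δ h h1 h2 d0 d1 => ?_⟩
  obtain ⟨Z, -, z2, z3, z4⟩ := hL χ q L h h1 h2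
  have hσ : 1 < 1 + δ := by linarith
  set s : ℂ := ((1 + δ : ℝ) : ℂ) with hs
  have s1 : ‖s - 1‖ = δ := by rw [← dist_eq_norm, norm_real_sub d0]
  have s2 := ball_sub (s1.le.trans d1)
  have s3 : s.re = 1 + δ := ofReal_re _
  have a1 := (abs_le.1 ((abs_re_le_norm _).trans (z4 s s2 (ne_zero h (ball_sub' s2) hσ)))).1
  have a2 := congrArg re (mo_eq h.abs 0 hσ)
  rw [pow_zero, one_mul, iteratedDeriv_zero, logd h (ball_sub' s2) hσ, ofReal_re, neg_re] at a2
  have a3 : ((Z.map fun ρ => (s - ρ)⁻¹).sum).re = (Z.map fun ρ => ((s - ρ)⁻¹).re).sum := by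
    rw [← coe_reAddGroupHom, map_multiset_sum, Multiset.map_map]
    rfl
  have a4 : ∀ x ∈ Z.map fun ρ => ((s - ρ)⁻¹).re, 0 ≤ x := by
    intro x hx
    obtain ⟨ρ, hρ, rfl⟩ := Multiset.mem_map.1 hx
    rw [inv_re, sub_re, s3]
    exact div_nonneg (by linarith [(z2 ρ hρ).1]) (normSq_nonneg _)
  rw [sub_re, a3] at a1
  refine ⟨by linarith [Multiset.sum_nonneg a4], fun ρ r1 r2 => ?_⟩
  have hρ := z3 ρ (ball_sub (by linarith)) r2
  have a5 := Multiset.single_le_sum a4 _ (Multiset.mem_map_of_mem _ hρ)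
  have a6 : 4 / (5 * δ) ≤ ((s - ρ)⁻¹).re := by
    have b1 : ‖s - ρ‖ ≤ δ + δ / 10 := by
      have := norm_sub_le (s - 1) (ρ - 1)
      rw [sub_sub_sub_cancel_right] at this
      linarith
    have b2 : δ ≤ (s - ρ).re := by rw [sub_re, s3]; linarith [(z2 ρ hρ).1]
    have b3 : 0 < ‖s - ρ‖ := (d0.trans_le b2).trans_le (re_le_norm _)
    rw [inv_re, normSq_eq_norm_sq, div_le_div_iff₀ (by positivity) (by positivity)]
    nlinarith [mul_le_mul b1 b1 b3.le (by positivity), mul_le_mul_of_nonneg_right b2 d0.le]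
  linarith

end Repl

open Repl

theorem momOne : MomOne := by
  obtain ⟨δ₀, C, h0, hC, h⟩ := triv 2 (ja 1) (fun n => by rw [ja_apply]; exact_mod_cast jz_abs 1 n)
    fun n => by
      rw [ja_apply, jz, jacobiSym.one_left]
      split_ifs with hn
      · rw [MulChar.one_apply ((ZMod.isUnit_iff_coprime n 2).2 (Nat.coprime_two_right.2 hn))]
        simp
      · rw [MulChar.map_nonunit _ fun a =>
          hn (Nat.coprime_two_right.1 ((ZMod.isUnit_iff_coprime n 2).1 a))]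
        simp
  refine ⟨min δ₀ (1 / (2 * C)), by positivity, fun δ m d0 d1 => ?_⟩
  have h1 := (abs_le.1 (h δ m d0 (d1.trans (min_le_left _ _)))).1
  have h2 : δ * (2 * C) ≤ 1 := (le_div_iff₀ (by positivity)).1 (d1.trans (min_le_right _ _))
  set x : ℝ := m.factorial / δ ^ (m + 1) with hx
  have x0 : 0 ≤ x := by positivity
  have e1 : (m.factorial : ℝ) / δ ^ m = δ * x := by rw [hx, pow_succ]; field_simp
  have e2 : (m.factorial : ℝ) / (2 * δ ^ (m + 1)) = x / 2 := by rw [hx]; field_simp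
  rw [e1] at h1
  rw [e2]
  nlinarith [mul_le_mul_of_nonneg_right h2 x0]

theorem repel_of (hL : LocFac) : Repel := by
  obtain ⟨K, hK, hL⟩ := zero_le hL
  obtain ⟨δ₀, C, h0, hC, h⟩ := triv 1 (fun _ => 1) (by simp)
    fun n => by rw [MulChar.one_apply (isUnit_of_subsingleton _)]; simp
  set k := min (min δ₀ (1 / 16)) (1 / (2 * (3 * K + C))) with hk
  have k0 : 0 < k := by positivity
  have k1 : k ≤ δ₀ := (min_le_left _ _).trans (min_le_left _ _)
  have k2 : k ≤ 1 / 16 := (min_le_left _ _).trans (min_le_right _ _)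
  have k3 : k * (2 * (3 * K + C)) ≤ 1 := (le_div_iff₀ (by positivity)).1 (min_le_right _ _)
  refine ⟨k / 10, by positivity, by linarith, fun χ ψ q L h1 h2 h3 hL1 hL2 ρ ρ' r1 r2 z1 z2 => ?_⟩
  set δ := k / L with hδ
  have d0 : 0 < δ := by positivity
  have d1 : δ ≤ k := div_le_self k0.le hL1
  have d2 : k / 10 / L = δ / 10 := by rw [hδ]; ring
  have hσ : 1 < 1 + δ := by linarith
  rw [d2] at r1 r2
  have a1 := (hL χ q L δ h1 hL1 hL2 d0 (by linarith)).2 ρ r1 z1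
  have a2 := (hL ψ q L δ h2 hL1 hL2 d0 (by linarith)).2 ρ' r2 z2
  have a3 := (hL _ q L δ h3 hL1 hL2 d0 (by linarith)).1
  have a4 := (abs_le.1 (h δ 0 d0 (by linarith))).2
  have a5 : 0 ≤ Mo (fun _ => 1) 0 (1 + δ) + Mo χ 0 (1 + δ) + Mo ψ 0 (1 + δ) +
      Mo (pmul χ ψ) 0 (1 + δ) := by
    refine HasSum.nonneg (fun n => ?_) ((((mo_sum (w := fun _ => 1) (by simp) 0 hσ).hasSum.add
      (mo_sum h1.abs 0 hσ).hasSum).add (mo_sum h2.abs 0 hσ).hasSum).add (mo_sum h3.abs 0 hσ).hasSum)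
    rw [← add_div, ← add_div, ← add_div, pmul_apply]
    refine div_nonneg ?_ (by positivity)
    have := mul_nonneg (vonMangoldt_nonneg (n := n)) (mul_nonneg
      (neg_le_iff_add_nonneg'.1 (abs_le.1 (h1.abs n)).1)
      (neg_le_iff_add_nonneg'.1 (abs_le.1 (h2.abs n)).1))
    linarith
  have e1 : 4 / (5 * δ) = 4 / 5 * δ⁻¹ := by field_simp
  have e2 : k * δ⁻¹ = L := by rw [hδ]; field_simp
  have e3 : 0 < δ⁻¹ := by positivity
  simp only [Nat.factorial_zero, Nat.cast_one, zero_add, pow_one, pow_zero, div_one, mul_one,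
    one_div] at a4
  rw [e1] at a1 a2
  have a6 : C ≤ C * L := le_mul_of_one_le_right hC.le hL1
  have a7 := mul_le_mul_of_nonneg_right k3 e3.le
  have a8 : k * (2 * (3 * K + C)) * δ⁻¹ = 2 * (3 * K + C) * L := by rw [← e2]; ring
  linarith

theorem mom_of (hL : LocFac) : Mom := by
  obtain ⟨K, hK, hL⟩ := loc hL
  refine ⟨2 * K, by linarith, fun χ q L δ m h h1 h2 d0 d1 hz => ?_⟩
  obtain ⟨Z, z1, z2, -, z4⟩ := hL χ q L h h1 h2
  have hσ : 1 < 1 + δ := by linarith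
  have hb : ∀ s ∈ closedBall ((1 + δ : ℝ) : ℂ) (2 * δ), ‖s - 1‖ ≤ 3 * δ := fun s hs => by
    have := dist_triangle s ((1 + δ : ℝ) : ℂ) 1
    rw [norm_real_sub d0, dist_eq_norm] at this
    linarith [mem_closedBall.1 hs]
  have hb2 : closedBall ((1 + δ : ℝ) : ℂ) (2 * δ) ⊆ ball 2 (5 / 4) := fun s hs =>
    ball_sub (by linarith [hb s hs])
  have hn : ∀ s ∈ closedBall ((1 + δ : ℝ) : ℂ) (2 * δ), Lc χ s ≠ 0 := fun s hs =>
    hz s (by linarith [hb s hs])
  have hd : DifferentiableOn ℂ (fun s => -(deriv (Lc χ) s / Lc χ s))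
      (closedBall ((1 + δ : ℝ) : ℂ) (2 * δ)) :=
    (((h.differentiableOn.deriv isOpen_ball).mono (hb2.trans ball_sub')).div
      (h.differentiableOn.mono (hb2.trans ball_sub')) hn).neg
  have he : LSeries (aw χ) =ᶠ[𝓝 ((1 + δ : ℝ) : ℂ)] fun s => -(deriv (Lc χ) s / Lc χ s) := by
    filter_upwards [near hσ (by positivity : 0 < 2 * δ)] with s ⟨a, b⟩
    exact logd h (ball_sub' (hb2 a)) b
  have h3 := Complex.norm_iteratedDeriv_le_of_forall_mem_sphere_norm_le (C := 2 * K * L / δ) m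
    (by positivity : 0 < 2 * δ) (hd.diffContOnCl_ball subset_rfl) fun s hs => by
      have hs := sphere_subset_closedBall hs
      have a1 := z4 s (hb2 hs) (hn s hs)
      have a2 : ‖(Z.map fun ρ => (s - ρ)⁻¹).sum‖ ≤ Z.card * δ⁻¹ := by
        refine (norm_multiset_sum_le _).trans ?_
        rw [← nsmul_eq_mul, ← Multiset.card_map (fun ρ => (s - ρ)⁻¹), ← Multiset.card_map norm]
        refine Multiset.sum_le_card_nsmul _ _ fun x hx => ?_
        simp only [Multiset.map_map, Multiset.mem_map, Function.comp_apply] at hx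
        obtain ⟨ρ, hρ, rfl⟩ := hx
        have b1 : 4 * δ < ‖ρ - 1‖ := not_le.1 fun b => hz ρ b (z2 ρ hρ).2
        have b2 := norm_sub_le (s - 1) (s - ρ)
        rw [sub_sub_sub_cancel_left] at b2
        rw [norm_inv]
        exact inv_anti₀ d0 (by linarith [hb s hs])
      have a3 := norm_le_norm_add_norm_sub' (deriv (Lc χ) s / Lc χ s)
        (Z.map fun ρ => (s - ρ)⁻¹).sum
      have a4 : 1 ≤ δ⁻¹ := (one_le_inv₀ d0).2 (by linarith)
      have a5 := mul_le_mul_of_nonneg_right z1 (zero_le_one.trans a4)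
      have a6 := le_mul_of_one_le_right (by positivity : 0 ≤ K * L) a4
      rw [norm_neg, div_eq_mul_inv (2 * K * L)]
      linarith
  rw [← Real.norm_eq_abs, ← Complex.norm_real, mo_eq h.abs m hσ, he.iteratedDeriv_eq, norm_mul,
    norm_pow, norm_neg, norm_one, one_pow, one_mul]
  refine h3.trans (le_of_eq ?_)
  rw [mul_pow, pow_succ]
  field_simp

end Pool.Agent.MP_c481b3_nt.H31
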