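import Pool.Agent.MP_c481b3_nt.H31.SpecL
import Pool.Agent.MP_c481b3_nt.H31.Repel

/-! The expansion of the moments over zeros, and the zero free region. -/

set_option autoImplicit false

namespace Pool.Agent.MP_c481b3_nt.H31

open Pool.Agent.MP_c481b3_nt.H63 Metric Filter ArithmeticFunction Topology

namespace ZX

open Complex Repl

theorem term_eqC (w : ℕ → ℝ) (m : ℕ) (s : ℂ) (n : ℕ) :
    LSeries.term (LSeries.logMul^[m] (aw w)) s n =
      ((vonMangoldt n * w n * Real.log n ^ m : ℝ) : ℂ) * (n : ℂ) ^ (-s) := by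
  have h : LSeries.logMul^[m] (aw w) n = (Real.log n : ℂ) ^ m * aw w n := by
    induction m with
    | zero => simp
    | succ m ih => rw [Function.iterate_succ_apply', LSeries.logMul, ih, ← natCast_log]; ring
  rcases eq_or_ne n 0 with rfl | hn
  · simp
  · rw [LSeries.term_of_ne_zero hn, h, aw, cpow_neg, div_eq_mul_inv]
    push_cast
    ring

theorem moC_eq {w : ℕ → ℝ} (hw : ∀ n, |w n| ≤ 1) (m : ℕ) {s : ℂ} (hs : 1 < s.re) :
    MoC w m s = (-1) ^ m * iteratedDeriv m (LSeries (aw w)) s := by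
  rw [LSeries_iteratedDeriv m (absc (aw_sum hw) hs), ← mul_assoc, ← mul_pow, MoC]
  simp only [LSeries, term_eqC]
  simp

theorem moC_hasSum {w : ℕ → ℝ} (hw : ∀ n, |w n| ≤ 1) {s : ℂ} (hs : 1 < s.re) :
    HasSum (fun n : ℕ => ((vonMangoldt n * w n * Real.log n ^ 0 : ℝ) : ℂ) * (n : ℂ) ^ (-s))
      (MoC w 0 s) :=
  (Summable.congr (aw_sum hw s hs) (term_eqC w 0 s)).hasSum

theorem iter_one (ρ s : ℂ) (j : ℕ) :
    iteratedDeriv j (fun z : ℂ => (z - ρ)⁻¹) s = (-1) ^ j * j.factorial * (s - ρ)⁻¹ ^ (j + 1) := by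
  rw [iteratedDeriv_comp_sub_const j (fun s : ℂ => s⁻¹) ρ]
  simp only [iteratedDeriv_eq_iterate (f := fun s : ℂ => s⁻¹)]
  rw [iter_deriv_inv, show (-1 - j : ℤ) = -((j + 1 : ℕ) : ℤ) by push_cast; ring, zpow_neg,
    zpow_natCast, inv_pow]

theorem iter_sum (s : ℂ) (j : ℕ) (Z : Multiset ℂ) (hs : ∀ ρ ∈ Z, s ≠ ρ) :
    ContDiffAt ℂ j (fun z : ℂ => (Z.map fun ρ => (z - ρ)⁻¹).sum) s ∧
      iteratedDeriv j (fun z : ℂ => (Z.map fun ρ => (z - ρ)⁻¹).sum) s =
        (-1) ^ j * j.factorial * (Z.map fun ρ => (s - ρ)⁻¹ ^ (j + 1)).sum := by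
  induction Z using Multiset.induction_on with
  | empty => simpa using contDiffAt_const
  | cons a Z ih =>
    obtain ⟨i1, i2⟩ := ih fun ρ hρ => hs ρ (Multiset.mem_cons_of_mem hρ)
    have c1 : ContDiffAt ℂ j (fun z : ℂ => (z - a)⁻¹) s :=
      (contDiffAt_id.sub contDiffAt_const).inv (sub_ne_zero.2 (hs a (Multiset.mem_cons_self _ _)))
    simp only [Multiset.map_cons, Multiset.sum_cons]
    exact ⟨c1.add i1, by rw [iteratedDeriv_fun_add c1 i1, i2, iter_one]; ring⟩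

theorem re_sum (s : ℂ) (Z : Multiset ℂ) (hZ : ∀ ρ ∈ Z, ρ.re ≤ s.re) {ρ : ℂ} (hρ : ρ ∈ Z) :
    ((s - ρ)⁻¹).re ≤ ((Z.map fun ρ => (s - ρ)⁻¹ ^ (0 + 1)).sum).re := by
  have a3 : ((Z.map fun ρ => (s - ρ)⁻¹ ^ (0 + 1)).sum).re =
      (Z.map fun ρ => ((s - ρ)⁻¹).re).sum := by
    rw [← coe_reAddGroupHom, map_multiset_sum, Multiset.map_map]
    simp
  rw [a3]
  refine Multiset.single_le_sum (fun x hx => ?_) _ (Multiset.mem_map_of_mem _ hρ)
  obtain ⟨τ, hτ, rfl⟩ := Multiset.mem_map.1 hx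
  rw [inv_re, sub_re]
  exact div_nonneg (by linarith [hZ τ hτ]) (normSq_nonneg _)

/-- the classical trigonometric inequality -/
theorem pos {w : ℕ → ℝ} (hw : ∀ n, |w n| ≤ 1) {σ : ℝ} (hσ : 1 < σ) (γ : ℝ) :
    0 ≤ 3 * (MoC (fun _ => 1) 0 σ).re + 4 * (MoC w 0 (σ + γ * I)).re +
      (MoC (fun _ => 1) 0 (σ + 2 * γ * I)).re := by
  have h1 := hasSum_re (moC_hasSum (w := fun _ => 1) (by simp) (s := σ) (by simpa using hσ))
  have h2 := hasSum_re (moC_hasSum hw (s := σ + γ * I) (by simpa using hσ))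
  have h3 := hasSum_re (moC_hasSum (w := fun _ => 1) (by simp) (s := σ + 2 * γ * I)
    (by simpa using hσ))
  refine HasSum.nonneg (fun n => ?_) (((h1.mul_left 3).add (h2.mul_left 4)).add h3)
  rcases eq_or_ne n 0 with rfl | hn
  · simp
  have n0 : (n : ℂ) ≠ 0 := by exact_mod_cast hn
  set z : ℂ := (n : ℂ) ^ (-(γ * I)) with hz
  have z1 : ‖z‖ = 1 := by
    rw [hz, norm_natCast_cpow_of_pos (Nat.pos_of_ne_zero hn)]
    simp
  have z2 : z.re ^ 2 + z.im ^ 2 = 1 := by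
    have := normSq_eq_norm_sq z
    rw [z1, normSq_apply] at this
    linarith
  have e1 : (n : ℂ) ^ (-(σ : ℂ)) = ((n : ℝ) ^ (-σ) : ℝ) := by
    rw [ofReal_cpow (Nat.cast_nonneg n)]
    simp
  have e2 : (n : ℂ) ^ (-((σ : ℂ) + γ * I)) = ((n : ℝ) ^ (-σ) : ℝ) * z := by
    rw [neg_add, cpow_add _ _ n0, e1]
  have e3 : (n : ℂ) ^ (-((σ : ℂ) + 2 * γ * I)) = ((n : ℝ) ^ (-σ) : ℝ) * (z * z) := by
    rw [hz, ← cpow_add _ _ n0, ← e1, ← cpow_add _ _ n0]
    ring_nf
  rw [e1, e2, e3, ← mul_assoc, ← mul_assoc, ← ofReal_mul, ← ofReal_mul, re_ofReal_mul,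
    re_ofReal_mul, ofReal_re, mul_re]
  have p0 : 0 ≤ vonMangoldt n * (n : ℝ) ^ (-σ) := mul_nonneg vonMangoldt_nonneg (by positivity)
  have p1 : 0 ≤ 3 + 4 * w n * z.re + (z.re * z.re - z.im * z.im) := by
    nlinarith [sq_nonneg (z.re + w n), abs_le_one_iff_mul_self_le_one.1 (hw n)]
  nlinarith [mul_nonneg p0 p1]

end ZX

open ZX Repl Complex

theorem zExp_of (hL : LocFac2) : ZExp := by
  obtain ⟨K, hK, hL⟩ := hL
  obtain ⟨A, hA, hb⟩ := exists_bound
  have a0 := Real.log_nonneg hA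
  refine ⟨K * (Real.log A + 1), by nlinarith, fun χ q L h h1 h2 => ?_⟩
  have hq := h.one_le
  obtain ⟨Z, g, z1, z2, -, z3, z4⟩ := hL (Lc χ) (A * (2 * q)) h.differentiableOn (by nlinarith)
    (fun s hs => (hb χ q h s hs).trans (by nlinarith)) (two h)
  have hB : K * Real.log (A * (2 * q)) ≤ K * (Real.log A + 1) * L := by
    rw [Real.log_mul (by linarith) (by linarith), mul_assoc]
    exact mul_le_mul_of_nonneg_left (by nlinarith) (by linarith)
  have hre : ∀ ρ ∈ Z, ρ.re ≤ 1 := fun ρ hρ =>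
    not_lt.1 fun a => ne_zero h (z2 ρ hρ).1 a (z2 ρ hρ).2
  refine ⟨Z, h.abs, z1.trans hB, hre, fun ρ hρ => (z2 ρ hρ).2, fun j s hs hs1 => ?_⟩
  have hr : (0 : ℝ) < 1 / 16 := by norm_num
  have hsub : closedBall s (1 / 16) ⊆ ball 2 (5 / 4) := by
    refine closedBall_subset_ball' ?_
    have t1 := dist_triangle s 1 2
    have t2 : dist (1 : ℂ) 2 = 1 := by rw [dist_eq_norm]; norm_num
    rw [dist_eq_norm s 1] at t1
    linarith
  have he : LSeries (aw χ) =ᶠ[𝓝 s] fun z => -((Z.map fun ρ => (z - ρ)⁻¹).sum + g z) := by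
    filter_upwards [closedBall_mem_nhds s hr,
      (isOpen_lt continuous_const continuous_re).mem_nhds hs] with z a b
    rw [logd h (ball_sub' (hsub a)) b, (z4 z (hsub a)).2 (ne_zero h (ball_sub' (hsub a)) b)]
  obtain ⟨c1, c2⟩ := iter_sum s j Z fun ρ hρ e => by
    have := hre ρ hρ
    rw [← e] at this
    linarith
  have c3 : ContDiffAt ℂ j g s :=
    ((z3.mono hsub).analyticAt (closedBall_mem_nhds _ hr)).contDiffAt
  have c4 := norm_iteratedDeriv_le_of_forall_mem_sphere_norm_le j hr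
    (z3.diffContOnCl_ball hsub) fun z hz => (z4 z (hsub (sphere_subset_closedBall hz))).1.trans hB
  have f0 : (j.factorial : ℂ) ≠ 0 := by exact_mod_cast j.factorial_ne_zero
  have f1 : (0 : ℝ) < j.factorial := by exact_mod_cast j.factorial_pos
  have c5 : MoC χ j s / j.factorial + (Z.map fun ρ => (s - ρ)⁻¹ ^ (j + 1)).sum =
      -((-1) ^ j * iteratedDeriv j g s / j.factorial) := by
    have m1 : ((-1 : ℂ) ^ j) * (-1) ^ j = 1 := by rw [← mul_pow]; simp
    rw [moC_eq h.abs j hs, he.iteratedDeriv_eq, iteratedDeriv_fun_neg, iteratedDeriv_fun_add c1 c3,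
      c2]
    generalize (Z.map fun ρ => (s - ρ)⁻¹ ^ (j + 1)).sum = T
    field_simp
    linear_combination (-(j.factorial : ℂ) * T) * m1
  rw [c5, norm_neg, norm_div, norm_mul, norm_pow, norm_neg, norm_one, one_pow, one_mul,
    Complex.norm_natCast, div_le_iff₀ f1]
  refine c4.trans (le_of_eq ?_)
  rw [one_div, inv_pow]
  field_simp

theorem zetaB : ZetaB := by
  set G : ℂ → ℂ := fun s => -deriv (DirichletCharacter.LFunctionTrivChar₁ 1) s /
    DirichletCharacter.LFunctionTrivChar₁ 1 s with hG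
  have hS : IsCompact (closedBall (1 : ℂ) 1 ∩ {s | 1 ≤ s.re}) :=
    (isCompact_closedBall _ _).inter_right (isClosed_le continuous_const continuous_re)
  obtain ⟨C, hC⟩ := hS.exists_bound_of_continuousOn (f := G)
    ((DirichletCharacter.continuousOn_neg_logDeriv_LFunctionTrivChar₁ 1).mono fun s hs => by
      rcases eq_or_ne s 1 with a | a
      · exact Or.inl a
      · exact Or.inr (DirichletCharacter.LFunction_ne_zero_of_one_le_re 1 (Or.inr a) hs.2))
  refine ⟨max 1 C, le_max_left _ _, fun s hs h1 => ?_⟩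
  have hs1 : s ≠ 1 := by rintro rfl; simp at hs
  have he : MoC (fun _ => 1) 0 s - (s - 1)⁻¹ = G s := by
    have e : aw (fun _ => 1) = (fun n : ℕ => (1 : DirichletCharacter ℂ 1) n) *
        fun n : ℕ => (vonMangoldt n : ℂ) := by
      ext n
      rw [Pi.mul_apply, MulChar.one_apply (isUnit_of_subsingleton _), aw, mul_one, one_mul]
    have hn := DirichletCharacter.LSeries_ne_zero_of_one_lt_re (1 : DirichletCharacter ℂ 1) hs
    rw [moC_eq (by simp) 0 hs, pow_zero, one_mul, iteratedDeriv_zero, e,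
      DirichletCharacter.LSeries_twist_vonMangoldt_eq _ hs,
      ← DirichletCharacter.deriv_LFunction_eq_deriv_LSeries _ hs]
    rw [← DirichletCharacter.LFunction_eq_LSeries _ hs] at hn ⊢
    simp only [hG, DirichletCharacter.deriv_LFunctionTrivChar₁_apply_of_ne_one 1 hs1,
      Function.update_of_ne hs1]
    have := sub_ne_zero.2 hs1
    field_simp
    ring
  rw [he]
  exact (hC s ⟨mem_closedBall_iff_norm.2 h1, hs.le⟩).trans (le_max_right _ _)

theorem zfr_of (hB : ZetaB) : ZFR := by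
  obtain ⟨C, hC, hB⟩ := hB
  intro K η hK hη
  set k := min (min (1 / 16) (η ^ 2)) (1 / (2 * (4 * C + 4 * K + 2))) with hk
  have k0 : 0 < k := by positivity
  have k1 : k ≤ 1 / 16 := (min_le_left _ _).trans (min_le_left _ _)
  have k2 : k ≤ η ^ 2 := (min_le_left _ _).trans (min_le_right _ _)
  have k3 : k * (2 * (4 * C + 4 * K + 2)) ≤ 1 := (le_div_iff₀ (by positivity)).1 (min_le_right _ _)
  refine ⟨min (k / 7) (η / 2), by positivity, fun L χ Z hL hZ ρ hρ r1 r2 => ?_⟩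
  have L0 : 0 < L := by linarith
  have r0 := hZ.re ρ hρ
  by_contra hcon
  have r3 : 1 - ρ.re ≤ η / L / 2 :=
    r2.trans ((div_le_div_of_nonneg_right (min_le_right _ _) L0.le).trans_eq (by ring))
  have r4 : η / L / 2 < |ρ.im| := by
    have := norm_le_abs_re_add_abs_im (ρ - 1)
    rw [sub_re, sub_im, one_re, one_im, sub_zero, abs_of_nonpos (by linarith)] at this
    linarith [not_le.1 hcon]
  set δ := k / L with hδ
  have d0 : 0 < δ := by positivity
  have d1 : δ ≤ k := div_le_self k0.le hL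
  have r5 : 1 - ρ.re ≤ δ / 7 :=
    r2.trans ((div_le_div_of_nonneg_right (min_le_left _ _) L0.le).trans_eq (by rw [hδ]; ring))
  have hσ : 1 < 1 + δ := by linarith
  have nrm : ∀ t : ℝ, ‖((1 + δ : ℝ) : ℂ) + t * I - 1‖ ≤ δ + |t| := fun t => by
    refine (norm_le_abs_re_add_abs_im _).trans (le_of_eq ?_)
    simp [abs_of_pos d0]
  have a0 := pos hZ.abs hσ ρ.im
  have a1 : (MoC (fun _ => 1) 0 ((1 + δ : ℝ) : ℂ)).re ≤ δ⁻¹ + C := by
    have b1 := hB ((1 + δ : ℝ) : ℂ) (by simpa using d0) (by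
      rw [← dist_eq_norm, norm_real_sub d0]; linarith)
    have b2 := (re_le_norm _).trans b1
    rw [sub_re, show ((1 + δ : ℝ) : ℂ) - 1 = δ by push_cast; ring, ← ofReal_inv, ofReal_re] at b2
    linarith
  have a2 : (MoC χ 0 (((1 + δ : ℝ) : ℂ) + ρ.im * I)).re ≤ K * L - 7 / 8 * δ⁻¹ := by
    have b1 := hZ.exp 0 (((1 + δ : ℝ) : ℂ) + ρ.im * I) (by simpa using d0)
      ((nrm ρ.im).trans (by linarith))
    have b2 := (re_le_norm _).trans b1
    have b3 := re_sum (((1 + δ : ℝ) : ℂ) + ρ.im * I) Z (fun τ hτ => by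
      have := hZ.re τ hτ
      simp only [add_re, ofReal_re, mul_re, I_re, mul_zero, ofReal_im, I_im, mul_one, sub_self,
        add_zero]
      linarith) hρ
    have b4 : ((1 + δ : ℝ) : ℂ) + ρ.im * I - ρ = ((1 + δ - ρ.re : ℝ) : ℂ) := by
      apply Complex.ext <;> simp
    rw [b4, ← ofReal_inv, ofReal_re] at b3
    have b5 : 7 / 8 * δ⁻¹ ≤ (1 + δ - ρ.re)⁻¹ := by
      rw [show 7 / 8 * δ⁻¹ = (8 / 7 * δ)⁻¹ by field_simp]
      exact inv_anti₀ (by linarith) (by linarith)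
    rw [Nat.factorial_zero, Nat.cast_one, div_one, add_re, pow_zero, mul_one] at b2
    linarith
  have a3 : (MoC (fun _ => 1) 0 (((1 + δ : ℝ) : ℂ) + 2 * ρ.im * I)).re ≤ L + C := by
    have b0 := nrm (2 * ρ.im)
    rw [abs_mul, abs_two, ofReal_mul, ofReal_ofNat] at b0
    have b1 := hB (((1 + δ : ℝ) : ℂ) + 2 * ρ.im * I) (by simpa using d0) (b0.trans (by linarith))
    have b2 := (re_le_norm _).trans b1
    have b3 : ((((1 + δ : ℝ) : ℂ) + 2 * ρ.im * I - 1)⁻¹).re ≤ L := by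
      have c1 : (((1 + δ : ℝ) : ℂ) + 2 * ρ.im * I - 1).re = δ := by simp
      have c2 : (((1 + δ : ℝ) : ℂ) + 2 * ρ.im * I - 1).im = 2 * ρ.im := by simp
      have c3 : (η / L) ^ 2 ≤ (2 * ρ.im) ^ 2 := by
        refine sq_le_sq.2 ?_
        rw [abs_mul, abs_two, abs_of_pos (by positivity)]
        linarith
      have c4 : δ ≤ L * (η / L) ^ 2 := by
        rw [hδ, show L * (η / L) ^ 2 = η ^ 2 / L by field_simp]
        exact div_le_div_of_nonneg_right k2 L0.le
      rw [inv_re, normSq_apply, c1, c2, div_le_iff₀ (by nlinarith [mul_self_nonneg (2 * ρ.im)])]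
      nlinarith [mul_le_mul_of_nonneg_left c3 L0.le, mul_nonneg L0.le (mul_self_nonneg δ)]
    rw [sub_re] at b2
    linarith
  have e2 : k * δ⁻¹ = L := by rw [hδ]; field_simp
  have e3 : 0 < δ⁻¹ := by positivity
  have a6 : C ≤ C * L := le_mul_of_one_le_right (by linarith) hL
  have a7 := mul_le_mul_of_nonneg_right k3 e3.le
  have a8 : k * (2 * (4 * C + 4 * K + 2)) * δ⁻¹ = 2 * (4 * C + 4 * K + 2) * L := by
    rw [← e2]; ring
  linarith

end Pool.Agent.MP_c481b3_nt.H31
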