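import Pool.Agent.MP_c481b3_nt.H31.SpecG

set_option autoImplicit false

namespace Pool.Agent.MP_c481b3_nt.H31

open Pool.Agent.MP_c481b3_nt.H81 Pool.Agent.MP_c481b3_nt.H28 Polynomial NumberField

namespace Loc2

section res
variable {k : Type} [Field k] [DecidableEq k] [IsAlgClosed k] [DecidableEq (RatFunc k)]
  [DecidableEq (LL k)] {A B : k} (hG : Good A B) (h3 : (3 : k) ≠ 0) (l : ℕ) [Fact l.Prime]
  [CharP k l]
include h3

lemma sq_of_tr {n : ℕ} (hA : A ^ l ^ n = A) (hB : B ^ l ^ n = B)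
    (h : pol NE (frE hG l n hA hB) 1 = 0) :
    frE hG l n hA hB * frE hG l n hA hB = -(((l : ℤ) ^ n : ℤ) : EE hG) := by
  rw [(compRing h3 hG).char, h, NE_frE]; simp

/-- over the prime field a curve without points of order `l` has trace zero -/
lemma tr_zero (h5 : 5 ≤ l) (hA : A ^ l ^ 1 = A) (hB : B ^ l ^ 1 = B)
    (ss : ∀ Q : Pt A B, l • Q = 0 → Q = 0) : pol NE (frE hG l 1 hA hB) 1 = 0 := by
  have cr := compRing h3 hG
  set π := frE hG l 1 hA hB with hπ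
  set t := pol NE π 1 with tr
  have nπ : NE π = l := by rw [hπ, NE_frE, pow_one]
  have dv : (l : ℤ) ∣ t := by
    by_contra hc
    obtain ⟨E, d', e1, -⟩ := exists_vd h3 (π - (t : EE hG)) (by
      rw [map_sub, cE_frE _ _ _ _ _ one_ne_zero, map_intCast, zero_sub, neg_ne_zero, Ne,
        CharP.intCast_eq_zero_iff _ l]
      exact hc)
    rw [cr.sub, nπ, ← mul_one (t : EE hG), cr.pol_int', ← tr, mul_one, cr.int] at e1
    have e2 : E.card = l := by
      have : (E.card : ℤ) = l := by rw [e1]; ring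
      exact_mod_cast this
    obtain ⟨Q, hQ⟩ : (E.erase 0).Nonempty := Finset.card_pos.1 (by
      rw [Finset.card_erase_of_mem d'.sub.zero, e2]; omega)
    obtain ⟨q0, q1⟩ := Finset.mem_erase.1 hQ
    exact q0 (ss _ (by rw [← e2, d'.sub.nsmul_card q1]))
  have cs := cr.cauchy π 1
  rw [← tr, nπ, cr.one] at cs
  obtain ⟨z, hz⟩ := dv
  have l5 : (5 : ℤ) ≤ l := by exact_mod_cast h5
  rw [hz] at cs ⊢
  by_contra h0
  have : 1 ≤ z ^ 2 := by
    have := sq_pos_of_ne_zero (right_ne_zero_of_mul h0)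
    omega
  nlinarith [mul_le_mul_of_nonneg_left this (sq_nonneg (l : ℤ))]

/-- a twist over an extension of odd degree has trace zero too -/
lemma tr_twist {n : ℕ} (hn : Odd n) (hA : A ^ l ^ n = A) (hB : B ^ l ^ n = B) {w : k}
    (hw : w ^ l ^ 1 = w) (s : Sc A B w w) (s1 : s.σ = RingHom.id k) (s2 : s.u ^ 2 = B / A)
    (h : pol NE (frE s.good l 1 hw hw) 1 = 0) : pol NE (frE hG l n hA hB) 1 = 0 := by
  have cr := compRing h3 hG
  have u1 : s.u ^ l ^ (n * 2) = s.u := by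
    have e : (s.u ^ l ^ n) ^ 2 = s.u ^ 2 := by
      rw [← pow_mul, mul_comm, pow_mul, s2, div_pow, hA, hB]
    obtain ⟨m, hm⟩ := odd_char hG l n
    rw [mul_two, pow_add, pow_mul]
    rcases sq_eq_sq_iff_eq_or_eq_neg.1 e with e | e
    · rw [e, e]
    · rw [e, Odd.neg_pow ⟨m, hm⟩, e, neg_neg]
  have p1 := (frE_pow hG l n hA hB 2).1
  have p2 := (frE_pow s.good l 1 hw hw (n * 2)).1
  rw [mul_comm n, pow_mul, sq, sq_of_tr s.good h3 l hw hw h, hn.neg_pow, pow_one,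
    ← Int.cast_pow] at p2
  have key : frE hG l n hA hB * frE hG l n hA hB = -(((l : ℤ) ^ n : ℤ) : EE hG) := by
    refine EE_ext fun P => s.injective ?_
    rw [← sq, p1, EE_neg, EE_int, map_neg, map_zsmul, ← EE_int (hG := s.good), ← EE_neg, p2,
      frE_apply, frE_apply]
    by_cases hP : P = 0
    · simp only [hP, map_zero]
    refine pt_ext (s.map_ne (Sc.map_ne _ hP)) (Sc.map_ne _ (s.map_ne hP)) ?_ ?_
    · rw [s.xc_map, xc_frP, xc_frP, s.xc_map, s1, one_mul, mul_comm 2, div_pow, ← pow_mul s.u,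
        mul_comm 2, pow_mul s.u, u1]
      rfl
    · rw [s.yc_map, yc_frP, yc_frP, s.yc_map, s1, one_mul, mul_comm 2, div_pow, ← pow_mul s.u,
        mul_comm 3, pow_mul s.u, u1]
      rfl
  have e := cr.char (frE hG l n hA hB)
  rw [key, NE_frE, eq_sub_iff_add_eq, neg_add_cancel] at e
  by_contra h0
  exact cr.mul_ne (cr.int_ne h0) (frE_ne hG h3 l n hA hB) e.symm

end res

lemma alg {R : Type*} [Ring R] {N : R → ℤ} (h : CompRing R N) {π φ φ' : R} (t : pol N π 1 = 0)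
    (a : φ * π = -(π * φ)) (b : φ' * π = -(π * φ')) :
    ∃ s u : ℤ, s ^ 2 = 4 * N π * (4 * N φ * N φ' - u ^ 2) := by
  have c : φ * φ' * π = π * (φ * φ') := by
    rw [mul_assoc, b, mul_neg, ← mul_assoc, a, neg_mul, neg_neg, mul_assoc]
  rw [mul_assoc 4, ← h.mul]
  generalize φ * φ' = x at c
  have t1 : pol N ((2 : ℤ) * x - pol N x 1) 1 = 0 := by
    rw [h.pol_sub, h.pol_int, ← mul_one (pol N x 1 : R), h.pol_int, h.pol_self, h.one]; ring
  have n1 : N ((2 : ℤ) * x - pol N x 1) = 4 * N x - pol N x 1 ^ 2 := by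
    rw [h.sub, h.int_mul, h.int, h.pol_int, ← mul_one (pol N x 1 : R), h.pol_int']; ring
  have c1 : π * ((2 : ℤ) * x - pol N x 1) = ((2 : ℤ) * x - pol N x 1) * π := by
    rw [mul_sub, sub_mul, ← Int.cast_comm, mul_assoc, c, ← mul_assoc, ← mul_assoc, Int.cast_comm 2]
  have e := h.anticomm t1 t
  rw [c1, ← two_mul, show (2 : R) = (2 : ℤ) by simp] at e
  have e1 := congrArg N e
  rw [h.neg, h.int, h.int_mul, h.mul, n1] at e1
  exact ⟨_, pol N x 1, by rw [← e1]; ring⟩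

end Loc2

theorem atL : AtL := by
  classical
  intro K _ _ A B P l n Ψ F G a z hm hl h5 hn hN hA hB hΔ hΨ a0 e G0 F0 sq hz hF
  obtain ⟨O, q, m, c⟩ := exists_loc hm hΔ
  obtain ⟨rfl, rfl⟩ : l = q ∧ n = m := by
    have h := c.norm
    rw [hN] at h
    obtain rfl := (Nat.prime_dvd_prime_iff_eq c.prime hl).1
      (c.prime.dvd_of_dvd_pow (h ▸ dvd_pow_self q c.n0))
    exact ⟨rfl, Nat.pow_right_injective hl.two_le h⟩
  have := Fact.mk hl
  have := c.char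
  have t := c.ev_t hB
  have ez : rs O A ^ 3 / rs O B ^ 2 = z := by
    have h1 := ((c.ev A).pow 3).sub ((Ev.int (resPlc O) z).mul ((c.ev B).pow 2))
    have h2 := Ev.of_lt (π := resPlc O) ((c.lt _).2 hz)
    rw [map_sub, map_mul, map_pow, map_pow, map_intCast] at h2
    rw [div_eq_iff (pow_ne_zero 2 (c.rs_ne hB)), ← sub_eq_zero]
    exact h1.unique h2
  have h : O.valuation (az (iK A ^ 3 / iK B ^ 2) F) < 1 := by
    have h1 := ev_az F t
    rw [ez, ← az_map (z : IsLocalRing.ResidueField O), eval_intCast_map, eq_intCast, Int.cast_id,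
      (CharP.intCast_eq_zero_iff _ l _).2 hF] at h1
    exact h1.v_lt
  obtain ⟨i, hi⟩ : ∃ i, ((F.coeff i : ℤ) : ZMod l) ≠ 0 := by
    by_contra hc
    push Not at hc
    exact F0 (Polynomial.ext fun i => by simpa using hc i)
  obtain ⟨w, w1, w2⟩ := exists_root_near O t.mem (F.map (Int.castRingHom _)) (i := i) (by
    rw [az_map, coeff_map, eq_intCast]
    refine h.trans_eq ((Ev.int (resPlc O) _).v_one ?_).symm
    rwa [Ne, CharP.intCast_eq_zero_iff _ l, ← ZMod.intCast_zmod_eq_zero_iff_dvd])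
  rw [az_map] at w1
  have tw : Ev (resPlc O) w (rs O A ^ 3 / rs O B ^ 2) := by
    simpa using (Ev.of_lt (π := resPlc O) w2).add t
  obtain ⟨s, s1, s2⟩ := exists_sc c.good (c.rs_ne hA) (c.rs_ne hB)
  have r := rd_of tw tw s.good
  obtain ⟨D, hD, u, d, hu, -⟩ := root_sd (parity_of univ unram) hl (by omega) hΨ a0 e G0
    (fun e => F0 (by rw [e, Polynomial.map_zero])) sq (rd_good r) w1
  have tm : Tm w w l := ⟨d.good, three_ne_zero, Nat.cast_ne_zero.2 hl.ne_zero⟩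
  have ss := ssl _ _ (resPlc O) w w _ _ r IsLocalRing.residue_surjective l hl h5
    (CharP.cast_eq_zero _ l) D u d (tm.mem_subs.1 hD).2 hu
  have h3 := c.three h5
  have hw : (rs O A ^ 3 / rs O B ^ 2) ^ l ^ 1 = rs O A ^ 3 / rs O B ^ 2 := by
    rw [ez, pow_one, ← frobenius_def, map_intCast]
  rw [← c.tr h5]
  exact Loc2.tr_twist c.good h3 l hn _ _ hw s s1 s2 (Loc2.tr_zero s.good h3 l h5 hw hw ss)

theorem oddCov : OddCov := by
  classical
  intro K _ _ A B P p l s s' x g H hm pp h5 hp hA hB hΔ hl h2 hJ hs hs' g0 e hx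
  have hP := parity_of univ unram
  have z : aP A B P = 0 ∧ ∃ n, Odd n ∧ Ideal.absNorm P = p ^ n := by
    obtain ⟨O, q, n, c⟩ := exists_loc hm hΔ
    obtain rfl := (Nat.prime_dvd_prime_iff_eq c.prime pp).1 (c.nat_mem.1 hp)
    have := Fact.mk pp
    have := c.char
    exact ⟨c.odd_zero hP H h5 hA hB hl h2 hJ hs hs' g0 e hx, n, (jacobi_pow (c.norm ▸ hJ)).1, c.norm⟩
  refine ⟨hm, pp, h5, hp, z.2, hA, hB, hΔ, z.1, fun O q n c _ _ => ?_⟩
  obtain rfl := (Nat.prime_dvd_prime_iff_eq c.prime pp).1 (c.nat_mem.1 hp)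
  have lq : ¬l ∣ q ^ n := c.norm ▸ jacobi_not_dvd hl hJ
  rw [c.norm] at hJ
  obtain ⟨no, hJ⟩ := jacobi_pow hJ
  have hq : ¬q ∣ l := fun h => lq ((Nat.prime_dvd_prime_iff_eq pp hl).1 h ▸ dvd_pow_self q c.n0)
  obtain ⟨⟨w, w1, w2⟩, -⟩ := discreteAt K P c.max O c.mem c.lt
  obtain ⟨a, ao, a1, a2⟩ := hx
  obtain ⟨b, hb⟩ := c.val w1 w2 hs hs' g0 e a1 a2
  obtain ⟨m, mo, hm'⟩ := (c.par hP H h5 hA hB hl h2 hq w1 w2).2 _ hb
  obtain ⟨D, hD⟩ := Finset.card_pos.1 (Nat.pos_of_ne_zero fun e => by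
    rw [e] at hm'
    obtain ⟨a, rfl⟩ := ao
    omega)
  obtain ⟨m1, -, ⟨u, d, hu, -⟩, st⟩ := Finset.mem_filter.1 hD
  have h3 := c.three h5
  have cr := compRing h3 c.good
  have t : Tm (rs O A) (rs O B) l := ⟨c.good, h3, c.nat_ne fun e => hq (c.nat_mem.1 e)⟩
  obtain ⟨φ, f1, -, f3⟩ := d.exists_end (hG := c.good) h3
  obtain ⟨e1, e2⟩ := frE_pow c.good q n (c.fix A) (c.fix B) m
  have an := anti_of_stab c.good h3 q (n * m) _ _ (c.rs_ne hA) (c.rs_ne hB) d f1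
    (fun Q hQ => e2 Q ▸ st Q hQ)
    (pow_ne_self q c.good.two hJ (by simpa using hu) (no.mul mo))
  rw [← e1] at an
  obtain ⟨i, rfl⟩ := mo
  refine ⟨φ, by rw [f3, (t.mem_subs.1 (red_subs c.rd t m1)).2], ?_⟩
  rw [pow_succ, pow_mul, sq, Loc2.sq_of_tr c.good h3 q _ _ ((c.tr h5).trans z.1), ← Int.cast_neg,
    ← Int.cast_pow] at an
  refine cr.cancel (cr.int_ne (n := (-(q : ℤ) ^ n) ^ i) (pow_ne_zero _ (neg_ne_zero.2
    (pow_ne_zero _ (Int.natCast_ne_zero.2 pp.ne_zero))))) ?_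
  rw [mul_neg, ← mul_assoc, ← mul_assoc, ← an, Int.cast_comm, mul_assoc]

theorem cov2 : Cov2 := by
  classical
  intro K _ _ A B P p l l' v v'
  obtain ⟨O, q, n, c⟩ := exists_loc v.max v.good
  obtain rfl := (Nat.prime_dvd_prime_iff_eq c.prime v.prime).1 (c.nat_mem.1 v.mem)
  have := Fact.mk c.prime
  have := c.char
  obtain ⟨m, ⟨k, rfl⟩, hm⟩ := v.odd
  obtain rfl := Nat.pow_right_injective c.prime.two_le (hm.symm.trans c.norm)
  obtain ⟨φ, f1, f2⟩ := v.anti O q _ c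
  obtain ⟨φ', g1, g2⟩ := v'.anti O q _ c
  obtain ⟨s, u, e⟩ := Loc2.alg (compRing (c.three v.five) c.good) ((c.tr v.five).trans v.zero) f2 g2
  rw [NE_frE, f1, g1] at e
  have q0 : (q : ℤ) ≠ 0 := Int.natCast_ne_zero.2 c.prime.ne_zero
  obtain ⟨s1, rfl⟩ : 2 * (q : ℤ) ^ k ∣ s := (Int.pow_dvd_pow_iff two_ne_zero).1
    ⟨q * (4 * l * l' - u ^ 2), by rw [e]; ring⟩
  have e1 : s1 ^ 2 = q * (4 * l * l' - u ^ 2) :=
    mul_left_cancel₀ (a := (2 * (q : ℤ) ^ k) ^ 2) (by positivity) (by linear_combination e)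
  obtain ⟨b, rfl⟩ : (q : ℤ) ∣ s1 :=
    (Nat.prime_iff_prime_int.1 c.prime).dvd_of_dvd_pow (n := 2) ⟨_, e1⟩
  exact ⟨u, b, mul_left_cancel₀ q0 (by linear_combination -e1)⟩

end Pool.Agent.MP_c481b3_nt.H31
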