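import Pool.Agent.MP_c481b3_nt.H31.SpecG

set_option autoImplicit false

namespace Pool.Agent.MP_c481b3_nt.H31

open Pool.Agent.MP_c481b3_nt.H81 Pool.Agent.MP_c481b3_nt.H28 Polynomial NumberField

namespace Elkies

lemma map_az {L M : Type*} [Field L] [Field M] (φ : L →+* M) (x : L) (g : ℤ[X]) :
    φ (az x g) = az (φ x) g := by
  rw [az, az, coe_eval₂RingHom, coe_eval₂RingHom, hom_eval₂,
    RingHom.ext_int (φ.comp _) (Int.castRingHom M)]

lemma mod_three {l : ℕ} (h : jacobiSym (-(l : ℤ)) 3 = 1) : l % 3 = 2 := by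
  rw [jacobiSym.mod_left] at h
  have : l % 3 = 0 ∨ l % 3 = 1 ∨ l % 3 = 2 := by omega
  rcases this with e | e | e
  · rw [show -(l : ℤ) % (3 : ℕ) = 0 by omega] at h
    norm_num at h
  · rw [show -(l : ℤ) % (3 : ℕ) = 2 by omega] at h
    norm_num at h
  · exact e

variable {K : Type} [Field K]

lemma homog2 (a b : 𝓞 K) (hb : b ≠ 0) (g : ℤ[X]) {D : ℕ} (hD : g.natDegree ≤ D) :
    ∃ e : 𝓞 K, iK e = iK b ^ D * az (iK a / iK b) g ∧
      ∀ τ : K →+* ℝ, τ e = τ b ^ D * az (τ a / τ b) g := by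
  obtain ⟨e, he⟩ := homog_az (algebraMap (𝓞 K) K) a b (RingOfIntegers.coe_ne_zero_iff.2 hb) g hD
  refine ⟨e, ?_, fun τ => ?_⟩
  · have := congrArg (algebraMap K (AlgebraicClosure K)) he
    rwa [map_mul, map_pow, map_az, map_div₀] at this
  · have := congrArg τ he
    rwa [map_mul, map_pow, map_az, map_div₀] at this

end Elkies

theorem elk_of (hArch : Arch) (hGO : GlobalOdd) (hOA : OddAbove) (hAt : AtL) (hOC : OddCov) :
    Elk := by
  classical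
  intro K _ _ A B hK hΔ H
  have gd : Good (iK A) (iK B) := good_of_ne (by
    rw [show Wc (iK A) (iK B) = (Wc A B).map iK by ext <;> simp [Wc], WeierstrassCurve.map_Δ]
    exact (map_ne_zero_iff _ iK_inj).2 hΔ)
  obtain ⟨a0, b0⟩ := H.ne gd
  have A0 : A ≠ 0 := fun e => a0 (by rw [e, map_zero])
  have B0 : B ≠ 0 := fun e => b0 (by rw [e, map_zero])
  have tne : ∀ (τ : K →+* ℝ) {r : 𝓞 K}, r ≠ 0 → τ r ≠ 0 := fun τ _ h =>
    (_root_.map_ne_zero τ).2 (RingOfIntegers.coe_ne_zero_iff.2 h)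
  obtain ⟨d, hd⟩ := hOA K (A ^ 3) (B ^ 2) hK (pow_ne_zero 2 B0)
  choose Mτ hτ using fun τ : K →+* ℝ => hArch (τ (A ^ 3 : 𝓞 K) / τ (B ^ 2 : 𝓞 K))
    (div_ne_zero (tne τ (pow_ne_zero 3 A0)) (tne τ (pow_ne_zero 2 B0))) (by
      have h1 := tne τ (r := 4 * A ^ 3 + 27 * B ^ 2) fun e => gd.disc (by
        simpa [map_ofNat] using congrArg iK e)
      have h2 := tne τ (pow_ne_zero 2 B0)
      intro e
      apply h1
      field_simp at e
      simpa [map_ofNat, add_comm, mul_comm] using e)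
  obtain ⟨M, M1, M2, M4, M3⟩ : ∃ M, d ≤ M ∧ 5 ≤ M ∧ (∀ τ, Mτ τ ≤ M) ∧
      ∀ (P : Ideal (𝓞 K)) (q : ℕ), P.IsMaximal → q.Prime → (q : 𝓞 K) ∈ P → M < q →
        A ∉ P ∧ B ∉ P ∧ (Wc A B).Δ ∉ P := by
    refine ⟨Finset.univ.sup Mτ + Ideal.absNorm (Ideal.span {A * B * (Wc A B).Δ}) + d + 5,
      by omega, by omega, fun τ => ?_, fun P q h1 h2 h3 h4 => ?_⟩
    · have := Finset.le_sup (f := Mτ) (Finset.mem_univ τ)
      omega
    have h5 : A * B * (Wc A B).Δ ∉ P := fun h => by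
      have := le_norm h1 h2 h3 (Ideal.span_singleton_eq_bot.not.2
        (mul_ne_zero (mul_ne_zero A0 B0) hΔ)) ((Ideal.span_singleton_le_iff_mem P).2 h)
      omega
    exact ⟨fun h => h5 (P.mul_mem_right _ (P.mul_mem_right _ h)),
      fun h => h5 (P.mul_mem_right _ (P.mul_mem_left _ h)), fun h => h5 (P.mul_mem_left _ h)⟩
  refine ⟨M, fun l hl l8 l1 res => ?_⟩
  have := Fact.mk hl
  have l5 : 5 ≤ l := by omega
  obtain ⟨-, Ψ, hΨ⟩ := univ l hl.ne_zero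
  obtain ⟨a, Ψ₁, e1, e2⟩ := kron l Ψ hl l5 hΨ
  have S0 : (X ^ (2 * l + 2) * (X ^ l - X) : (ZMod l)[X]) ≠ 0 :=
    mul_ne_zero (pow_ne_zero _ X_ne_zero) (FiniteField.X_pow_card_sub_X_ne_zero _ hl.one_lt)
  obtain ⟨F, G, e3, sq⟩ := exists_sqfree (-Ψ₁) (by
    rintro e
    rw [neg_eq_zero.1 e, Polynomial.map_zero] at e2
    exact pow_ne_zero 2 S0 (neg_eq_zero.1 e2.symm))
  have e4 : (G ^ 2 * F).map (Int.castRingHom (ZMod l)) = (X ^ (2 * l + 2) * (X ^ l - X)) ^ 2 := by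
    rw [← e3, Polynomial.map_neg, e2, neg_neg]
  have e5 : Ψ = C (-(l : ℤ) ^ a) * (G ^ 2 * F) := by rw [← e3, e1, C_neg]; ring
  have F0 : F.map (Int.castRingHom (ZMod l)) ≠ 0 := fun e => pow_ne_zero 2 S0 (by
    rw [← e4, Polynomial.map_mul, e, mul_zero])
  have G0 : G ≠ 0 := fun e => pow_ne_zero 2 S0 (by rw [← e4, e]; simp)
  obtain ⟨R, Z, e6⟩ := square_mod hl S0 e4
  obtain ⟨D, D1, D2, D3, D4⟩ : ∃ D, F.natDegree ≤ 2 * D ∧ R.natDegree ≤ D ∧ Z.natDegree ≤ 2 * D ∧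
      G.natDegree ≤ D := ⟨F.natDegree + R.natDegree + Z.natDegree + G.natDegree, by omega, by omega,
    by omega, by omega⟩
  have b2 := pow_ne_zero 2 B0
  obtain ⟨x, hx, tx⟩ := Elkies.homog2 (A ^ 3) (B ^ 2) b2 F D1
  obtain ⟨y, hy, -⟩ := Elkies.homog2 (A ^ 3) (B ^ 2) b2 R D2
  obtain ⟨z, hz, -⟩ := Elkies.homog2 (A ^ 3) (B ^ 2) b2 Z D3
  obtain ⟨g, hg, tg⟩ := Elkies.homog2 (A ^ 3) (B ^ 2) b2 G D4
  rw [map_pow iK A, map_pow iK B] at hx hy hz hg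
  have e7 := hΨ.az gd a0 b0
  rw [e5, map_mul, map_mul, map_pow, eq_intCast, map_intCast] at e7
  simp only [Finset.prod_mul_distrib, Finset.prod_const] at e7
  set N := (subs (iK A) (iK B) l).card
  have eq : iK (((l : 𝓞 K) ^ a * B ^ (12 * N)) * x * g ^ 2)
      = iK (-((B ^ 2) ^ (4 * D) * ((l : 𝓞 K) ^ 6 * A ^ 12) ^ N))
        * ∏ D ∈ subs (iK A) (iK B) l, dl D := by
    simp only [map_mul, map_pow, map_neg, map_natCast, hx, hg]
    push_cast at e7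
    rw [div_pow, div_pow, ← mul_div_assoc, eq_div_iff (by positivity)] at e7
    linear_combination (-(iK B ^ 2) ^ (4 * D)) * e7
  have l0 : (l : 𝓞 K) ≠ 0 := Nat.cast_ne_zero.2 hl.ne_zero
  have n0 : (l ^ a * B ^ (12 * N)) * x * g ^ 2 ≠ 0 := fun e => mul_ne_zero
    ((map_ne_zero_iff _ iK_inj).2 (neg_ne_zero.2 (mul_ne_zero (pow_ne_zero _ b2)
      (pow_ne_zero _ (mul_ne_zero (pow_ne_zero _ l0) (pow_ne_zero _ A0))))))
    (Finset.prod_ne_zero_iff.2 (dl_ne_of_noCM H gd hl (by omega))) (by rw [← eq, e, map_zero])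
  have g0 : g ≠ 0 := by rintro rfl; simp at n0
  have x0 : x ≠ 0 := by rintro rfl; simp at n0
  by_cases hc : ∃ P : Ideal (𝓞 K), P.IsMaximal ∧ (l : 𝓞 K) ∈ P ∧ x ∈ P
  · obtain ⟨P, h1, h2, h3⟩ := hc
    obtain ⟨k1, k2, k3⟩ := M3 P l h1 hl h2 l1
    obtain ⟨O, q, n, c⟩ := exists_loc h1 k3
    obtain rfl := (Nat.prime_dvd_prime_iff_eq c.prime hl).1 (c.nat_mem.1 h2)
    have := c.char
    have v := (c.lt x).2 h3
    rw [hx, map_mul, map_pow, map_pow, c.v_one k2, one_pow, one_pow, one_mul] at v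
    obtain ⟨t, Q, m, q1, q2, q3, q4, q5, q6⟩ := hd q P hl (by omega) h1 h2 (c.rat_of_root k1 k2 e4 v)
    obtain ⟨j1, j2, j3⟩ := M3 Q q q1 hl q2 l1
    refine Or.inl ⟨hl, Q, q1, q2, j3, hAt K A B Q q m Ψ F G _ t q1 hl l5 q5 q6 j1 j2 j3 hΨ
      (neg_ne_zero.2 (pow_ne_zero _ (Nat.cast_ne_zero.2 hl.ne_zero))) e5 G0 F0 sq q4 ?_⟩
    have ez : rs O A ^ 3 / rs O B ^ 2 = t := by
      have h1 := ((c.ev A).pow 3).sub ((Ev.int (resPlc O) t).mul ((c.ev B).pow 2))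
      have h2 := Ev.of_lt (π := resPlc O) ((c.lt _).2 q3)
      rw [map_sub, map_mul, map_pow, map_pow, map_intCast] at h2
      rw [div_eq_iff (pow_ne_zero 2 (c.rs_ne k2)), ← sub_eq_zero]
      exact h1.unique h2
    have h4 := (ev_az F (c.ev_t k2)).unique (Ev.of_lt v)
    rwa [ez, ← az_map (t : IsLocalRing.ResidueField O), eval_intCast_map, eq_intCast, Int.cast_id,
      CharP.intCast_eq_zero_iff _ q] at h4
  obtain ⟨P, p1, p3, p4, p5⟩ := hGO K l hK hl l8 x y z (iK_inj (by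
      rw [map_add, map_mul, map_pow, hx, hy, hz, e6, map_add, map_mul, map_pow, eq_intCast,
        map_intCast, map_natCast, Int.cast_natCast]
      ring)) (fun τ => by
      have h1 := hτ τ l Ψ hl ((M4 τ).trans_lt l1) (by omega)
        (Elkies.mod_three (res 3 Nat.prime_three (by omega) (by omega))) hΨ
      have h2 := tne τ x0
      have h3 := tne τ g0
      have h4 := tne τ b2
      rw [← az_eq, e5, map_mul, map_mul, map_pow, eq_intCast, map_intCast] at h1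
      rw [tg] at h3
      refine lt_of_le_of_ne ?_ h2
      rw [tx, pow_mul']
      refine mul_nonpos_of_nonneg_of_nonpos (sq_nonneg _) (not_lt.1 fun h5 => ?_)
      have h6 := right_ne_zero_of_mul h3
      have h7 : (0 : ℝ) < l := Nat.cast_pos.2 hl.pos
      push_cast at h1
      rw [neg_mul, Left.nonneg_neg_iff] at h1
      exact absurd h1 (not_le.2 (by positivity)))
    fun P h1 h2 h3 => hc ⟨P, h1, h2, h3⟩
  obtain ⟨q, n, q1, q2, q3⟩ := exists_char p1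
  have p4' := p4
  rw [q3] at p3 p4'
  obtain ⟨j1, j2⟩ := jacobi_pow p4'
  have h1 : M < q := lt_of_not_ge fun h1 => by
    rw [res q q1 (by
      rintro rfl
      exact absurd (Nat.odd_pow_iff j1.pos.ne' |>.1 p3) (by decide)) h1] at j2
    omega
  obtain ⟨k1, k2, k3⟩ := M3 P q p1 q1 q2 h1
  have h5 : (l : 𝓞 K) ∉ P := fun h => jacobi_not_dvd hl p4 (dvd_of_mem p1 hl h P.absNorm_mem)
  have := p1.isPrime
  exact Or.inr ⟨P, q, j2, hOC K A B P q l _ _ x g H p1 q1 (by omega) q2 k1 k2 k3 hl (by omega) p4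
    (P.primeCompl.mul_mem (P.primeCompl.pow_mem h5 _) (P.primeCompl.pow_mem k2 _))
    (P.neg_mem_iff.not.2 (P.primeCompl.mul_mem (P.primeCompl.pow_mem (P.primeCompl.pow_mem k2 _) _)
      (P.primeCompl.pow_mem (P.primeCompl.mul_mem (P.primeCompl.pow_mem h5 _)
        (P.primeCompl.pow_mem k1 _)) _))) g0 eq p5⟩

end Pool.Agent.MP_c481b3_nt.H31
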