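import Pool.Agent.MP_c481b3_nt.H31.SpecG

set_option autoImplicit false

namespace Pool.Agent.MP_c481b3_nt.H31

open Pool.Agent.MP_c481b3_nt.H28 Polynomial NumberField

namespace GPo

/-- the norm of an integer that is positive at the real places is not negative -/
theorem norm_nonneg_of_pos (K : Type) [Field K] [NumberField K] (x : 𝓞 K) (hx : x ≠ 0)
    (hpos : ∀ τ : K →+* ℝ, 0 < τ x) : 0 ≤ Algebra.norm ℤ x := by
  classical
  have hxK : (x : K) ≠ 0 := fun h => hx (by exact_mod_cast h)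
  have h1 := Algebra.norm_eq_prod_embeddings ℚ ℂ (x : K)
  have h2 : (∏ σ : K →ₐ[ℚ] ℂ, σ (x : K)) = ∏ φ : K →+* ℂ, φ (x : K) :=
    (Fintype.prod_equiv (RingHom.equivRatAlgHom K ℂ) (fun φ : K →+* ℂ => φ (x : K))
      (fun σ : K →ₐ[ℚ] ℂ => σ (x : K)) (fun φ => rfl)).symm
  have hne : ∀ φ : K →+* ℂ, φ (x : K) ≠ 0 := fun φ => (map_ne_zero φ).2 hxK
  have h0 : ∀ φ : K →+* ℂ, ((‖φ (x : K)‖ : ℝ) : ℂ) ≠ 0 := fun φ => by
    exact_mod_cast norm_ne_zero_iff.2 (hne φ)
  have h3 : (∏ φ : K →+* ℂ, (φ (x : K) / ((‖φ (x : K)‖ : ℝ) : ℂ))) = 1 := by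
    have hreal : ∀ φ : K →+* ℂ, ComplexEmbedding.IsReal φ →
        φ (x : K) / ((‖φ (x : K)‖ : ℝ) : ℂ) = 1 := fun φ hφ => by
      rw [div_eq_one_iff_eq (h0 φ), ← hφ.coe_embedding_apply, Complex.norm_real, Real.norm_eq_abs,
        abs_of_pos (hpos _)]
    refine Finset.prod_involution (fun φ _ => ComplexEmbedding.conjugate φ) ?_ ?_ ?_ ?_
    · intro φ _
      rw [ComplexEmbedding.conjugate_coe_eq, Complex.norm_conj, div_mul_div_comm,
        Complex.mul_conj, Complex.normSq_eq_norm_sq, div_eq_one_iff_eq (mul_ne_zero (h0 φ) (h0 φ))]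
      push_cast
      ring
    · intro φ _ h1 h
      exact h1 (hreal φ (ComplexEmbedding.isReal_iff.2 h))
    · intro φ _
      exact Finset.mem_univ _
    · intro φ _
      exact ComplexEmbedding.involutive_conjugate K φ
  have h4 : (∏ φ : K →+* ℂ, φ (x : K)) = ((∏ φ : K →+* ℂ, ‖φ (x : K)‖ : ℝ) : ℂ) := by
    rw [Finset.prod_div_distrib, div_eq_one_iff_eq (Finset.prod_ne_zero_iff.2 fun φ _ => h0 φ)] at h3
    rw [h3]
    push_cast
    rfl
  rw [h2, h4, ← Algebra.coe_norm_int] at h1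
  have h5 : ((Algebra.norm ℤ x : ℤ) : ℝ) = ∏ φ : K →+* ℂ, ‖φ (x : K)‖ := by
    have : (((Algebra.norm ℤ x : ℤ) : ℝ) : ℂ) = ((∏ φ : K →+* ℂ, ‖φ (x : K)‖ : ℝ) : ℂ) := by
      rw [← h1]
      simp
    exact_mod_cast this
  have h6 : (0 : ℝ) ≤ ((Algebra.norm ℤ x : ℤ) : ℝ) := by
    rw [h5]
    exact Finset.prod_nonneg fun φ _ => norm_nonneg _
  exact_mod_cast h6

/-- in odd degree the norm of an integer that is negative at the real places is not positive -/
theorem norm_nonpos (K : Type) [Field K] [NumberField K] (hK : Odd (Module.finrank ℚ K)) (x : 𝓞 K)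
    (hx : x ≠ 0) (hneg : ∀ τ : K →+* ℝ, τ x < 0) : Algebra.norm ℤ x ≤ 0 := by
  have h := norm_nonneg_of_pos K (-x) (neg_ne_zero.2 hx) fun τ => by simpa using hneg τ
  rw [show -x = algebraMap ℤ (𝓞 K) (-1) * x by simp, map_mul, Algebra.norm_algebraMap,
    RingOfIntegers.rank, hK.neg_one_pow] at h
  omega

/-- the absolute norm of `w - c` is an odd power of the value of the minimal polynomial -/
theorem norm_sub (K : Type) [Field K] [NumberField K] (hK : Odd (Module.finrank ℚ K)) (w : K)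
    (c : ℚ) : ∃ m : ℕ, Odd m ∧
      |Algebra.norm ℚ (w - algebraMap ℚ K c)| = |(minpoly ℚ w).eval c| ^ m := by
  set x := w - algebraMap ℚ K c with hx
  have hi : IsIntegral ℚ x := IsIntegral.of_finite ℚ x
  refine ⟨Module.finrank (IntermediateField.adjoin ℚ {x}) K, ?_, ?_⟩
  · rw [← Module.finrank_mul_finrank ℚ (IntermediateField.adjoin ℚ {x}) K] at hK
    exact (Nat.odd_mul.1 hK).2
  · rw [Algebra.norm_eq_norm_adjoin, abs_pow, ← IntermediateField.adjoin.powerBasis_gen hi,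
      Algebra.PowerBasis.norm_gen_eq_coeff_zero_minpoly, IntermediateField.adjoin.powerBasis_gen,
      IntermediateField.minpoly_gen, show minpoly ℚ x = _ from minpoly.sub_algebraMap w c,
      coeff_zero_eq_eval_zero, eval_comp]
    simp [abs_mul]

/-- an integer polynomial for `w` with a Bezout relation -/
theorem exists_poly (K : Type) [Field K] [NumberField K] (w : K) :
    ∃ (ν u v : ℤ[X]) (D R : ℤ), D ≠ 0 ∧ R ≠ 0 ∧
      (∀ c : ℤ, ((ν.eval c : ℤ) : ℚ) = D * (minpoly ℚ w).eval (c : ℚ)) ∧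
      ∀ c : ℤ, u.eval c * ν.eval c + v.eval c * ν.derivative.eval c = R := by
  obtain ⟨u, v, huv⟩ : IsCoprime (minpoly ℚ w) (derivative (minpoly ℚ w)) :=
    (minpoly.irreducible (IsIntegral.of_finite ℚ w)).separable
  have key : ∀ f : ℚ[X], ∃ (g : ℤ[X]) (D : ℤ), D ≠ 0 ∧ g.map (algebraMap ℤ ℚ) = C (D : ℚ) * f :=
    fun f => by
      obtain ⟨D, hD, h⟩ := IsLocalization.integerNormalization_spec (nonZeroDivisors ℤ) f
      exact ⟨_, D, nonZeroDivisors.ne_zero hD, by rw [h]; simp⟩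
  have ev : ∀ (g : ℤ[X]) (c : ℤ), ((g.eval c : ℤ) : ℚ) = (g.map (algebraMap ℤ ℚ)).eval (c : ℚ) :=
    fun g c => by simp
  obtain ⟨ν, D, hD, hν⟩ := key (minpoly ℚ w)
  obtain ⟨u₁, D₁, hD₁, hu⟩ := key u
  obtain ⟨v₁, D₂, hD₂, hv⟩ := key v
  refine ⟨ν, C D₂ * u₁, C D₁ * v₁, D, D * D₁ * D₂, hD, by positivity, fun c => ?_, fun c => ?_⟩
  · rw [ev, hν, eval_mul, eval_C]
  · have h := congrArg (eval (c : ℚ)) huv
    simp only [eval_add, eval_mul, eval_one] at h
    apply Int.cast_injective (α := ℚ)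
    simp only [eval_mul, eval_C, Int.cast_add, Int.cast_mul, ev, ← derivative_map, hν, hu, hv,
      derivative_C_mul]
    linear_combination (D * D₁ * D₂ : ℚ) * h

/-- an element whose norm has odd order at `l` lies in a prime of odd degree above `l` -/
theorem exists_odd (K : Type) [Field K] [NumberField K] (x : 𝓞 K) (l : ℕ) (hl : l.Prime)
    (h : Odd (padicValNat l (Algebra.norm ℤ x).natAbs)) :
    ∃ (Q : Ideal (𝓞 K)) (n : ℕ), Q.IsMaximal ∧ (l : 𝓞 K) ∈ Q ∧ x ∈ Q ∧ Odd n ∧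
      Ideal.absNorm Q = l ^ n := by
  classical
  have := Fact.mk hl
  by_contra hcon
  push Not at hcon
  have hx0 : x ≠ 0 := by
    rintro rfl
    simp at h
  have hsp : Ideal.span {x} ≠ ⊥ := by simpa using hx0
  rw [← Ideal.absNorm_span_singleton, ← Ideal.prod_normalizedFactors_eq_self hsp] at h
  refine Nat.not_odd_iff_even.2 (Multiset.prod_induction
    (fun I : Ideal (𝓞 K) => Ideal.absNorm I ≠ 0 ∧ Even (padicValNat l (Ideal.absNorm I))) _
    (fun I J hI hJ => ?_) (by simp) fun Q hQ => ?_).2 h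
  · rw [map_mul, padicValNat.mul hI.1 hJ.1]
    exact ⟨mul_ne_zero hI.1 hJ.1, hI.2.add hJ.2⟩
  · obtain ⟨hprime, hle⟩ := (Ideal.mem_normalizedFactors_iff hsp).1 hQ
    have hxQ : x ∈ Q := (Ideal.span_singleton_le_iff_mem _).1 hle
    have hmax : Q.IsMaximal := hprime.isMaximal (by
      rintro rfl
      exact hx0 (by simpa using hxQ))
    obtain ⟨q, f, -, hqQ, hq, hN⟩ := Ideal.exists_prime_and_absNorm_eq_pow Q
    have := Fact.mk hq
    rw [hN]
    refine ⟨pow_ne_zero _ hq.ne_zero, ?_⟩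
    by_cases e : q = l
    · subst e
      rw [padicValNat.prime_pow]
      exact Nat.not_odd_iff_even.1 fun hf => hcon Q f hmax hqQ hxQ hf hN
    · rw [padicValNat_prime_prime_pow f (Ne.symm e)]
      exact Even.zero

/-- an integer in a prime above `l` is a multiple of `l` -/
theorem dvd_of_mem {R : Type} [CommRing R] {P : Ideal R} (hP : P ≠ ⊤) {l : ℕ} (hl : l.Prime)
    (hlP : (l : R) ∈ P) {n : ℤ} (hn : (n : R) ∈ P) : (l : ℤ) ∣ n := by
  by_contra h
  obtain ⟨s, t, e⟩ := (Nat.prime_iff_prime_int.1 hl).irreducible.coprime_iff_not_dvd.2 h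
  refine hP ((Ideal.eq_top_iff_one P).2 ?_)
  have : (1 : R) = s * l + t * n := by exact_mod_cast congrArg (Int.cast (R := R)) e.symm
  rw [this]
  exact add_mem (P.mul_mem_left _ hlP) (P.mul_mem_left _ hn)

theorem norm_mem {K : Type} [Field K] [NumberField K] {P : Ideal (𝓞 K)} {x : 𝓞 K} (hx : x ∈ P) :
    (((Algebra.norm ℤ x).natAbs : ℤ) : 𝓞 K) ∈ P := by
  have := Ideal.absNorm_mem (Ideal.span {x})
  rw [Ideal.absNorm_span_singleton] at this
  simpa using (Ideal.span_singleton_le_iff_mem _).2 hx this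

end GPo

open GPo

theorem globalOdd : GlobalOdd := by
  classical
  intro K _ _ l hK hl hl8 x y z hxyz hneg hxl
  by_contra hcon
  push Not at hcon
  have hl4 : l % 4 = 3 := by omega
  have hlo : Odd l := by
    rw [Nat.odd_iff]
    omega
  have hx0 : x ≠ 0 := by
    intro h0
    obtain ⟨Q, n, hQ, hlQ, -⟩ := exists_odd K l l hl (by
      have := Fact.mk hl
      rw [show (l : 𝓞 K) = algebraMap ℤ (𝓞 K) l by simp, Algebra.norm_algebraMap,
        RingOfIntegers.rank, Int.natAbs_pow, Int.natAbs_natCast, padicValNat.prime_pow]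
      exact hK)
    exact hxl Q hQ hlQ (h0 ▸ Q.zero_mem)
  have hsp : Ideal.span {x} ≠ ⊥ := by simpa using hx0
  let χ : Ideal (𝓞 K) →* ℤ :=
    { toFun := fun I => jacobiSym (Ideal.absNorm I : ℤ) l
      map_one' := by simp
      map_mul' := fun I J => by simp [jacobiSym.mul_left] }
  have hχ : ∀ I, χ I = jacobiSym (Ideal.absNorm I : ℤ) l := fun I => rfl
  have hpos : χ (Ideal.span {x}) ≤ 0 := by
    rw [hχ, Ideal.absNorm_span_singleton, Int.natCast_natAbs,
      abs_of_nonpos (norm_nonpos K hK x hx0 hneg), jacobiSym.neg _ hlo,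
      ZMod.χ₄_nat_three_mod_four hl4]
    have h := H28.GP.norm_mod K l y z
    rw [← hxyz, ZMod.intCast_eq_intCast_iff'] at h
    rw [jacobiSym.mod_left' h, jacobiSym.pow_left]
    nlinarith [sq_nonneg (jacobiSym (Algebra.norm ℤ y) l)]
  have hfac := Ideal.prod_normalizedFactors_eq_self hsp
  set s := UniqueFactorizationMonoid.normalizedFactors (Ideal.span {x}) with hs
  have hprod : χ (Ideal.span {x}) = ∏ P ∈ s.toFinset, χ P ^ s.count P := by
    conv_lhs => rw [← hfac, Finset.prod_multiset_count]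
    rw [map_prod]
    simp only [map_pow]
  have hcount : ∀ P : Ideal (𝓞 K), P.IsMaximal → ∀ n : ℕ, x ∈ P ^ n → x ∉ P ^ (n + 1) →
      s.count P = n := by
    intro P hP n h1 h2
    have := hP.isPrime
    exact Ideal.count_normalizedFactors_eq ((Ideal.span_singleton_le_iff_mem _).2 h1)
      (fun h => h2 ((Ideal.span_singleton_le_iff_mem _).1 h))
  have hrest : ∀ P ∈ s.toFinset, χ P ^ s.count P = 1 := by
    intro P hPs
    rw [Multiset.mem_toFinset, hs, Ideal.mem_normalizedFactors_iff hsp] at hPs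
    obtain ⟨hprime, hle⟩ := hPs
    have hxP : x ∈ P := (Ideal.span_singleton_le_iff_mem _).1 hle
    have hPb : P ≠ ⊥ := by
      rintro rfl
      exact hx0 (by simpa using hxP)
    have hmax : P.IsMaximal := hprime.isMaximal hPb
    obtain ⟨q, f, -, hqP, hq, hN⟩ := Ideal.exists_prime_and_absNorm_eq_pow P
    have hql : q ≠ l := by
      rintro rfl
      exact hxl P hmax hqP hxP
    by_cases hq2 : q = 2
    · subst hq2
      have : χ P = 1 := by
        rw [hχ, hN]
        push_cast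
        rw [jacobiSym.pow_left, jacobiSym.at_two hlo, ZMod.χ₈_nat_eq_if_mod_eight]
        have h2 : l % 2 = 1 := by omega
        simp [hl8, h2]
      rw [this, one_pow]
    · have hoddN : Odd (Ideal.absNorm P) := by
        rw [hN]
        exact (hq.odd_of_ne_two hq2).pow
      have hcop : (Ideal.absNorm P : ℤ).gcd l = 1 := by
        rw [Int.gcd_natCast_natCast, hN]
        exact Nat.Coprime.pow_left f ((Nat.coprime_primes hq hl).2 hql)
      rcases jacobiSym.eq_one_or_neg_one hcop with h | h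
      · rw [hχ, h, one_pow]
      · obtain ⟨n, h1, h2⟩ := H28.GP.exists_ord P hmax.ne_top x hx0
        have hev : Even n := by
          by_contra hn
          exact hcon P hmax hoddN (by rw [H28.GP.recip l _ hl4 hoddN, h])
            ⟨n, Nat.not_even_iff_odd.1 hn, h1, h2⟩
        rw [hχ, h, hcount P hmax n h1 h2, hev.neg_one_pow]
  rw [hprod, Finset.prod_eq_one hrest] at hpos
  omega

theorem oddAbove : OddAbove := by
  intro K _ _ a b hK hb
  obtain ⟨ν, u, v, D, R, hD, hR, hν, huv⟩ := exists_poly K ((a : K) / b)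
  have hbK : (b : K) ≠ 0 := fun h => hb (by exact_mod_cast h)
  have hNb : (Algebra.norm ℤ b).natAbs ≠ 0 := by simpa using hb
  refine ⟨D.natAbs + R.natAbs + (Algebra.norm ℤ b).natAbs, fun l P hl hd hP hlP hab => ?_⟩
  have := Fact.mk hl
  have hlp : Prime (l : ℤ) := Nat.prime_iff_prime_int.1 hl
  have small : ∀ n : ℕ, n ≠ 0 → n < l → ¬l ∣ n := fun n h0 h h' =>
    absurd (Nat.le_of_dvd (Nat.pos_of_ne_zero h0) h') (by omega)
  have hlD : ¬l ∣ D.natAbs := small _ (by simpa using hD) (by omega)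
  have hlR : ¬l ∣ R.natAbs := small _ (by simpa using hR) (by omega)
  have hlb : ¬l ∣ (Algebra.norm ℤ b).natAbs := small _ hNb (by omega)
  have hbP : b ∉ P := fun h =>
    hlb (Int.natCast_dvd_natCast.1 (dvd_of_mem hP.ne_top hl hlP (norm_mem h)))
  have hN : ∀ c : ℤ, ∃ m, Odd m ∧ D.natAbs ^ m * (Algebra.norm ℤ (a - c * b)).natAbs =
      (Algebra.norm ℤ b).natAbs * (ν.eval c).natAbs ^ m := fun c => by
    obtain ⟨m, hm, h⟩ := norm_sub K hK ((a : K) / b) c
    refine ⟨m, hm, Nat.cast_injective (R := ℚ) ?_⟩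
    have e : ((a - c * b : 𝓞 K) : K) = b * ((a : K) / b - algebraMap ℚ K c) := by
      push_cast
      field_simp
      simp [mul_comm]
    push_cast [Nat.cast_natAbs]
    rw [hν, Algebra.coe_norm_int, Algebra.coe_norm_int, e, map_mul, abs_mul, h, abs_mul, mul_pow]
    ring
  obtain ⟨c₀, hc₀⟩ : ∃ c : ℤ, a - c * b ∈ P := by
    let : Field (𝓞 K ⧸ P) := Ideal.Quotient.field P
    have hl0 : ((l : ℕ) : 𝓞 K ⧸ P) = 0 := by
      rw [← map_natCast (Ideal.Quotient.mk P), Ideal.Quotient.eq_zero_iff_mem]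
      exact hlP
    have : CharP (𝓞 K ⧸ P) l := (CharP.charP_iff_prime_eq_zero hl).2 hl0
    have hb0 : Ideal.Quotient.mk P b ≠ 0 := fun h => hbP (Ideal.Quotient.eq_zero_iff_mem.1 h)
    have h := Ideal.Quotient.eq_zero_iff_mem.2 hab
    rw [map_sub, map_mul, map_mul, map_pow, map_pow, sub_eq_zero] at h
    obtain ⟨c, hc⟩ := (mem_bot_iff_intCast l _).1 ((Subfield.mem_bot_iff_pow_eq_self _ l
      (x := Ideal.Quotient.mk P a / Ideal.Quotient.mk P b)).2
      (by rw [div_pow, div_eq_div_iff (pow_ne_zero _ hb0) hb0, h]))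
    refine ⟨c, Ideal.Quotient.eq_zero_iff_mem.1 ?_⟩
    rw [map_sub, map_mul, map_intCast, hc, div_mul_cancel₀ _ hb0, sub_self]
  have hdvd : ∀ c : ℤ, a - c * b ∈ P → (l : ℤ) ∣ ν.eval c := fun c hc => by
    obtain ⟨m, -, h⟩ := hN c
    have h1 := Int.natCast_dvd_natCast.1 (dvd_of_mem hP.ne_top hl hlP (norm_mem hc))
    have h2 := (hl.dvd_mul.1 (h ▸ h1.mul_left _)).resolve_left hlb
    exact Int.natCast_dvd.2 (hl.dvd_of_dvd_pow h2)
  obtain ⟨c, hc, h2⟩ : ∃ c : ℤ, a - c * b ∈ P ∧ ¬(l : ℤ) ^ 2 ∣ ν.eval c := by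
    by_cases h : (l : ℤ) ^ 2 ∣ ν.eval c₀
    · refine ⟨c₀ + l, ?_, fun h' => hlR (Int.natCast_dvd.1 ?_)⟩
      · rw [show a - ((c₀ + l : ℤ) : 𝓞 K) * b = a - c₀ * b - l * b by push_cast; ring]
        exact sub_mem hc₀ (P.mul_mem_right b hlP)
      · obtain ⟨k, hk⟩ := ν.binomExpansion c₀ l
        have h3 : (l : ℤ) * l ∣ l * ν.derivative.eval c₀ := by
          rw [← sq, show l * ν.derivative.eval c₀ = ν.eval (c₀ + l) - ν.eval c₀ - k * l ^ 2 by
            rw [hk]; ring]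
          exact (h'.sub h).sub (Dvd.intro_left k rfl)
        rw [← huv c₀]
        exact ((hdvd c₀ hc₀).mul_left _).add
          (((mul_dvd_mul_iff_left hlp.ne_zero).1 h3).mul_left _)
    · exact ⟨c₀, hc₀, h⟩
  obtain ⟨t, ht⟩ := hdvd c hc
  have hlt : ¬l ∣ t.natAbs := fun h => h2 (by
    rw [ht, sq]
    exact mul_dvd_mul_left _ (Int.natCast_dvd.2 h))
  obtain ⟨m, hm, h⟩ := hN c
  have ht0 : t.natAbs ≠ 0 := fun h => hlt (h ▸ dvd_zero l)
  have hD0 : D.natAbs ≠ 0 := by simpa using hD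
  rw [ht, Int.natAbs_mul, Int.natAbs_natCast, mul_pow] at h
  have hr : (Algebra.norm ℤ b).natAbs * (l ^ m * t.natAbs ^ m) ≠ 0 := by
    have := hl.ne_zero
    positivity
  have h3 := congrArg (padicValNat l) h
  rw [padicValNat.mul (pow_ne_zero _ hD0) (right_ne_zero_of_mul (h ▸ hr)),
    padicValNat.mul hNb (right_ne_zero_of_mul hr),
    padicValNat.mul (pow_ne_zero _ hl.ne_zero) (pow_ne_zero _ ht0), padicValNat.pow,
    padicValNat.prime_pow, padicValNat.pow, padicValNat.eq_zero_of_not_dvd hlD,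
    padicValNat.eq_zero_of_not_dvd hlb, padicValNat.eq_zero_of_not_dvd hlt] at h3
  obtain ⟨Q, n, hQ, hlQ, hxQ, hn, hNQ⟩ := exists_odd K (a - c * b) l hl (by
    rw [show padicValNat l _ = m by omega]
    exact hm)
  exact ⟨c, Q, n, hQ, hlQ, hc, hxQ, hn, hNQ⟩

end Pool.Agent.MP_c481b3_nt.H31
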