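import Pool.Agent.MP_c481b3_nt.H63.Siegel

set_option autoImplicit false

namespace Pool.Agent.MP_c481b3_nt.H31

open Pool.Agent.MP_c481b3_nt.H63 Metric Filter ArithmeticFunction

/-- the primes `l = 7 mod 8` such that `-l` is a square modulo all primes of `S` -/
def Gd (S : Finset ℕ) (l : ℕ) : Prop :=
  l.Prime ∧ l % 8 = 7 ∧ ∀ r ∈ S, jacobiSym (-(l : ℤ)) r = 1

open Classical in
/-- the sieve bound for the primes covered by one prime `p`, uniform in `S` -/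
def Cover : Prop :=
  ∃ C η : ℝ, 1 ≤ C ∧ 0 < η ∧ ∀ (S : Finset ℕ) (Y : ℝ) (p l₀ : ℕ), (∀ r ∈ S, r.Prime ∧ r ≠ 2) →
    C ≤ Y → (∏ r ∈ S, (r : ℝ)) ^ C ≤ Y → p.Prime → p ≠ 2 → p ∉ S → l₀.Prime → l₀ ≠ 2 → l₀ ≠ p →
    (((Finset.range (⌊Y⌋₊ + 1)).filter fun l =>
        Gd S l ∧ ∃ a b : ℤ, 4 * (l₀ : ℤ) * l = a ^ 2 + p * b ^ 2).card : ℝ)
      ≤ C * ((p : ℝ) ^ (-η) * Y / (2 ^ S.card * Real.log Y) + Y ^ (1 - η))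

/-- the logarithmic derivative of a bounded function is a sum over the near zeros -/
def LocFac : Prop :=
  ∃ K : ℝ, 1 ≤ K ∧ ∀ (f : ℂ → ℂ) (B : ℝ), DifferentiableOn ℂ f (ball 2 (7 / 4)) → 2 ≤ B →
    (∀ s ∈ ball (2 : ℂ) (7 / 4), ‖f s‖ ≤ B) → 1 / 3 ≤ ‖f 2‖ →
    ∃ Z : Multiset ℂ, (Z.card : ℝ) ≤ K * Real.log B ∧
      (∀ ρ ∈ Z, ρ ∈ ball (2 : ℂ) (7 / 4) ∧ f ρ = 0) ∧
      (∀ ρ ∈ ball (2 : ℂ) (5 / 4), f ρ = 0 → ρ ∈ Z) ∧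
      ∀ s ∈ ball (2 : ℂ) (5 / 4), f s ≠ 0 →
        ‖deriv f s / f s - (Z.map fun ρ => (s - ρ)⁻¹).sum‖ ≤ K * Real.log B

/-- moments of the von Mangoldt function with a weight -/
noncomputable def Mo (χ : ℕ → ℝ) (m : ℕ) (σ : ℝ) : ℝ :=
  ∑' n : ℕ, vonMangoldt n * χ n * Real.log n ^ m / (n : ℝ) ^ σ

/-- two different real characters do not both have a zero close to one -/
def Repel : Prop :=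
  ∃ η : ℝ, 0 < η ∧ η ≤ 1 / 16 ∧ ∀ (χ ψ : ArithmeticFunction ℝ) (q L : ℝ), Ch χ q → Ch ψ q →
    Ch (pmul χ ψ) q → 1 ≤ L → Real.log (2 * q) ≤ L → ∀ ρ ρ' : ℂ, ‖ρ - 1‖ ≤ η / L →
    ‖ρ' - 1‖ ≤ η / L → Lc χ ρ = 0 → Lc ψ ρ' ≠ 0

/-- the moments of a character without zeros close to one -/
def Mom : Prop :=
  ∃ K : ℝ, 1 ≤ K ∧ ∀ (χ : ArithmeticFunction ℝ) (q L δ : ℝ) (m : ℕ), Ch χ q → 1 ≤ L →
    Real.log (2 * q) ≤ L → 0 < δ → δ ≤ 1 / 64 → (∀ ρ : ℂ, ‖ρ - 1‖ ≤ 4 * δ → Lc χ ρ ≠ 0) →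
    |Mo χ m (1 + δ)| ≤ K * L * m.factorial / (2 ^ m * δ ^ (m + 1))

/-- the moments over the odd numbers -/
def MomOne : Prop :=
  ∃ δ₀ : ℝ, 0 < δ₀ ∧ ∀ (δ : ℝ) (m : ℕ), 0 < δ → δ ≤ δ₀ →
    m.factorial / (2 * δ ^ (m + 1)) ≤ Mo (ja 1) m (1 + δ)

/-- a large moment gives a long initial segment with a large sum -/
def Dyad : Prop :=
  ∃ c : ℝ, 0 < c ∧ ∀ E : ℝ, ∃ C : ℝ, ∀ (g : ℕ → ℝ) (κ δ : ℝ) (m : ℕ), (∀ n, 0 ≤ g n ∧ g n ≤ 1) →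
    0 < δ → m * δ ≤ 1 → C ≤ m → 1 ≤ κ * 2 ^ m → κ * m.factorial / δ ^ (m + 1) ≤ Mo g m (1 + δ) →
    ∃ Y : ℝ, Real.exp (E / δ) ≤ Y ∧ Y ≤ Real.exp (C * m / δ) ∧
      c * κ * Y ≤ ∑ n ∈ Finset.range (⌊Y⌋₊ + 1), vonMangoldt n * g n

open Classical in
/-- primes that split at all primes of `S` but one large prime -/
def PrimesB : Prop :=
  ∃ c : ℝ, 0 < c ∧ ∀ (E : ℝ) (R : ℕ), ∃ C : ℝ, 1 ≤ C ∧ ∀ (S : Finset ℕ) (L : ℝ),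
    (∀ r ∈ S, r.Prime ∧ r ≠ 2) → C ≤ L → Real.log (∏ r ∈ S, (r : ℝ)) ≤ L →
    ∃ r₀ : ℕ, R < r₀ ∧ ∃ Y : ℝ, Real.exp (E * L) ≤ Y ∧
      Y ≤ Real.exp (C * (S.card + Real.log L) * L) ∧
      c * Y / (2 ^ (S.erase r₀).card * Real.log Y)
        ≤ ((Finset.range (⌊Y⌋₊ + 1)).filter (Gd (S.erase r₀))).card

/-- the lower bound for all large `x` -/
def CountB : Prop :=
  ∀ (S : Set ℕ) (S₀ : Finset ℕ) (D L₀ : ℕ) (A : ℝ) (Cov : ℕ → ℕ → ℕ → Prop),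
    (∀ p ∈ S, p.Prime) → (∀ r ∈ S₀, r.Prime ∧ r ≠ 2) →
    (∀ l, L₀ ≤ l → Gd S₀ l → l ∈ S ∨ ∃ p ∈ S, ∃ i < D, jacobiSym (-(l : ℤ)) p = -1 ∧ Cov p i l ∧
      Real.log p ≤ A * (l : ℝ) ^ 4) →
    (∀ p i l l', Cov p i l → Cov p i l' → ∃ a b : ℤ, 4 * (l : ℤ) * l' = a ^ 2 + p * b ^ 2) →
    ∃ c : ℝ, 0 < c ∧ ∀ᶠ x : ℕ in atTop,
      c * √(Real.log (Real.log x) / Real.log (Real.log (Real.log x)))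
        ≤ ({p ∈ S | p ≤ x} : Set ℕ).ncard

end Pool.Agent.MP_c481b3_nt.H31
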