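import Pool.Agent.MP_c481b3_nt.H31.SpecG
import Pool.Agent.MP_c481b3_nt.H31.SpecN

set_option autoImplicit false

namespace Pool.Agent.MP_c481b3_nt.H31

open Pool.Agent.MP_c481b3_nt.H81 Pool.Agent.MP_c481b3_nt.H28 NumberField Filter

/-- the lower bound for arbitrarily large `x` -/
def CountA : Prop :=
  ∀ (S : Set ℕ) (S₀ : Finset ℕ) (D k L₀ : ℕ) (A : ℝ) (Cov : ℕ → ℕ → ℕ → Prop) (ht : ℕ → ℝ),
    (∀ p ∈ S, p.Prime) → (∀ r ∈ S₀, r.Prime ∧ r ≠ 2) →
    (∀ l, L₀ ≤ l → Gd S₀ l → l ∈ S ∨ ∃ p ∈ S, ∃ i < D, jacobiSym (-(l : ℤ)) p = -1 ∧ Cov p i l ∧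
      Real.log p ≤ ht l) →
    (∀ p i l l', Cov p i l → Cov p i l' → ∃ a b : ℤ, 4 * (l : ℤ) * l' = a ^ 2 + p * b ^ 2) →
    (∀ l, 0 ≤ ht l) →
    (∀ᶠ Y : ℕ in atTop, ∑ l ∈ (Finset.range (Y + 1)).filter (fun l => l.Prime ∧ l % 8 = 7), ht l
      ≤ A * (Y : ℝ) ^ (3 / 2 : ℝ) * Real.log Y ^ k) →
    ∃ c : ℝ, 0 < c ∧ ∃ᶠ x : ℕ in atTop,
      c * Real.log x ^ 2 / Real.log (Real.log x) ^ (2 * k + 3) ≤ ({p ∈ S | p ≤ x} : Set ℕ).ncard

variable {K : Type} [Field K] [NumberField K]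

namespace GlueAux

lemma ne_bot {P : Ideal (𝓞 K)} (h : P.IsMaximal) : P ≠ ⊥ :=
  Ring.ne_bot_of_isMaximal_of_not_isField h (RingOfIntegers.not_isField K)

lemma sum_above {p : ℕ} (hp : p.Prime) (S : Finset (Ideal (𝓞 K)))
    (hS : ∀ P ∈ S, P.IsMaximal ∧ (p : 𝓞 K) ∈ P) :
    ∑ P ∈ S, Real.log (Ideal.absNorm P) ≤ Module.finrank ℚ K * Real.log p :=
  sum_log_le (Nat.cast_ne_zero.2 hp.ne_zero) (fun τ => by simp) S hS

lemma log_le {P : Ideal (𝓞 K)} (h : P.IsMaximal) {p : ℕ} (hp : p.Prime) (hm : (p : 𝓞 K) ∈ P) :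
    Real.log p ≤ Real.log (Ideal.absNorm P) :=
  Real.log_le_log (by exact_mod_cast hp.pos) (by exact_mod_cast le_norm h hp hm (ne_bot h) le_rfl)

lemma norm_le {P : Ideal (𝓞 K)} (h : P.IsMaximal) {p : ℕ} (hp : p.Prime) (hm : (p : 𝓞 K) ∈ P) :
    (Ideal.absNorm P : ℝ) ≤ (p : ℝ) ^ Module.finrank ℚ K := by
  have h1 := sum_above hp {P} (by simpa using ⟨h, hm⟩)
  have p0 : (0 : ℝ) < p := by exact_mod_cast hp.pos
  rw [Finset.sum_singleton, ← Real.log_pow] at h1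
  refine (Real.log_le_log_iff ?_ (by positivity)).1 h1
  exact p0.trans_le (by exact_mod_cast le_norm h hp hm (ne_bot h) le_rfl)

lemma exists_enum : ∃ e : ℕ → ℕ → Ideal (𝓞 K), ∀ (p : ℕ) (P : Ideal (𝓞 K)), p.Prime →
    P.IsMaximal → (p : 𝓞 K) ∈ P → ∃ i < Module.finrank ℚ K, e p i = P := by
  classical
  have fin : ∀ p : ℕ, {P : Ideal (𝓞 K) | p.Prime ∧ P.IsMaximal ∧ (p : 𝓞 K) ∈ P}.Finite := fun p =>
    (Ideal.finite_setOfPred_absNorm_le (p ^ Module.finrank ℚ K)).subset fun P h => by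
      have := norm_le h.2.1 h.1 h.2.2
      exact_mod_cast this
  refine ⟨fun p i => (fin p).toFinset.toList.getD i ⊥, fun p P hp h hm => ?_⟩
  obtain ⟨i, hi, e⟩ := List.mem_iff_getElem.1
    (Finset.mem_toList.2 ((fin p).mem_toFinset.2 ⟨hp, h, hm⟩))
  refine ⟨i, ?_, (List.getD_eq_getElem _ _ hi).trans e⟩
  rw [Finset.length_toList] at hi
  have l0 : 0 < Real.log p := Real.log_pos (by exact_mod_cast hp.one_lt)
  have h1 := sum_above hp (fin p).toFinset fun Q hQ => ((fin p).mem_toFinset.1 hQ).2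
  have h2 := Finset.card_nsmul_le_sum (fin p).toFinset (fun Q => Real.log (Ideal.absNorm Q))
    (Real.log p) fun Q hQ =>
      log_le ((fin p).mem_toFinset.1 hQ).2.1 hp ((fin p).mem_toFinset.1 hQ).2.2
  rw [nsmul_eq_mul] at h2
  have h3 := le_of_mul_le_mul_right (h2.trans h1) l0
  exact hi.trans_le (by exact_mod_cast h3)

lemma prime_eq {P : Ideal (𝓞 K)} (h : P.IsMaximal) {p q : ℕ} (hp : p.Prime) (hq : q.Prime)
    (h1 : (p : 𝓞 K) ∈ P) (h2 : (q : 𝓞 K) ∈ P) : p = q :=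
  (Nat.prime_dvd_prime_iff_eq hp hq).1 (dvd_of_mem h hp h1 h2)

lemma eq_of_big {p l l' Y : ℕ} {a b : ℤ} (hl : l.Prime) (hl' : l'.Prime) (h1 : l ≤ Y)
    (h2 : l' ≤ Y) (hp : 4 * Y ^ 2 < p) (e : 4 * (l : ℤ) * l' = a ^ 2 + p * b ^ 2) : l = l' := by
  have h3 : 4 * (l : ℤ) * l' < p := by
    have : 4 * l * l' < p := by nlinarith [Nat.mul_le_mul h1 h2]
    exact_mod_cast this
  have b0 : b = 0 := by
    by_contra h
    have : 1 ≤ b ^ 2 := by have := sq_pos_of_ne_zero h; omega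
    nlinarith [sq_nonneg a, Int.natCast_nonneg p]
  rw [b0] at e
  by_contra h
  have e1 : 4 * l * l' = a.natAbs ^ 2 := by
    have : ((4 * l * l' : ℕ) : ℤ) = (a.natAbs : ℤ) ^ 2 := by
      rw [Int.natAbs_sq]; push_cast; linarith
    exact_mod_cast this
  obtain ⟨c, hc⟩ : 2 ∣ a.natAbs := Nat.prime_two.dvd_of_dvd_pow (n := 2) ⟨2 * l * l', by
    rw [← e1]; ring⟩
  have e2 : l * l' = c ^ 2 := by rw [hc] at e1; nlinarith
  obtain ⟨d, rfl⟩ : l ∣ c := hl.dvd_of_dvd_pow (n := 2) ⟨l', e2.symm⟩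
  have e3 : l' = l * d ^ 2 := Nat.eq_of_mul_eq_mul_left hl.pos (by rw [e2]; ring)
  exact h ((Nat.prime_dvd_prime_iff_eq hl hl').1 ⟨_, e3⟩)

end GlueAux

open GlueAux

/-- the good primes of trace zero and norm at most `x` -/
def ZS (A B : 𝓞 K) (x : ℝ) : Set (Ideal (𝓞 K)) :=
  {P | P.IsMaximal ∧ (Wc A B).Δ ∉ P ∧ aP A B P = 0 ∧ (Ideal.absNorm P : ℝ) ≤ x}

lemma ncard_le (A B : 𝓞 K) (x : ℕ) {X : ℝ} (h : (x : ℝ) ^ Module.finrank ℚ K ≤ X) :
    ({p ∈ {p | SS A B p} | p ≤ x} : Set ℕ).ncard ≤ (ZS A B X).ncard := by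
  have : ∀ p, SS A B p → ∃ P : Ideal (𝓞 K), P.IsMaximal ∧ (p : 𝓞 K) ∈ P ∧ (Wc A B).Δ ∉ P ∧
    aP A B P = 0 := fun p hp => hp.2
  choose! f h1 h2 h3 h4 using this
  refine Set.ncard_le_ncard_of_injOn f (fun p hp => ⟨h1 p hp.1, h3 p hp.1, h4 p hp.1, ?_⟩)
    (fun p hp q hq e => prime_eq (h1 p hp.1) hp.1.1 hq.1.1 (h2 p hp.1) (e ▸ h2 q hq.1)) ?_
  · refine (norm_le (h1 p hp.1) hp.1.1 (h2 p hp.1)).trans (le_trans ?_ h)
    have : (p : ℝ) ≤ x := by exact_mod_cast hp.2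
    gcongr
  · exact (Ideal.finite_setOfPred_absNorm_le ⌊X⌋₊).subset fun P hP => Nat.le_floor hP.2.2.2

/-- the data for the counting theorems -/
lemma exists_data {A B : 𝓞 K} {M : ℕ} (hM : ∀ l : ℕ, l.Prime → l % 8 = 7 → M < l →
      (∀ r : ℕ, r.Prime → r ≠ 2 → r ≤ M → jacobiSym (-(l : ℤ)) r = 1) →
      SS A B l ∨ ∃ (P : Ideal (𝓞 K)) (p : ℕ), jacobiSym (-(l : ℤ)) p = -1 ∧ Cv A B P p l) :
    ∃ (S₀ : Finset ℕ) (e : ℕ → ℕ → Ideal (𝓞 K)) (P : ℕ → Ideal (𝓞 K)) (p : ℕ → ℕ),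
      (∀ r ∈ S₀, r.Prime ∧ r ≠ 2) ∧ (∀ l, p l = 0 ∨ Cv A B (P l) (p l) l) ∧
      ∀ l, M + 1 ≤ l → Gd S₀ l → SS A B l ∨ (SS A B (p l) ∧ ∃ i < Module.finrank ℚ K,
        jacobiSym (-(l : ℤ)) (p l) = -1 ∧ Cv A B (e (p l) i) (p l) l) := by
  classical
  obtain ⟨e, he⟩ := exists_enum (K := K)
  have : ∀ l : ℕ, ∃ (P : Ideal (𝓞 K)) (p : ℕ), (p = 0 ∨ Cv A B P p l) ∧
      ((∃ (Q : Ideal (𝓞 K)) (q : ℕ), jacobiSym (-(l : ℤ)) q = -1 ∧ Cv A B Q q l) →
        jacobiSym (-(l : ℤ)) p = -1 ∧ Cv A B P p l) := fun l => by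
    by_cases h : ∃ (Q : Ideal (𝓞 K)) (q : ℕ), jacobiSym (-(l : ℤ)) q = -1 ∧ Cv A B Q q l
    · obtain ⟨Q, q, h⟩ := h
      exact ⟨Q, q, Or.inr h.2, fun _ => h⟩
    · exact ⟨⊥, 0, Or.inl rfl, fun h' => absurd h' h⟩
  choose P p h1 h2 using this
  refine ⟨(Finset.range (M + 1)).filter fun r => r.Prime ∧ r ≠ 2, e, P, p,
    fun r hr => (Finset.mem_filter.1 hr).2, h1, fun l hl g => ?_⟩
  refine (hM l g.1 g.2.1 hl fun r r1 r2 r3 => g.2.2 r (Finset.mem_filter.2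
    ⟨Finset.mem_range.2 (by omega), r1, r2⟩)).imp_right fun h => ?_
  obtain ⟨j, c⟩ := h2 l h
  obtain ⟨i, hi, e1⟩ := he _ _ c.prime c.max c.mem
  exact ⟨⟨c.prime, _, c.max, c.mem, c.good, c.zero⟩, i, hi, j, e1 ▸ c⟩

open Classical in
theorem mainA_of (hC : CountA) (hE : Elk) (h2 : Cov2) (hH : Ht) (hK : Odd (Module.finrank ℚ K))
    {A B : 𝓞 K} (hΔ : (Wc A B).Δ ≠ 0) (H : NoCM (iK A) (iK B)) :
    ∃ c : ℝ, 0 < c ∧ ∃ᶠ x : ℝ in atTop,
      c * Real.log x ^ 2 / Real.log (Real.log x) ^ 5 ≤ (ZS A B x).ncard := by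
  obtain ⟨M, hM⟩ := hE K A B hK hΔ H
  obtain ⟨S₀, e, P, p, s0, s1, s2⟩ := exists_data hM
  obtain ⟨C, C1, hC1⟩ := hH K A B hΔ H
  obtain ⟨c, c0, hc⟩ := hC {p | SS A B p} S₀ (Module.finrank ℚ K) 1 (M + 1) (250 * C + 8)
    (fun q i l => Cv A B (e q i) q l) (fun l => Real.log (p l)) (fun _ h => h.1) s0
    (fun l hl g => (s2 l hl g).imp_right fun ⟨a, i, hi, b, d⟩ => ⟨_, a, i, hi, b, d, le_rfl⟩)
    (fun q i l l' => h2 K A B _ q l l') (fun l => Real.log_natCast_nonneg _) (by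
      filter_upwards [eventually_ge_atTop 2,
        tendsto_natCast_atTop_atTop.eventually_ge_atTop (25 * C)] with Y Y2 YC
      have Y2' : (2 : ℝ) ≤ Y := by exact_mod_cast Y2
      have l2 : Real.log 2 ≤ Real.log Y := Real.log_le_log two_pos Y2'
      have l0 : 0 < Real.log 2 := Real.log_pos one_lt_two
      have s4 : √(Y : ℝ) ^ 3 = (Y : ℝ) ^ (3 / 2 : ℝ) := by
        rw [Real.sqrt_eq_rpow, ← Real.rpow_natCast, ← Real.rpow_mul (by positivity)]; norm_num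
      have s5 : √(Y : ℝ) ^ 2 = Y := Real.sq_sqrt (by positivity)
      have s6 : 1 ≤ √(Y : ℝ) := Real.one_le_sqrt.2 (by linarith)
      set T := (Finset.range (Y + 1)).filter fun l => l.Prime ∧ l % 8 = 7 with hT
      have mT : ∀ l ∈ T.filter fun l => 4 * Y ^ 2 < p l, l.Prime ∧ l ≤ Y ∧ 4 * Y ^ 2 < p l ∧
          Cv A B (P l) (p l) l := fun l hl => by
        obtain ⟨a, b⟩ := Finset.mem_filter.1 hl
        obtain ⟨a1, a2, -⟩ := Finset.mem_filter.1 a
        exact ⟨a2, Nat.lt_succ_iff.1 (Finset.mem_range.1 a1), b, (s1 l).resolve_left (by omega)⟩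
      have inj : Set.InjOn P (T.filter fun l => 4 * Y ^ 2 < p l : Finset ℕ) := fun l hl l' hl' e => by
        obtain ⟨a1, a2, a3, a4⟩ := mT l hl
        obtain ⟨b1, b2, -, b4⟩ := mT l' hl'
        rw [← e] at b4
        rw [← prime_eq a4.max a4.prime b4.prime a4.mem b4.mem] at b4
        obtain ⟨a, b, h⟩ := h2 K A B _ _ l l' a4 b4
        exact eq_of_big a1 b1 a2 b2 a3 h
      have k1 := hC1 (2 * (Nat.sqrt Y + 1)) ((T.filter fun l => 4 * Y ^ 2 < p l).image P)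
        fun Q hQ => by
          obtain ⟨l, hl, rfl⟩ := Finset.mem_image.1 hQ
          obtain ⟨a1, a2, -, a4⟩ := mT l hl
          exact ⟨_, l, a4, a1.pos, by nlinarith [Nat.lt_succ_sqrt' Y]⟩
      rw [Finset.sum_image inj] at k1
      have k2 : ((2 * (Nat.sqrt Y + 1) : ℕ) : ℝ) + 1 ≤ 5 * √(Y : ℝ) := by
        have : (Nat.sqrt Y : ℝ) ≤ √(Y : ℝ) :=
          Real.le_sqrt_of_sq_le (by exact_mod_cast Nat.sqrt_le' Y)
        push_cast; linarith
      have k0 : (1 : ℝ) ≤ ((2 * (Nat.sqrt Y + 1) : ℕ) : ℝ) + 1 :=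
        le_add_of_nonneg_left (Nat.cast_nonneg _)
      generalize ((2 * (Nat.sqrt Y + 1) : ℕ) : ℝ) + 1 = u at k0 k1 k2
      have k3 : Real.log (C * u ^ 2) ≤ 2 * Real.log Y := by
        rw [← Nat.cast_ofNat (R := ℝ) (n := 2), ← Real.log_pow]
        refine Real.log_le_log (by positivity) ?_
        calc C * u ^ 2 ≤ C * (5 * √(Y : ℝ)) ^ 2 := by gcongr
          _ = 25 * C * Y := by rw [mul_pow, s5]; ring
          _ ≤ _ := by rw [sq]; gcongr
      have k4 : 0 ≤ Real.log (C * u ^ 2) := Real.log_nonneg (by nlinarith)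
      have k5 : ∑ l ∈ T.filter fun l => 4 * Y ^ 2 < p l, Real.log (p l)
          ≤ 250 * C * √(Y : ℝ) ^ 3 * Real.log Y :=
        calc _ ≤ _ := Finset.sum_le_sum fun l hl =>
              log_le (mT l hl).2.2.2.max (mT l hl).2.2.2.prime (mT l hl).2.2.2.mem
          _ ≤ _ := k1
          _ ≤ C * (5 * √(Y : ℝ)) ^ 3 * (2 * Real.log Y) := by gcongr
          _ = _ := by ring
      have k6 : ∑ l ∈ T.filter fun l => ¬4 * Y ^ 2 < p l, Real.log (p l)
          ≤ 8 * √(Y : ℝ) ^ 3 * Real.log Y := by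
        refine (Finset.sum_le_card_nsmul _ _ (4 * Real.log Y) fun l hl => ?_).trans ?_
        · rw [← Nat.cast_ofNat (R := ℝ) (n := 4), ← Real.log_pow, ← Nat.cast_pow]
          rcases Nat.eq_zero_or_pos (p l) with h | h
          · rw [h, Nat.cast_zero, Real.log_zero]; exact Real.log_natCast_nonneg _
          refine Real.log_le_log (by exact_mod_cast h) (Nat.cast_le.2 ?_)
          have := not_lt.1 (Finset.mem_filter.1 hl).2
          nlinarith [Nat.mul_le_mul Y2 Y2]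
        · have : ((T.filter fun l => ¬4 * Y ^ 2 < p l).card : ℝ) ≤ 2 * √(Y : ℝ) ^ 3 := by
            have h1 := (Finset.card_filter_le T fun l => ¬4 * Y ^ 2 < p l).trans
              (Finset.card_filter_le _ _)
            rw [Finset.card_range] at h1
            have h3 : ((T.filter fun l => ¬4 * Y ^ 2 < p l).card : ℝ) ≤ Y + 1 := by
              exact_mod_cast h1
            rw [pow_succ (√(Y : ℝ)) 2, s5]
            nlinarith
          rw [nsmul_eq_mul]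
          nlinarith
      rw [← Finset.sum_filter_add_sum_filter_not T fun l => 4 * Y ^ 2 < p l, ← s4, pow_one]
      linarith)
  have n0 : Module.finrank ℚ K ≠ 0 := hK.pos.ne'
  have n1 : (1 : ℝ) ≤ Module.finrank ℚ K := by exact_mod_cast hK.pos
  refine ⟨c / Module.finrank ℚ K ^ 2, by positivity, ?_⟩
  refine ((tendsto_pow_atTop n0).comp tendsto_natCast_atTop_atTop).frequently ?_
  refine (hc.and_eventually ((Real.tendsto_log_atTop.comp
    tendsto_natCast_atTop_atTop).eventually_gt_atTop 1)).mono fun x ⟨h1, h3⟩ => ?_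
  refine le_trans ?_ (h1.trans (Nat.cast_le.2 (ncard_le A B x le_rfl)))
  change 1 < Real.log x at h3
  have h4 : 0 < Real.log (Real.log x) := Real.log_pos h3
  rw [Function.comp_apply, Real.log_pow, show c / (Module.finrank ℚ K : ℝ) ^ 2
    * (Module.finrank ℚ K * Real.log x) ^ 2 = c * Real.log x ^ 2 by field_simp]
  gcongr
  nlinarith

open Classical in
theorem mainB_of (hC : CountB) (hE : Elk) (h2 : Cov2) (hH : Ht) (hK : Odd (Module.finrank ℚ K))
    {A B : 𝓞 K} (hΔ : (Wc A B).Δ ≠ 0) (H : NoCM (iK A) (iK B)) :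
    ∃ c : ℝ, 0 < c ∧ ∀ᶠ x : ℝ in atTop,
      c * √(Real.log (Real.log x) / Real.log (Real.log (Real.log x))) ≤ (ZS A B x).ncard := by
  obtain ⟨M, hM⟩ := hE K A B hK hΔ H
  obtain ⟨S₀, e, P, p, s0, -, s2⟩ := exists_data hM
  obtain ⟨C, C1, hC1⟩ := hH K A B hΔ H
  obtain ⟨c, c0, hc⟩ := hC {p | SS A B p} S₀ (Module.finrank ℚ K) (M + 1) (27 * C * (C + 6))
    (fun q i l => Cv A B (e q i) q l) (fun _ h => h.1) s0
    (fun l hl g => (s2 l hl g).imp_right fun ⟨a, i, hi, b, d⟩ => ⟨_, a, i, hi, b, d, by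
      have l0 := g.1.pos
      have l1 : (1 : ℝ) ≤ l := by exact_mod_cast l0
      have k1 := hC1 (2 * l) {e (p l) i} (by
        simp only [Finset.mem_singleton, forall_eq]
        exact ⟨_, l, d, l0, by nlinarith⟩)
      rw [Finset.sum_singleton] at k1
      refine ((log_le d.max d.prime d.mem).trans k1).trans ?_
      have k2 : ((2 * l : ℕ) : ℝ) + 1 ≤ 3 * l := by push_cast; linarith
      have k0 : (1 : ℝ) ≤ ((2 * l : ℕ) : ℝ) + 1 := le_add_of_nonneg_left (Nat.cast_nonneg _)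
      generalize ((2 * l : ℕ) : ℝ) + 1 = u at k0 k2
      have k3 : Real.log (C * u ^ 2) ≤ (C + 6) * l := by
        rw [Real.log_mul (by positivity) (by positivity), Real.log_pow]
        have := Real.log_le_sub_one_of_pos (x := C) (by positivity)
        have := Real.log_le_sub_one_of_pos (x := u) (by positivity)
        push_cast
        nlinarith
      have k4 : 0 ≤ Real.log (C * u ^ 2) := Real.log_nonneg (by nlinarith)
      calc _ ≤ C * (3 * l) ^ 3 * ((C + 6) * l) := by gcongr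
        _ = _ := by ring⟩)
    (fun q i l l' => h2 K A B _ q l l')
  set n := Module.finrank ℚ K with hn
  have n1 : (1 : ℝ) ≤ n := by exact_mod_cast hK.pos
  have t1 : Tendsto (fun X : ℝ => X ^ (n : ℝ)⁻¹) atTop atTop := tendsto_rpow_atTop (by positivity)
  have t2 := tendsto_nat_floor_atTop.comp t1
  have t3 := (Real.tendsto_log_atTop.comp (Real.tendsto_log_atTop.comp
    tendsto_natCast_atTop_atTop)).comp t2
  refine ⟨c / 2, by positivity, ?_⟩
  filter_upwards [t2.eventually hc, t3.eventually_gt_atTop 1, t1.eventually_ge_atTop 4,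
    Real.tendsto_log_atTop.eventually_ge_atTop ((2 * n) ^ 2), eventually_ge_atTop 1]
    with X h1 h3 h4 h5 h6
  simp only [Function.comp_apply] at h1 h3
  set x := ⌊X ^ (n : ℝ)⁻¹⌋₊ with hx
  have x1 : (x : ℝ) ≤ X ^ (n : ℝ)⁻¹ := Nat.floor_le (by positivity)
  have x2 : X ^ (n : ℝ)⁻¹ < x + 1 := Nat.lt_floor_add_one _
  have x3 : (x : ℝ) ^ n ≤ X := by
    rw [← Real.rpow_inv_natCast_pow (by positivity : 0 ≤ X) hK.pos.ne']
    gcongr
  have x4 : (x : ℝ) ≤ X := (le_self_pow₀ (by linarith) hK.pos.ne').trans x3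
  refine le_trans ?_ (h1.trans (Nat.cast_le.2 (ncard_le A B x x3)))
  have x5 : Real.log X ≤ 2 * n * Real.log x := by
    have : Real.log (X ^ (n : ℝ)⁻¹) ≤ Real.log ((x : ℝ) ^ 2) :=
      Real.log_le_log (by positivity) (by nlinarith)
    rw [Real.log_rpow (by positivity), Real.log_pow, inv_mul_le_iff₀ (by positivity)] at this
    push_cast at this
    linarith
  have x6 : 0 < Real.log x := Real.log_pos (by linarith)
  have x7 : 0 < Real.log X := Real.log_pos (by linarith)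
  have x8 : Real.log X ≤ Real.log x ^ 2 := by
    have : 2 * n ≤ Real.log x := le_of_mul_le_mul_left (by nlinarith) (by positivity : 0 < 2 * (n : ℝ))
    nlinarith
  have x9 : Real.log (Real.log X) ≤ 2 * Real.log (Real.log x) := by
    have := Real.log_le_log x7 x8
    rwa [Real.log_pow] at this
  have y1 : Real.log (Real.log x) ≤ Real.log (Real.log X) :=
    Real.log_le_log x6 (Real.log_le_log (by linarith) x4)
  have y2 : 0 < Real.log (Real.log (Real.log x)) := Real.log_pos h3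
  have y3 : Real.log (Real.log (Real.log x)) ≤ Real.log (Real.log (Real.log X)) :=
    Real.log_le_log (by linarith) y1
  have y4 : √(Real.log (Real.log X) / Real.log (Real.log (Real.log X)))
      ≤ 2 * √(Real.log (Real.log x) / Real.log (Real.log (Real.log x))) := by
    rw [← Real.sqrt_sq zero_le_two, ← Real.sqrt_mul (by positivity), ← mul_div_assoc]
    gcongr
    linarith
  nlinarith

end Pool.Agent.MP_c481b3_nt.H31
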