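import Pool.Agent.MP_c481b3_nt.H31.SpecL

set_option autoImplicit false

namespace Pool.Agent.MP_c481b3_nt.H31

open Pool.Agent.MP_c481b3_nt.H63 Finset ArithmeticFunction MeasureTheory

namespace LSA

/-- the transform of the Gaussian -/
noncomputable def Kk (u : ℝ) : ℝ := ∫ t : ℝ, Real.exp (-t ^ 2) * Real.cos (t * u)

theorem re_exp (u t : ℝ) : (Complex.exp ((-1 : ℂ) * t ^ 2 + (u * Complex.I) * t + 0)).re =
    Real.exp (-t ^ 2) * Real.cos (t * u) := by
  rw [Complex.exp_re]
  congr 2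
  · simp [sq]
  · simp [sq, mul_comm]

theorem int_K (u : ℝ) : Integrable fun t : ℝ => Real.exp (-t ^ 2) * Real.cos (t * u) := by
  have h := (integrable_cexp_quadratic' (b := -1) (by simp) (u * Complex.I) 0).re
  exact h.congr (Filter.Eventually.of_forall fun t => re_exp u t)

theorem Kk_eq (u : ℝ) : Kk u = √Real.pi * Real.exp (-u ^ 2 / 4) := by
  have h := integral_re (integrable_cexp_quadratic' (b := -1) (by simp) (u * Complex.I) 0)
  rw [integral_cexp_quadratic (b := -1) (by simp)] at h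
  have e1 : ((Real.pi : ℂ) / -(-1)) ^ (1 / 2 : ℂ) = ((√Real.pi : ℝ) : ℂ) := by
    rw [Real.sqrt_eq_rpow, Complex.ofReal_cpow Real.pi_pos.le]
    simp
  have e2 : (0 : ℂ) - (u * Complex.I) ^ 2 / (4 * -1) = ((-u ^ 2 / 4 : ℝ) : ℂ) := by
    rw [mul_pow, Complex.I_sq]
    push_cast
    ring
  rw [e1, e2, ← Complex.ofReal_exp, ← Complex.ofReal_mul] at h
  simp only [RCLike.re_to_complex, Complex.ofReal_re, re_exp] at h
  exact h

theorem Kk_nonneg (u : ℝ) : 0 ≤ Kk u := by
  rw [Kk_eq]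
  positivity

theorem exp_one_le : Real.exp 1 ≤ 3 := by linarith [Real.exp_one_lt_d9]

theorem Kk_le (u : ℝ) : Kk u ≤ 6 * Real.exp (-|u|) := by
  rw [Kk_eq]
  have h1 : √Real.pi ≤ 2 := Real.sqrt_le_iff.2 ⟨by norm_num, by linarith [Real.pi_le_four]⟩
  have h2 : Real.exp (-u ^ 2 / 4) ≤ Real.exp 1 * Real.exp (-|u|) := by
    rw [← Real.exp_add, Real.exp_le_exp, ← sq_abs]
    nlinarith [sq_nonneg (|u| / 2 - 1)]
  have h3 := Real.exp_pos (-|u|)
  calc _ ≤ 2 * (Real.exp 1 * Real.exp (-|u|)) := by gcongr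
    _ ≤ 2 * (3 * Real.exp (-|u|)) := by gcongr; exact exp_one_le
    _ = _ := by ring

theorem Kk_log {m n : ℕ} (hm : 0 < m) (h : m ≤ n) :
    Kk (Real.log n - Real.log m) ≤ 6 * (m / n) ∧ Kk (Real.log m - Real.log n) ≤ 6 * (m / n) := by
  have h1 : (0 : ℝ) < m := by exact_mod_cast hm
  have h2 : (m : ℝ) ≤ n := by exact_mod_cast h
  have h3 : Real.exp (-|Real.log n - Real.log m|) = m / n := by
    rw [abs_of_nonneg (sub_nonneg.2 (Real.log_le_log h1 h2)), neg_sub, Real.exp_sub,
      Real.exp_log h1, Real.exp_log (h1.trans_le h2)]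
  refine ⟨h3 ▸ Kk_le _, ?_⟩
  rw [← h3, abs_sub_comm]
  exact Kk_le _

theorem cpow_eq {n : ℕ} (hn : 0 < n) (t : ℝ) : (n : ℂ) ^ (-(1 + t * Complex.I)) =
    ((Real.cos (t * Real.log n) / n : ℝ) : ℂ) -
      ((Real.sin (t * Real.log n) / n : ℝ) : ℂ) * Complex.I := by
  have h1 : (n : ℂ) ≠ 0 := by exact_mod_cast hn.ne'
  rw [neg_add, Complex.cpow_add _ _ h1, Complex.cpow_neg_one, Complex.cpow_def_of_ne_zero h1,
    ← Complex.natCast_log]
  have : ((Real.log n : ℝ) : ℂ) * -(t * Complex.I) = (-((t * Real.log n : ℝ) : ℂ)) * Complex.I := by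
    push_cast
    ring
  rw [this, Complex.exp_mul_I, Complex.cos_neg, Complex.sin_neg]
  push_cast
  ring

theorem norm_sq_eq (I : Finset ℕ) (hI : ∀ n ∈ I, 0 < n) (c : ℕ → ℝ) (t : ℝ) :
    ‖∑ n ∈ I, (c n : ℂ) * (n : ℂ) ^ (-(1 + t * Complex.I))‖ ^ 2 =
      ∑ n ∈ I, ∑ m ∈ I, c n / n * (c m / m) * Real.cos (t * (Real.log n - Real.log m)) := by
  have e : ∑ n ∈ I, (c n : ℂ) * (n : ℂ) ^ (-(1 + t * Complex.I)) =
      ((∑ n ∈ I, c n / n * Real.cos (t * Real.log n) : ℝ) : ℂ) +
        ((-∑ n ∈ I, c n / n * Real.sin (t * Real.log n) : ℝ) : ℂ) * Complex.I := by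
    rw [Complex.ofReal_neg, Complex.ofReal_sum, Complex.ofReal_sum, neg_mul, sum_mul,
      ← sub_eq_add_neg, ← sum_sub_distrib]
    refine sum_congr rfl fun n hn => ?_
    rw [cpow_eq (hI n hn)]
    push_cast
    ring
  rw [e, ← Complex.normSq_eq_norm_sq, Complex.normSq_add_mul_I, neg_sq, sq, sq, sum_mul_sum,
    sum_mul_sum, ← sum_add_distrib]
  refine sum_congr rfl fun n _ => ?_
  rw [← sum_add_distrib]
  refine sum_congr rfl fun m _ => ?_
  rw [mul_sub, Real.cos_sub]
  ring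

theorem mean (I : Finset ℕ) (hI : ∀ n ∈ I, 0 < n) (c : ℕ → ℝ) :
    ∫ t in (-1 : ℝ)..1, ‖∑ n ∈ I, (c n : ℂ) * (n : ℂ) ^ (-(1 + t * Complex.I))‖ ^ 2 ≤
      3 * ∑ n ∈ I, ∑ m ∈ I, c n / n * (c m / m) * Kk (Real.log n - Real.log m) := by
  set G : ℝ → ℝ := fun t =>
    ∑ n ∈ I, ∑ m ∈ I, c n / n * (c m / m) * Real.cos (t * (Real.log n - Real.log m)) with hG
  have h0 : ∀ t, 0 ≤ G t := fun t => by
    rw [hG]
    simp only [← norm_sq_eq I hI c t]
    positivity
  have hc : Continuous G := by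
    rw [hG]
    fun_prop
  have e : ∀ t, 3 * Real.exp (-t ^ 2) * G t = 3 * ∑ n ∈ I, ∑ m ∈ I, c n / n * (c m / m) *
      (Real.exp (-t ^ 2) * Real.cos (t * (Real.log n - Real.log m))) := fun t => by
    rw [hG, mul_assoc]
    simp only [mul_sum]
    exact sum_congr rfl fun n _ => sum_congr rfl fun m _ => by ring
  have hi : ∀ n m : ℕ, Integrable fun t : ℝ => c n / n * (c m / m) *
      (Real.exp (-t ^ 2) * Real.cos (t * (Real.log n - Real.log m))) :=
    fun n m => (int_K _).const_mul _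
  have hi2 : Integrable fun t : ℝ => 3 * Real.exp (-t ^ 2) * G t := by
    simp only [e]
    exact (integrable_finsetSum _ fun n _ => integrable_finsetSum _ fun m _ => hi n m).const_mul _
  simp only [norm_sq_eq I hI c]
  calc ∫ t in (-1 : ℝ)..1, G t ≤ ∫ t in (-1 : ℝ)..1, 3 * Real.exp (-t ^ 2) * G t := by
        refine intervalIntegral.integral_mono_on (by norm_num) (hc.intervalIntegrable _ _)
          hi2.intervalIntegrable fun t ht => le_mul_of_one_le_left (h0 t) ?_
        have h1 : Real.exp (-1) ≤ Real.exp (-t ^ 2) := by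
          rw [Real.exp_le_exp]
          nlinarith [ht.1, ht.2]
        have h2 : Real.exp 1 * Real.exp (-1) = 1 := by rw [← Real.exp_add]; simp
        nlinarith [exp_one_le, Real.exp_pos (-1)]
    _ ≤ ∫ t : ℝ, 3 * Real.exp (-t ^ 2) * G t := by
        rw [intervalIntegral.integral_of_le (by norm_num)]
        exact setIntegral_le_integral hi2 (Filter.Eventually.of_forall fun t =>
          mul_nonneg (by positivity) (h0 t))
    _ = _ := by
        simp only [e]
        rw [integral_const_mul,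
          integral_finsetSum _ fun n _ => integrable_finsetSum _ fun m _ => hi n m]
        congr 1
        refine sum_congr rfl fun n _ => ?_
        rw [integral_finsetSum _ fun m _ => hi n m]
        exact sum_congr rfl fun m _ => integral_const_mul _ _

/-- the sum over all characters -/
noncomputable def P (S : Finset ℕ) (n m : ℕ) : ℝ := ∑ D ∈ (TS S).powerset, ch D n * ch D m

/-- the number of members of `S` that divide `n` -/
noncomputable def bd (S : Finset ℕ) (n : ℕ) : ℝ := ∑ r ∈ S, if r ∣ n then 1 else 0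

theorem jz_prod (D : Finset ℤ) (n : ℕ) : jz (∏ t ∈ D, t) n = jz 1 n * ∏ t ∈ D, jz t n := by
  induction D using Finset.induction_on with
  | empty => simp
  | insert t D ht ih => rw [prod_insert ht, prod_insert ht, jz_mul_left, ih]; ring

theorem P_eq (S : Finset ℕ) (n m : ℕ) : P S n m =
    ((jz 1 n * jz 1 m * ∏ t ∈ TS S, (1 + jz t n * jz t m) : ℤ) : ℝ) := by
  rw [prod_one_add, mul_sum, Int.cast_sum]
  refine sum_congr rfl fun D _ => ?_
  rw [ch, ja_apply, ja_apply, jz_prod, jz_prod, prod_mul_distrib]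
  push_cast
  ring

theorem P_comm (S : Finset ℕ) (n m : ℕ) : P S n m = P S m n :=
  sum_congr rfl fun _ _ => mul_comm _ _

theorem jz_one' (n : ℕ) : jz 1 n = if Odd n then 1 else 0 := by
  rw [jz, jacobiSym.one_left]

theorem P_bd (S : Finset ℕ) (n m : ℕ) : 0 ≤ P S n m ∧ P S n m ≤ 4 * 2 ^ S.card := by
  have h1 : ∀ t, 0 ≤ 1 + jz t n * jz t m ∧ 1 + jz t n * jz t m ≤ 2 := fun t => by
    have h2 := abs_le.1 (jz_abs t n)
    have h3 := abs_le.1 (jz_abs t m)
    constructor <;> nlinarith [h2.1, h2.2, h3.1, h3.2]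
  have h2 : 0 ≤ ∏ t ∈ TS S, (1 + jz t n * jz t m) := prod_nonneg fun t _ => (h1 t).1
  have h3 : ∏ t ∈ TS S, (1 + jz t n * jz t m) ≤ 4 * 2 ^ S.card := by
    have h4 : (TS S).card ≤ S.card + 2 :=
      (card_insert_le _ _).trans (Nat.succ_le_succ ((card_insert_le _ _).trans
        (Nat.succ_le_succ card_image_le)))
    calc _ ≤ ∏ _t ∈ TS S, (2 : ℤ) := prod_le_prod (fun t _ => (h1 t).1) fun t _ => (h1 t).2
      _ = 2 ^ (TS S).card := prod_const _
      _ ≤ 2 ^ (S.card + 2) := pow_le_pow_right₀ (by norm_num) h4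
      _ = _ := by ring
  rw [P_eq, jz_one', jz_one']
  constructor
  · exact Int.cast_nonneg (by positivity)
  · have : (if Odd n then 1 else 0) * (if Odd m then 1 else 0) *
        ∏ t ∈ TS S, (1 + jz t n * jz t m) ≤ 4 * 2 ^ S.card := by
      split_ifs <;> simp [h3]
    exact_mod_cast this

theorem P_even (S : Finset ℕ) {n : ℕ} (m : ℕ) (h : ¬ Odd n) : P S n m = 0 := by
  rw [P_eq, jz_one', if_neg h]
  simp

theorem bd_nonneg (S : Finset ℕ) (n : ℕ) : 0 ≤ bd S n := sum_nonneg fun _ _ => by positivity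

theorem one_le_bd {S : Finset ℕ} {n r : ℕ} (hr : r ∈ S) (h : r ∣ n) : 1 ≤ bd S n := by
  have := single_le_sum (f := fun r => if r ∣ n then (1 : ℝ) else 0)
    (fun _ _ => by positivity) hr
  rwa [if_pos h] at this

theorem jz_unit {S : Finset ℕ} (hS : ∀ r ∈ S, r.Prime ∧ r ≠ 2) {n : ℕ} (hn : Odd n)
    (h : ∀ r ∈ S, ¬ r ∣ n) : ∀ t ∈ TS S, jz t n = 1 ∨ jz t n = -1 := by
  intro t ht
  rw [jz, if_pos hn]
  refine jacobiSym.eq_one_or_neg_one ?_
  simp only [TS, mem_insert, mem_image] at ht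
  rcases ht with rfl | rfl | ⟨r, hr, rfl⟩
  · simp
  · exact (Nat.coprime_two_left.2 hn)
  · exact (Nat.Prime.coprime_iff_not_dvd (hS r hr).1).2 (h r hr)

theorem sum_dvd {r : ℕ} (hr : r.Prime) {y : ℕ} (hy : 0 < y) :
    ∑ n ∈ Ioc 0 y, vonMangoldt n * (if r ∣ n then 1 else 0) ≤ Real.log y := by
  have h1 : r ^ Nat.log r y ≤ y := Nat.pow_log_le_self r hy.ne'
  have h2 : 0 < r ^ Nat.log r y := pow_pos hr.pos _
  calc _ ≤ ∑ n ∈ Ioc 0 y, if n ∈ (r ^ Nat.log r y).divisors then vonMangoldt n else 0 := by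
        refine sum_le_sum fun n hn => ?_
        by_cases h3 : r ∣ n
        · by_cases h4 : IsPrimePow n
          · obtain ⟨p, k, hp, hk, rfl⟩ := (isPrimePow_nat_iff _).1 h4
            obtain rfl := (Nat.prime_dvd_prime_iff_eq hr hp).1 (hr.dvd_of_dvd_pow h3)
            rw [if_pos h3, mul_one, if_pos (Nat.mem_divisors.2 ⟨pow_dvd_pow _
              (Nat.le_log_of_pow_le hr.one_lt (mem_Ioc.1 hn).2), h2.ne'⟩)]
          · rw [vonMangoldt_eq_zero_iff.2 h4]
            simp
        · rw [if_neg h3, mul_zero]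
          split_ifs
          exacts [vonMangoldt_nonneg, le_rfl]
    _ ≤ ∑ n ∈ (r ^ Nat.log r y).divisors, vonMangoldt n := by
        rw [← sum_filter]
        exact sum_le_sum_of_subset_of_nonneg (fun n hn => (mem_filter.1 hn).2)
          fun _ _ _ => vonMangoldt_nonneg
    _ ≤ _ := by
        rw [vonMangoldt_sum]
        exact Real.log_le_log (by exact_mod_cast h2) (by exact_mod_cast h1)

theorem sum_bd {S : Finset ℕ} (hS : ∀ r ∈ S, r.Prime ∧ r ≠ 2) (X : ℕ) {y : ℕ} (hy : 0 < y) :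
    ∑ n ∈ Ioc X y, vonMangoldt n * bd S n ≤ S.card * Real.log y := by
  calc _ ≤ ∑ n ∈ Ioc 0 y, vonMangoldt n * bd S n :=
        sum_le_sum_of_subset_of_nonneg (Ioc_subset_Ioc_left (Nat.zero_le _))
          fun _ _ _ => mul_nonneg vonMangoldt_nonneg (bd_nonneg _ _)
    _ ≤ _ := by
        simp only [bd, mul_sum]
        rw [sum_comm, ← nsmul_eq_mul]
        exact sum_le_card_nsmul _ _ _ fun r hr => sum_dvd (hS r hr).1 hy

theorem psi_le (X y : ℕ) : ∑ n ∈ Ioc X y, vonMangoldt n ≤ 6 * y := by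
  have h1 := Chebyshev.psi_le_const_mul_self (x := y) (Nat.cast_nonneg _)
  rw [Chebyshev.psi, Nat.floor_natCast] at h1
  have h2 : Real.log 4 ≤ 2 := by
    rw [show (4 : ℝ) = 2 ^ 2 by norm_num, Real.log_pow]
    push_cast
    linarith [Real.log_two_lt_d9]
  calc _ ≤ ∑ n ∈ Ioc 0 y, vonMangoldt n :=
        sum_le_sum_of_subset_of_nonneg (Ioc_subset_Ioc_left (Nat.zero_le _))
          fun _ _ _ => vonMangoldt_nonneg
    _ ≤ _ := h1.trans (by gcongr; linarith)

theorem split {g : ℕ → ℝ} (hg : ∀ n, 0 ≤ g n) {X m n : ℕ} (h1 : X ≤ m) (h2 : n ≤ 2 * m) :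
    ∑ k ∈ Ioc X n, g k ≤ ∑ k ∈ Ioc X m, g k + ∑ k ∈ Ioc m (2 * m), g k := by
  rw [sum_Ioc_consecutive g h1 (by omega)]
  exact sum_le_sum_of_subset_of_nonneg (Ioc_subset_Ioc_right h2) fun _ _ _ => hg _

theorem blocks {g : ℕ → ℝ} (hg : ∀ n, 0 ≤ g n) {X : ℕ} {A : ℝ} (hA : 0 ≤ A) (hX : 0 < X)
    (h : ∀ m, X ≤ m → ∑ k ∈ Ioc m (2 * m), g k ≤ A * m) (n : ℕ) :
    ∑ k ∈ Ioc X n, g k ≤ 2 * A * n := by
  induction n using Nat.strong_induction_on with
  | _ n ih =>
    rcases le_or_gt n X with h1 | h1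
    · rw [Ioc_eq_empty (by omega), sum_empty]
      positivity
    rcases le_or_gt n (2 * X) with h2 | h2
    · have h3 := split hg le_rfl h2
      rw [Ioc_self, sum_empty, zero_add] at h3
      have h4 : (X : ℝ) ≤ n := by exact_mod_cast h1.le
      have h5 : (0 : ℝ) ≤ X := Nat.cast_nonneg _
      nlinarith [h X le_rfl]
    · have h3 := split hg (X := X) (m := (n + 1) / 2) (n := n) (by omega) (by omega)
      have h4 : ((3 * ((n + 1) / 2) : ℕ) : ℝ) ≤ (2 * n : ℕ) := Nat.cast_le.2 (by omega)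
      push_cast at h4
      nlinarith [h ((n + 1) / 2) (by omega), ih ((n + 1) / 2) (by omega)]

theorem mertens (n : ℕ) : ∑ k ∈ Ioc 0 n, vonMangoldt k / k ≤ 36 * Real.log n := by
  induction n using Nat.strong_induction_on with
  | _ n ih =>
    rcases le_or_gt n 1 with h1 | h1
    · interval_cases n <;> simp
    set m := (n + 1) / 2 with hm
    have h2 : (0 : ℝ) < m := by exact_mod_cast (by omega : 0 < m)
    have h3 := split (g := fun k => vonMangoldt k / k)
      (fun _ => div_nonneg vonMangoldt_nonneg (Nat.cast_nonneg _)) (X := 0) (m := m) (n := n)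
      (by omega) (by omega)
    have h4 : ∑ k ∈ Ioc m (2 * m), vonMangoldt k / k ≤ 12 := by
      calc _ ≤ ∑ k ∈ Ioc m (2 * m), vonMangoldt k / m := sum_le_sum fun k hk =>
            div_le_div_of_nonneg_left vonMangoldt_nonneg h2 (by exact_mod_cast (mem_Ioc.1 hk).1.le)
        _ ≤ _ := by
            rw [← sum_div, div_le_iff₀ h2]
            have := psi_le m (2 * m)
            push_cast at this
            linarith
    have h5 : ((3 * m : ℕ) : ℝ) ≤ (2 * n : ℕ) := Nat.cast_le.2 (by omega)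
    push_cast at h5
    have h6 : (0 : ℝ) < n := by linarith
    have h7 := Real.log_le_sub_one_of_pos (div_pos h2 h6)
    rw [Real.log_div h2.ne' h6.ne'] at h7
    have h8 : (m : ℝ) / n ≤ 2 / 3 := by
      rw [div_le_iff₀ h6]
      linarith
    linarith [ih m (by omega)]

theorem card_le {S : Finset ℕ} {L : ℝ} (h : Lg S L) :
    0 ≤ L ∧ (2 : ℝ) ^ S.card * S.card ≤ Real.exp L := by
  have h1 : (2 : ℝ) ^ S.card ≤ ∏ r ∈ S, (r : ℝ) := by
    rw [← prod_const]
    exact prod_le_prod (fun _ _ => by norm_num) fun r hr => by exact_mod_cast (h.1 r hr).1.two_le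
  have h2 : (1 : ℝ) ≤ 2 ^ S.card := one_le_pow₀ (by norm_num)
  have h3 := Real.log_nonneg (h2.trans h1)
  have h4 : (S.card : ℝ) ≤ 2 ^ S.card := by exact_mod_cast Nat.lt_two_pow_self.le
  have h5 : (∏ r ∈ S, (r : ℝ)) * ∏ r ∈ S, (r : ℝ) ≤ Real.exp L := by
    rw [← Real.exp_log (by linarith : 0 < ∏ r ∈ S, (r : ℝ)), ← Real.exp_add, Real.exp_le_exp]
    linarith [h.2]
  exact ⟨by linarith [h.2], le_trans (mul_le_mul h1 (h4.trans h1) (Nat.cast_nonneg _)
    (by linarith)) h5⟩

open Classical in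
theorem row {S : Finset ℕ} (hS : ∀ r ∈ S, r.Prime ∧ r ≠ 2) {C : ℝ} (hC : 1 ≤ C) {X : ℕ}
    (hX : 0 < X) (hk : ((2 : ℝ) ^ S.card * S.card) ^ 2 ≤ X)
    (hb : ∀ m, X ≤ m → ∀ ε : ℤ → ℤ, (∀ t, ε t = 1 ∨ ε t = -1) →
      ∑ n ∈ (Ioc m (2 * m)).filter (fun n => ∀ t ∈ TS S, jz t n = ε t), vonMangoldt n
        ≤ C * m / 2 ^ S.card) {n : ℕ} (hn : X < n) :
    ∑ m ∈ Ioc X n, vonMangoldt m * P S n m ≤
      (8 * C + 8) * n + 24 * 2 ^ S.card * n * bd S n := by
  have h0 : (0 : ℝ) < n := by exact_mod_cast hX.trans hn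
  have h1 := bd_nonneg S n
  have h2 : (0 : ℝ) < 2 ^ S.card := by positivity
  by_cases h3 : ∃ r ∈ S, r ∣ n
  · obtain ⟨r, hr, h3⟩ := h3
    have h4 : ∑ m ∈ Ioc X n, vonMangoldt m * P S n m ≤ 6 * n * (4 * 2 ^ S.card) := by
      refine le_trans (sum_le_sum fun m _ =>
        mul_le_mul_of_nonneg_left (P_bd S n m).2 vonMangoldt_nonneg) ?_
      rw [← sum_mul]
      exact mul_le_mul_of_nonneg_right (psi_le _ _) (by positivity)
    have h5 : 24 * 2 ^ S.card * n * 1 ≤ 24 * 2 ^ S.card * n * bd S n :=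
      mul_le_mul_of_nonneg_left (one_le_bd hr h3) (by positivity)
    have h6 : 0 ≤ (8 * C + 8) * n := by positivity
    linarith
  push Not at h3
  by_cases h4 : Odd n
  swap
  · rw [sum_eq_zero fun m _ => by rw [P_even S m h4, mul_zero]]
    positivity
  set ε : ℤ → ℤ := fun t => if jz t n = 1 then 1 else -1 with hε
  set g : ℕ → ℝ := fun m => if ∀ t ∈ TS S, jz t m = ε t then vonMangoldt m else 0 with hg
  have hg0 : ∀ m, 0 ≤ g m := fun m => by
    rw [hg]
    dsimp only
    split_ifs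
    exacts [vonMangoldt_nonneg, le_rfl]
  have h5 : ∑ m ∈ Ioc X n, g m ≤ 2 * (C / 2 ^ S.card) * n := by
    refine blocks hg0 (by positivity) hX (fun m hm => ?_) n
    have := hb m hm ε (fun t => by rw [hε]; dsimp only; split_ifs <;> simp)
    rw [sum_filter] at this
    rw [div_mul_eq_mul_div]
    exact this
  have h6 : ∀ m, vonMangoldt m * P S n m ≤ 4 * 2 ^ S.card * (g m + vonMangoldt m * bd S m) := by
    intro m
    have h7 : 0 ≤ vonMangoldt m := vonMangoldt_nonneg
    have h8 := mul_le_mul_of_nonneg_left (P_bd S n m).2 h7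
    have h9 := mul_nonneg h7 (bd_nonneg S m)
    by_cases h10 : ∃ r ∈ S, r ∣ m
    · obtain ⟨r, hr, h10⟩ := h10
      have := mul_le_mul_of_nonneg_left (one_le_bd hr h10) h7
      nlinarith [hg0 m]
    push Not at h10
    by_cases h11 : ∀ t ∈ TS S, jz t m = ε t
    · have : g m = vonMangoldt m := if_pos h11
      nlinarith
    have h12 : P S n m = 0 := by
      by_cases h13 : Odd m
      · push Not at h11
        obtain ⟨t, ht, h11⟩ := h11
        rw [P_eq, prod_eq_zero ht, mul_zero, Int.cast_zero]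
        rcases jz_unit hS h4 h3 t ht with h | h <;> rcases jz_unit hS h13 h10 t ht with h' | h' <;>
          simp_all
      · rw [P_comm, P_even S n h13]
    rw [h12, mul_zero]
    have := hg0 m
    positivity
  have h7 := sum_bd hS X (hX.trans hn)
  have h8 : (2 : ℝ) ^ S.card * S.card * Real.log n ≤ 2 * n := by
    have h9 : (2 : ℝ) ^ S.card * S.card ≤ √n :=
      Real.le_sqrt_of_sq_le (hk.trans (by exact_mod_cast hn.le))
    have h10 := Real.log_le_sub_one_of_pos (Real.sqrt_pos.2 h0)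
    rw [Real.log_sqrt h0.le] at h10
    have h11 := Real.log_natCast_nonneg n
    calc _ ≤ √n * (2 * √n) := mul_le_mul h9 (by linarith) h11 (Real.sqrt_nonneg _)
      _ = _ := by rw [mul_left_comm, Real.mul_self_sqrt h0.le]
  calc _ ≤ ∑ m ∈ Ioc X n, 4 * 2 ^ S.card * (g m + vonMangoldt m * bd S m) :=
        sum_le_sum fun m _ => h6 m
    _ ≤ 4 * 2 ^ S.card * (2 * (C / 2 ^ S.card) * n + S.card * Real.log n) := by
        rw [← mul_sum, sum_add_distrib]
        gcongr
    _ = 8 * C * n + 4 * (2 ^ S.card * S.card * Real.log n) := by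
        field_simp
        ring
    _ ≤ _ := by
        have : 0 ≤ 24 * 2 ^ S.card * n * bd S n := by positivity
        linarith

end LSA

open LSA in
theorem ls_of (hbt : BT) : LS := by
  obtain ⟨C, hC, hbt⟩ := hbt
  refine ⟨36 * ((8 * C + 8) * 36 + 24), by linarith, fun S L X N b hL hX hN hb => ?_⟩
  obtain ⟨hL0, hk⟩ := card_le hL
  have hX0 : (0 : ℝ) < X := (Real.exp_pos _).trans_le hX
  have hX1 : 0 < X := by exact_mod_cast hX0
  have hk2 : ((2 : ℝ) ^ S.card * S.card) ^ 2 ≤ X := by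
    refine le_trans (pow_le_pow_left₀ (by positivity) hk 2) (le_trans ?_ hX)
    rw [sq, ← Real.exp_add, Real.exp_le_exp]
    nlinarith
  have hk1 : (2 : ℝ) ^ S.card * S.card ≤ X := by
    refine hk.trans (le_trans ?_ hX)
    rw [Real.exp_le_exp]
    nlinarith
  have hrow := fun n (hn : X < n) => row hL.1 hC hX1 hk2 (fun m hm ε hε => hbt S L m ε hL
    (le_trans (le_trans (Real.exp_le_exp.2 (by nlinarith)) hX) (by exact_mod_cast hm)) hε) hn
  have hI : ∀ n ∈ Ioc X N, 0 < n := fun n hn => hX1.trans (mem_Ioc.1 hn).1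
  have hlog := Real.log_natCast_nonneg N
  let Q : ℕ → ℕ → ℝ := fun n m =>
    if m ≤ n then vonMangoldt n / n ^ 2 * (vonMangoldt m * P S n m) else 0
  have hQ0 : ∀ n m, 0 ≤ Q n m := fun n m => by
    have h1 : 0 ≤ vonMangoldt n := vonMangoldt_nonneg
    have h2 : 0 ≤ vonMangoldt m := vonMangoldt_nonneg
    have h3 := (P_bd S n m).1
    simp only [Q]
    positivity
  have hQ : ∑ n ∈ Ioc X N, ∑ m ∈ Ioc X N, Q n m ≤ ((8 * C + 8) * 36 + 24) * Real.log N := by
    have h1 : ∀ n ∈ Ioc X N, ∑ m ∈ Ioc X N, Q n m ≤ (8 * C + 8) * (vonMangoldt n / n) +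
        24 * 2 ^ S.card / X * (vonMangoldt n * bd S n) := by
      intro n hn
      obtain ⟨h2, h3⟩ := mem_Ioc.1 hn
      have h4 : (X : ℝ) ≤ n := by exact_mod_cast h2.le
      have h5 : (0 : ℝ) < n := hX0.trans_le h4
      have h6 : 0 ≤ vonMangoldt n := vonMangoldt_nonneg
      have h7 := bd_nonneg S n
      have e : (Ioc X N).filter (· ≤ n) = Ioc X n := by
        ext m
        simp only [mem_filter, mem_Ioc]
        omega
      simp only [Q]
      rw [← sum_filter, e, ← mul_sum]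
      calc _ ≤ vonMangoldt n / n ^ 2 * ((8 * C + 8) * n + 24 * 2 ^ S.card * n * bd S n) :=
            mul_le_mul_of_nonneg_left (hrow n h2) (by positivity)
        _ = (8 * C + 8) * (vonMangoldt n / n) +
            24 * 2 ^ S.card / n * (vonMangoldt n * bd S n) := by
            field_simp
        _ ≤ _ := by gcongr
    refine (sum_le_sum h1).trans ?_
    rw [sum_add_distrib, ← mul_sum, ← mul_sum]
    have h2 : ∑ n ∈ Ioc X N, vonMangoldt n / n ≤ 36 * Real.log N :=
      le_trans (sum_le_sum_of_subset_of_nonneg (Ioc_subset_Ioc_left (Nat.zero_le _))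
        fun _ _ _ => div_nonneg vonMangoldt_nonneg (Nat.cast_nonneg _)) (mertens N)
    have h3 : 24 * 2 ^ S.card / X * ∑ n ∈ Ioc X N, vonMangoldt n * bd S n ≤ 24 * Real.log N := by
      calc _ ≤ 24 * 2 ^ S.card / X * (S.card * Real.log N) :=
            mul_le_mul_of_nonneg_left (sum_bd hL.1 X (hX1.trans_le hN)) (by positivity)
        _ = 24 * Real.log N * (2 ^ S.card * S.card / X) := by ring
        _ ≤ _ := mul_le_of_le_one_right (by positivity) ((div_le_one hX0).2 hk1)
    have h4 := mul_le_mul_of_nonneg_left h2 (by linarith : 0 ≤ 8 * C + 8)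
    linarith
  have hpair : ∀ n ∈ Ioc X N, ∀ m ∈ Ioc X N, ∑ D ∈ (TS S).powerset,
      vonMangoldt n * ch D n * b n / n * (vonMangoldt m * ch D m * b m / m) *
        Kk (Real.log n - Real.log m) ≤ 6 * (Q n m + Q m n) := by
    intro n hn m hm
    have h1 : 0 ≤ vonMangoldt n := vonMangoldt_nonneg
    have h2 : 0 ≤ vonMangoldt m := vonMangoldt_nonneg
    have h3 := (P_bd S n m).1
    have h4 := Kk_nonneg (Real.log n - Real.log m)
    have h5 : (0 : ℝ) < n := by exact_mod_cast hI n hn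
    have h6 : (0 : ℝ) < m := by exact_mod_cast hI m hm
    have h7 : b n * b m ≤ 1 := (le_abs_self _).trans (by
      rw [abs_mul]
      exact mul_le_one₀ (hb n) (abs_nonneg _) (hb m))
    calc _ = vonMangoldt n / n * (vonMangoldt m / m) * P S n m * Kk (Real.log n - Real.log m) *
          (b n * b m) := by
          simp only [P, mul_sum, sum_mul]
          exact sum_congr rfl fun D _ => by ring
      _ ≤ vonMangoldt n / n * (vonMangoldt m / m) * P S n m * Kk (Real.log n - Real.log m) :=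
          mul_le_of_le_one_right (by positivity) h7
      _ ≤ _ := by
          rcases le_total m n with h | h
          · have e : vonMangoldt n / n * (vonMangoldt m / m) * P S n m * (6 * (m / n)) =
                6 * Q n m := by
              simp only [Q, if_pos h]
              field_simp
            have := mul_le_mul_of_nonneg_left (Kk_log (hI m hm) h).1
              (by positivity : 0 ≤ vonMangoldt n / n * (vonMangoldt m / m) * P S n m)
            linarith [hQ0 m n]
          · have e : vonMangoldt n / n * (vonMangoldt m / m) * P S n m * (6 * (n / m)) =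
                6 * Q m n := by
              simp only [Q, if_pos h, P_comm S m n]
              field_simp
            have := mul_le_mul_of_nonneg_left (Kk_log (hI n hn) h).2
              (by positivity : 0 ≤ vonMangoldt n / n * (vonMangoldt m / m) * P S n m)
            linarith [hQ0 n m]
  refine (sum_le_sum fun D _ => mean (Ioc X N) hI fun n => vonMangoldt n * ch D n * b n).trans ?_
  rw [← mul_sum, sum_comm]
  have h1 : ∑ n ∈ Ioc X N, ∑ D ∈ (TS S).powerset, ∑ m ∈ Ioc X N,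
      vonMangoldt n * ch D n * b n / n * (vonMangoldt m * ch D m * b m / m) *
        Kk (Real.log n - Real.log m) ≤ ∑ n ∈ Ioc X N, ∑ m ∈ Ioc X N, 6 * (Q n m + Q m n) :=
    sum_le_sum fun n hn => by
      rw [sum_comm]
      exact sum_le_sum (hpair n hn)
  simp only [mul_add, sum_add_distrib, ← mul_sum] at h1
  rw [sum_comm (f := fun n m => Q m n)] at h1
  linarith

end Pool.Agent.MP_c481b3_nt.H31
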