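import Pool.Agent.MP_c481b3_nt.H31.SpecG

set_option autoImplicit false

namespace Pool.Agent.MP_c481b3_nt.H31

open Pool.Agent.MP_c481b3_nt.H81 Pool.Agent.MP_c481b3_nt.H28 Polynomial Filter

namespace ArchAux

lemma ev_pos (f : ℝ[X]) (h1 : Even f.natDegree) (h2 : 0 < f.leadingCoeff) :
    (∀ᶠ v in atTop, 0 < f.eval v) ∧ ∀ᶠ v in atBot, 0 < f.eval v :=
  ⟨f.isEquivalent_atTop_lead.eventually_pos
      ((eventually_ne_atTop 0).mono fun _ hv => mul_pos h2 (h1.pow_pos hv)),
    f.isEquivalent_atBot_lead.eventually_pos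
      ((eventually_ne_atBot 0).mono fun _ hv => mul_pos h2 (h1.pow_pos hv))⟩

lemma pos_of (f : ℝ[X]) {w v : ℝ} (hv : 0 < f.eval v) (h : ∀ u ∈ Set.uIcc w v, f.eval u ≠ 0) :
    0 < f.eval w := by
  by_contra h0
  obtain ⟨u, hu, e⟩ := intermediate_value_uIcc (f := fun u => f.eval u) (a := w) (b := v)
    f.continuous.continuousOn (Set.mem_uIcc.2 (Or.inl ⟨not_lt.1 h0, hv.le⟩))
  exact h u hu e

lemma delta {e v : ℝ} (he : 0 < e) (h : e ≤ |4 * v + 27|) :
    e / (e + 28) * max |v| 1 ≤ |4 * v + 27| := by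
  have h1 : 4 * |v| ≤ |4 * v + 27| + 27 := by
    rcases abs_cases v with ⟨a, -⟩ | ⟨a, -⟩ <;> rcases abs_cases (4 * v + 27) with ⟨b, c⟩ | ⟨b, c⟩ <;>
      linarith
  rw [div_mul_eq_mul_div, div_le_iff₀ (by linarith)]
  generalize |4 * v + 27| = X at *
  rcases le_total |v| 1 with h2 | h2
  · rw [max_eq_right h2]; nlinarith
  · rw [max_eq_left h2]; nlinarith

end ArchAux

open ArchAux

theorem arch_of (h1 : NoSD) (h2 : PsiEnds) : Arch := by
  classical
  intro w w0 w1
  have e0 : 0 < |4 * w + 27| := abs_pos.2 w1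
  obtain ⟨M, hM⟩ := h1 (|4 * w + 27| / (|4 * w + 27| + 28)) (by positivity)
  refine ⟨M, fun l Ψ hl lM l4 l3 hΨ => ?_⟩
  obtain ⟨d1, d2, d3⟩ := h2 l Ψ hl l4 l3 hΨ
  have Ψ0 : Ψ ≠ 0 := by rintro rfl; simp at d2
  obtain ⟨F, G, e, sq⟩ := exists_sqfree Ψ Ψ0
  have G0 : G ≠ 0 := by rintro rfl; simp [e] at Ψ0
  have F0 : F ≠ 0 := by rintro rfl; simp [e] at Ψ0
  have inj : Function.Injective (Int.castRingHom ℝ) := (Int.castRingHom ℝ).injective_int
  have ev : ∀ v : ℝ, (F.map (Int.castRingHom ℝ)).eval v = aeval v F := fun v => az_map v F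
  have root : ∀ v : ℝ, |4 * w + 27| ≤ |4 * v + 27| → (F.map (Int.castRingHom ℝ)).eval v ≠ 0 := by
    intro v hv hr
    rw [ev] at hr
    by_cases v0 : v = 0
    · subst v0
      have c0 : F.coeff 0 = 0 := by
        rw [aeval_def, eval₂_at_zero] at hr
        simpa using hr
      have c1 : F.coeff 1 ≠ 0 := fun c1 => sq X (by simp) (by
        rw [X_pow_dvd_iff]
        intro d hd
        interval_cases d <;> simp [c0, c1])
      have t1 := natTrailingDegree_le_of_ne_zero c1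
      have t2 := natTrailingDegree_ne_zero.2 ⟨F0, c0⟩
      rw [e, natTrailingDegree_mul (pow_ne_zero 2 G0) F0, _root_.sq, natTrailingDegree_mul G0 G0,
        Nat.even_iff] at d3
      omega
    · have v1 : (v : ℂ) ≠ 0 := Complex.ofReal_ne_zero.2 v0
      have v2 : (4 * v + 27 : ℂ) ≠ 0 := by
        have : 4 * v + 27 ≠ 0 := abs_pos.1 (e0.trans_le hv)
        exact_mod_cast this
      obtain ⟨D, hD, sd⟩ := root_sd (parity_of univ unram) (L := ℂ) hl (by omega) hΨ one_ne_zero
        (by rw [C_1, one_mul]; exact e) G0 F0 sq (w := v)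
        ⟨two_ne_zero, by
          rw [show 4 * (v : ℂ) ^ 3 + 27 * (v : ℂ) ^ 2 = v ^ 2 * (4 * v + 27) by ring]
          exact mul_ne_zero (pow_ne_zero 2 v1) v2⟩
        (by
          rw [az_eq, ← Complex.coe_algebraMap, aeval_algebraMap_apply, hr, map_zero])
      exact hM l v hl lM v0 (delta e0 hv) D hD sd
  obtain ⟨p1, p2⟩ := ev_pos (F.map (Int.castRingHom ℝ))
    (by
      rw [natDegree_map_eq_of_injective inj]
      rw [e, natDegree_mul (pow_ne_zero 2 G0) F0, natDegree_pow, Nat.even_iff] at d1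
      rw [Nat.even_iff]; omega)
    (by
      rw [leadingCoeff_map_of_injective inj, eq_intCast, Int.cast_pos]
      rw [e, leadingCoeff_mul, leadingCoeff_pow] at d2
      exact pos_of_mul_pos_right d2 (sq_nonneg _))
  have key : 0 < (F.map (Int.castRingHom ℝ)).eval w := by
    rcases lt_or_gt_of_ne w1 with h | h
    · obtain ⟨v, a, b⟩ := (p2.and (eventually_le_atBot w)).exists
      refine pos_of _ a fun u hu => root u ?_
      rw [Set.uIcc_of_ge b] at hu
      rw [abs_of_neg h, abs_of_neg (by linarith [hu.2])]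
      linarith [hu.2]
    · obtain ⟨v, a, b⟩ := (p1.and (eventually_ge_atTop w)).exists
      refine pos_of _ a fun u hu => root u ?_
      rw [Set.uIcc_of_le b] at hu
      rw [abs_of_pos h, abs_of_pos (by linarith [hu.1])]
      linarith [hu.1]
  rw [ev] at key
  rw [e, map_mul, map_pow]
  positivity

end Pool.Agent.MP_c481b3_nt.H31
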