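import Pool.Agent.MP_c481b3_nt.H31.SpecL
import Pool.Agent.MP_c481b3_nt.H63.Glow

/-! An upper bound of the sieve for primes with prescribed quadratic symbols. -/

namespace Pool.Agent.MP_c481b3_nt.H31

open Pool.Agent.MP_c481b3_nt.H63 Finset ArithmeticFunction

namespace BTAux

theorem av_one {r : ℕ} (hr : 0 < r) (f : ℕ → ℝ) :
    av r (fun x _ => f x) = (∑ x ∈ range r, f x) / r := by
  have : (r : ℝ) ≠ 0 := by positivity
  simp only [av, sm, sum_const, card_range, nsmul_eq_mul, ← mul_sum]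
  field_simp

theorem sum_ite_dvd {r : ℕ} (hr : 0 < r) (a b : ℝ) :
    ∑ x ∈ range r, (if r ∣ x then a else b) = a + (r - 1) * b := by
  obtain ⟨n, rfl⟩ := Nat.exists_eq_succ_of_ne_zero hr.ne'
  rw [sum_range_succ', if_pos (dvd_zero _), sum_congr rfl fun x hx => if_neg
    (Nat.not_dvd_of_pos_of_lt (Nat.succ_pos x) (Nat.succ_lt_succ (mem_range.1 hx)))]
  simp [add_comm]

theorem sum_jac {r : ℕ} (hr : r.Prime) (h2 : r ≠ 2) :
    ∑ x ∈ range r, (jacobiSym x r : ℝ) = 0 := by
  have := Fact.mk hr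
  have h1 := sum_range_zmod fun t : ZMod r => (quadraticChar (ZMod r) t : ℝ)
  have h3 := quadraticChar_sum_zero (F := ZMod r) (by rwa [ZMod.ringChar_zmod_n])
  rw [← Int.cast_sum, ← Int.cast_sum, h3] at h1
  simp only [← jacobiSym.legendreSym.to_jacobiSym, legendreSym, Int.cast_natCast]
  rw [← Int.cast_sum, h1, Int.cast_zero]

/-- the function of the sieve -/
noncomputable def ph (r x _y : ℕ) : ℝ := if r ∣ x then -1 else 1 / (r - 1)

/-- the weight at the primes of `S` -/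
noncomputable def wt (c : ℕ → ℝ) (r x _y : ℕ) : ℝ :=
  (if r ∣ x then 0 else 1 / 2) + c r / 2 * jacobiSym x r

theorem ph_facts {r : ℕ} (hr : r.Prime) : Per r (ph r) ∧ (∀ x y, |ph r x y| ≤ (r : ℝ) ^ 2) ∧
    av r (ph r) = 0 ∧ av r (fun x y => ph r x y * ph r x y) = 1 / (r - 1) := by
  have h2 : (2 : ℝ) ≤ r := by exact_mod_cast hr.two_le
  have h3 : (r : ℝ) - 1 ≠ 0 := by linarith
  refine ⟨fun _ _ _ _ hx _ => by simp only [ph, hx.dvd_iff dvd_rfl], fun x y => ?_, ?_, ?_⟩
  · refine le_trans ?_ (one_le_pow₀ (by linarith))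
    unfold ph
    split_ifs
    · simp
    · rw [abs_of_nonneg (div_nonneg zero_le_one (by linarith)), div_le_one (by linarith)]
      linarith
  · refine (av_one hr.pos fun x => if r ∣ x then -1 else 1 / (r - 1)).trans ?_
    rw [sum_ite_dvd hr.pos]
    field_simp
    ring
  · refine Eq.trans ?_ ((av_one hr.pos fun x =>
      if r ∣ x then 1 else 1 / (r - 1) * (1 / (r - 1))).trans ?_)
    · congr 1
      ext x y
      unfold ph
      split_ifs <;> simp
    · rw [sum_ite_dvd hr.pos]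
      field_simp
      ring

theorem wt_facts {c : ℕ → ℝ} {r : ℕ} (hr : r.Prime) (hc : |c r| ≤ 1) :
    Per r (wt c r) ∧ ∀ x y, 0 ≤ wt c r x y ∧ wt c r x y ≤ 1 := by
  refine ⟨fun x _ x' _ hx _ => ?_, fun x y => ?_⟩
  · simp only [wt, hx.dvd_iff dvd_rfl,
      jacobiSym.mod_left' (a₁ := x) (a₂ := x') (b := r) (by exact_mod_cast hx)]
  · obtain ⟨h1, h2⟩ := abs_le.1 hc
    unfold wt
    split_ifs with h
    · have : NeZero r := ⟨hr.ne_zero⟩
      rw [jacobiSym.eq_zero_iff_not_coprime.2 (by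
        simpa [Nat.gcd_eq_right h] using hr.ne_one)]
      simp
    · rcases jacobiSym.trichotomy x r with h3 | h3 | h3 <;> rw [h3] <;> push_cast <;>
        constructor <;> linarith

theorem av_wt (c : ℕ → ℝ) {r : ℕ} (hr : r.Prime) (h2 : r ≠ 2) :
    av r (wt c r) = (1 - 1 / r) / 2 := by
  have : (r : ℝ) ≠ 0 := by have := hr.pos; positivity
  refine (av_one hr.pos fun x => (if r ∣ x then 0 else 1 / 2) + c r / 2 * jacobiSym x r).trans ?_
  rw [sum_add_distrib, ← mul_sum, sum_jac hr h2, sum_ite_dvd hr.pos]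
  field_simp
  ring

/-- the primes of the sieve -/
def Pz (S : Finset ℕ) (z : ℕ) : Finset ℕ := (range (z + 1)).filter fun r => r.Prime ∧ r ∉ S

theorem geo {r : ℕ} (hr : r.Prime) (K : ℕ) :
    ∑ k ∈ range K, 1 / ((r ^ k : ℕ) : ℝ) ≤ (1 - 1 / (r : ℝ))⁻¹ := by
  have h2 : (2 : ℝ) ≤ r := by exact_mod_cast hr.two_le
  have h0 : 0 ≤ 1 / (r : ℝ) := by positivity
  have h1 : 1 / (r : ℝ) < 1 := by rw [div_lt_one (by linarith)]; linarith
  rw [← tsum_geometric_of_lt_one h0 h1]
  simp only [Nat.cast_pow, ← one_div_pow]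
  exact (summable_geometric_of_lt_one h0 h1).sum_le_tsum _ fun _ _ => by positivity

theorem G_low (S : Finset ℕ) (hS : ∀ r ∈ S, r.Prime) (z : ℕ) :
    Real.log (z + 1) * ∏ r ∈ S, (1 - 1 / (r : ℝ)) ≤ Gs (fun r => 1 / ((r : ℝ) - 1)) (Pz S z) z := by
  have h0 : ∀ n : ℕ, 0 ≤ 1 / (n : ℝ) := fun n => by positivity
  have hm : ∀ m n : ℕ, m.Coprime n → 1 / ((m * n : ℕ) : ℝ) = 1 / (m : ℝ) * (1 / (n : ℝ)) :=
    fun m n _ => by rw [Nat.cast_mul, one_div_mul_one_div]
  have hp : ∀ r ∈ S, 0 < 1 - 1 / (r : ℝ) := fun r hr => by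
    have h2 : (2 : ℝ) ≤ r := by exact_mod_cast (hS r hr).two_le
    rw [sub_pos, div_lt_one (by linarith)]
    linarith
  have h1 := Fs_le_Gs (h := fun n => 1 / (n : ℝ)) (g := fun r => 1 / ((r : ℝ) - 1)) h0 (by simp) hm
    (Pz S z) (fun r hr => (mem_filter.1 hr).2.1) (fun r hr K => by
      have h2 := (mem_filter.1 hr).2.1
      have h3 := geo h2 (K + 1)
      have h4 : (2 : ℝ) ≤ r := by exact_mod_cast h2.two_le
      have h5 : (1 - 1 / (r : ℝ))⁻¹ = 1 / (r - 1) + 1 := by
        have : (r : ℝ) - 1 ≠ 0 := by linarith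
        field_simp
        ring
      rw [sum_range_succ', h5, pow_zero, Nat.cast_one, div_one] at h3
      linarith) z
  have h2 := Fs_union (h := fun n => 1 / (n : ℝ)) (E := fun r => (1 - 1 / (r : ℝ))⁻¹) h0 hm
    (Pz S z) S hS (disjoint_left.2 fun r hr h => (mem_filter.1 h).2.2 hr)
    (fun r hr K => geo (hS r hr) K) z
  have h3 : Real.log (z + 1) ≤ Fs (fun n => 1 / (n : ℝ)) (S ∪ Pz S z) z := by
    have h4 := log_add_one_le_harmonic z
    rw [harmonic_eq_sum_Icc] at h4
    push_cast at h4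
    have h5 : ∀ n ∈ Ioc 0 z, n.primeFactors ⊆ S ∪ Pz S z := fun n hn r hr => by
      have := Nat.le_of_mem_primeFactors hr
      have := (mem_Ioc.1 hn).2
      by_cases h : r ∈ S
      · exact mem_union_left _ h
      · exact mem_union_right _ (mem_filter.2 ⟨mem_range.2 (by omega),
          Nat.prime_of_mem_primeFactors hr, h⟩)
    rw [Fs, filter_true_of_mem h5, ← Icc_add_one_left_eq_Ioc]
    simpa only [one_div, zero_add] using h4
  rw [prod_inv_distrib, le_inv_mul_iff₀ (prod_pos hp)] at h2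
  rw [mul_comm]
  exact ((mul_le_mul_of_nonneg_left h3 (prod_pos hp).le).trans h2).trans h1

theorem count {S T : Finset ℕ} (hS : ∀ r ∈ S, r.Prime ∧ r ≠ 2) {c : ℕ → ℝ} (hc : ∀ r, |c r| ≤ 1)
    {z N : ℕ} (hz : 1 ≤ z) (hN : 0 < N)
    (hT : ∀ p ∈ T, p.Prime ∧ z < p ∧ p < N ∧ ∀ r ∈ S, c r * jacobiSym p r = 1) :
    (T.card : ℝ) ≤ N / (Real.log (z + 1) * 2 ^ S.card) + 4 * (∏ r ∈ S, (r : ℝ)) * (z : ℝ) ^ 8 := by
  have hg : ∀ r ∈ Pz S z, 0 ≤ 1 / ((r : ℝ) - 1) := fun r hr => by
    have h2 : (2 : ℝ) ≤ r := by exact_mod_cast (mem_filter.1 hr).2.1.two_le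
    exact div_nonneg zero_le_one (by linarith)
  have h1 := selberg (Pz S z) S (fun r hr => (mem_filter.1 hr).2.1) (fun r hr => (hS r hr).1)
    (disjoint_left.2 fun r hr => (mem_filter.1 hr).2.2) ph (wt c) (fun r => 1 / ((r : ℝ) - 1)) hg
    (fun r hr => ph_facts (mem_filter.1 hr).2.1) (fun r hr => wt_facts (hS r hr).1 (hc r)) hz N N
    (T ×ˢ range N) (product_subset_product_left fun p hp => mem_range.2 (hT p hp).2.2.1)
    fun v hv => by
      obtain ⟨h2, h3, -, h4⟩ := hT _ (mem_product.1 hv).1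
      refine ⟨fun r hr => if_neg fun h => ?_, fun r hr => ?_⟩
      · have := (Nat.prime_dvd_prime_iff_eq (mem_filter.1 hr).2.1 h2).1 h
        have := mem_range.1 (mem_filter.1 hr).1
        omega
      · have h5 := h4 r hr
        rw [wt, if_neg fun h => ?_]
        · linarith
        · have : NeZero r := ⟨(hS r hr).1.ne_zero⟩
          rw [jacobiSym.eq_zero_iff_not_coprime.2 (by
            simpa [Nat.gcd_eq_right h] using (hS r hr).1.ne_one)] at h5
          simp at h5
  have h2 := G_low S (fun r hr => (hS r hr).1) z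
  have h3 := one_le_Gs hg hz
  have hN' : (0 : ℝ) < N := by exact_mod_cast hN
  have hl : 0 < Real.log (z + 1) := Real.log_pos (by
    have : (1 : ℝ) ≤ z := by exact_mod_cast hz
    linarith)
  rw [prod_congr rfl fun r hr => av_wt c (hS r hr).1 (hS r hr).2, prod_div_distrib, prod_const,
    card_product, card_range] at h1
  push_cast at h1
  refine le_of_mul_le_mul_right (h1.trans ?_) hN'
  have h4 : (N : ℝ) * N * ((∏ r ∈ S, (1 - 1 / (r : ℝ))) / 2 ^ S.card) /
      Gs (fun r => 1 / ((r : ℝ) - 1)) (Pz S z) z ≤ N / (Real.log (z + 1) * 2 ^ S.card) * N := by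
    rw [div_le_iff₀ (by linarith)]
    refine le_trans (le_of_eq ?_) (mul_le_mul_of_nonneg_left h2 (by positivity))
    field_simp
  linarith

end BTAux

open BTAux in
theorem bt : BT := by
  classical
  refine ⟨500, by norm_num, fun S L X ε ⟨hS, hL⟩ hX hε => ?_⟩
  set q := ∏ r ∈ S, (r : ℝ) with hq
  have hq1 : (2 : ℝ) ^ S.card ≤ q := by
    rw [← prod_const]
    exact prod_le_prod (fun _ _ => zero_le_two) fun r hr => by exact_mod_cast (hS r hr).1.two_le
  have hk : (1 : ℝ) ≤ 2 ^ S.card := one_le_pow₀ one_le_two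
  have hq2 : 0 ≤ Real.log q := Real.log_nonneg (hk.trans hq1)
  have hX0 : (0 : ℝ) < X := (Real.exp_pos _).trans_le hX
  set l := Real.log X with hl
  have hl1 : 500 * L ≤ l := (Real.le_log_iff_exp_le hX0).2 hX
  set u := Real.exp (l / 20) with hu
  have hu1 : l / 20 + 1 ≤ u := Real.add_one_le_exp _
  have hu2 : u ^ 20 = X := by
    rw [hu, ← Real.exp_nat_mul, ← Real.exp_log hX0]
    congr 1
    push_cast
    ring
  have hu3 : q ≤ u := (Real.log_le_iff_le_exp (by linarith)).1 (by linarith)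
  have hu4 : 1 ≤ u := by linarith
  have hX1 : u ≤ X := hu2 ▸ le_self_pow₀ hu4 (by norm_num)
  set z := ⌊u⌋₊ with hz
  have hz1 : 1 ≤ z := (Nat.one_le_floor_iff _).2 hu4
  have hz2 : (z : ℝ) ≤ u := Nat.floor_le (by linarith)
  have hz3 : l / 20 ≤ Real.log (z + 1) :=
    (Real.le_log_iff_exp_le (by positivity)).2 (Nat.lt_floor_add_one u).le
  have hz4 : z ≤ X := by exact_mod_cast hz2.trans hX1
  have hlog : Real.log (2 * X) ≤ 2 * l := by
    rw [Real.log_mul two_ne_zero hX0.ne']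
    linarith [Real.log_two_lt_d9]
  set A := (Ioc X (2 * X)).filter fun n => ∀ t ∈ TS S, jz t n = ε t with hA
  have h1 := count (T := A.filter Nat.Prime) hS (c := fun r => ε r * jacobiSym (ε (-1)) r)
    (fun r => by
      rcases hε r with h | h <;> rcases jacobiSym.trichotomy (ε (-1)) r with h' | h' | h' <;>
        simp [h, h']) hz1 (N := 2 * X + 1) (by omega) fun p hp => by
      obtain ⟨h2, h3⟩ := mem_filter.1 hp
      obtain ⟨h4, h5⟩ := mem_filter.1 h2
      obtain ⟨h6, h7⟩ := mem_Ioc.1 h4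
      have h8 := h5 (-1) (mem_insert_self _ _)
      have h9 : Odd p := by
        by_contra h
        rw [jz, if_neg h] at h8
        rcases hε (-1) with h' | h' <;> omega
      refine ⟨h3, by omega, by omega, fun r hr => ?_⟩
      have h10 := h5 r (mem_insert_of_mem (mem_insert_of_mem (mem_image_of_mem _ hr)))
      rw [jz, if_pos h9, jacobiSym.at_neg_one h9] at h8
      rw [jz, if_pos h9, jacobiSym.quadratic_reciprocity' ((hS r hr).1.odd_of_ne_two (hS r hr).2)
        h9, qrSign, h8] at h10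
      rw [mul_assoc, ← Int.cast_mul, h10]
      rcases hε r with h | h <;> simp [h]
  have h2 : ∑ n ∈ A.filter Nat.Prime, vonMangoldt n ≤ (A.filter Nat.Prime).card * (2 * l) := by
    rw [← nsmul_eq_mul]
    refine sum_le_card_nsmul _ _ _ fun n hn => vonMangoldt_le_log.trans (le_trans ?_ hlog)
    obtain ⟨h3, h4⟩ := mem_Ioc.1 (mem_filter.1 (mem_filter.1 hn).1).1
    exact Real.log_le_log (by exact_mod_cast (by omega : 0 < n)) (by exact_mod_cast h4)
  have h3 : ∑ n ∈ A.filter fun n => ¬n.Prime, vonMangoldt n ≤ 8 * u ^ 10 * l := by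
    have h4 := Chebyshev.psi_sub_theta_le (x := (2 * X : ℕ)) (by push_cast; linarith)
    rw [Chebyshev.psi_sub_theta_eq_sum_not_prime, Nat.floor_natCast] at h4
    push_cast at h4
    refine (sum_le_sum_of_subset_of_nonneg (filter_subset_filter _ ((filter_subset _ _).trans
      (Ioc_subset_Ioc_left (Nat.zero_le X)))) fun _ _ _ => vonMangoldt_nonneg).trans (h4.trans ?_)
    have h5 : √(2 * (X : ℝ)) ≤ 2 * u ^ 10 :=
      Real.sqrt_le_iff.2 ⟨by positivity, by rw [← hu2]; nlinarith [pow_pos (zero_lt_one.trans_le hu4) 20]⟩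
    calc _ ≤ 2 * (2 * u ^ 10) * (2 * l) := by
          gcongr
          exact Real.log_nonneg (by linarith)
      _ = _ := by ring
  have hl0 : 0 < l := by linarith
  have h4 : ((2 * X + 1 : ℕ) : ℝ) / (Real.log (z + 1) * 2 ^ S.card) * (2 * l) ≤
      120 * X / 2 ^ S.card := by
    calc _ ≤ 3 * (X : ℝ) / (l / 20 * 2 ^ S.card) * (2 * l) := by
          gcongr
          push_cast
          linarith
      _ = _ := by field_simp; ring
  have h5 : 4 * q * (z : ℝ) ^ 8 * (2 * l) ≤ 8 * u ^ 10 * l :=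
    calc _ ≤ 4 * (u * u) * u ^ 8 * (2 * l) := by
          gcongr
          nlinarith
      _ = _ := by ring
  have h6 : 8 * u ^ 10 * l ≤ 160 * X / 2 ^ S.card := by
    rw [le_div_iff₀ (by positivity), ← hu2]
    calc _ ≤ 8 * u ^ 10 * (20 * u) * u ^ 9 := by
          gcongr
          · linarith
          · exact (hq1.trans hu3).trans (le_self_pow₀ hu4 (by norm_num))
      _ = _ := by ring
  have h7 := mul_le_mul_of_nonneg_right h1 (show 0 ≤ 2 * l by linarith)
  have h8 : (0 : ℝ) ≤ X / 2 ^ S.card := by positivity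
  rw [← sum_filter_add_sum_filter_not A Nat.Prime]
  simp only [mul_div_assoc] at h4 h6 ⊢
  rw [add_mul] at h7
  linarith

end Pool.Agent.MP_c481b3_nt.H31
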