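import Pool.Agent.MP_c481b3_nt.H31.SpecN

set_option autoImplicit false

/-! # The counting step of the lower bound for all large `x` -/

namespace Pool.Agent.MP_c481b3_nt.H31

open Filter

namespace CB

lemma jac_two (a : ℤ) : jacobiSym a 2 ≠ -1 := by
  rw [← jacobiSym.legendreSym.to_jacobiSym, Ne, legendreSym.eq_neg_one_iff, not_not]
  have h : ∀ z : ZMod 2, IsSquare z := by decide
  exact h _

lemma jac_self {p : ℕ} (hp : p.Prime) : jacobiSym (-(p : ℤ)) p ≠ -1 := by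
  have h : jacobiSym (-(p : ℤ)) p = 0 := by
    have : NeZero p := ⟨hp.ne_zero⟩
    rw [jacobiSym.eq_zero_iff_not_coprime]
    simp [hp.ne_one]
  rw [h]; decide

open Classical in
/-- `Cover` with an exponent at most one -/
lemma cover' (h : Cover) :
    ∃ C η : ℝ, 1 ≤ C ∧ 0 < η ∧ η ≤ 1 ∧ ∀ (S : Finset ℕ) (Y : ℝ) (p l₀ : ℕ),
      (∀ r ∈ S, r.Prime ∧ r ≠ 2) → C ≤ Y → (∏ r ∈ S, (r : ℝ)) ^ C ≤ Y → p.Prime → p ≠ 2 → p ∉ S →
      l₀.Prime → l₀ ≠ 2 → l₀ ≠ p →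
      (((Finset.range (⌊Y⌋₊ + 1)).filter fun l =>
          Gd S l ∧ ∃ a b : ℤ, 4 * (l₀ : ℤ) * l = a ^ 2 + p * b ^ 2).card : ℝ)
        ≤ C * ((p : ℝ) ^ (-η) * (Y / (2 ^ S.card * Real.log Y)) + Y ^ (1 - η)) := by
  obtain ⟨C, η, hC, hη, H⟩ := h
  refine ⟨C, min η 1, hC, lt_min hη one_pos, min_le_right _ _,
    fun S Y p l₀ h1 h2 h3 h4 h5 h6 h7 h8 h9 => (H S Y p l₀ h1 h2 h3 h4 h5 h6 h7 h8 h9).trans ?_⟩
  have hY : 1 ≤ Y := hC.trans h2
  have hM : 0 ≤ Y / (2 ^ S.card * Real.log Y) :=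
    div_nonneg (by linarith) (mul_nonneg (by positivity) (Real.log_nonneg hY))
  have hp : (1 : ℝ) ≤ p := by exact_mod_cast h4.one_lt.le
  have e1 : (p : ℝ) ^ (-η) ≤ (p : ℝ) ^ (-min η 1) :=
    Real.rpow_le_rpow_of_exponent_le hp (neg_le_neg (min_le_left _ _))
  have e2 : Y ^ (1 - η) ≤ Y ^ (1 - min η 1) :=
    Real.rpow_le_rpow_of_exponent_le hY (by linarith [min_le_left η 1])
  rw [mul_div_assoc]
  exact mul_le_mul_of_nonneg_left (add_le_add (mul_le_mul_of_nonneg_right e1 hM) e2) (by linarith)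

open Classical in
/-- the good primes are small, or counted, or covered -/
lemma count (Sx T : Finset ℕ) (D L₀ N : ℕ) (Cov : ℕ → ℕ → ℕ → Prop) (b : ℕ → ℝ)
    (hb : ∀ p, 0 ≤ b p) (hS : ∀ p ∈ Sx, p.Prime)
    (h1 : ∀ l, L₀ ≤ l → l < N → Gd T l → l ∈ Sx ∨
      ∃ p ∈ Sx, ∃ i < D, jacobiSym (-(l : ℤ)) p = -1 ∧ Cov p i l)
    (h2 : ∀ p i l l', Cov p i l → Cov p i l' → ∃ a b : ℤ, 4 * (l : ℤ) * l' = a ^ 2 + p * b ^ 2)
    (h3 : ∀ p l₀ : ℕ, p.Prime → p ≠ 2 → p ∉ T → l₀.Prime → l₀ ≠ 2 → l₀ ≠ p →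
      (((Finset.range N).filter fun l =>
        Gd T l ∧ ∃ a b : ℤ, 4 * (l₀ : ℤ) * l = a ^ 2 + p * b ^ 2).card : ℝ) ≤ b p) :
    (((Finset.range N).filter (Gd T)).card : ℝ) ≤
      L₀ + Sx.card + D * ∑ p ∈ Sx.filter fun p => p ≠ 2 ∧ p ∉ T, b p := by
  set Bad := Sx.filter fun p => p ≠ 2 ∧ p ∉ T with hBad
  let F : ℕ × ℕ → Finset ℕ := fun z => (Finset.range N).filter fun l =>
    Gd T l ∧ jacobiSym (-(l : ℤ)) z.1 = -1 ∧ Cov z.1 z.2 l
  have hsub : (Finset.range N).filter (Gd T) ⊆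
      (Finset.range L₀ ∪ Sx) ∪ (Bad ×ˢ Finset.range D).biUnion F := by
    intro l hl
    obtain ⟨hN, hG⟩ := Finset.mem_filter.1 hl
    by_cases hL : l < L₀
    · exact Finset.mem_union_left _ (Finset.mem_union_left _ (Finset.mem_range.2 hL))
    rcases h1 l (not_lt.1 hL) (Finset.mem_range.1 hN) hG with h | ⟨p, hp, i, hi, hj, hc⟩
    · exact Finset.mem_union_left _ (Finset.mem_union_right _ h)
    · refine Finset.mem_union_right _ (Finset.mem_biUnion.2 ⟨(p, i), Finset.mem_product.2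
        ⟨Finset.mem_filter.2 ⟨hp, ?_, ?_⟩, Finset.mem_range.2 hi⟩,
        Finset.mem_filter.2 ⟨hN, hG, hj, hc⟩⟩)
      · rintro rfl
        exact jac_two _ hj
      · intro hT
        rw [hG.2.2 p hT] at hj
        exact absurd hj (by decide)
  have hF : ∀ z ∈ Bad ×ˢ Finset.range D, ((F z).card : ℝ) ≤ b z.1 := by
    intro z hz
    obtain ⟨hp, hp2, hpT⟩ := Finset.mem_filter.1 (Finset.mem_product.1 hz).1
    rcases (F z).eq_empty_or_nonempty with h | ⟨l₀, hl₀⟩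
    · rw [h, Finset.card_empty, Nat.cast_zero]; exact hb _
    obtain ⟨-, hG, hj, hc⟩ := Finset.mem_filter.1 hl₀
    refine le_trans ?_ (h3 z.1 l₀ (hS _ hp) hp2 hpT hG.1 ?_ ?_)
    · refine Nat.cast_le.2 (Finset.card_le_card fun l hl => ?_)
      obtain ⟨hN, hG', -, hc'⟩ := Finset.mem_filter.1 hl
      exact Finset.mem_filter.2 ⟨hN, hG', h2 _ _ _ _ hc hc'⟩
    · intro h
      have := hG.2.1
      omega
    · intro h
      rw [h] at hj
      exact jac_self (hS _ hp) hj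
  have c1 := Finset.card_le_card hsub
  have c2 := Finset.card_union_le (Finset.range L₀ ∪ Sx) ((Bad ×ˢ Finset.range D).biUnion F)
  have c3 := Finset.card_union_le (Finset.range L₀) Sx
  have c4 : ((Bad ×ˢ Finset.range D).biUnion F).card ≤ ∑ z ∈ Bad ×ˢ Finset.range D, (F z).card :=
    Finset.card_biUnion_le
  rw [Finset.card_range] at c3
  have c5 : (((Finset.range N).filter (Gd T)).card : ℝ) ≤
      L₀ + Sx.card + ∑ z ∈ Bad ×ˢ Finset.range D, ((F z).card : ℝ) := by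
    exact_mod_cast c1.trans (c2.trans (add_le_add c3 c4))
  refine c5.trans (add_le_add le_rfl ((Finset.sum_le_sum hF).trans (le_of_eq ?_)))
  rw [Finset.sum_product, Finset.mul_sum]
  simp

/-- the numerical contradiction -/
lemma numer {c₁ C η L K Y M : ℝ} {D L₀ k : ℕ} (hc : 0 < c₁) (hC : 1 ≤ C) (hη : 0 < η)
    (hη1 : η ≤ 1) (hKL : K ≤ L) (hL : 1 ≤ L)
    (hB : 8 * (L₀ + 1 + D * C) / (η * c₁) < L) (hY : Real.exp (4 / η * L) ≤ Y)
    (hk : (2 : ℝ) ^ k ≤ Real.exp L) (hM : M = Y / (2 ^ k * Real.log Y))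
    (h : c₁ * M ≤ L₀ + K + c₁ / 4 * M + K * D * C * Y ^ (1 - η)) : False := by
  have hY1 : 1 < Y := lt_of_lt_of_le (Real.one_lt_exp_iff.2 (by positivity)) hY
  have hY0 : 0 < Y := by linarith
  have hlog : 0 < Real.log Y := Real.log_pos hY1
  set Z := Y ^ (η / 4) with hZ
  have hZ0 : 0 < Z := Real.rpow_pos_of_pos hY0 _
  have e1 : Real.exp L ≤ Z := by
    have := Real.rpow_le_rpow (Real.exp_pos _).le hY (by positivity : 0 ≤ η / 4)
    rwa [← Real.exp_mul, show 4 / η * L * (η / 4) = L by field_simp] at this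
  have e2 : L ≤ Z := by linarith [Real.add_one_le_exp L]
  have e3 : Real.log Y ≤ 4 / η * Z := by
    have := Real.log_le_rpow_div hY0.le (by positivity : 0 < η / 4)
    rwa [show Y ^ (η / 4) / (η / 4) = 4 / η * Z by rw [hZ]; field_simp] at this
  set W := Y ^ (1 - η) with hW
  have hW1 : 1 ≤ W := Real.one_le_rpow hY1.le (by linarith)
  have e4 : Y = W * Z ^ 4 := by
    rw [hW, hZ, ← Real.rpow_natCast, ← Real.rpow_mul hY0.le, ← Real.rpow_add hY0]
    simp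
  have e5 : L₀ + K + K * D * C * W ≤ (L₀ + 1 + D * C) * Z * W := by
    have hZ1 : 1 ≤ Z := hL.trans e2
    have hKZ : K ≤ Z := hKL.trans e2
    have hZW : 1 ≤ Z * W := one_le_mul_of_one_le_of_one_le hZ1 hW1
    have a1 : (L₀ : ℝ) ≤ L₀ * (Z * W) := le_mul_of_one_le_right (by positivity) hZW
    have a2 : K ≤ Z * W := hKZ.trans (le_mul_of_one_le_right hZ0.le hW1)
    have a3 : K * (D * C * W) ≤ Z * (D * C * W) :=
      mul_le_mul_of_nonneg_right hKZ (by positivity)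
    nlinarith
  have e6 : η / 4 * W * Z ^ 2 ≤ M := by
    rw [hM, le_div_iff₀ (by positivity)]
    have a1 : (2 : ℝ) ^ k * Real.log Y ≤ Z * (4 / η * Z) :=
      mul_le_mul (hk.trans e1) e3 hlog.le hZ0.le
    calc η / 4 * W * Z ^ 2 * (2 ^ k * Real.log Y) ≤ η / 4 * W * Z ^ 2 * (Z * (4 / η * Z)) :=
          mul_le_mul_of_nonneg_left a1 (by positivity)
      _ = W * Z ^ 4 := by field_simp
      _ = Y := e4.symm
  have e7 : 8 * (L₀ + 1 + D * C) < η * c₁ * Z := by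
    rw [div_lt_iff₀ (by positivity)] at hB
    have : L * (η * c₁) ≤ Z * (η * c₁) := mul_le_mul_of_nonneg_right e2 (by positivity)
    linarith
  have e8 : 3 / 4 * c₁ * (η / 4 * W * Z ^ 2) ≤ (L₀ + 1 + D * C) * Z * W := by
    have : 3 / 4 * c₁ * (η / 4 * W * Z ^ 2) ≤ 3 / 4 * c₁ * M :=
      mul_le_mul_of_nonneg_left e6 (by positivity)
    linarith
  have hZW : 0 < Z * W := by positivity
  have e9 : 3 / 16 * (η * c₁ * Z) * (Z * W) ≤ (L₀ + 1 + D * C) * (Z * W) := by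
    calc 3 / 16 * (η * c₁ * Z) * (Z * W) = 3 / 4 * c₁ * (η / 4 * W * Z ^ 2) := by ring
      _ ≤ (L₀ + 1 + D * C) * Z * W := e8
      _ = _ := by ring
  have e10 := le_of_mul_le_mul_right e9 hZW
  have : (0 : ℝ) < L₀ + 1 + D * C := by positivity
  linarith

lemma two_pow_le (T : Finset ℕ) (h : ∀ r ∈ T, r.Prime) :
    (2 : ℝ) ^ T.card ≤ ∏ r ∈ T, (r : ℝ) := by
  rw [← Finset.prod_const]
  exact Finset.prod_le_prod (fun _ _ => by norm_num) fun r hr => by exact_mod_cast (h r hr).two_le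

lemma prod_mono {T T' : Finset ℕ} (h : ∀ r ∈ T, r.Prime) (hT : T' ⊆ T) :
    ∏ r ∈ T', (r : ℝ) ≤ ∏ r ∈ T, (r : ℝ) := by
  have : ∏ r ∈ T', r ≤ ∏ r ∈ T, r :=
    Finset.prod_le_prod_of_subset_of_one_le' hT fun r hr _ => (h r hr).one_lt.le
  rw [← Nat.cast_prod, ← Nat.cast_prod]
  exact Nat.cast_le.2 this

lemma log_prod_le (S₀ U : Finset ℕ) (h0 : ∀ r ∈ S₀, r.Prime) (h1 : ∀ r ∈ U, r.Prime) {P : ℝ}
    (hP : ∀ r ∈ U, (r : ℝ) ≤ P) :
    Real.log (∏ r ∈ S₀ ∪ U, (r : ℝ)) ≤ Real.log (∏ r ∈ S₀, (r : ℝ)) + U.card * Real.log P := by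
  have p0 : ∀ r ∈ S₀, (r : ℝ) ≠ 0 := fun r hr => by exact_mod_cast (h0 r hr).ne_zero
  have p1 : ∀ r ∈ U, (r : ℝ) ≠ 0 := fun r hr => by exact_mod_cast (h1 r hr).ne_zero
  rw [Real.log_prod p0, Real.log_prod fun r hr => (Finset.mem_union.1 hr).elim (p0 r) (p1 r)]
  have a1 : ∑ r ∈ S₀ ∪ U, Real.log r + ∑ r ∈ S₀ ∩ U, Real.log r =
      ∑ r ∈ S₀, Real.log r + ∑ r ∈ U, Real.log r := Finset.sum_union_inter
  have a2 : 0 ≤ ∑ r ∈ S₀ ∩ U, Real.log r :=
    Finset.sum_nonneg fun r _ => Real.log_natCast_nonneg r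
  have a3 : ∑ r ∈ U, Real.log r ≤ U.card * Real.log P := by
    rw [← nsmul_eq_mul]
    exact Finset.sum_le_card_nsmul _ _ _ fun r hr =>
      Real.log_le_log (by exact_mod_cast (h1 r hr).pos) (hP r hr)
  linarith

/-- the asymptotic input -/
lemma asym (c B : ℝ) (hc : 0 < c) : ∀ᶠ x : ℕ in atTop, 1 ≤ Real.log x ∧
    1 ≤ Real.log (Real.log x) ∧ 1 ≤ Real.log (Real.log (Real.log x)) ∧
    B * Real.log (Real.log (Real.log x)) ≤
      c * √(Real.log (Real.log x) / Real.log (Real.log (Real.log x))) := by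
  have t1 : Tendsto (fun x : ℕ => Real.log x) atTop atTop :=
    Real.tendsto_log_atTop.comp tendsto_natCast_atTop_atTop
  have t2 : Tendsto (fun x : ℕ => Real.log (Real.log x)) atTop atTop :=
    Real.tendsto_log_atTop.comp t1
  have t3 : ∀ᶠ u : ℝ in atTop, 1 ≤ Real.log u ∧ B * Real.log u ≤ c * √(u / Real.log u) := by
    have hε : 0 < c ^ 2 / (B ^ 2 + 1) := by positivity
    filter_upwards [Real.tendsto_log_atTop.eventually_ge_atTop 1, eventually_ge_atTop 0,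
      (Real.isLittleO_pow_log_id_atTop (n := 3)).bound hε] with u h1 h0 h2
    refine ⟨h1, ?_⟩
    have hv : 0 < Real.log u := by linarith
    rw [Real.norm_of_nonneg (by positivity), id, Real.norm_of_nonneg h0, div_mul_eq_mul_div,
      le_div_iff₀ (by positivity)] at h2
    rw [← div_le_iff₀' hc]
    refine Real.le_sqrt_of_sq_le ?_
    rw [div_pow, div_le_div_iff₀ (by positivity) hv]
    have : 0 ≤ Real.log u ^ 3 := by positivity
    nlinarith
  filter_upwards [t1.eventually_ge_atTop 1, t2.eventually_ge_atTop 1, t2.eventually t3]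
    with x h1 h2 h3
  exact ⟨h1, h2, h3.1, h3.2⟩

end CB

open CB in
theorem countB_of : Cover → PrimesB → CountB := by
  classical
  intro hCov hPB S S₀ D L₀ A Cov hS hS₀ h1 h2
  obtain ⟨C, η, hC, hη, hη1, hcov⟩ := cover' hCov
  obtain ⟨c₀, hc₀, hPB⟩ := hPB
  obtain ⟨c₁, hc₁, hc₁0, hc₁1⟩ : ∃ c₁ : ℝ, 0 < c₁ ∧ c₁ ≤ c₀ ∧ c₁ ≤ 1 :=
    ⟨min c₀ 1, lt_min hc₀ one_pos, min_le_left _ _, min_le_right _ _⟩
  obtain ⟨a, ha⟩ : ∃ a : ℝ, a = 8 * (D + 1) * C / c₁ := ⟨_, rfl⟩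
  have ha1 : 1 ≤ a := by
    rw [ha, le_div_iff₀ hc₁]
    have : (0 : ℝ) ≤ D := Nat.cast_nonneg D
    nlinarith
  have haD : D * C * a⁻¹ ≤ c₁ / 8 := by
    rw [ha, inv_div, ← mul_div_assoc, div_le_div_iff₀ (by positivity) (by norm_num)]
    have : 0 ≤ C * c₁ := by positivity
    nlinarith
  have hpow : ∀ t p : ℝ, 1 ≤ t → t ^ η⁻¹ ≤ p → p ^ (-η) ≤ t⁻¹ := by
    intro t p ht hp
    have h0 : 0 < t ^ η⁻¹ := Real.rpow_pos_of_pos (by linarith) _
    have := Real.rpow_le_rpow_of_nonpos h0 hp (by linarith : -η ≤ 0)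
    rwa [← Real.rpow_mul (by linarith), mul_neg, inv_mul_cancel₀ hη.ne', Real.rpow_neg_one] at this
  obtain ⟨C₂, hC₂, hPB⟩ := hPB (C + 4 / η) (S₀.sup id + ⌈a ^ η⁻¹⌉₊)
  obtain ⟨c, hc, hc2⟩ : ∃ c : ℝ, 0 < c ∧ c ^ 2 = η / (30 * C₂) :=
    ⟨√(η / (30 * C₂)), Real.sqrt_pos.2 (by positivity), Real.sq_sqrt (by positivity)⟩
  have hc3 : c ^ 2 ≤ 1 := by
    rw [hc2, div_le_one (by positivity)]; linarith
  obtain ⟨B, hB⟩ : ∃ B : ℝ, ∀ t ∈ ({1, a, 2 / η, C, C₂, 5 * A, (S₀.card : ℝ),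
      2 * Real.log (∏ r ∈ S₀, (r : ℝ)), 8 * (L₀ + 1 + D * C) / (η * c₁) + 1} : Set ℝ), t ≤ B :=
    (Set.toFinite _).bddAbove
  have hB1 : 1 ≤ B := hB _ (by simp)
  refine ⟨c, hc, ?_⟩
  filter_upwards [asym c B hc] with x ⟨hx1, hx2, hx3, hx4⟩
  by_contra hlt
  rw [not_le] at hlt
  set u := Real.log (Real.log x) with hu
  set v := Real.log u with hv
  set K := c * √(u / v) with hK
  have hv0 : 0 < v := by linarith
  have hKv : K ^ 2 * v = c ^ 2 * u := by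
    rw [hK, mul_pow, Real.sq_sqrt (by positivity)]; field_simp
  have hBK : B ≤ K := le_trans (le_mul_of_one_le_right (by linarith) hx3) hx4
  have hvK : v ≤ K := le_trans (le_mul_of_one_le_left hv0.le hB1) hx4
  have hK1 : 1 ≤ K := hB1.trans hBK
  have hKu : K ^ 2 ≤ u := by
    have : K ^ 2 ≤ K ^ 2 * v := le_mul_of_one_le_right (by positivity) hx3
    have : c ^ 2 * u ≤ u := mul_le_of_le_one_left (by linarith) hc3
    linarith
  have hKK : K ≤ K ^ 2 := by nlinarith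
  obtain ⟨L, hL⟩ : ∃ L : ℝ, L = 2 / η * K * v := ⟨_, rfl⟩
  have hη2 : 2 ≤ 2 / η := by rw [le_div_iff₀ hη]; linarith
  have hKL : K ≤ L := by
    rw [hL]
    have : K ≤ 2 / η * K := le_mul_of_one_le_left (by linarith) (by linarith)
    exact this.trans (le_mul_of_one_le_right (by linarith) hx3)
  have hLu : L ≤ u := by
    have b1 : 2 / η * v ≤ B * v := mul_le_mul_of_nonneg_right (hB _ (by simp)) hv0.le
    have b2 : 2 / η * v * K ≤ K * K := mul_le_mul_of_nonneg_right (b1.trans hx4) (by linarith)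
    rw [hL]; nlinarith
  have hL1 : 1 ≤ L := hK1.trans hKL
  have hlogL : Real.log L ≤ K := (Real.log_le_log (by linarith) hLu).trans hvK
  have haK : 1 ≤ a * K := one_le_mul_of_one_le_of_one_le ha1 hK1
  have haKu : a * K ≤ u := by
    have : a * K ≤ K * K := mul_le_mul_of_nonneg_right ((hB _ (by simp)).trans hBK) (by linarith)
    nlinarith
  obtain ⟨Sx, hSx⟩ : ∃ Sx : Finset ℕ, ∀ p, p ∈ Sx ↔ p ∈ S ∧ p ≤ x :=
    ⟨(Finset.range (x + 1)).filter (· ∈ S), fun p => by simp [and_comm]⟩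
  have hcard : (Sx.card : ℝ) ≤ K := by
    have : ({p ∈ S | p ≤ x} : Set ℕ) = ↑Sx := Set.ext fun p => (hSx p).symm
    rw [this, Set.ncard_coe_finset] at hlt
    exact hlt.le
  have hSp : ∀ p ∈ Sx, p.Prime := fun p hp => hS p ((hSx p).1 hp).1
  set U := Sx.filter fun p : ℕ => p ≠ 2 ∧ (p : ℝ) ≤ (a * K) ^ η⁻¹ with hU
  have hUc : (U.card : ℝ) ≤ K :=
    le_trans (Nat.cast_le.2 (Finset.card_filter_le _ _)) hcard
  have hT : ∀ r ∈ S₀ ∪ U, r.Prime ∧ r ≠ 2 := fun r hr =>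
    (Finset.mem_union.1 hr).elim (hS₀ r) fun h =>
      ⟨hSp r (Finset.mem_filter.1 h).1, (Finset.mem_filter.1 h).2.1⟩
  have hlogT : Real.log (∏ r ∈ S₀ ∪ U, (r : ℝ)) ≤ L := by
    refine (log_prod_le S₀ U (fun r hr => (hS₀ r hr).1) (fun r hr => hSp r (Finset.mem_filter.1 hr).1)
      fun r hr => (Finset.mem_filter.1 hr).2.2).trans ?_
    have b1 : 2 * Real.log (∏ r ∈ S₀, (r : ℝ)) ≤ L := (hB _ (by simp)).trans (hBK.trans hKL)
    have b2 : Real.log ((a * K) ^ η⁻¹) ≤ η⁻¹ * v := by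
      rw [Real.log_rpow (by linarith)]
      exact mul_le_mul_of_nonneg_left (Real.log_le_log (by linarith) haKu) (by positivity)
    have b3 : 0 ≤ Real.log ((a * K) ^ η⁻¹) :=
      Real.log_nonneg (Real.one_le_rpow haK (by positivity))
    have b4 : U.card * Real.log ((a * K) ^ η⁻¹) ≤ K * (η⁻¹ * v) :=
      mul_le_mul hUc b2 b3 (by linarith)
    have b5 : K * (η⁻¹ * v) = L / 2 := by rw [hL]; field_simp
    linarith
  obtain ⟨r₀, hr₀, Y, hY1, hY2, hY3⟩ :=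
    hPB (S₀ ∪ U) L hT ((hB _ (by simp)).trans (hBK.trans hKL)) hlogT
  set T := (S₀ ∪ U).erase r₀ with hTdef
  have hT' : ∀ r ∈ T, r.Prime ∧ r ≠ 2 := fun r hr => hT r (Finset.mem_of_mem_erase hr)
  have hprod : ∏ r ∈ T, (r : ℝ) ≤ Real.exp L := by
    refine (prod_mono (fun r hr => (hT r hr).1) (Finset.erase_subset _ _)).trans ?_
    refine (Real.log_le_iff_le_exp ?_).1 hlogT
    exact Finset.prod_pos fun r hr => by exact_mod_cast (hT r hr).1.pos
  have h4η : 0 ≤ 4 / η * L := by positivity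
  have hCL : 0 ≤ C * L := by positivity
  have hYa : Real.exp (4 / η * L) ≤ Y := (Real.exp_le_exp.2 (by linarith)).trans hY1
  have hYb : Real.exp (C * L) ≤ Y := (Real.exp_le_exp.2 (by linarith)).trans hY1
  have hCY : C ≤ Y := by
    have : C ≤ C * L := le_mul_of_one_le_right (by linarith) hL1
    linarith [Real.add_one_le_exp (C * L)]
  have hY0 : 1 ≤ Y := hC.trans hCY
  have hPY : (∏ r ∈ T, (r : ℝ)) ^ C ≤ Y := by
    refine le_trans (Real.rpow_le_rpow (Finset.prod_nonneg fun r _ => Nat.cast_nonneg r) hprod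
      (by linarith)) ?_
    rwa [← Real.exp_mul, mul_comm]
  have hYu : Y ≤ Real.exp (u / 5) := by
    refine hY2.trans (Real.exp_le_exp.2 ?_)
    have b1 : (((S₀ ∪ U).card : ℕ) : ℝ) ≤ S₀.card + U.card := by
      exact_mod_cast Finset.card_union_le S₀ U
    have b2 : (S₀.card : ℝ) ≤ K := (hB _ (by simp)).trans hBK
    have b3 : C₂ * (((S₀ ∪ U).card : ℕ) + Real.log L) * L ≤ C₂ * (3 * K) * L :=
      mul_le_mul_of_nonneg_right (mul_le_mul_of_nonneg_left (by linarith) (by linarith))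
        (by linarith)
    have b4 : C₂ * (3 * K) * L = u / 5 := by
      calc C₂ * (3 * K) * L = 6 * C₂ / η * (K ^ 2 * v) := by rw [hL]; ring
        _ = u / 5 := by rw [hKv, hc2]; field_simp; ring
    linarith
  have hexpu : Real.exp u = Real.log x := Real.exp_log (by linarith)
  have hx0 : (0 : ℝ) < x := by
    rcases Nat.eq_zero_or_pos x with h | h
    · rw [h, Nat.cast_zero, Real.log_zero] at hx1; linarith
    · exact_mod_cast h
  have hYx : Y ≤ x := by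
    have b1 : Real.exp (u / 5) ≤ Real.exp u := Real.exp_le_exp.2 (by linarith)
    have b2 := Real.log_le_sub_one_of_pos hx0
    linarith
  have hAY : ∀ l : ℕ, (l : ℝ) ≤ Y → A * (l : ℝ) ^ 4 ≤ Real.log x := by
    intro l hl
    have b1 : A ≤ Real.exp (u / 5) := by
      have : 5 * A ≤ B := hB _ (by simp)
      linarith [Real.add_one_le_exp (u / 5)]
    have b2 : (l : ℝ) ^ 4 ≤ Real.exp (u / 5) ^ 4 :=
      pow_le_pow_left₀ (Nat.cast_nonneg l) (hl.trans hYu) 4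
    calc A * (l : ℝ) ^ 4 ≤ Real.exp (u / 5) * Real.exp (u / 5) ^ 4 :=
          mul_le_mul b1 b2 (by positivity) (Real.exp_pos _).le
      _ = Real.log x := by
          rw [← hexpu, ← pow_succ', ← Real.exp_nat_mul]; congr 1; push_cast; ring
  have hS₀T : S₀ ⊆ T := fun r hr => Finset.mem_erase.2 ⟨fun h => by
    have : r ≤ S₀.sup id := Finset.le_sup (f := id) hr
    omega, Finset.mem_union_left _ hr⟩
  obtain ⟨M, hM⟩ : ∃ M : ℝ, M = Y / (2 ^ T.card * Real.log Y) := ⟨_, rfl⟩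
  have hM0 : 0 ≤ M := by
    rw [hM]
    exact div_nonneg (by linarith) (mul_nonneg (by positivity) (Real.log_nonneg hY0))
  have hW0 : 0 ≤ Y ^ (1 - η) := Real.rpow_nonneg (by linarith) _
  have hcount := count Sx T D L₀ (⌊Y⌋₊ + 1) Cov (fun p => C * ((p : ℝ) ^ (-η) * M + Y ^ (1 - η)))
    (fun p => by positivity) hSp (fun l hl hN hG => by
      have hlY : (l : ℝ) ≤ Y := (Nat.le_floor_iff (by linarith)).1 (Nat.lt_succ_iff.1 hN)
      rcases h1 l hl ⟨hG.1, hG.2.1, fun r hr => hG.2.2 r (hS₀T hr)⟩ with h | ⟨p, hp, i, hi, hj, hc, hlg⟩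
      · exact Or.inl ((hSx l).2 ⟨h, by exact_mod_cast hlY.trans hYx⟩)
      · refine Or.inr ⟨p, (hSx p).2 ⟨hp, ?_⟩, i, hi, hj, hc⟩
        have := (Real.log_le_log_iff (by exact_mod_cast (hS p hp).pos) hx0).1
          (hlg.trans (hAY l hlY))
        exact_mod_cast this) h2
    (fun p l₀ g1 g2 g3 g4 g5 g6 => by
      rw [hM]; exact hcov T Y p l₀ hT' hCY hPY g1 g2 g3 g4 g5 g6)
  set Bad := Sx.filter fun p => p ≠ 2 ∧ p ∉ T with hBad
  have hBc : (Bad.card : ℝ) ≤ K := le_trans (Nat.cast_le.2 (Finset.card_filter_le _ _)) hcard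
  have hsum : ∑ p ∈ Bad, (p : ℝ) ^ (-η) ≤ 2 * a⁻¹ := by
    have b1 : ∀ p ∈ Bad, (p : ℝ) ^ (-η) ≤ (a * K)⁻¹ + if p = r₀ then a⁻¹ else 0 := by
      intro p hp
      obtain ⟨hp1, hp2, hp3⟩ := Finset.mem_filter.1 hp
      by_cases hr : p = r₀
      · rw [if_pos hr]
        have : (p : ℝ) ^ (-η) ≤ a⁻¹ := by
          refine hpow a p ha1 ((Nat.le_ceil _).trans ?_)
          have : ⌈a ^ η⁻¹⌉₊ ≤ p := by omega
          exact_mod_cast this
        have : 0 ≤ (a * K)⁻¹ := by positivity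
        linarith
      · rw [if_neg hr, add_zero]
        refine hpow _ p haK (le_of_not_ge fun hle => hp3 ?_)
        exact Finset.mem_erase.2 ⟨hr, Finset.mem_union_right _
          (Finset.mem_filter.2 ⟨hp1, hp2, hle⟩)⟩
    refine (Finset.sum_le_sum b1).trans ?_
    rw [Finset.sum_add_distrib, Finset.sum_const, nsmul_eq_mul, Finset.sum_ite_eq']
    have b2 : (Bad.card : ℝ) * (a * K)⁻¹ ≤ a⁻¹ := by
      calc (Bad.card : ℝ) * (a * K)⁻¹ ≤ K * (a * K)⁻¹ :=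
            mul_le_mul_of_nonneg_right hBc (by positivity)
        _ = a⁻¹ := by field_simp
    have b3 : (if r₀ ∈ Bad then a⁻¹ else 0) ≤ a⁻¹ := by
      split_ifs
      · exact le_rfl
      · positivity
    linarith
  have hfin : (D : ℝ) * ∑ p ∈ Bad, C * ((p : ℝ) ^ (-η) * M + Y ^ (1 - η)) ≤
      c₁ / 4 * M + K * D * C * Y ^ (1 - η) := by
    rw [← Finset.mul_sum, Finset.sum_add_distrib, ← Finset.sum_mul, Finset.sum_const, nsmul_eq_mul]
    have b1 : D * C * ((∑ p ∈ Bad, (p : ℝ) ^ (-η)) * M) ≤ D * C * (2 * a⁻¹ * M) :=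
      mul_le_mul_of_nonneg_left (mul_le_mul_of_nonneg_right hsum hM0) (by positivity)
    have b2 : D * C * a⁻¹ * (2 * M) ≤ c₁ / 8 * (2 * M) :=
      mul_le_mul_of_nonneg_right haD (by positivity)
    have b3 : D * C * (Bad.card * Y ^ (1 - η)) ≤ D * C * (K * Y ^ (1 - η)) :=
      mul_le_mul_of_nonneg_left (mul_le_mul_of_nonneg_right hBc hW0) (by positivity)
    linear_combination b1 + b2 + b3
  have hlow : c₁ * M ≤ c₀ * Y / (2 ^ T.card * Real.log Y) := by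
    rw [mul_div_assoc, ← hM]
    exact mul_le_mul_of_nonneg_right hc₁0 hM0
  refine numer (D := D) (L₀ := L₀) (k := T.card) hc₁ hC hη hη1 hKL hL1 ?_ hYa
    ((two_pow_le T fun r hr => (hT' r hr).1).trans hprod) hM (by linarith)
  have : 8 * (L₀ + 1 + D * C) / (η * c₁) + 1 ≤ B := hB _ (by simp)
  linarith

end Pool.Agent.MP_c481b3_nt.H31
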