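import Pool.Agent.MP_c481b3_nt.H31.SpecL
import Pool.Agent.MP_c481b3_nt.H31.CountB

set_option autoImplicit false

/-! # The counting step in the range of Linnik -/

namespace Pool.Agent.MP_c481b3_nt.H31

open Filter

namespace CC

/-- the asymptotic input -/
lemma asym (c B : ℝ) (hc : 0 < c) (hB : 1 ≤ B) : ∀ᶠ x : ℕ in atTop, 1 ≤ Real.log x ∧
    1 ≤ Real.log (Real.log x) ∧ B ≤ Real.log (Real.log (Real.log x)) ∧
    B ≤ c * (Real.log (Real.log x) / Real.log (Real.log (Real.log x))) := by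
  have t1 : Tendsto (fun x : ℕ => Real.log x) atTop atTop :=
    Real.tendsto_log_atTop.comp tendsto_natCast_atTop_atTop
  have t2 : Tendsto (fun x : ℕ => Real.log (Real.log x)) atTop atTop :=
    Real.tendsto_log_atTop.comp t1
  have t3 : ∀ᶠ u : ℝ in atTop, B ≤ Real.log u ∧ B ≤ c * (u / Real.log u) := by
    have hε : 0 < c / B := by positivity
    filter_upwards [Real.tendsto_log_atTop.eventually_ge_atTop B, eventually_ge_atTop 0,
      Real.isLittleO_log_id_atTop.bound hε] with u h1 h0 h2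
    refine ⟨h1, ?_⟩
    have hv : 0 < Real.log u := by linarith
    rw [Real.norm_of_nonneg hv.le, id, Real.norm_of_nonneg h0, div_mul_eq_mul_div,
      le_div_iff₀ (by positivity)] at h2
    rw [← mul_div_assoc, le_div_iff₀ hv]
    linarith
  filter_upwards [t1.eventually_ge_atTop 1, t2.eventually_ge_atTop 1, t2.eventually t3]
    with x h1 h2 h3
  exact ⟨h1, h2, h3.1, h3.2⟩

end CC

open CB in
theorem countC_of : Cover → PrimesC → CountC := by
  classical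
  intro hCov hPB S S₀ D L₀ A Cov hS hS₀ h1 h2
  obtain ⟨C, η, hC, hη, hη1, hcov⟩ := cover' hCov
  obtain ⟨c₀, hc₀, hPB⟩ := hPB
  obtain ⟨c₁, hc₁, hc₁0, hc₁1⟩ : ∃ c₁ : ℝ, 0 < c₁ ∧ c₁ ≤ c₀ ∧ c₁ ≤ 1 :=
    ⟨min c₀ 1, lt_min hc₀ one_pos, min_le_left _ _, min_le_right _ _⟩
  obtain ⟨a, ha⟩ : ∃ a : ℝ, a = 8 * (D + 1) * C / c₁ := ⟨_, rfl⟩
  have ha1 : 1 ≤ a := by
    rw [ha, le_div_iff₀ hc₁]
    have : (0 : ℝ) ≤ D := Nat.cast_nonneg D
    nlinarith
  have haD : D * C * a⁻¹ ≤ c₁ / 8 := by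
    rw [ha, inv_div, ← mul_div_assoc, div_le_div_iff₀ (by positivity) (by norm_num)]
    have : 0 ≤ C * c₁ := by positivity
    nlinarith
  have hpow : ∀ t p : ℝ, 1 ≤ t → t ^ η⁻¹ ≤ p → p ^ (-η) ≤ t⁻¹ := by
    intro t p ht hp
    have h0 : 0 < t ^ η⁻¹ := Real.rpow_pos_of_pos (by linarith) _
    have := Real.rpow_le_rpow_of_nonpos h0 hp (by linarith : -η ≤ 0)
    rwa [← Real.rpow_mul (by linarith), mul_neg, inv_mul_cancel₀ hη.ne', Real.rpow_neg_one] at this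
  obtain ⟨C₂, hC₂, hPB⟩ := hPB (C + 4 / η) (S₀.sup id + ⌈a ^ η⁻¹⌉₊)
  obtain ⟨c, hc, hc2⟩ : ∃ c : ℝ, 0 < c ∧ c = η / (10 * C₂) := ⟨_, by positivity, rfl⟩
  have hc3 : c ≤ 1 := by
    rw [hc2, div_le_one (by positivity)]; linarith
  obtain ⟨B, hB⟩ : ∃ B : ℝ, ∀ t ∈ ({1, a, 2 / η, C, C₂, 5 * A, (S₀.card : ℝ),
      2 * Real.log (∏ r ∈ S₀, (r : ℝ)), 8 * (L₀ + 1 + D * C) / (η * c₁) + 1} : Set ℝ), t ≤ B :=
    (Set.toFinite _).bddAbove
  have hB1 : 1 ≤ B := hB _ (by simp)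
  refine ⟨c, hc, ?_⟩
  filter_upwards [CC.asym c B hc hB1] with x ⟨hx1, hx2, hx3, hBK⟩
  by_contra hlt
  rw [not_le] at hlt
  set u := Real.log (Real.log x) with hu
  set v := Real.log u with hv
  set K := c * (u / v) with hK
  have hv1 : 1 ≤ v := hB1.trans hx3
  have hv0 : 0 < v := by linarith
  have hKv : K * v = c * u := by
    rw [hK]; field_simp
  have hK1 : 1 ≤ K := hB1.trans hBK
  have hKvu : K * v ≤ u := by
    rw [hKv]
    exact mul_le_of_le_one_left (by linarith) hc3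
  have hKu : K ≤ u := (le_mul_of_one_le_right (by linarith) hv1).trans hKvu
  obtain ⟨L, hL⟩ : ∃ L : ℝ, L = 2 / η * K * v := ⟨_, rfl⟩
  have hη2 : 2 ≤ 2 / η := by rw [le_div_iff₀ hη]; linarith
  have hKL : K ≤ L := by
    rw [hL]
    have : K ≤ 2 / η * K := le_mul_of_one_le_left (by linarith) (by linarith)
    exact this.trans (le_mul_of_one_le_right (by linarith) hv1)
  have hL1 : 1 ≤ L := hK1.trans hKL
  have haK : 1 ≤ a * K := one_le_mul_of_one_le_of_one_le ha1 hK1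
  have haKu : a * K ≤ u := by
    have : a * K ≤ v * K := mul_le_mul_of_nonneg_right ((hB _ (by simp)).trans hx3) (by linarith)
    linarith
  obtain ⟨Sx, hSx⟩ : ∃ Sx : Finset ℕ, ∀ p, p ∈ Sx ↔ p ∈ S ∧ p ≤ x :=
    ⟨(Finset.range (x + 1)).filter (· ∈ S), fun p => by simp [and_comm]⟩
  have hcard : (Sx.card : ℝ) ≤ K := by
    have : ({p ∈ S | p ≤ x} : Set ℕ) = ↑Sx := Set.ext fun p => (hSx p).symm
    rw [this, Set.ncard_coe_finset] at hlt
    exact hlt.le
  have hSp : ∀ p ∈ Sx, p.Prime := fun p hp => hS p ((hSx p).1 hp).1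
  set U := Sx.filter fun p : ℕ => p ≠ 2 ∧ (p : ℝ) ≤ (a * K) ^ η⁻¹ with hU
  have hUc : (U.card : ℝ) ≤ K :=
    le_trans (Nat.cast_le.2 (Finset.card_filter_le _ _)) hcard
  have hT : ∀ r ∈ S₀ ∪ U, r.Prime ∧ r ≠ 2 := fun r hr =>
    (Finset.mem_union.1 hr).elim (hS₀ r) fun h =>
      ⟨hSp r (Finset.mem_filter.1 h).1, (Finset.mem_filter.1 h).2.1⟩
  have hlogT : Real.log (∏ r ∈ S₀ ∪ U, (r : ℝ)) ≤ L := by
    refine (log_prod_le S₀ U (fun r hr => (hS₀ r hr).1) (fun r hr => hSp r (Finset.mem_filter.1 hr).1)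
      fun r hr => (Finset.mem_filter.1 hr).2.2).trans ?_
    have b1 : 2 * Real.log (∏ r ∈ S₀, (r : ℝ)) ≤ L := (hB _ (by simp)).trans (hBK.trans hKL)
    have b2 : Real.log ((a * K) ^ η⁻¹) ≤ η⁻¹ * v := by
      rw [Real.log_rpow (by linarith)]
      exact mul_le_mul_of_nonneg_left (Real.log_le_log (by linarith) haKu) (by positivity)
    have b3 : 0 ≤ Real.log ((a * K) ^ η⁻¹) :=
      Real.log_nonneg (Real.one_le_rpow haK (by positivity))
    have b4 : U.card * Real.log ((a * K) ^ η⁻¹) ≤ K * (η⁻¹ * v) :=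
      mul_le_mul hUc b2 b3 (by linarith)
    have b5 : K * (η⁻¹ * v) = L / 2 := by rw [hL]; field_simp
    linarith
  obtain ⟨r₀, hr₀, Y, hY1, hY2, hY3⟩ :=
    hPB (S₀ ∪ U) L hT ((hB _ (by simp)).trans (hBK.trans hKL)) hlogT
  set T := (S₀ ∪ U).erase r₀ with hTdef
  have hT' : ∀ r ∈ T, r.Prime ∧ r ≠ 2 := fun r hr => hT r (Finset.mem_of_mem_erase hr)
  have hprod : ∏ r ∈ T, (r : ℝ) ≤ Real.exp L := by
    refine (prod_mono (fun r hr => (hT r hr).1) (Finset.erase_subset _ _)).trans ?_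
    refine (Real.log_le_iff_le_exp ?_).1 hlogT
    exact Finset.prod_pos fun r hr => by exact_mod_cast (hT r hr).1.pos
  have h4η : 0 ≤ 4 / η * L := by positivity
  have hCL : 0 ≤ C * L := by positivity
  have hYa : Real.exp (4 / η * L) ≤ Y := (Real.exp_le_exp.2 (by linarith)).trans hY1
  have hYb : Real.exp (C * L) ≤ Y := (Real.exp_le_exp.2 (by linarith)).trans hY1
  have hCY : C ≤ Y := by
    have : C ≤ C * L := le_mul_of_one_le_right (by linarith) hL1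
    linarith [Real.add_one_le_exp (C * L)]
  have hY0 : 1 ≤ Y := hC.trans hCY
  have hPY : (∏ r ∈ T, (r : ℝ)) ^ C ≤ Y := by
    refine le_trans (Real.rpow_le_rpow (Finset.prod_nonneg fun r _ => Nat.cast_nonneg r) hprod
      (by linarith)) ?_
    rwa [← Real.exp_mul, mul_comm]
  have hYu : Y ≤ Real.exp (u / 5) := by
    refine hY2.trans (Real.exp_le_exp.2 ?_)
    refine le_of_eq ?_
    calc C₂ * L = 2 * C₂ / η * (K * v) := by rw [hL]; ring
      _ = u / 5 := by rw [hKv, hc2]; field_simp; ring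
  have hexpu : Real.exp u = Real.log x := Real.exp_log (by linarith)
  have hx0 : (0 : ℝ) < x := by
    rcases Nat.eq_zero_or_pos x with h | h
    · rw [h, Nat.cast_zero, Real.log_zero] at hx1; linarith
    · exact_mod_cast h
  have hYx : Y ≤ x := by
    have b1 : Real.exp (u / 5) ≤ Real.exp u := Real.exp_le_exp.2 (by linarith)
    have b2 := Real.log_le_sub_one_of_pos hx0
    linarith
  have hAY : ∀ l : ℕ, (l : ℝ) ≤ Y → A * (l : ℝ) ^ 4 ≤ Real.log x := by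
    intro l hl
    have b1 : A ≤ Real.exp (u / 5) := by
      have : 5 * A ≤ B := hB _ (by simp)
      linarith [Real.add_one_le_exp (u / 5)]
    have b2 : (l : ℝ) ^ 4 ≤ Real.exp (u / 5) ^ 4 :=
      pow_le_pow_left₀ (Nat.cast_nonneg l) (hl.trans hYu) 4
    calc A * (l : ℝ) ^ 4 ≤ Real.exp (u / 5) * Real.exp (u / 5) ^ 4 :=
          mul_le_mul b1 b2 (by positivity) (Real.exp_pos _).le
      _ = Real.log x := by
          rw [← hexpu, ← pow_succ', ← Real.exp_nat_mul]; congr 1; push_cast; ring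
  have hS₀T : S₀ ⊆ T := fun r hr => Finset.mem_erase.2 ⟨fun h => by
    have : r ≤ S₀.sup id := Finset.le_sup (f := id) hr
    omega, Finset.mem_union_left _ hr⟩
  obtain ⟨M, hM⟩ : ∃ M : ℝ, M = Y / (2 ^ T.card * Real.log Y) := ⟨_, rfl⟩
  have hM0 : 0 ≤ M := by
    rw [hM]
    exact div_nonneg (by linarith) (mul_nonneg (by positivity) (Real.log_nonneg hY0))
  have hW0 : 0 ≤ Y ^ (1 - η) := Real.rpow_nonneg (by linarith) _
  have hcount := count Sx T D L₀ (⌊Y⌋₊ + 1) Cov (fun p => C * ((p : ℝ) ^ (-η) * M + Y ^ (1 - η)))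
    (fun p => by positivity) hSp (fun l hl hN hG => by
      have hlY : (l : ℝ) ≤ Y := (Nat.le_floor_iff (by linarith)).1 (Nat.lt_succ_iff.1 hN)
      rcases h1 l hl ⟨hG.1, hG.2.1, fun r hr => hG.2.2 r (hS₀T hr)⟩ with h | ⟨p, hp, i, hi, hj, hc, hlg⟩
      · exact Or.inl ((hSx l).2 ⟨h, by exact_mod_cast hlY.trans hYx⟩)
      · refine Or.inr ⟨p, (hSx p).2 ⟨hp, ?_⟩, i, hi, hj, hc⟩
        have := (Real.log_le_log_iff (by exact_mod_cast (hS p hp).pos) hx0).1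
          (hlg.trans (hAY l hlY))
        exact_mod_cast this) h2
    (fun p l₀ g1 g2 g3 g4 g5 g6 => by
      rw [hM]; exact hcov T Y p l₀ hT' hCY hPY g1 g2 g3 g4 g5 g6)
  set Bad := Sx.filter fun p => p ≠ 2 ∧ p ∉ T with hBad
  have hBc : (Bad.card : ℝ) ≤ K := le_trans (Nat.cast_le.2 (Finset.card_filter_le _ _)) hcard
  have hsum : ∑ p ∈ Bad, (p : ℝ) ^ (-η) ≤ 2 * a⁻¹ := by
    have b1 : ∀ p ∈ Bad, (p : ℝ) ^ (-η) ≤ (a * K)⁻¹ + if p = r₀ then a⁻¹ else 0 := by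
      intro p hp
      obtain ⟨hp1, hp2, hp3⟩ := Finset.mem_filter.1 hp
      by_cases hr : p = r₀
      · rw [if_pos hr]
        have : (p : ℝ) ^ (-η) ≤ a⁻¹ := by
          refine hpow a p ha1 ((Nat.le_ceil _).trans ?_)
          have : ⌈a ^ η⁻¹⌉₊ ≤ p := by omega
          exact_mod_cast this
        have : 0 ≤ (a * K)⁻¹ := by positivity
        linarith
      · rw [if_neg hr, add_zero]
        refine hpow _ p haK (le_of_not_ge fun hle => hp3 ?_)
        exact Finset.mem_erase.2 ⟨hr, Finset.mem_union_right _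
          (Finset.mem_filter.2 ⟨hp1, hp2, hle⟩)⟩
    refine (Finset.sum_le_sum b1).trans ?_
    rw [Finset.sum_add_distrib, Finset.sum_const, nsmul_eq_mul, Finset.sum_ite_eq']
    have b2 : (Bad.card : ℝ) * (a * K)⁻¹ ≤ a⁻¹ := by
      calc (Bad.card : ℝ) * (a * K)⁻¹ ≤ K * (a * K)⁻¹ :=
            mul_le_mul_of_nonneg_right hBc (by positivity)
        _ = a⁻¹ := by field_simp
    have b3 : (if r₀ ∈ Bad then a⁻¹ else 0) ≤ a⁻¹ := by
      split_ifs
      · exact le_rfl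
      · positivity
    linarith
  have hfin : (D : ℝ) * ∑ p ∈ Bad, C * ((p : ℝ) ^ (-η) * M + Y ^ (1 - η)) ≤
      c₁ / 4 * M + K * D * C * Y ^ (1 - η) := by
    rw [← Finset.mul_sum, Finset.sum_add_distrib, ← Finset.sum_mul, Finset.sum_const, nsmul_eq_mul]
    have b1 : D * C * ((∑ p ∈ Bad, (p : ℝ) ^ (-η)) * M) ≤ D * C * (2 * a⁻¹ * M) :=
      mul_le_mul_of_nonneg_left (mul_le_mul_of_nonneg_right hsum hM0) (by positivity)
    have b2 : D * C * a⁻¹ * (2 * M) ≤ c₁ / 8 * (2 * M) :=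
      mul_le_mul_of_nonneg_right haD (by positivity)
    have b3 : D * C * (Bad.card * Y ^ (1 - η)) ≤ D * C * (K * Y ^ (1 - η)) :=
      mul_le_mul_of_nonneg_left (mul_le_mul_of_nonneg_right hBc hW0) (by positivity)
    linear_combination b1 + b2 + b3
  have hlow : c₁ * M ≤ c₀ * Y / (2 ^ T.card * Real.log Y) := by
    rw [mul_div_assoc, ← hM]
    exact mul_le_mul_of_nonneg_right hc₁0 hM0
  refine numer (D := D) (L₀ := L₀) (k := T.card) hc₁ hC hη hη1 hKL hL1 ?_ hYa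
    ((two_pow_le T fun r hr => (hT' r hr).1).trans hprod) hM (by linarith)
  have : 8 * (L₀ + 1 + D * C) / (η * c₁) + 1 ≤ B := hB _ (by simp)
  linarith

end Pool.Agent.MP_c481b3_nt.H31
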