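import Pool.Agent.MP_c481b3_nt.H31.SpecL

set_option autoImplicit false

namespace Pool.Agent.MP_c481b3_nt.H31

open MeasureTheory Finset

namespace DensAux

lemma ind_int {g r : ℝ} (hg : |g| ≤ 1 / 32) (h0 : 0 < r) (hr : r ≤ 1 / 32) :
    IntervalIntegrable (fun t : ℝ => if |g - t| ≤ r then (1 : ℝ) else 0) volume (-1) 1 ∧
      ∫ t in (-1 : ℝ)..1, (if |g - t| ≤ r then (1 : ℝ) else 0) = 2 * r := by
  have e : (fun t : ℝ => if |g - t| ≤ r then (1 : ℝ) else 0) =
      (Set.Icc (g - r) (g + r)).indicator fun _ => 1 := by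
    funext t
    simp only [Set.indicator, Set.mem_Icc, abs_le]
    exact if_congr ⟨fun h => ⟨by linarith [h.2], by linarith [h.1]⟩,
      fun h => ⟨by linarith [h.2], by linarith [h.1]⟩⟩ rfl rfl
  obtain ⟨g1, g2⟩ := abs_le.1 hg
  rw [e]
  refine ⟨?_, ?_⟩
  · rw [intervalIntegrable_iff]
    exact (intervalIntegrable_iff.1 intervalIntegrable_const).indicator measurableSet_Icc
  · rw [intervalIntegral.integral_of_le (by norm_num), setIntegral_indicator measurableSet_Icc,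
      Set.inter_eq_right.2 fun t ht => Set.mem_Ioc.2 ⟨by linarith [ht.1], by linarith [ht.2]⟩]
    simp only [integral_const, MeasurableSet.univ, measureReal_restrict_apply, Set.univ_inter,
      smul_eq_mul, mul_one]
    rw [Real.volume_real_Icc_of_le (by linarith)]
    ring

lemma cnt_int {r : ℝ} (h0 : 0 < r) (hr : r ≤ 1 / 32) (G : Multiset ℂ)
    (hG : ∀ ρ ∈ G, |ρ.im| ≤ 1 / 32) :
    IntervalIntegrable (fun t : ℝ => ((G.filter fun ρ => |ρ.im - t| ≤ r).card : ℝ)) volume (-1) 1 ∧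
      ∫ t in (-1 : ℝ)..1, ((G.filter fun ρ => |ρ.im - t| ≤ r).card : ℝ) = 2 * r * G.card := by
  induction G using Multiset.induction_on with
  | empty => simp
  | cons a s ih =>
    obtain ⟨i1, i2⟩ := ih fun ρ h => hG ρ (Multiset.mem_cons_of_mem h)
    obtain ⟨j1, j2⟩ := ind_int (hG a (Multiset.mem_cons_self a s)) h0 hr
    have e : (fun t : ℝ => (((a ::ₘ s).filter fun ρ => |ρ.im - t| ≤ r).card : ℝ)) = fun t : ℝ =>
        ((s.filter fun ρ => |ρ.im - t| ≤ r).card : ℝ) + if |a.im - t| ≤ r then 1 else 0 := by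
      funext t
      split_ifs with h <;> simp [h]
    rw [e]
    refine ⟨i1.add j1, ?_⟩
    rw [intervalIntegral.integral_add i1 j1, i2, j2, Multiset.card_cons]
    push_cast
    ring

lemma cont_DP (χ b : ℕ → ℝ) (X N : ℕ) : Continuous fun t => ‖DP χ b X N t‖ ^ 2 := by
  refine (Continuous.norm ?_).pow 2
  refine continuous_finsetSum _ fun n hn => continuous_const.mul ?_
  refine Continuous.const_cpow (by fun_prop) (Or.inl ?_)
  have := (mem_Ioc.1 hn).1
  exact_mod_cast (by omega : n ≠ 0)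

lemma bw_le {r : ℝ} (h0 : 0 < r) (j n : ℕ) : |bw r j n| ≤ 1 := by
  have hx : 0 ≤ r * Real.log n := mul_nonneg h0.le (Real.log_natCast_nonneg n)
  have := Real.pow_div_factorial_le_exp _ hx j
  rw [bw, abs_of_nonneg (by positivity), Real.exp_neg, mul_div_right_comm, ← div_eq_mul_inv,
    div_le_one (Real.exp_pos _)]
  exact this

/-- the count of the zeros of one character -/
lemma one {r B A : ℝ} {M : ℕ} (h0 : 0 < r) (hr : r ≤ 1 / 32) (hB : 0 ≤ B) (Z : Multiset ℂ)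
    (hZ : ∀ ρ ∈ Z, ρ.re ≤ 1) (F : ℕ → ℝ → ℂ) (hF : ∀ j, Continuous fun t => ‖F j t‖ ^ 2)
    (h : ∀ t : ℝ, |t| ≤ 1 / 16 →
      (((Z.filter fun ρ => ‖ρ - (1 + t * Complex.I)‖ ≤ 2 * r).card : ℝ) ≤ B) ∧
      ∀ ρ ∈ Z, ‖ρ - (1 + t * Complex.I)‖ ≤ 2 * r → ∃ j : ℕ, M ≤ j ∧ j < 2 * M ∧
        1 ≤ A * ‖F j t‖) :
    2 * r * ((Z.filter fun ρ => 1 - ρ.re ≤ r ∧ |ρ.im| ≤ 1 / 32).card : ℝ) ≤
      B * A ^ 2 * ∑ j ∈ Ico M (2 * M), ∫ t in (-1 : ℝ)..1, ‖F j t‖ ^ 2 := by
  obtain ⟨i1, i2⟩ := cnt_int h0 hr (Z.filter fun ρ => 1 - ρ.re ≤ r ∧ |ρ.im| ≤ 1 / 32)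
    fun ρ hρ => (Multiset.mem_filter.1 hρ).2.2
  rw [← i2, ← intervalIntegral.integral_finsetSum fun j _ => (hF j).intervalIntegrable _ _,
    ← intervalIntegral.integral_const_mul]
  refine intervalIntegral.integral_mono (by norm_num) i1
    ((continuous_const.mul (continuous_finsetSum _ fun j _ => hF j)).intervalIntegrable _ _)
    fun t => ?_
  have near : ∀ ρ ∈ Z, 1 - ρ.re ≤ r → |ρ.im - t| ≤ r → ‖ρ - (1 + t * Complex.I)‖ ≤ 2 * r := by
    intro ρ hρ a b
    refine (Complex.norm_le_abs_re_add_abs_im _).trans ?_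
    have := hZ ρ hρ
    have c : |ρ.re - 1| ≤ r := abs_le.2 ⟨by linarith, by linarith⟩
    simp only [Complex.sub_re, Complex.add_re, Complex.one_re, Complex.mul_re, Complex.ofReal_re,
      Complex.I_re, mul_zero, Complex.ofReal_im, Complex.I_im, mul_one, sub_self, add_zero,
      Complex.sub_im, Complex.add_im, Complex.one_im, Complex.mul_im, zero_add]
    linarith
  dsimp only
  rcases eq_or_ne (((Z.filter fun ρ => 1 - ρ.re ≤ r ∧ |ρ.im| ≤ 1 / 32).filter
    fun ρ => |ρ.im - t| ≤ r)) 0 with e | e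
  · rw [e]
    simp only [Multiset.card_zero, Nat.cast_zero]
    positivity
  obtain ⟨ρ, hρ⟩ := Multiset.exists_mem_of_ne_zero e
  simp only [Multiset.mem_filter] at hρ
  obtain ⟨⟨a1, a2, a3⟩, a4⟩ := hρ
  have ht : |t| ≤ 1 / 16 := by
    obtain ⟨b1, b2⟩ := abs_le.1 a3
    obtain ⟨b3, b4⟩ := abs_le.1 a4
    exact abs_le.2 ⟨by linarith, by linarith⟩
  obtain ⟨h1, h2⟩ := h t ht
  obtain ⟨j, j1, j2, j3⟩ := h2 ρ a1 (near ρ a1 a2 a4)
  have s1 : ‖F j t‖ ^ 2 ≤ ∑ j ∈ Ico M (2 * M), ‖F j t‖ ^ 2 :=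
    single_le_sum (f := fun j => ‖F j t‖ ^ 2) (fun _ _ => by positivity) (mem_Ico.2 ⟨j1, j2⟩)
  have s2 : 1 ≤ A ^ 2 * ∑ j ∈ Ico M (2 * M), ‖F j t‖ ^ 2 :=
    calc (1 : ℝ) ≤ (A * ‖F j t‖) ^ 2 := one_le_pow₀ j3
      _ = A ^ 2 * ‖F j t‖ ^ 2 := mul_pow _ _ _
      _ ≤ _ := by gcongr
  rw [mul_assoc]
  refine le_trans ?_ (le_mul_of_one_le_right hB s2)
  refine le_trans ?_ h1
  rw [Multiset.filter_filter, Nat.cast_le]
  refine Multiset.card_le_card (Multiset.le_filter.2 ⟨Multiset.filter_le _ _, fun σ hσ => ?_⟩)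
  obtain ⟨c1, c2, c3, -⟩ := Multiset.mem_filter.1 hσ
  exact near σ c1 c3 c2

lemma le_exp (x : ℝ) : x ≤ Real.exp x := by linarith [Real.add_one_le_exp x]

end DensAux

open DensAux in
theorem dens_of : Det → LS → Dens := by
  rintro ⟨A, hA, hD⟩ ⟨E, hE, hL⟩ K hK
  obtain ⟨C, hC, hD⟩ := hD K hK
  obtain ⟨c, hc⟩ : ∃ c, c = C + A * (E + 1) := ⟨_, rfl⟩
  have c1 : C ≤ c := by nlinarith
  have c2 : A * (E + 1) ≤ c := by linarith
  have c3 : 0 ≤ A * c := by nlinarith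
  refine ⟨C + E + 4 * (A * c) + A + 4 * c + 32, by linarith, fun S L r Z hS hZ hl hr => ?_⟩
  have L4 : 4 ≤ L := by
    have := Real.log_natCast_nonneg (∏ r ∈ S, r)
    push_cast at this
    linarith [hS.2]
  have r0 : 0 < r := by nlinarith
  have r1 : r ≤ 1 / 32 := by nlinarith
  have r2 : r * A ≤ 1 := by nlinarith
  obtain ⟨M, M1, M2⟩ : ∃ M : ℕ, c * (r * L) ≤ M ∧ (M : ℝ) ≤ 2 * c * (r * L) :=
    ⟨⌈c * (r * L)⌉₊, Nat.le_ceil _, by
      have := Nat.ceil_lt_add_one (a := c * (r * L)) (by nlinarith)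
      nlinarith⟩
  have M0 : (0 : ℝ) ≤ M := Nat.cast_nonneg M
  have hX : Real.exp (E * L) ≤ ⌊Real.exp (M / (A * r))⌋₊ := by
    have a : E * L + L ≤ M / (A * r) := by
      rw [le_div_iff₀ (by positivity)]
      nlinarith [mul_le_mul_of_nonneg_right c2 (zero_le_one.trans hl)]
    have b := Real.exp_le_exp.2 a
    rw [Real.exp_add] at b
    have d := Nat.lt_floor_add_one (Real.exp (M / (A * r)))
    have e := Real.one_le_exp (x := E * L) (by nlinarith)
    nlinarith [le_exp L]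
  have hN : ⌊Real.exp (M / (A * r))⌋₊ ≤ ⌊Real.exp (A * M / r)⌋₊ := by
    refine Nat.floor_le_floor (Real.exp_le_exp.2 ?_)
    rw [div_le_div_iff₀ (by positivity) r0]
    have : 1 ≤ A * A := by nlinarith
    nlinarith [mul_nonneg M0 r0.le]
  have lN : Real.log (⌊Real.exp (A * M / r)⌋₊ : ℕ) ≤ A * M / r := by
    rw [Real.log_le_iff_le_exp (by exact_mod_cast Nat.floor_pos.2 (Real.one_le_exp (by positivity)))]
    exact Nat.floor_le (Real.exp_pos _).le
  have key := sum_le_sum (s := (TS S).powerset.erase ∅) fun D hDm =>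
    one (M := M) (A := A ^ M * r) (B := C * (r * L)) r0 r1 (by positivity) (Z D) (hZ D hDm).re _
      (fun j => cont_DP (ch D) (bw r j) _ _) fun t ht =>
        hD L r t M (ch D) (Z D) (hZ D hDm) hl r0 r2 ht (by nlinarith)
  rw [← mul_sum, ← mul_sum, sum_comm] at key
  have k2 := sum_le_card_nsmul (Ico M (2 * M)) _ (E * (A * M / r)) fun j _ =>
    (sum_le_sum_of_subset_of_nonneg (erase_subset ∅ (TS S).powerset) fun D _ _ =>
      intervalIntegral.integral_nonneg (by norm_num) fun t _ => by positivity).trans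
      ((hL S L _ _ (bw r j) hS hX hN (bw_le r0 j)).trans (by gcongr))
  rw [Nat.card_Ico, show 2 * M - M = M by omega, nsmul_eq_mul] at k2
  have k3 := key.trans (mul_le_mul_of_nonneg_left k2 (by positivity))
  have k4 : C * (r * L) * (A ^ M * r) ^ 2 * (M * (E * (A * M / r))) =
      r * (C * (r * L) * E * A * (A ^ M * A ^ M) * (M * M)) := by
    field_simp
  have aM : A ^ M ≤ Real.exp (M * A) := by
    rw [Real.exp_nat_mul]
    exact pow_le_pow_left₀ (by linarith) (le_exp A) M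
  have k5 : C * (r * L) * E * A * (A ^ M * A ^ M) * (M * M) ≤
      Real.exp (C + r * L + E + A + (M * A + M * A) + (M + M)) := by
    simp only [Real.exp_add]
    gcongr <;> exact le_exp _
  have k6 : C + r * L + E + A + (M * A + M * A) + (M + M) ≤
      (C + E + 4 * (A * c) + A + 4 * c + 32) * (r * L) := by
    nlinarith [mul_le_mul_of_nonneg_right M2 (zero_le_one.trans hA)]
  rw [k4] at k3
  have k7 := k3.trans (mul_le_mul_of_nonneg_left (k5.trans (Real.exp_le_exp.2 k6)) r0.le)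
  have := Real.exp_pos ((C + E + 4 * (A * c) + A + 4 * c + 32) * (r * L))
  nlinarith

end Pool.Agent.MP_c481b3_nt.H31
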