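import Pool.Agent.MP_c481b3_nt.H31.SpecL

set_option autoImplicit false

namespace Pool.Agent.MP_c481b3_nt.H31

open Pool.Agent.MP_c481b3_nt.H63 ArithmeticFunction

namespace DetAux

lemma cnt (Z : Multiset ℂ) (f : ℂ → ℝ) (hf : ∀ ρ, 0 ≤ f ρ) (p : ℂ → Prop) [DecidablePred p]
    {θ : ℝ} (h : ∀ ρ ∈ Z, p ρ → θ ≤ f ρ) : ((Z.filter p).card : ℝ) * θ ≤ (Z.map f).sum := by
  induction Z using Multiset.induction_on with
  | empty => simp
  | cons a Z ih =>
    have h1 := ih fun ρ hρ => h ρ (Multiset.mem_cons_of_mem hρ)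
    have h2 := h a (Multiset.mem_cons_self _ _)
    have h3 := hf a
    rw [Multiset.map_cons, Multiset.sum_cons]
    by_cases hp : p a
    · rw [Multiset.filter_cons_of_pos _ hp, Multiset.card_cons]
      push_cast
      linarith [h2 hp]
    · rw [Multiset.filter_cons_of_neg _ hp]
      linarith

lemma rest (Z : Multiset ℂ) (f : ℂ → ℝ) (g : ℂ → ℂ) (hf : ∀ ρ, 0 ≤ f ρ) (p : ℂ → Prop)
    [DecidablePred p] {c : ℝ} (hc : 0 ≤ c) (h : ∀ ρ, ¬p ρ → ‖g ρ‖ ≤ c * f ρ) :
    ‖(Z.map g).sum - ((Z.filter p).map g).sum‖ ≤ c * (Z.map f).sum := by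
  induction Z using Multiset.induction_on with
  | empty => simp
  | cons a Z ih =>
    have h3 := mul_nonneg hc (hf a)
    rw [Multiset.map_cons, Multiset.sum_cons, Multiset.map_cons, Multiset.sum_cons, mul_add]
    by_cases hp : p a
    · rw [Multiset.filter_cons_of_pos _ hp, Multiset.map_cons, Multiset.sum_cons,
        add_sub_add_left_eq_sub]
      linarith
    · rw [Multiset.filter_cons_of_neg _ hp, add_sub_assoc]
      exact (norm_add_le _ _).trans (add_le_add (h a hp) ih)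

lemma le_re (Z : Multiset ℂ) (f : ℂ → ℝ) (g : ℂ → ℂ) (h : ∀ ρ ∈ Z, f ρ ≤ (g ρ).re) :
    (Z.map f).sum ≤ ((Z.map g).sum).re := by
  induction Z using Multiset.induction_on with
  | empty => simp
  | cons a Z ih =>
    rw [Multiset.map_cons, Multiset.sum_cons, Multiset.map_cons, Multiset.sum_cons, Complex.add_re]
    exact add_le_add (h a (Multiset.mem_cons_self _ _))
      (ih fun ρ hρ => h ρ (Multiset.mem_cons_of_mem hρ))

lemma small {y c : ℝ} {j : ℕ} (hj : 1 ≤ j) (hy : 0 ≤ y) (hc : 1 ≤ c) (h : c * y * 10 ^ 6 ≤ 1) :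
    c * y ^ j ≤ (1 / 1000) ^ (j + 1) := by
  have h1 : 1000 * y ≤ 1 := by nlinarith
  have h2 : (1000 * y) ^ j ≤ 1000 * y := pow_le_of_le_one (by positivity) h1 (by omega)
  have h3 : c * y ^ j = c * (1000 * y) ^ j * (1 / 1000) ^ j := by
    rw [mul_assoc, ← mul_pow]
    congr 2
    ring
  rw [h3, pow_succ']
  refine mul_le_mul_of_nonneg_right ?_ (by positivity)
  nlinarith [mul_le_mul_of_nonneg_left h2 (zero_le_one.trans hc)]

/-- the majorant -/
noncomputable def w (r : ℝ) (n : ℕ) : ℝ := vonMangoldt n * Real.exp (-(r / 2 * Real.log n)) / n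

lemma w_eq (r : ℝ) (n : ℕ) : w r n = vonMangoldt n * (n : ℝ) ^ (-(1 + r / 2)) := by
  rcases n.eq_zero_or_pos with rfl | hn
  · simp [w]
  have h : (0 : ℝ) < n := by exact_mod_cast hn
  rw [w, neg_add, Real.rpow_add h, Real.rpow_neg_one, Real.rpow_def_of_pos h]
  rw [show Real.log n * -(r / 2) = -(r / 2 * Real.log n) by ring]
  ring

lemma w_sum {C r : ℝ}
    (H : ∀ s : ℂ, 1 < s.re → ‖s - 1‖ ≤ 1 → ‖MoC (fun _ => 1) 0 s - (s - 1)⁻¹‖ ≤ C)
    (hr : 0 < r) (h1 : r ≤ 1) (h2 : r * C ≤ 1) : ∃ S, HasSum (w r) S ∧ r * S ≤ 3 := by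
  have hs : Summable (w r) := by
    have := (LSeriesSummable_vonMangoldt (s := ((1 + r / 2 : ℝ) : ℂ)) (by simpa using hr)).norm
    refine this.congr fun n => ?_
    rw [LSeries.norm_term_eq, w_eq, Complex.ofReal_re, Complex.norm_real,
      Real.norm_of_nonneg vonMangoldt_nonneg, Real.rpow_neg n.cast_nonneg]
    split_ifs with h
    · simp [h]
    · rfl
  refine ⟨_, hs.hasSum, ?_⟩
  have e : MoC (fun _ => 1) 0 ((1 + r / 2 : ℝ) : ℂ) = ((∑' n, w r n : ℝ) : ℂ) := by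
    rw [MoC, Complex.ofReal_tsum]
    refine tsum_congr fun n => ?_
    rw [w_eq, pow_zero, mul_one, mul_one, Complex.ofReal_mul, Complex.ofReal_cpow n.cast_nonneg,
      Complex.ofReal_natCast, Complex.ofReal_neg]
  have h3 := H ((1 + r / 2 : ℝ) : ℂ) (by simpa using hr) (by
    rw [← Complex.ofReal_one, ← Complex.ofReal_sub, Complex.norm_real, Real.norm_eq_abs, abs_le]
    constructor <;> linarith)
  rw [e, ← Complex.ofReal_one, ← Complex.ofReal_sub, ← Complex.ofReal_inv, ← Complex.ofReal_sub,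
    Complex.norm_real, Real.norm_eq_abs, abs_le] at h3
  have h4 : r * (1 + r / 2 - 1)⁻¹ = 2 := by
    rw [add_sub_cancel_left]
    field_simp
  nlinarith [mul_le_mul_of_nonneg_left h3.2 hr.le]

lemma bw_nonneg {r : ℝ} (hr : 0 < r) (j n : ℕ) : 0 ≤ bw r j n := by
  have := Real.log_natCast_nonneg n
  unfold bw
  positivity

/-- the terms of the detector -/
noncomputable def tm (χ : ℕ → ℝ) (r t : ℝ) (j n : ℕ) : ℂ :=
  ((vonMangoldt n * χ n * bw r j n : ℝ) : ℂ) * (n : ℂ) ^ (-(1 + t * Complex.I))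

lemma moc_eq (χ : ℕ → ℝ) (r t : ℝ) (j : ℕ) :
    (r : ℂ) ^ j * (MoC χ j (1 + t * Complex.I + r) / j.factorial) = ∑' n, tm χ r t j n := by
  rw [MoC, ← tsum_div_const, ← tsum_mul_left]
  refine tsum_congr fun n => ?_
  rcases n.eq_zero_or_pos with rfl | hn
  · simp [tm]
  have h : (n : ℂ) ≠ 0 := by exact_mod_cast hn.ne'
  rw [tm, neg_add _ (r : ℂ), Complex.cpow_add _ _ h, Complex.cpow_def_of_ne_zero h (-(r : ℂ)), bw,
    ← Complex.natCast_log]
  push_cast
  rw [show Complex.log n * -(r : ℂ) = -(r * Complex.log n) by ring]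
  ring

lemma tm_le {χ : ℕ → ℝ} (hχ : ∀ n, |χ n| ≤ 1) {r t ε : ℝ} (hr : 0 < r) {j n : ℕ}
    (h : bw r j n ≤ ε * Real.exp (-(r / 2 * Real.log n))) : ‖tm χ r t j n‖ ≤ ε * w r n := by
  rcases n.eq_zero_or_pos with rfl | hn
  · simp [tm, w]
  have h0 : (0 : ℝ) ≤ vonMangoldt n := vonMangoldt_nonneg
  have h1 := bw_nonneg hr j n
  rw [tm, norm_mul, Complex.norm_natCast_cpow_of_pos hn, Complex.norm_real, Real.norm_eq_abs,
    abs_mul, abs_mul, abs_of_nonneg h0, abs_of_nonneg h1,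
    show (-(1 + t * Complex.I)).re = -1 by simp, Real.rpow_neg_one, w, ← mul_div_assoc,
    div_eq_mul_inv]
  refine mul_le_mul_of_nonneg_right ?_ (by positivity)
  rw [mul_left_comm, mul_assoc]
  exact mul_le_mul_of_nonneg_left ((mul_le_of_le_one_left h1 (hχ n)).trans h) h0

lemma tail {a : ℕ → ℂ} {g : ℕ → ℝ} {S : ℝ} (hg : HasSum g S) (h0 : ∀ n, 0 ≤ g n) (s : Finset ℕ)
    (h : ∀ n ∉ s, ‖a n‖ ≤ g n) : ‖∑' n, a n - ∑ n ∈ s, a n‖ ≤ S := by
  have b : ∀ n, ‖if n ∈ s then 0 else a n‖ ≤ g n := fun n => by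
    split_ifs with hn
    · simpa using h0 n
    · exact h n hn
  have h1 : HasSum (fun n => if n ∈ s then a n else 0) (∑ n ∈ s, a n) := by
    have := hasSum_sum_of_ne_finset_zero (L := .unconditional ℕ) (s := s)
      (f := fun n => if n ∈ s then a n else 0) fun n hn => if_neg hn
    rwa [Finset.sum_congr rfl fun n hn => if_pos hn] at this
  have h2 := h1.add (Summable.of_norm_bounded hg.summable b).hasSum
  have e : (fun n => (if n ∈ s then a n else 0) + if n ∈ s then 0 else a n) = a := by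
    ext n
    split_ifs <;> simp
  rw [e] at h2
  rw [h2.tsum_eq, add_sub_cancel_left]
  exact tsum_of_norm_bounded hg b

lemma low {A x : ℝ} {j : ℕ} (hA : 10 ^ 8 ≤ A) (hj : 1 ≤ j) (h0 : 0 ≤ x) (h : A * x ≤ j) :
    x ^ j * Real.exp (-x) / j.factorial ≤ (1 / 1000) ^ (j + 1) / 3 * Real.exp (-(x / 2)) := by
  have a0 : 0 < A := by linarith
  have h1 := Real.pow_div_factorial_le_exp (A * x) (by positivity) j
  have h2 : Real.exp (A * x) ≤ 3 ^ j := by
    refine (Real.exp_le_exp.2 h).trans ?_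
    rw [← Real.exp_one_pow]
    exact pow_le_pow_left₀ (Real.exp_pos 1).le (by linarith [Real.exp_one_lt_d9]) j
  have h3 : x ^ j / j.factorial ≤ (3 / A) ^ j := by
    rw [div_pow, le_div_iff₀ (pow_pos a0 j)]
    refine le_trans (le_of_eq ?_) (h1.trans h2)
    rw [mul_pow]
    ring
  have h4 := small (c := 3) (y := 3 / A) hj (by positivity) (by norm_num) (by
    rw [← mul_div_assoc, div_mul_eq_mul_div, div_le_one a0]
    linarith)
  rw [mul_div_right_comm]
  exact mul_le_mul (by linarith) (Real.exp_le_exp.2 (by linarith)) (Real.exp_pos _).le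
    (by positivity)

lemma high {A x : ℝ} {j : ℕ} (hA : 10 ^ 8 ≤ A) (h : A * (j + 1) ≤ 2 * x) :
    x ^ j * Real.exp (-x) / j.factorial ≤ (1 / 1000) ^ (j + 1) / 3 * Real.exp (-(x / 2)) := by
  have h0 : 0 ≤ x := by nlinarith [j.cast_nonneg (α := ℝ)]
  have h1 := Real.pow_div_factorial_le_exp (x / 4) (by positivity) j
  have h2 : (4000 : ℝ) ^ (j + 1) ≤ Real.exp (x / 4) := by
    refine le_trans ?_ (Real.exp_le_exp.2 (show ((j + 1 : ℕ) : ℝ) * (A / 8) ≤ x / 4 by
      push_cast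
      linarith))
    rw [Real.exp_nat_mul]
    exact pow_le_pow_left₀ (by norm_num) (by linarith [Real.add_one_le_exp (A / 8)]) _
  have h3 : x ^ j / j.factorial ≤ 4 ^ j * Real.exp (x / 4) := by
    refine le_trans (le_of_eq ?_) (mul_le_mul_of_nonneg_left h1 (by positivity))
    rw [div_pow]
    field_simp
  have h4 : 4 ^ j * Real.exp (-(x / 4)) ≤ (1 / 1000) ^ (j + 1) / 3 := by
    rw [Real.exp_neg, ← div_eq_mul_inv, div_le_iff₀ (Real.exp_pos _)]
    refine le_trans ?_ (mul_le_mul_of_nonneg_left h2 (by positivity))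
    rw [div_mul_eq_mul_div, ← mul_pow, show (1 / 1000 * 4000 : ℝ) = 4 by norm_num, pow_succ]
    have : (0 : ℝ) ≤ 4 ^ j := by positivity
    linarith
  rw [mul_div_right_comm]
  refine (mul_le_mul_of_nonneg_right h3 (Real.exp_pos _).le).trans ?_
  refine le_trans (le_of_eq ?_) (mul_le_mul_of_nonneg_right h4 (Real.exp_pos _).le)
  rw [mul_assoc, mul_assoc, ← Real.exp_add, ← Real.exp_add]
  congr 2
  ring

/-- the two tails -/
lemma cut {χ : ℕ → ℝ} (hχ : ∀ n, |χ n| ≤ 1) {A r S : ℝ} (t : ℝ) {M j : ℕ} (hA : 10 ^ 8 ≤ A)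
    (hr : 0 < r) (hS : HasSum (w r) S) (h3 : r * S ≤ 3) (hM : 1 ≤ M) (h1 : M ≤ j)
    (h2 : j < 2 * M) : r * ‖∑' n, tm χ r t j n -
      DP χ (bw r j) ⌊Real.exp (M / (A * r))⌋₊ ⌊Real.exp (A * M / r)⌋₊ t‖
        ≤ (1 / 1000) ^ (j + 1) := by
  have a0 : 0 < A := by linarith
  have w0 : ∀ n, 0 ≤ w r n := fun n => by
    have : (0 : ℝ) ≤ vonMangoldt n := vonMangoldt_nonneg
    unfold w
    positivity
  have h4 := tail (a := tm χ r t j) (hS.mul_left ((1 / 1000) ^ (j + 1) / 3))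
    (fun n => mul_nonneg (by positivity) (w0 n))
    (Finset.Ioc ⌊Real.exp (M / (A * r))⌋₊ ⌊Real.exp (A * M / r)⌋₊) fun n hn => by
      rcases n.eq_zero_or_pos with rfl | n0
      · simp [tm, w]
      have n1 : (0 : ℝ) < n := by exact_mod_cast n0
      refine tm_le hχ hr ?_
      rw [bw, show r / 2 * Real.log n = r * Real.log n / 2 by ring]
      rw [Finset.mem_Ioc, not_and_or, not_lt, not_le] at hn
      rcases hn with hn | hn
      · rw [Nat.le_floor_iff (Real.exp_pos _).le, ← Real.log_le_iff_le_exp n1,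
          le_div_iff₀ (by positivity)] at hn
        have : (M : ℝ) ≤ j := by exact_mod_cast h1
        exact low hA (by omega) (mul_nonneg hr.le (Real.log_natCast_nonneg n)) (by linarith)
      · rw [Nat.floor_lt (Real.exp_pos _).le, ← Real.lt_log_iff_exp_lt n1, div_lt_iff₀ hr] at hn
        have : (j : ℝ) + 1 ≤ 2 * M := by exact_mod_cast h2
        exact high hA (by nlinarith)
  refine (mul_le_mul_of_nonneg_left h4 hr.le).trans ?_
  have : (0 : ℝ) ≤ (1 / 1000) ^ (j + 1) := by positivity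
  nlinarith

/-- the sum of the squares -/
lemma squares {K L r t S : ℝ} {χ : ArithmeticFunction ℝ} {Z : Multiset ℂ} (h : IsZ K L χ Z)
    (hr : 0 < r) (hS : HasSum (w r) S) (h3 : r * S ≤ 3) (h1 : 1 < (1 + t * Complex.I + r).re)
    (h2 : ‖1 + t * Complex.I + r - 1‖ ≤ 1 / 8) :
    (Z.map fun ρ => ‖r * (1 + t * Complex.I + r - ρ)⁻¹‖ ^ 2).sum ≤ K * (r * L) + 3 := by
  have e1 := h.exp 0 _ h1 h2
  have e2 := moc_eq χ r t 0
  rw [pow_zero, one_mul] at e2
  have e3 : ‖∑' n, tm χ r t 0 n‖ ≤ S := tsum_of_norm_bounded hS fun n => by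
    have := tm_le h.abs (t := t) (ε := 1) (j := 0) (n := n) hr (by
      have := mul_nonneg hr.le (Real.log_natCast_nonneg n)
      simp only [bw, pow_zero, one_mul, Nat.factorial_zero, Nat.cast_one, div_one]
      exact Real.exp_le_exp.2 (by linarith))
    rwa [one_mul] at this
  simp only [e2, zero_add, pow_one, pow_zero, mul_one] at e1
  have e4 := le_re Z (fun ρ => ‖r * (1 + t * Complex.I + r - ρ)⁻¹‖ ^ 2)
    (fun ρ => r * (1 + t * Complex.I + r - ρ)⁻¹) fun ρ hρ => by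
      have b := h.re ρ hρ
      rw [norm_mul, mul_pow, norm_inv, inv_pow, Complex.re_ofReal_mul, Complex.inv_re,
        Complex.normSq_eq_norm_sq, Complex.norm_real, Real.norm_of_nonneg hr.le, sq, mul_assoc,
        div_eq_mul_inv]
      refine mul_le_mul_of_nonneg_left (mul_le_mul_of_nonneg_right ?_ (by positivity)) hr.le
      simp
      linarith
  rw [Multiset.sum_map_mul_left] at e4
  refine e4.trans ((Complex.re_le_norm _).trans ?_)
  rw [norm_mul, Complex.norm_real, Real.norm_of_nonneg hr.le]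
  have e5 := norm_sub_le (∑' n, tm χ r t 0 n + (Z.map fun ρ => (1 + t * Complex.I + r - ρ)⁻¹).sum)
    (∑' n, tm χ r t 0 n)
  rw [add_sub_cancel_left] at e5
  nlinarith [mul_le_mul_of_nonneg_left (e5.trans (add_le_add e1 e3)) hr.le]

end DetAux

open DetAux in
theorem det_of : Turan → ZetaB → Det := by
  rintro HT ⟨Cz, c1, HZ⟩
  refine ⟨10 ^ 8 + Cz, by linarith, fun K hK => ⟨2000 ^ 2 * (K + 3), by linarith, ?_⟩⟩
  intro L r t M χ Z h l1 hr hA ht hM
  set A := 10 ^ 8 + Cz with hAd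
  have a1 : 10 ^ 8 ≤ A := by linarith
  have r1 : r * 10 ^ 8 ≤ 1 := by nlinarith
  obtain ⟨S, hS, h3⟩ := w_sum HZ hr (by linarith) (by nlinarith)
  have h1 : 1 < (1 + t * Complex.I + r).re := by simpa using hr
  have h2 : ‖1 + t * Complex.I + r - 1‖ ≤ 1 / 8 := by
    rw [show 1 + t * Complex.I + r - 1 = t * Complex.I + r by ring]
    refine (norm_add_le _ _).trans ?_
    rw [norm_mul, Complex.norm_I, mul_one, Complex.norm_real, Complex.norm_real, Real.norm_eq_abs,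
      Real.norm_of_nonneg hr.le]
    linarith
  have sq := squares h hr hS h3 h1 h2
  set s0 : ℂ := 1 + t * Complex.I + r with hs0
  set z : ℂ → ℂ := fun ρ => r * (s0 - ρ)⁻¹ with hz
  have sq' : 2000 ^ 2 * (Z.map fun ρ => ‖z ρ‖ ^ 2).sum ≤ 2000 ^ 2 * (K + 3) * (r * L) := by
    nlinarith
  have disc : ∀ ρ ∈ Z, ‖ρ - (1 + t * Complex.I)‖ ≤ 2 * r → 1 / 3 ≤ ‖z ρ‖ := by
    intro ρ hρ hd
    have b1 : ‖s0 - ρ‖ ≤ 3 * r := by
      rw [show s0 - ρ = r - (ρ - (1 + t * Complex.I)) by rw [hs0]; ring]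
      refine (norm_sub_le _ _).trans ?_
      rw [Complex.norm_real, Real.norm_of_nonneg hr.le]
      linarith
    have b2 : 0 < ‖s0 - ρ‖ := norm_pos_iff.2 (sub_ne_zero.2 fun e => by
      have := h.re ρ hρ
      rw [e] at h1
      linarith)
    rw [hz]
    simp only
    rw [norm_mul, norm_inv, Complex.norm_real, Real.norm_of_nonneg hr.le, ← div_eq_mul_inv,
      div_le_div_iff₀ (by norm_num) b2]
    linarith
  constructor
  · have := cnt Z (fun ρ => ‖z ρ‖ ^ 2) (fun _ => sq_nonneg _)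
      (fun ρ => ‖ρ - (1 + t * Complex.I)‖ ≤ 2 * r) (θ := (1 / 2000) ^ 2) fun ρ hρ hd =>
        pow_le_pow_left₀ (by norm_num) (le_trans (by norm_num) (disc ρ hρ hd)) 2
    linarith
  intro ρ hρ hd
  have m1 : (10 : ℝ) ≤ M := by nlinarith
  have m2 : 10 ≤ M := by exact_mod_cast m1
  have c2 := cnt Z (fun ρ => ‖z ρ‖ ^ 2) (fun _ => sq_nonneg _) (fun ρ => 1 / 2000 ≤ ‖z ρ‖)
    (θ := (1 / 2000) ^ 2) fun ρ _ hd => pow_le_pow_left₀ (by norm_num) hd 2
  obtain ⟨ν, n1, n2, n3⟩ := HT ((Z.filter fun ρ => 1 / 2000 ≤ ‖z ρ‖).map z) M (z ρ)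
    (Multiset.mem_map_of_mem _ (Multiset.mem_filter.2
      ⟨hρ, le_trans (by norm_num) (disc ρ hρ hd)⟩)) (by
      rw [Multiset.card_map, ← Nat.cast_le (α := ℝ)]
      linarith)
  obtain ⟨j, rfl⟩ : ∃ j, ν = j + 1 := ⟨ν - 1, by omega⟩
  refine ⟨j, by omega, by omega, ?_⟩
  have mj : (M : ℝ) ≤ 2 ^ j := by
    exact_mod_cast (show M ≤ j by omega).trans Nat.lt_two_pow_self.le
  rw [Multiset.map_map] at n3
  have e1 := rest Z (fun ρ => ‖z ρ‖ ^ 2) ((fun w => w ^ (j + 1)) ∘ z) (fun _ => sq_nonneg _)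
    (fun ρ => 1 / 2000 ≤ ‖z ρ‖) (c := (1 / 2000) ^ (j + 1) * 2000 ^ 2) (by positivity)
    fun ρ hρ => by
      obtain ⟨i, rfl⟩ : ∃ i, j = i + 1 := ⟨j - 1, by omega⟩
      rw [Function.comp_apply, norm_pow, show i + 1 + 1 = i + 2 by rfl, pow_add, pow_add]
      refine mul_le_mul_of_nonneg_right ?_ (sq_nonneg _)
      rw [mul_assoc, ← mul_pow, show (1 / 2000 * 2000 : ℝ) = 1 by norm_num, one_pow, mul_one]
      exact pow_le_pow_left₀ (norm_nonneg _) (not_le.1 hρ).le i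
  have e2 : (1 / 2000) ^ (j + 1) * 2000 ^ 2 * (Z.map fun ρ => ‖z ρ‖ ^ 2).sum
      ≤ (1 / 1000 : ℝ) ^ (j + 1) := by
    rw [mul_assoc, show (1 / 1000 : ℝ) = 1 / 2000 * 2 by norm_num, mul_pow]
    refine mul_le_mul_of_nonneg_left ?_ (by positivity)
    rw [pow_succ (2 : ℝ)]
    linarith
  have e3 := cut h.abs t a1 hr hS h3 (by omega) (show M ≤ j by omega) (by omega)
  have e4 : ‖r * ∑' n, tm χ r t j n + (Z.map ((fun w => w ^ (j + 1)) ∘ z)).sum‖
      ≤ (1 / 1000 : ℝ) ^ (j + 1) := by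
    have b1 := mul_le_mul_of_nonneg_left (h.exp j s0 h1 h2) (pow_pos hr (j + 1)).le
    rw [← Real.norm_of_nonneg (pow_pos hr (j + 1)).le, ← Complex.norm_real, ← norm_mul, mul_add,
      ← Multiset.sum_map_mul_left, Complex.norm_real, Real.norm_of_nonneg (pow_pos hr _).le,
      Complex.ofReal_pow, pow_succ' (r : ℂ), mul_assoc, moc_eq, ← pow_succ'] at b1
    simp only [← mul_pow] at b1
    refine b1.trans (le_trans ?_ (small (c := 1) (y := 2 * (r * 16)) (by omega) (by positivity)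
      le_rfl (by linarith)))
    rw [one_mul, mul_pow, mul_pow,
      show r ^ (j + 1) * (K * L * 16 ^ j) = K * (r * L) * (r ^ j * 16 ^ j) by ring]
    exact mul_le_mul_of_nonneg_right (by nlinarith) (by positivity)
  have e5 : 4 * (1 / 1000 : ℝ) ^ (j + 1) ≤ (‖z ρ‖ / 200) ^ (j + 1) := by
    refine le_trans ?_ (pow_le_pow_left₀ (a := 5 / 3 * (1 / 1000)) (by norm_num)
      (by linarith [disc ρ hρ hd]) _)
    rw [mul_pow]
    refine mul_le_mul_of_nonneg_right (le_trans (b := (5 / 3) ^ 3) (by norm_num)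
      (pow_le_pow_right₀ (by norm_num) (by omega))) (by positivity)
  set D := DP χ (bw r j) ⌊Real.exp (M / (A * r))⌋₊ ⌊Real.exp (A * M / r)⌋₊ t
  set T := ∑' n, tm χ r t j n
  set P := (Z.map ((fun w => w ^ (j + 1)) ∘ z)).sum
  set P1 := ((Z.filter fun ρ => 1 / 2000 ≤ ‖z ρ‖).map ((fun w => w ^ (j + 1)) ∘ z)).sum
  have e6 : ‖P1‖ ≤ ‖r * T + P‖ + ‖P - P1‖ + r * ‖T - D‖ + r * ‖D‖ := by
    have b : ∀ x : ℂ, r * ‖x‖ = ‖r * x‖ := fun x => by
      rw [norm_mul, Complex.norm_real, Real.norm_of_nonneg hr.le]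
    rw [b, b]
    conv_lhs => rw [show P1 = r * T + P - (P - P1) - r * (T - D) - r * D by ring]
    exact (norm_sub_le _ _).trans (add_le_add_left ((norm_sub_le _ _).trans
      (add_le_add_left (norm_sub_le _ _) _)) _)
  have e7 : (1 / 1000 : ℝ) ^ (j + 1) ≤ r * ‖D‖ := by linarith
  have e8 : (1000 : ℝ) ^ (j + 1) ≤ A ^ M :=
    (pow_le_pow_right₀ (by norm_num) n2).trans (by
      rw [pow_mul]
      exact pow_le_pow_left₀ (by norm_num) (by linarith) M)
  rw [mul_assoc]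
  refine le_trans (le_of_eq ?_) (mul_le_mul e8 e7 (by positivity) (by positivity))
  rw [← mul_pow]
  norm_num

end Pool.Agent.MP_c481b3_nt.H31
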