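import Pool.Agent.MP_c481b3_nt.H31.SpecN

/-! Row DY: a large moment gives a long initial segment with a large sum. -/

set_option autoImplicit false

namespace Pool.Agent.MP_c481b3_nt.H31

open ArithmeticFunction

namespace DY

/-- the weight of the block number `j` -/
noncomputable def wt (m : ℕ) (s : ℝ) (j : ℕ) : ℝ :=
  ((j + 1) * Real.log 2) ^ m * Real.exp (-(s * Real.log 2 * j))

lemma l2_pos : 0 < Real.log 2 := Real.log_pos one_lt_two

lemma l2_le : Real.log 2 ≤ 1 := by linarith [Real.log_two_lt_d9]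

lemma wt_nonneg (m : ℕ) (s : ℝ) (j : ℕ) : 0 ≤ wt m s j := by
  have := l2_pos
  unfold wt
  positivity

lemma wt_shift (m : ℕ) (s s' : ℝ) (j : ℕ) :
    wt m s j = Real.exp ((s' - s) * Real.log 2 * j) * wt m s' j := by
  unfold wt
  rw [mul_left_comm, ← Real.exp_add]
  congr 2
  ring

lemma wt_sum (m N : ℕ) {s t : ℝ} (hs : 0 < s) (ht : (m + 1) * s ≤ t) :
    ∑ j ∈ Finset.range N, wt m s j ≤ 2 * Real.exp t * (m.factorial / s ^ (m + 1)) := by
  have h2 := l2_pos
  have h3 := l2_le
  set y := s * Real.log 2 with hy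
  have hy0 : 0 < y := by positivity
  set x := Real.exp (-y) with hx
  have hx0 : 0 < x := Real.exp_pos _
  have hx1 : x < 1 := Real.exp_lt_one_iff.2 (by linarith)
  have hS := hasSum_choose_mul_geometric_of_norm_lt_one (𝕜 := ℝ) m (r := x)
    (by rwa [Real.norm_eq_abs, abs_of_pos hx0])
  have h4 : y * x ≤ 1 - x := by
    have e1 : Real.exp y * x = 1 := by rw [hx, ← Real.exp_add, add_neg_cancel, Real.exp_zero]
    nlinarith [Real.add_one_le_exp y]
  have h5 : ∀ j : ℕ, wt m s j ≤
      m.factorial * Real.log 2 ^ m * (((j + m).choose m : ℝ) * x ^ j) := by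
    intro j
    have e1 : (j + 1) ^ m ≤ m.factorial * (j + m).choose m := by
      rw [← Nat.ascFactorial_eq_factorial_mul_choose]
      exact Nat.pow_succ_le_ascFactorial _ _
    have e2 : ((j : ℝ) + 1) ^ m ≤ m.factorial * ((j + m).choose m : ℝ) := by exact_mod_cast e1
    have e3 : Real.exp (-(s * Real.log 2 * j)) = x ^ j := by
      rw [hx, ← Real.exp_nat_mul]
      congr 1
      ring
    rw [wt, e3, mul_pow]
    calc _ ≤ m.factorial * ((j + m).choose m : ℝ) * Real.log 2 ^ m * x ^ j := by gcongr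
      _ = _ := by ring
  have h6 : 1 / (1 - x) ^ (m + 1) ≤ Real.exp t / y ^ (m + 1) := by
    have e1 : (y * x) ^ (m + 1) ≤ (1 - x) ^ (m + 1) := pow_le_pow_left₀ (by positivity) h4 _
    refine (one_div_le_one_div_of_le (by positivity) e1).trans ?_
    rw [mul_pow, div_le_div_iff₀ (by positivity) (by positivity), one_mul, mul_left_comm]
    refine le_mul_of_one_le_right (by positivity) ?_
    rw [hx, ← Real.exp_nat_mul, ← Real.exp_add]
    refine Real.one_le_exp ?_
    have : (m + 1) * s * Real.log 2 ≤ (m + 1) * s :=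
      mul_le_of_le_one_right (by positivity) h3
    push_cast
    rw [hy]
    linarith
  calc _ ≤ ∑ j ∈ Finset.range N,
        m.factorial * Real.log 2 ^ m * (((j + m).choose m : ℝ) * x ^ j) :=
        Finset.sum_le_sum fun j _ => h5 j
    _ ≤ m.factorial * Real.log 2 ^ m * (Real.exp t / y ^ (m + 1)) := by
        rw [← Finset.mul_sum]
        refine mul_le_mul_of_nonneg_left (le_trans ?_ h6) (by positivity)
        exact sum_le_hasSum _ (fun j _ => by positivity) hS
    _ = (Real.log 2)⁻¹ * Real.exp t * (m.factorial / s ^ (m + 1)) := by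
        rw [hy, mul_pow]
        field_simp
        ring
    _ ≤ _ := by
        have : (Real.log 2)⁻¹ ≤ 2 := by
          rw [inv_le_comm₀ h2 two_pos]
          linarith [Real.log_two_gt_d9]
        gcongr

/-- the dyadic decomposition -/
lemma blocks (a : ℕ → ℝ) (ha : ∀ n, 0 ≤ a n) (h0 : a 0 = 0) (m N : ℕ) {δ : ℝ} (hδ : 0 < δ) :
    ∑ n ∈ Finset.range N, a n * Real.log n ^ m / (n : ℝ) ^ (1 + δ) ≤
      ∑ j ∈ Finset.range N, wt m δ j / 2 ^ j * ∑ n ∈ Finset.range (2 ^ (j + 1) + 1), a n := by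
  have h2 := l2_pos
  rw [← Finset.sum_fiberwise_of_maps_to (s := Finset.range N) (t := Finset.range N)
    (g := Nat.log 2) fun n hn => Finset.mem_range.2
      ((Nat.log_le_self 2 n).trans_lt (Finset.mem_range.1 hn))]
  refine Finset.sum_le_sum fun j _ => ?_
  have hw : 0 ≤ wt m δ j / 2 ^ j := div_nonneg (wt_nonneg _ _ _) (by positivity)
  rw [Finset.mul_sum]
  refine le_trans (Finset.sum_le_sum (g := fun n => wt m δ j / 2 ^ j * a n) fun n hn => ?_)
    (Finset.sum_le_sum_of_subset_of_nonneg (fun n hn => ?_) fun n _ _ => mul_nonneg hw (ha n))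
  · rcases Nat.eq_zero_or_pos n with rfl | hn0
    · simp [h0]
    have hj := (Finset.mem_filter.1 hn).2
    have e1 : ((2 : ℝ) ^ j) ≤ n := by
      rw [← hj]
      exact_mod_cast Nat.pow_log_le_self 2 hn0.ne'
    have e2 : (n : ℝ) ≤ 2 ^ (j + 1) := by
      rw [← hj]
      exact_mod_cast (Nat.lt_pow_succ_log_self one_lt_two n).le
    have hn1 : (0 : ℝ) < n := by exact_mod_cast hn0
    have e3 : Real.log n ≤ (j + 1) * Real.log 2 := by
      have := Real.log_le_log hn1 e2
      rw [Real.log_pow] at this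
      exact_mod_cast this
    have e4 : j * Real.log 2 ≤ Real.log n := by
      have := Real.log_le_log (by positivity) e1
      rwa [Real.log_pow] at this
    have e5 : 2 ^ j * Real.exp (δ * Real.log 2 * j) ≤ (n : ℝ) ^ (1 + δ) := by
      rw [Real.rpow_add hn1, Real.rpow_one, Real.rpow_def_of_pos hn1]
      refine mul_le_mul e1 (Real.exp_le_exp.2 ?_) (Real.exp_pos _).le hn1.le
      nlinarith
    have e6 : Real.log n ^ m ≤ ((j + 1) * Real.log 2) ^ m :=
      pow_le_pow_left₀ (Real.log_natCast_nonneg n) e3 m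
    have := ha n
    calc a n * Real.log n ^ m / (n : ℝ) ^ (1 + δ) ≤
        a n * ((j + 1) * Real.log 2) ^ m / (2 ^ j * Real.exp (δ * Real.log 2 * j)) := by gcongr
      _ = _ := by
        rw [wt, Real.exp_neg]
        field_simp
  · have hj := (Finset.mem_filter.1 hn).2
    rw [Finset.mem_range, ← hj]
    exact (Nat.lt_pow_succ_log_self one_lt_two n).trans (Nat.lt_succ_self _)

lemma cheb : ∃ C₀ : ℝ, 1 ≤ C₀ ∧ ∀ N : ℕ, ∑ n ∈ Finset.range (N + 1), vonMangoldt n ≤ C₀ * N := by
  refine ⟨Real.log 4 + 4, by linarith [Real.log_nonneg (by norm_num : (1 : ℝ) ≤ 4)], fun N => ?_⟩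
  have h := Chebyshev.psi_le_const_mul_self (x := N) (Nat.cast_nonneg N)
  rwa [Chebyshev.psi_eq_sum_Icc, Nat.floor_natCast, ← Nat.range_succ_eq_Icc_zero] at h

end DY

open DY in
theorem dyad : Dyad := by
  obtain ⟨C₀, hC₀, hψ⟩ := cheb
  refine ⟨1 / (16 * Real.exp 2), by positivity, fun E => ?_⟩
  set D₁ := 4 * C₀ * Real.exp (3 * |E| + 8) with hD₁
  set D₂ := 32 * C₀ * Real.exp 2 with hD₂
  have hD₁0 : 0 < D₁ := by positivity
  have hD₂1 : 1 ≤ D₂ := by nlinarith [Real.one_le_exp (by norm_num : (0 : ℝ) ≤ 2)]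
  refine ⟨D₁ + 8 * D₂, fun g κ δ m hg hδ hmδ hCm hκ hM => ?_⟩
  set C := D₁ + 8 * D₂ with hC
  set c := 1 / (16 * Real.exp 2) with hc
  by_contra hn
  push Not at hn
  have h2 := l2_pos
  have h3 := l2_le
  have hm1 : (1 : ℝ) ≤ m := by linarith
  have hδ1 : δ ≤ 1 := by nlinarith
  have hκ0 : 0 < κ := by
    by_contra h
    have : κ * 2 ^ m ≤ 0 := mul_nonpos_of_nonpos_of_nonneg (not_lt.1 h) (by positivity)
    linarith
  set a : ℕ → ℝ := fun n => vonMangoldt n * g n with ha
  have ha0 : ∀ n, 0 ≤ a n := fun n => mul_nonneg vonMangoldt_nonneg (hg n).1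
  set M : ℝ := m.factorial / δ ^ (m + 1) with hMd
  have hM0 : 0 < M := by positivity
  have hA : ∀ j : ℕ, ∑ n ∈ Finset.range (2 ^ (j + 1) + 1), a n ≤ C₀ * 2 ^ (j + 1) := by
    intro j
    have := hψ (2 ^ (j + 1))
    push_cast at this
    exact (Finset.sum_le_sum fun n _ =>
      mul_le_of_le_one_right vonMangoldt_nonneg (hg n).2).trans this
  have hb : ∀ j : ℕ, wt m δ j / 2 ^ j * ∑ n ∈ Finset.range (2 ^ (j + 1) + 1), a n ≤
      2 * (c * κ) * wt m δ j + 2 * C₀ * Real.exp (3 * |E|) * wt m (4 * δ) j +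
        2 * C₀ * Real.exp ((1 - C * m) / 2) * wt m (δ / 2) j := by
    intro j
    have w1 := wt_nonneg m δ j
    have w2 := wt_nonneg m (4 * δ) j
    have w3 := wt_nonneg m (δ / 2) j
    have t1 : 0 ≤ 2 * (c * κ) * wt m δ j := by positivity
    have t2 : 0 ≤ 2 * C₀ * Real.exp (3 * |E|) * wt m (4 * δ) j := by positivity
    have t3 : 0 ≤ 2 * C₀ * Real.exp ((1 - C * m) / 2) * wt m (δ / 2) j := by positivity
    have key : ∀ b : ℝ, ∑ n ∈ Finset.range (2 ^ (j + 1) + 1), a n ≤ b * 2 ^ (j + 1) →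
        wt m δ j / 2 ^ j * ∑ n ∈ Finset.range (2 ^ (j + 1) + 1), a n ≤ 2 * b * wt m δ j := by
      intro b h
      refine (mul_le_mul_of_nonneg_left h (by positivity)).trans (le_of_eq ?_)
      field_simp
      ring
    have e2 : (2 : ℝ) ^ (j + 1) = Real.exp ((j + 1) * Real.log 2) := by
      have := Real.exp_nat_mul (Real.log 2) (j + 1)
      rw [Real.exp_log two_pos] at this
      exact_mod_cast this.symm
    have hj0 : 0 ≤ δ * Real.log 2 := by positivity
    have hj1 : δ * Real.log 2 ≤ 1 := by nlinarith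
    rcases lt_or_ge ((j + 1) * Real.log 2) (E / δ) with h | h
    · rw [lt_div_iff₀ hδ] at h
      have e3 : wt m δ j ≤ Real.exp (3 * |E|) * wt m (4 * δ) j := by
        rw [wt_shift m δ (4 * δ)]
        refine mul_le_mul_of_nonneg_right (Real.exp_le_exp.2 ?_) w2
        nlinarith [le_abs_self E]
      have := mul_le_mul_of_nonneg_left e3 (by positivity : 0 ≤ 2 * C₀)
      linarith [key C₀ (hA j)]
    rcases lt_or_ge (C * m / δ) ((j + 1) * Real.log 2) with h' | h'
    · rw [div_lt_iff₀ hδ] at h'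
      have e3 : wt m δ j ≤ Real.exp ((1 - C * m) / 2) * wt m (δ / 2) j := by
        rw [wt_shift m δ (δ / 2)]
        refine mul_le_mul_of_nonneg_right (Real.exp_le_exp.2 ?_) w3
        nlinarith
      have := mul_le_mul_of_nonneg_left e3 (by positivity : 0 ≤ 2 * C₀)
      linarith [key C₀ (hA j)]
    · have e3 := hn (2 ^ (j + 1)) (by rw [e2]; exact Real.exp_le_exp.2 h)
        (by rw [e2]; exact Real.exp_le_exp.2 h')
      have e4 : ⌊(2 : ℝ) ^ (j + 1)⌋₊ = 2 ^ (j + 1) := by
        rw [← Nat.floor_natCast (R := ℝ) (2 ^ (j + 1))]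
        push_cast
        rfl
      rw [e4] at e3
      linarith [key (c * κ) e3.le]
  have hP : (0 : ℝ) < 2 ^ m := by positivity
  have s1 : ∀ N, 2 * (c * κ) * ∑ j ∈ Finset.range N, wt m δ j ≤ κ / 4 * M := by
    intro N
    refine (mul_le_mul_of_nonneg_left (wt_sum m N (t := 2) hδ (by linarith))
      (by positivity)).trans (le_of_eq ?_)
    rw [hc, ← hMd]
    field_simp
    ring
  have s2 : ∀ N, 2 * C₀ * Real.exp (3 * |E|) * ∑ j ∈ Finset.range N, wt m (4 * δ) j ≤
      κ / 4 * M := by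
    intro N
    refine (mul_le_mul_of_nonneg_left (wt_sum m N (t := 8) (by positivity) (by linarith))
      (by positivity)).trans ?_
    have e1 : (m : ℝ) ≤ 2 ^ m := by exact_mod_cast Nat.lt_two_pow_self.le
    have e2 : D₁ / (2 ^ m * 2 ^ m) ≤ κ := by
      rw [div_le_iff₀ (by positivity)]
      nlinarith
    have e3 : (4 : ℝ) ^ m = 2 ^ m * 2 ^ m := by
      rw [← mul_pow]
      norm_num
    calc _ = D₁ / (2 ^ m * 2 ^ m) / 4 * M := by
          rw [hD₁, hMd, Real.exp_add, mul_pow, pow_succ 4, e3]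
          field_simp
          norm_num
      _ ≤ _ := by gcongr
  have s3 : ∀ N, 2 * C₀ * Real.exp ((1 - C * m) / 2) * ∑ j ∈ Finset.range N, wt m (δ / 2) j ≤
      κ / 4 * M := by
    intro N
    refine (mul_le_mul_of_nonneg_left (wt_sum m N (t := 3 / 2) (by positivity) (by linarith))
      (by positivity)).trans ?_
    have hm0 : m ≠ 0 := by
      rintro rfl
      norm_num at hm1
    have e1 : 2 ^ m * 2 ^ m * D₂ ≤ Real.exp (C * m / 2) := by
      have e2 : 4 * D₂ ≤ Real.exp (C / 2) := by linarith [Real.add_one_le_exp (C / 2)]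
      calc 2 ^ m * 2 ^ m * D₂ ≤ 2 ^ m * 2 ^ m * D₂ ^ m :=
            mul_le_mul_of_nonneg_left (le_self_pow₀ hD₂1 hm0) (by positivity)
        _ = (4 * D₂) ^ m := by
            rw [← mul_pow, ← mul_pow]
            norm_num
        _ ≤ Real.exp (C / 2) ^ m := pow_le_pow_left₀ (by positivity) e2 m
        _ = _ := by
            rw [← Real.exp_nat_mul]
            congr 1
            ring
    have e2 : 2 ^ m * D₂ / Real.exp (C * m / 2) ≤ κ := by
      rw [div_le_iff₀ (Real.exp_pos _)]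
      have e3 := mul_le_mul_of_nonneg_left e1 hκ0.le
      have e4 := mul_le_mul_of_nonneg_right hκ (by positivity : 0 ≤ 2 ^ m * D₂)
      linarith
    have e3 : Real.exp ((1 - C * m) / 2) * Real.exp (3 / 2) = Real.exp 2 / Real.exp (C * m / 2) := by
      rw [← Real.exp_add, ← Real.exp_sub]
      congr 1
      ring
    calc _ = 4 * C₀ * (Real.exp ((1 - C * m) / 2) * Real.exp (3 / 2)) *
          (m.factorial / (δ / 2) ^ (m + 1)) := by ring
      _ = 2 ^ m * D₂ / Real.exp (C * m / 2) / 4 * M := by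
          rw [e3, hD₂, hMd, div_pow, pow_succ 2]
          field_simp
          ring
      _ ≤ _ := by gcongr
  have hfin : Mo g m (1 + δ) ≤ 3 * (κ / 4 * M) := by
    refine Real.tsum_le_of_sum_range_le (fun n => ?_) fun N => ?_
    · have := ha0 n
      have := Real.log_natCast_nonneg n
      exact div_nonneg (mul_nonneg (ha0 n) (by positivity)) (by positivity)
    · refine (blocks a ha0 (by simp [ha]) m N hδ).trans
        ((Finset.sum_le_sum fun j _ => hb j).trans ?_)
      rw [Finset.sum_add_distrib, Finset.sum_add_distrib, ← Finset.mul_sum, ← Finset.mul_sum,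
        ← Finset.mul_sum]
      linarith [s1 N, s2 N, s3 N]
  rw [mul_div_assoc, ← hMd] at hM
  nlinarith [mul_pos hκ0 hM0]

end Pool.Agent.MP_c481b3_nt.H31
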