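import Pool.Agent.MP_c481b3_nt.H31.SpecL
import Pool.Agent.MP_c481b3_nt.H31.Dyad

/-! Row DY2: a large moment gives a long initial segment with a large sum. -/

set_option autoImplicit false

namespace Pool.Agent.MP_c481b3_nt.H31

open ArithmeticFunction

namespace DY2

open DY MeasureTheory

lemma int_val (m : ℕ) {y : ℝ} (hy : 0 < y) :
    ∫ v in Set.Ioi (0 : ℝ), v ^ m * Real.exp (-(y * v)) = m.factorial / y ^ (m + 1) := by
  have h := Real.integral_rpow_mul_exp_neg_mul_Ioi (a := (m : ℝ) + 1) (r := y) (by positivity) hy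
  rw [Real.Gamma_nat_eq_factorial, add_sub_cancel_right] at h
  simp only [Real.rpow_natCast] at h
  rw [h, ← Nat.cast_succ, Real.rpow_natCast, one_div, inv_pow]
  field_simp

lemma sum_le (m N : ℕ) {y : ℝ} (hy : 0 < y) :
    ∑ j ∈ Finset.range N, ((j : ℝ) + 1) ^ m * Real.exp (-(y * (j + 2))) ≤
      m.factorial / y ^ (m + 1) := by
  have hval := int_val m hy
  have hint : IntegrableOn (fun v : ℝ => v ^ m * Real.exp (-(y * v))) (Set.Ioi 0) :=
    Integrable.of_integral_ne_zero (by rw [hval]; positivity)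
  have hcont : Continuous fun v : ℝ => v ^ m * Real.exp (-(y * v)) := by fun_prop
  have h1 : ∀ j : ℕ, ((j : ℝ) + 1) ^ m * Real.exp (-(y * (j + 2))) ≤
      ∫ v in ((j : ℝ) + 1)..(((j + 1 : ℕ) : ℝ) + 1), v ^ m * Real.exp (-(y * v)) := by
    intro j
    have e : ((j + 1 : ℕ) : ℝ) + 1 = (j : ℝ) + 2 := by
      push_cast
      ring
    rw [e]
    have h2 := intervalIntegral.integral_mono_on (μ := volume) (a := (j : ℝ) + 1) (b := (j : ℝ) + 2)
      (f := fun _ => ((j : ℝ) + 1) ^ m * Real.exp (-(y * (j + 2))))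
      (g := fun v => v ^ m * Real.exp (-(y * v))) (by linarith)
      (continuous_const.intervalIntegrable _ _) (hcont.intervalIntegrable _ _) (fun v hv => by
        have h3 : (0 : ℝ) ≤ (j : ℝ) + 1 := by positivity
        refine mul_le_mul (pow_le_pow_left₀ h3 hv.1 m) (Real.exp_le_exp.2 ?_) (Real.exp_pos _).le
          (pow_nonneg (h3.trans hv.1) m)
        nlinarith [hv.2])
    rw [intervalIntegral.integral_const] at h2
    have e2 : (j : ℝ) + 2 - (j + 1) = 1 := by ring
    rwa [e2, one_smul] at h2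
  refine (Finset.sum_le_sum fun j _ => h1 j).trans ?_
  rw [intervalIntegral.sum_integral_adjacent_intervals (a := fun j : ℕ => (j : ℝ) + 1)
    (fun j _ => hcont.intervalIntegrable _ _), ← hval,
    intervalIntegral.integral_of_le (by
      have : (0 : ℝ) ≤ N := Nat.cast_nonneg N
      push_cast
      linarith)]
  refine setIntegral_mono_set hint ?_ ?_
  · filter_upwards [ae_restrict_mem measurableSet_Ioi] with v hv
    exact mul_nonneg (pow_nonneg (le_of_lt hv) m) (Real.exp_pos _).le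
  · refine Filter.Eventually.of_forall fun v hv => ?_
    have h3 : ((0 : ℕ) : ℝ) + 1 < v := hv.1
    show (0 : ℝ) < v
    push_cast at h3
    linarith

lemma wt_sum2 (m N : ℕ) {s t : ℝ} (hs : 0 < s) (ht : 2 * s ≤ t) :
    ∑ j ∈ Finset.range N, wt m s j ≤ 2 * Real.exp t * (m.factorial / s ^ (m + 1)) := by
  have h2 := l2_pos
  have h3 := l2_le
  have hy0 : 0 < s * Real.log 2 := by positivity
  have h5 : ∀ j : ℕ, wt m s j = Real.log 2 ^ m * Real.exp (2 * (s * Real.log 2)) *
      (((j : ℝ) + 1) ^ m * Real.exp (-(s * Real.log 2 * (j + 2)))) := by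
    intro j
    have e : Real.exp (-(s * Real.log 2 * j)) =
        Real.exp (2 * (s * Real.log 2)) * Real.exp (-(s * Real.log 2 * (j + 2))) := by
      rw [← Real.exp_add]
      exact congrArg Real.exp (by ring)
    rw [wt, e, mul_pow]
    ring
  have h6 : Real.exp (2 * (s * Real.log 2)) ≤ Real.exp t := Real.exp_le_exp.2 (by nlinarith)
  calc _ = Real.log 2 ^ m * Real.exp (2 * (s * Real.log 2)) * ∑ j ∈ Finset.range N,
        (((j : ℝ) + 1) ^ m * Real.exp (-(s * Real.log 2 * (j + 2)))) := by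
        rw [Finset.mul_sum]
        exact Finset.sum_congr rfl fun j _ => h5 j
    _ ≤ Real.log 2 ^ m * Real.exp t * (m.factorial / (s * Real.log 2) ^ (m + 1)) :=
        mul_le_mul (mul_le_mul_of_nonneg_left h6 (by positivity)) (sum_le m N hy0)
          (Finset.sum_nonneg fun j _ => by positivity) (by positivity)
    _ = (Real.log 2)⁻¹ * Real.exp t * (m.factorial / s ^ (m + 1)) := by
        rw [mul_pow]
        field_simp
        ring
    _ ≤ _ := by
        have : (Real.log 2)⁻¹ ≤ 2 := by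
          rw [inv_le_comm₀ h2 two_pos]
          linarith [Real.log_two_gt_d9]
        gcongr

lemma exp_small (m : ℕ) : (m : ℝ) / 2 * Real.exp (3 * m / 20) ≤ 2 ^ m := by
  have h1 : Real.exp (3 / 20) ≤ 4 / 3 := by
    have h := Real.add_one_le_exp (-(3 / 20) : ℝ)
    have e : Real.exp (3 / 20) * Real.exp (-(3 / 20)) = 1 := by
      rw [← Real.exp_add, add_neg_cancel, Real.exp_zero]
    nlinarith [Real.exp_pos (3 / 20 : ℝ)]
  have h2 : Real.exp (3 * m / 20) ≤ (4 / 3) ^ m := by
    have e : Real.exp (3 * m / 20) = Real.exp (3 / 20) ^ m := by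
      rw [← Real.exp_nat_mul]
      exact congrArg Real.exp (by ring)
    rw [e]
    exact pow_le_pow_left₀ (Real.exp_pos _).le h1 m
  have h3 : (m : ℝ) / 2 ≤ (3 / 2) ^ m := by
    have := one_add_mul_le_pow (a := (1 / 2 : ℝ)) (by norm_num) m
    norm_num at this
    linarith
  calc _ ≤ (3 / 2 : ℝ) ^ m * (4 / 3) ^ m := mul_le_mul h3 h2 (Real.exp_pos _).le (by positivity)
    _ = 2 ^ m := by
        rw [← mul_pow]
        norm_num

end DY2

open DY DY2 in
theorem dyad2 : Dyad2 := by
  obtain ⟨C₀, hC₀, hψ⟩ := cheb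
  set D₁ := 4 * C₀ * Real.exp 8 with hD₁
  set D₂ := 32 * C₀ * Real.exp 2 with hD₂
  have hD₁0 : 0 < D₁ := by positivity
  have hD₂1 : 1 ≤ D₂ := by nlinarith [Real.one_le_exp (by norm_num : (0 : ℝ) ≤ 2)]
  refine ⟨1 / (16 * Real.exp 2), 2 * D₁ + 8 * D₂, by positivity, by linarith,
    fun g κ δ m hg hδ hδ1 hCm hκ hM => ?_⟩
  set C := 2 * D₁ + 8 * D₂ with hC
  set c := 1 / (16 * Real.exp 2) with hc
  by_contra hn
  push Not at hn
  have h2 := l2_pos
  have h3 := l2_le
  have hm1 : (1 : ℝ) ≤ m := by linarith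
  have hκ0 : 0 < κ := by
    by_contra h
    have : κ * 2 ^ m ≤ 0 := mul_nonpos_of_nonpos_of_nonneg (not_lt.1 h) (by positivity)
    linarith
  set a : ℕ → ℝ := fun n => vonMangoldt n * g n with ha
  have ha0 : ∀ n, 0 ≤ a n := fun n => mul_nonneg vonMangoldt_nonneg (hg n).1
  set M : ℝ := m.factorial / δ ^ (m + 1) with hMd
  have hM0 : 0 < M := by positivity
  have hA : ∀ j : ℕ, ∑ n ∈ Finset.range (2 ^ (j + 1) + 1), a n ≤ C₀ * 2 ^ (j + 1) := by
    intro j
    have := hψ (2 ^ (j + 1))
    push_cast at this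
    exact (Finset.sum_le_sum fun n _ =>
      mul_le_of_le_one_right vonMangoldt_nonneg (hg n).2).trans this
  have hb : ∀ j : ℕ, wt m δ j / 2 ^ j * ∑ n ∈ Finset.range (2 ^ (j + 1) + 1), a n ≤
      2 * (c * κ) * wt m δ j + 2 * C₀ * Real.exp (3 * m / 20) * wt m (4 * δ) j +
        2 * C₀ * Real.exp ((1 - C * m) / 2) * wt m (δ / 2) j := by
    intro j
    have w1 := wt_nonneg m δ j
    have w2 := wt_nonneg m (4 * δ) j
    have w3 := wt_nonneg m (δ / 2) j
    have t1 : 0 ≤ 2 * (c * κ) * wt m δ j := by positivity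
    have t2 : 0 ≤ 2 * C₀ * Real.exp (3 * m / 20) * wt m (4 * δ) j := by positivity
    have t3 : 0 ≤ 2 * C₀ * Real.exp ((1 - C * m) / 2) * wt m (δ / 2) j := by positivity
    have key : ∀ b : ℝ, ∑ n ∈ Finset.range (2 ^ (j + 1) + 1), a n ≤ b * 2 ^ (j + 1) →
        wt m δ j / 2 ^ j * ∑ n ∈ Finset.range (2 ^ (j + 1) + 1), a n ≤ 2 * b * wt m δ j := by
      intro b h
      refine (mul_le_mul_of_nonneg_left h (by positivity)).trans (le_of_eq ?_)
      field_simp
      ring
    have e2 : (2 : ℝ) ^ (j + 1) = Real.exp ((j + 1) * Real.log 2) := by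
      have := Real.exp_nat_mul (Real.log 2) (j + 1)
      rw [Real.exp_log two_pos] at this
      exact_mod_cast this.symm
    have hj0 : 0 ≤ δ * Real.log 2 := by positivity
    have hj1 : δ * Real.log 2 ≤ 1 := by nlinarith
    rcases lt_or_ge ((j + 1) * Real.log 2) (m / (20 * δ)) with h | h
    · rw [lt_div_iff₀ (by positivity)] at h
      have e3 : wt m δ j ≤ Real.exp (3 * m / 20) * wt m (4 * δ) j := by
        rw [wt_shift m δ (4 * δ)]
        refine mul_le_mul_of_nonneg_right (Real.exp_le_exp.2 ?_) w2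
        nlinarith
      have := mul_le_mul_of_nonneg_left e3 (by positivity : 0 ≤ 2 * C₀)
      linarith [key C₀ (hA j)]
    rcases lt_or_ge (C * m / δ) ((j + 1) * Real.log 2) with h' | h'
    · rw [div_lt_iff₀ hδ] at h'
      have e3 : wt m δ j ≤ Real.exp ((1 - C * m) / 2) * wt m (δ / 2) j := by
        rw [wt_shift m δ (δ / 2)]
        refine mul_le_mul_of_nonneg_right (Real.exp_le_exp.2 ?_) w3
        nlinarith
      have := mul_le_mul_of_nonneg_left e3 (by positivity : 0 ≤ 2 * C₀)
      linarith [key C₀ (hA j)]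
    · have e3 := hn (2 ^ (j + 1)) (by rw [e2]; exact Real.exp_le_exp.2 h)
        (by rw [e2]; exact Real.exp_le_exp.2 h')
      have e4 : ⌊(2 : ℝ) ^ (j + 1)⌋₊ = 2 ^ (j + 1) := by
        rw [← Nat.floor_natCast (R := ℝ) (2 ^ (j + 1))]
        push_cast
        rfl
      rw [e4] at e3
      linarith [key (c * κ) e3.le]
  have hP : (0 : ℝ) < 2 ^ m := by positivity
  have s1 : ∀ N, 2 * (c * κ) * ∑ j ∈ Finset.range N, wt m δ j ≤ κ / 4 * M := by
    intro N
    refine (mul_le_mul_of_nonneg_left (wt_sum2 m N (t := 2) hδ (by linarith))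
      (by positivity)).trans (le_of_eq ?_)
    rw [hc, ← hMd]
    field_simp
    ring
  have s2 : ∀ N, 2 * C₀ * Real.exp (3 * m / 20) * ∑ j ∈ Finset.range N, wt m (4 * δ) j ≤
      κ / 4 * M := by
    intro N
    refine (mul_le_mul_of_nonneg_left (wt_sum2 m N (t := 8) (by positivity) (by linarith))
      (by positivity)).trans ?_
    have e1 : D₁ * Real.exp (3 * m / 20) ≤ 2 ^ m :=
      (mul_le_mul_of_nonneg_right (by linarith) (Real.exp_pos _).le).trans (exp_small m)
    have e2 : D₁ * Real.exp (3 * m / 20) / (2 ^ m * 2 ^ m) ≤ κ := by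
      rw [div_le_iff₀ (by positivity)]
      nlinarith
    have e3 : (4 : ℝ) ^ m = 2 ^ m * 2 ^ m := by
      rw [← mul_pow]
      norm_num
    calc _ = D₁ * Real.exp (3 * m / 20) / (2 ^ m * 2 ^ m) / 4 * M := by
          rw [hD₁, hMd, mul_pow, pow_succ 4, e3]
          field_simp
          norm_num
      _ ≤ _ := by gcongr
  have s3 : ∀ N, 2 * C₀ * Real.exp ((1 - C * m) / 2) * ∑ j ∈ Finset.range N, wt m (δ / 2) j ≤
      κ / 4 * M := by
    intro N
    refine (mul_le_mul_of_nonneg_left (wt_sum2 m N (t := 3 / 2) (by positivity) (by linarith))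
      (by positivity)).trans ?_
    have hm0 : m ≠ 0 := by
      rintro rfl
      norm_num at hm1
    have e1 : 2 ^ m * 2 ^ m * D₂ ≤ Real.exp (C * m / 2) := by
      have e2 : 4 * D₂ ≤ Real.exp (C / 2) := by linarith [Real.add_one_le_exp (C / 2)]
      calc 2 ^ m * 2 ^ m * D₂ ≤ 2 ^ m * 2 ^ m * D₂ ^ m :=
            mul_le_mul_of_nonneg_left (le_self_pow₀ hD₂1 hm0) (by positivity)
        _ = (4 * D₂) ^ m := by
            rw [← mul_pow, ← mul_pow]
            norm_num
        _ ≤ Real.exp (C / 2) ^ m := pow_le_pow_left₀ (by positivity) e2 m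
        _ = _ := by
            rw [← Real.exp_nat_mul]
            exact congrArg Real.exp (by ring)
    have e2 : 2 ^ m * D₂ / Real.exp (C * m / 2) ≤ κ := by
      rw [div_le_iff₀ (Real.exp_pos _)]
      have e3 := mul_le_mul_of_nonneg_left e1 hκ0.le
      have e4 := mul_le_mul_of_nonneg_right hκ (by positivity : 0 ≤ 2 ^ m * D₂)
      linarith
    have e3 : Real.exp ((1 - C * m) / 2) * Real.exp (3 / 2) = Real.exp 2 / Real.exp (C * m / 2) := by
      rw [← Real.exp_add, ← Real.exp_sub]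
      exact congrArg Real.exp (by ring)
    calc _ = 4 * C₀ * (Real.exp ((1 - C * m) / 2) * Real.exp (3 / 2)) *
          (m.factorial / (δ / 2) ^ (m + 1)) := by ring
      _ = 2 ^ m * D₂ / Real.exp (C * m / 2) / 4 * M := by
          rw [e3, hD₂, hMd, div_pow, pow_succ 2]
          field_simp
          ring
      _ ≤ _ := by gcongr
  have hfin : Mo g m (1 + δ) ≤ 3 * (κ / 4 * M) := by
    refine Real.tsum_le_of_sum_range_le (fun n => ?_) fun N => ?_
    · have := ha0 n
      have := Real.log_natCast_nonneg n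
      exact div_nonneg (mul_nonneg (ha0 n) (by positivity)) (by positivity)
    · refine (blocks a ha0 (by simp [ha]) m N hδ).trans
        ((Finset.sum_le_sum fun j _ => hb j).trans ?_)
      rw [Finset.sum_add_distrib, Finset.sum_add_distrib, ← Finset.mul_sum, ← Finset.mul_sum,
        ← Finset.mul_sum]
      linarith [s1 N, s2 N, s3 N]
  rw [mul_div_assoc, ← hMd] at hM
  nlinarith [mul_pos hκ0 hM0]

end Pool.Agent.MP_c481b3_nt.H31
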