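import Pool.Agent.MP_c481b3_nt.H31.SpecG

set_option autoImplicit false

namespace Pool.Agent.MP_c481b3_nt.H31

open Pool.Agent.MP_c481b3_nt.H81 Pool.Agent.MP_c481b3_nt.H28 Polynomial

namespace Ends

open ComplexConjugate

lemma four {l : ℕ} (h : l % 4 = 3) (t s : ℤ) : t ^ 2 + s ^ 2 ≠ 4 * l := by
  intro e
  obtain ⟨k, rfl⟩ : ∃ k, l = 4 * k + 3 := ⟨l / 4, by omega⟩
  have e1 := congrArg (Int.cast : ℤ → ZMod 16) e
  push_cast at e1
  have e2 : (4 : ZMod 16) * (4 * k + 3) = 12 := by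
    have : (16 : ZMod 16) = 0 := by decide
    linear_combination (k : ZMod 16) * this
  rw [e2] at e1
  revert e1
  generalize (t : ZMod 16) = a
  generalize (s : ZMod 16) = b
  revert a b
  decide

lemma three {l : ℕ} (h : l % 3 = 2) (t s : ℤ) : t ^ 2 + t * s + s ^ 2 ≠ 3 * l := by
  intro e
  obtain ⟨k, rfl⟩ : ∃ k, l = 3 * k + 2 := ⟨l / 3, by omega⟩
  have e1 := congrArg (Int.cast : ℤ → ZMod 9) e
  push_cast at e1
  have e2 : (3 : ZMod 9) * (3 * k + 2) = 6 := by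
    have : (9 : ZMod 9) = 0 := by decide
    linear_combination (k : ZMod 9) * this
  rw [e2] at e1
  revert e1
  generalize (t : ZMod 9) = a
  generalize (s : ZMod 9) = b
  revert a b
  decide

/-- the scaling of a quotient map onto the same curve is a quadratic integer -/
lemma quad {A B u : ℂ} {D : Finset (Pt A B)} (d : VD D u A B) :
    ∃ t : ℤ, u * u = t * u - D.card := by
  classical
  have h3 : (3 : ℂ) ≠ 0 := by norm_num
  obtain ⟨φ, -, a2, a3⟩ := d.exists_end (hG := d.good) h3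
  have e := congrArg (cE d.good) ((compRing h3 d.good).char φ)
  rw [map_sub, map_mul, map_mul, a2, map_intCast, map_intCast, a3, Int.cast_natCast] at e
  exact ⟨_, e⟩

lemma good10 : Good (1 : ℂ) 0 := ⟨two_ne_zero, by norm_num⟩

lemma good01 : Good (0 : ℂ) 1 := ⟨two_ne_zero, by norm_num⟩

lemma vB_ne {l : ℕ} (h : l % 4 = 3) {D : Finset (Pt (1 : ℂ) 0)} (hD : IsSub D) (hc : D.card = l) :
    vB D ≠ 0 := by
  intro e
  have g := good_velu good10 three_ne_zero hD (by rw [hc, Nat.odd_iff]; omega)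
  obtain ⟨u, hu⟩ := IsAlgClosed.exists_pow_nat_eq (vA D) (n := 4) (by norm_num)
  have u0 : u ≠ 0 := by
    rintro rfl
    exact g.disc (by rw [← hu, e]; norm_num)
  obtain ⟨t, ht⟩ := quad (u := u) ⟨good10, hD, u0, by rw [hu, mul_one], by rw [e, mul_zero], good10⟩
  obtain ⟨s, hs⟩ := quad (u := Complex.I * u) ⟨good10, hD, mul_ne_zero Complex.I_ne_zero u0,
    by rw [mul_pow, Complex.I_pow_four, hu, one_mul, mul_one], by rw [e, mul_zero], good10⟩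
  rw [hc] at ht hs
  have hI := Complex.I_sq
  have e1 : (t : ℂ) * u = u ^ 2 + l := by linear_combination -ht
  have e2 : (s : ℂ) * (Complex.I * u) = l - u ^ 2 := by linear_combination -hs + u ^ 2 * hI
  have e3 : ((t : ℂ) ^ 2 + s ^ 2 - 4 * l) * u ^ 2 = 0 := by
    have a1 : ((t : ℂ) * u) ^ 2 = (u ^ 2 + l) ^ 2 := by rw [e1]
    have a2 : ((s : ℂ) * (Complex.I * u)) ^ 2 = (l - u ^ 2) ^ 2 := by rw [e2]
    linear_combination a1 - a2 + (s : ℂ) ^ 2 * u ^ 2 * hI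
  have e4 := sub_eq_zero.1 ((mul_eq_zero.1 e3).resolve_right (pow_ne_zero 2 u0))
  exact four h t s (by exact_mod_cast e4)

lemma vA_ne {l : ℕ} (ho : Odd l) (h : l % 3 = 2) {D : Finset (Pt (0 : ℂ) 1)} (hD : IsSub D)
    (hc : D.card = l) : vA D ≠ 0 := by
  intro e
  have g := good_velu good01 three_ne_zero hD (hc ▸ ho)
  obtain ⟨u, hu⟩ := IsAlgClosed.exists_pow_nat_eq (vB D) (n := 6) (by norm_num)
  have u0 : u ≠ 0 := by
    rintro rfl
    exact g.disc (by rw [← hu, e]; norm_num)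
  obtain ⟨r, hr⟩ := IsAlgClosed.exists_pow_nat_eq (-3 : ℂ) two_pos
  obtain ⟨z, hz⟩ : ∃ z : ℂ, z ^ 2 + z + 1 = 0 := ⟨(r - 1) / 2, by linear_combination hr / 4⟩
  have z3 : z ^ 3 = 1 := by linear_combination (z - 1) * hz
  have z0 : z ≠ 0 := by
    rintro rfl
    norm_num at hz
  obtain ⟨t, ht⟩ := quad (u := u) ⟨good01, hD, u0, by rw [e, mul_zero], by rw [hu, mul_one], good01⟩
  obtain ⟨s, hs⟩ := quad (u := z * u) ⟨good01, hD, mul_ne_zero z0 u0, by rw [e, mul_zero],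
    by rw [mul_pow, show z ^ 6 = (z ^ 3) ^ 2 by ring, z3, hu, one_pow, one_mul, mul_one], good01⟩
  rw [hc] at ht hs
  have e1 : (t : ℂ) * u = u ^ 2 + l := by linear_combination -ht
  have e2 : (s : ℂ) * u = z * u ^ 2 + z ^ 2 * l := by
    linear_combination -z ^ 2 * hs + (z * u ^ 2 - s * u) * z3
  have e3 : ((t : ℂ) ^ 2 + t * s + s ^ 2 - 3 * l) * u ^ 2 = 0 := by
    have a : ((t : ℂ) ^ 2 + t * s + s ^ 2) * u ^ 2
        = (t * u) ^ 2 + (t * u) * (s * u) + (s * u) ^ 2 := by ring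
    rw [sub_mul, a, e1, e2]
    linear_combination (u ^ 4 + l * u ^ 2 + l ^ 2) * hz + (2 * l * u ^ 2 + z * l ^ 2) * z3
  have e4 := sub_eq_zero.1 ((mul_eq_zero.1 e3).resolve_right (pow_ne_zero 2 u0))
  exact three h t s (by exact_mod_cast e4)

/-- two units times powers of an element with value zero -/
lemma cmp {L κ : Type*} [Field L] [Field κ] {π : Plc L κ} {T R Z : L} {a b : κ} (hT : Ev π T 0)
    (T0 : T ≠ 0) (hR : Ev π R a) (hZ : Ev π Z b) (a0 : a ≠ 0) (b0 : b ≠ 0) {i j : ℕ}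
    (e : T ^ i * R = T ^ j * Z) : i = j ∧ a = b := by
  have key : ∀ {R Z : L} {a b : κ} {i j : ℕ}, Ev π R a → Ev π Z b → a ≠ 0 →
      T ^ i * R = T ^ j * Z → j ≤ i := by
    intro R Z a b i j hR hZ a0 e
    by_contra hc
    obtain ⟨k, rfl⟩ : ∃ k, j = i + (k + 1) := ⟨j - i - 1, by omega⟩
    rw [pow_add, mul_assoc] at e
    have h1 := ((hT.pow (k + 1)).mul hZ).congr (mul_left_cancel₀ (pow_ne_zero i T0) e).symm rfl
    exact a0 (by rw [hR.unique h1]; simp)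
  obtain rfl : i = j := le_antisymm (key hZ hR b0 e.symm) (key hR hZ a0 e)
  exact ⟨rfl, hR.unique (hZ.congr (mul_left_cancel₀ (pow_ne_zero i T0) e).symm rfl)⟩

lemma az_zero (g : ℤ[X]) : az (0 : ℂ) g = (g.coeff 0 : ℤ) := by
  simp [az]

lemma TT_ne : TT ≠ 0 := fun h => good_TT.disc (by simp [h])

/-- the value at the curve with `B = 0` is a positive real number -/
lemma pos {l : ℕ} (hl : l.Prime) (h : l % 4 = 3) :
    ∃ r : ℝ, 0 < r ∧ ∏ D ∈ subs (1 : ℂ) 0 l, (l : ℂ) ^ 6 * dl D = r := by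
  have t : Tm (1 : ℂ) 0 l := tm_char good10 hl.ne_zero
  have c1 : conj (1 : ℂ) = 1 := map_one _
  have c0 : conj (0 : ℂ) = 0 := map_zero _
  have e1 : conj (∏ D ∈ subs (1 : ℂ) 0 l, vB D) = ∏ D ∈ subs (1 : ℂ) 0 l, vB D := by
    rw [map_prod, tr_prod_subs (Sc.ofHom (starRingEnd ℂ) c1 c0 good10).map t t
      (fun P h0 _ => Sc.map_ne _ h0) vB]
    exact Finset.prod_congr rfl fun D hD => (vA_image _ c1 c0 good10 (t.mem_subs.1 hD).1).2.symm
  obtain ⟨b, hb⟩ := Complex.conj_eq_iff_real.1 e1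
  have b0 : b ≠ 0 := by
    rintro rfl
    obtain ⟨D, hD, e⟩ := Finset.prod_eq_zero_iff.1 hb
    exact vB_ne h (t.mem_subs.1 hD).1 (t.mem_subs.1 hD).2 e
  have l0 : (0 : ℝ) < l := by exact_mod_cast hl.pos
  refine ⟨((l : ℝ) ^ 6) ^ (l + 1) * b ^ 2, by positivity, ?_⟩
  rw [Finset.prod_congr rfl (g := fun D => (-(l : ℂ) ^ 6) * vB D ^ 2) fun D _ => by rw [dl]; ring,
    Finset.prod_mul_distrib, Finset.prod_const, t.card_subs hl, Finset.prod_pow, hb,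
    Even.neg_pow (by rw [Nat.even_iff]; omega)]
  push_cast
  rfl

lemma ne {l : ℕ} (hl : l.Prime) (ho : Odd l) (h : l % 3 = 2) :
    ∏ D ∈ subs (0 : ℂ) 1 l, (l : ℂ) ^ 6 * dl D ≠ 0 := by
  have t : Tm (0 : ℂ) 1 l := tm_char good01 hl.ne_zero
  refine Finset.prod_ne_zero_iff.2 fun D hD => mul_ne_zero (pow_ne_zero _ t.ne) ?_
  have := vA_ne ho h (t.mem_subs.1 hD).1 (t.mem_subs.1 hD).2
  simpa [dl] using this

end Ends

open Ends in
theorem psiEnds : PsiEnds := by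
  classical
  intro l Ψ hl h4 h3 hΨ
  have ho : Odd l := by rw [Nat.odd_iff]; omega
  obtain ⟨π, hπ⟩ := univPlace ℂ 0
  have hT : Ev π TT 0 := (hπ X).congr rfl (aeval_X _)
  have r1 : Rd π 1 TT 1 0 := rd_of (Ev.one π) hT good10
  have r0 : Rd π TT 1 0 1 := rd_of hT (Ev.one π) good01
  have z1 := ev_prod_dl r1 (tm_char good10 hl.ne_zero)
  have z0 := ev_prod_dl r0 (tm_char good01 hl.ne_zero)
  have e1 := hΨ.az (rd_good r1) one_ne_zero TT_ne
  have e0 := hΨ.az (rd_good r0) TT_ne one_ne_zero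
  rw [Finset.prod_mul_distrib, Finset.prod_const,
    (tm_char (rd_good r1) hl.ne_zero).card_subs hl] at e1
  rw [Finset.prod_mul_distrib, Finset.prod_const,
    (tm_char (rd_good r0) hl.ne_zero).card_subs hl] at e0
  obtain ⟨r, r0', hr⟩ := pos hl h4
  have n0 := Ends.ne hl ho h3
  have n1 : (r : ℂ) ≠ 0 := by exact_mod_cast r0'.ne'
  rw [hr] at z1
  have T0 := TT_ne
  have Ψ0 : Ψ ≠ 0 := by
    rintro rfl
    rw [map_zero] at e0
    exact mul_ne_zero (z0.ne_zero n0) (pow_ne_zero _ (pow_ne_zero _ (by simpa using T0))) e0.symm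
  have a1 : Ev π (az (TT ^ 2) Ψ.reverse) (Ψ.leadingCoeff : ℤ) :=
    (ev_az Ψ.reverse (hT.pow 2)).congr rfl (by
      rw [zero_pow two_ne_zero, az_zero, coeff_zero_reverse])
  have a2 : TT ^ (12 * (l + 1)) * az (TT ^ 2) Ψ.reverse
      = TT ^ (2 * Ψ.natDegree) * ∏ D ∈ subs 1 TT l, (l : LL ℚ) ^ 6 * dl D := by
    have x0 : (1 ^ 3 / TT ^ 2 : LL ℚ) ≠ 0 := by simpa using T0
    let := invertibleOfNonzero x0
    have b1 := eval₂_reverse_mul_pow (Int.castRingHom (LL ℚ)) (1 ^ 3 / TT ^ 2) Ψ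
    rw [invOf_eq_inv, show (1 ^ 3 / TT ^ 2 : LL ℚ)⁻¹ = TT ^ 2 by simp] at b1
    have b2 : az (TT ^ 2) Ψ.reverse * (1 ^ 3 / TT ^ 2) ^ Ψ.natDegree
        = (∏ D ∈ subs 1 TT l, (l : LL ℚ) ^ 6 * dl D) * ((1 / TT) ^ 12) ^ (l + 1) := b1.trans e1
    rw [one_pow, one_div, one_div, inv_pow, inv_pow, inv_pow, ← pow_mul, ← pow_mul,
      ← div_eq_mul_inv, ← div_eq_mul_inv, div_eq_div_iff (pow_ne_zero _ T0) (pow_ne_zero _ T0)] at b2
    rw [mul_comm, b2, mul_comm]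
  obtain ⟨k1, k2⟩ := Ends.cmp hT T0 a1 z1
    (Int.cast_ne_zero.2 (leadingCoeff_ne_zero.2 Ψ0)) n1 a2
  obtain ⟨Q, q1, q2⟩ := exists_eq_pow_rootMultiplicity_mul_and_not_dvd Ψ Ψ0 0
  rw [rootMultiplicity_eq_natTrailingDegree', C_0, sub_zero] at q1
  rw [C_0, sub_zero, X_dvd_iff] at q2
  have a3 : Ev π (az (TT ^ 3) Q) (Q.coeff 0 : ℤ) :=
    (ev_az Q (hT.pow 3)).congr rfl (by rw [zero_pow three_ne_zero, az_zero])
  have a4 : TT ^ (3 * Ψ.natTrailingDegree) * az (TT ^ 3) Q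
      = TT ^ (12 * (l + 1)) * ∏ D ∈ subs TT 1 l, (l : LL ℚ) ^ 6 * dl D := by
    rw [one_pow, div_one, div_one, ← pow_mul, mul_comm] at e0
    rw [← e0]
    conv_rhs => rw [q1, map_mul, map_pow]
    rw [pow_mul]
    simp [az]
  obtain ⟨k3, -⟩ := Ends.cmp hT T0 a3 z0 (Int.cast_ne_zero.2 q2) n0 a4
  refine ⟨⟨3 * (l + 1), by omega⟩, ?_, ⟨2 * (l + 1), by omega⟩⟩
  have : (Ψ.leadingCoeff : ℝ) = r := by exact_mod_cast k2
  exact_mod_cast this ▸ r0'

end Pool.Agent.MP_c481b3_nt.H31
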