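import Pool.Agent.MP_c481b3_nt.H31.SpecG

/-! Row GAP: many real points of a real cubic contain two points with a steep chord. -/

set_option autoImplicit false

namespace Pool.Agent.MP_c481b3_nt.H31

namespace GAP

theorem close {u v η : ℝ} (hη : 0 < η) (hu : 0 ≤ u) (hv : 0 ≤ v) (h : ⌊u / η⌋₊ = ⌊v / η⌋₊) :
    |u - v| < η := by
  have e1 := Nat.floor_le (div_nonneg hu hη.le)
  have e2 := Nat.lt_floor_add_one (u / η)
  have e3 := Nat.floor_le (div_nonneg hv hη.le)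
  have e4 := Nat.lt_floor_add_one (v / η)
  rw [h] at e1 e2
  have e5 : |u / η - v / η| < 1 := by rw [abs_lt]; constructor <;> linarith
  rwa [← sub_div, abs_div, abs_of_pos hη, div_lt_one hη] at e5

theorem card2 (S : Finset (ℝ × ℝ)) (g h : ℝ × ℝ → ℝ) {e η A B : ℝ} (he : 0 < e) (hη : 0 < η)
    (hA : 0 ≤ A) (hB : 0 ≤ B) (hg : ∀ P ∈ S, 0 ≤ g P ∧ g P ≤ A) (hh : ∀ P ∈ S, 0 ≤ h P ∧ h P ≤ B)
    (sep : ∀ P ∈ S, ∀ Q ∈ S, P ≠ Q → |g P - g Q| < e → η ≤ |h P - h Q|) :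
    (S.card : ℝ) ≤ (A / e + 1) * (B / η + 1) := by
  have h1 : S.card ≤ (Finset.range (⌊A / e⌋₊ + 1) ×ˢ Finset.range (⌊B / η⌋₊ + 1)).card := by
    refine Finset.card_le_card_of_injOn (fun P => (⌊g P / e⌋₊, ⌊h P / η⌋₊)) ?_ ?_
    · intro P hP
      have h2 := (hg P hP).2
      have h3 := (hh P hP).2
      simp only [Finset.coe_product, Finset.coe_range, Set.mem_prod, Set.mem_Iio]
      exact ⟨Nat.lt_succ_of_le (Nat.floor_le_floor (by gcongr)),
        Nat.lt_succ_of_le (Nat.floor_le_floor (by gcongr))⟩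
    · intro P hP Q hQ hk
      by_contra hne
      obtain ⟨k1, k2⟩ := Prod.mk.inj hk
      exact (close hη (hh P hP).1 (hh Q hQ).1 k2).not_ge
        (sep P hP Q hQ hne (close he (hg P hP).1 (hg Q hQ).1 k1))
  rw [Finset.card_product, Finset.card_range, Finset.card_range] at h1
  have h2 : (S.card : ℝ) ≤ ((⌊A / e⌋₊ : ℝ) + 1) * ((⌊B / η⌋₊ : ℝ) + 1) := by exact_mod_cast h1
  have h3 := Nat.floor_le (div_nonneg hA he.le)
  have h4 := Nat.floor_le (div_nonneg hB hη.le)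
  refine h2.trans ?_
  gcongr

theorem card1 (S : Finset (ℝ × ℝ)) (h : ℝ × ℝ → ℝ) {η B : ℝ} (hη : 0 < η)
    (hB : 0 ≤ B) (hh : ∀ P ∈ S, 0 ≤ h P ∧ h P ≤ B)
    (sep : ∀ P ∈ S, ∀ Q ∈ S, P ≠ Q → η ≤ |h P - h Q|) : (S.card : ℝ) ≤ B / η + 1 := by
  simpa using card2 S (fun _ => 0) h one_pos hη le_rfl hB (fun _ _ => ⟨le_rfl, le_rfl⟩) hh
    fun P hP Q hQ hne _ => sep P hP Q hQ hne

theorem cube {a b x y : ℝ} (ha : |a| ≤ 1) (hb : |b| ≤ 1) (hx : 2 ≤ x) (hy : 0 < y)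
    (e : y ^ 2 = x ^ 3 + a * x + b) : √x ^ 3 / 2 ≤ y := by
  rw [abs_le] at ha hb
  refine (sq_le_sq₀ (by positivity) hy.le).1 ?_
  have : (√x ^ 3 / 2) ^ 2 = (√x ^ 2) ^ 3 / 4 := by ring
  rw [this, Real.sq_sqrt (by linarith), e]
  have h1 : 4 * x ≤ x ^ 3 := by
    nlinarith [mul_nonneg (mul_nonneg (sub_nonneg.2 hx) (by linarith : 0 ≤ x + 2)) (by linarith : 0 ≤ x)]
  nlinarith

theorem far {u v s y z : ℝ} (hu : 0 < u) (hv : 0 < v) (hs : 0 < s) (hy : u ^ 3 / 2 ≤ y)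
    (hz : v ^ 3 / 2 ≤ z) (h : y + z ≤ s * |u ^ 2 - v ^ 2|) : 1 / (2 * s) ≤ |1 / u - 1 / v| := by
  have e : 1 / u - 1 / v = -(u ^ 2 - v ^ 2) / (u * v * (u + v)) := by field_simp; ring
  rw [e, abs_div, abs_neg, abs_of_pos (by positivity : 0 < u * v * (u + v)),
    div_le_div_iff₀ (by positivity) (by positivity)]
  nlinarith [mul_nonneg (add_pos hu hv).le (sq_nonneg (u - v))]

theorem low {a b x y δ d : ℝ} (ha : |a| ≤ 1) (hb : |b| ≤ 1) (hx : |x| ≤ 2) (hy : 0 < y)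
    (e : y ^ 2 = x ^ 3 + a * x + b) (hd : 0 < d) (h1 : d ≤ 1) (h2 : d ≤ δ)
    (hδ : δ ≤ |4 * a ^ 3 + 27 * b ^ 2|) (hc : y < d / 25) : d / 6 ≤ |3 * x ^ 2 + a| := by
  have i : 4 * a ^ 3 + 27 * b ^ 2 =
      (3 * x ^ 2 + 4 * a) * (3 * x ^ 2 + a) ^ 2 - 27 * (x ^ 3 + a * x - b) * y ^ 2 := by
    rw [e]; ring
  have x2 : |x ^ 2| ≤ 4 := by
    rw [abs_pow]; nlinarith [abs_nonneg x]
  have x3 : |x ^ 3| ≤ 8 := by
    rw [abs_pow]; nlinarith [abs_nonneg x, sq_abs x, sq_nonneg (|x|)]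
  have ax : |a * x| ≤ 2 := by
    rw [abs_mul]; nlinarith [abs_nonneg x, abs_nonneg a]
  have b1 : |3 * x ^ 2 + 4 * a| ≤ 16 := by
    rw [abs_le] at *; constructor <;> linarith [x2.1, x2.2, ha.1, ha.2]
  have b2 : |x ^ 3 + a * x - b| ≤ 11 := by
    rw [abs_le] at *; constructor <;> linarith [x3.1, x3.2, ax.1, ax.2, hb.1, hb.2]
  have b3 : δ ≤ 16 * (3 * x ^ 2 + a) ^ 2 + 27 * 11 * y ^ 2 := by
    refine hδ.trans ?_
    rw [i]
    refine (abs_sub _ _).trans ?_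
    rw [abs_mul, abs_mul, abs_mul, abs_sq, abs_sq, abs_of_pos (by norm_num : (0 : ℝ) < 27)]
    gcongr
  refine (sq_le_sq₀ (by positivity) (abs_nonneg _)).1 ?_
  rw [sq_abs]
  have : y ^ 2 ≤ (d / 25) ^ 2 := by gcongr
  nlinarith

end GAP

open GAP in
theorem realGap : RealGap := by
  intro δ hδ
  obtain ⟨d, hd, d1, d2⟩ : ∃ d : ℝ, 0 < d ∧ d ≤ 1 ∧ d ≤ δ :=
    ⟨min 1 δ, lt_min one_pos hδ, min_le_left _ _, min_le_right _ _⟩
  obtain ⟨K, hK⟩ : ∃ K, K = 2 + (50 / d + 1) + (288 / d + 1) * (12 / d + 1) := ⟨_, rfl⟩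
  have K0 : 0 < K := by rw [hK]; positivity
  refine ⟨⌈(12 * K + 4) ^ 2⌉₊, fun a b l T hl ha hb hD hT hc _ => ?_⟩
  by_contra hn
  push Not at hn
  have l1 : (12 * K + 4) ^ 2 < l := Nat.lt_of_ceil_lt hl
  have l0 : (0 : ℝ) < l := lt_of_le_of_lt (by positivity) l1
  obtain ⟨s, s0, hs⟩ : ∃ s : ℝ, 0 < s ∧ s ^ 2 = 3 * l :=
    ⟨√(3 * l), by positivity, Real.sq_sqrt (by positivity)⟩
  have s1 : 12 * K + 4 < s := lt_of_pow_lt_pow_left₀ 2 s0.le (by linarith)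
  have sep : ∀ P ∈ T, ∀ Q ∈ T, P ≠ Q → P.2 + Q.2 ≤ s * |P.1 - Q.1| := by
    intro P hP Q hQ hne
    obtain ⟨p0, p1⟩ := hT P hP
    obtain ⟨q0, q1⟩ := hT Q hQ
    have : P.1 ≠ Q.1 := fun h =>
      hne (Prod.ext h ((sq_eq_sq₀ p0.le q0.le).1 (by rw [p1, q1, h])))
    refine (sq_le_sq₀ (by positivity) (by positivity)).1 ?_
    rw [mul_pow, sq_abs, hs]
    exact hn P hP Q hQ this
  have lo : ∀ P ∈ T, -2 ≤ P.1 := by
    intro P hP
    obtain ⟨p0, p1⟩ := hT P hP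
    by_contra h
    rw [abs_le] at ha hb
    have h1 : P.1 < -2 := not_le.1 h
    have h2 : P.1 ^ 3 ≤ 4 * P.1 := by
      nlinarith [mul_nonneg (mul_nonneg (by linarith : 0 ≤ 2 - P.1) (by linarith : 0 ≤ -2 - P.1))
        (by linarith : 0 ≤ -P.1)]
    nlinarith [sq_nonneg P.2]
  have c1 := card1 (T.filter fun P => 2 ≤ P.1) (fun P => 1 / √P.1) (η := 1 / (2 * s)) (B := 1)
    (by positivity) zero_le_one
    (fun P hP => ⟨by positivity, by
      have := (Finset.mem_filter.1 hP).2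
      exact div_le_one_of_le₀ (Real.one_le_sqrt.2 (by linarith)) (by positivity)⟩)
    (fun P hP Q hQ hne => by
      obtain ⟨p1, p2⟩ := Finset.mem_filter.1 hP
      obtain ⟨q1, q2⟩ := Finset.mem_filter.1 hQ
      refine far (Real.sqrt_pos.2 (by linarith)) (Real.sqrt_pos.2 (by linarith)) s0
        (cube ha hb p2 (hT P p1).1 (hT P p1).2) (cube ha hb q2 (hT Q q1).1 (hT Q q1).2) ?_
      rw [Real.sq_sqrt (by linarith), Real.sq_sqrt (by linarith)]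
      exact sep P p1 Q q1 hne)
  have c2 := card1 ((T.filter fun P => ¬ 2 ≤ P.1).filter fun P => d / 25 ≤ P.2) (fun P => P.1 + 2)
    (η := 2 * d / (25 * s)) (B := 4) (by positivity) (by norm_num)
    (fun P hP => by
      obtain ⟨p1, p2⟩ := Finset.mem_filter.1 (Finset.mem_filter.1 hP).1
      constructor <;> linarith [lo P p1])
    (fun P hP Q hQ hne => by
      obtain ⟨p1, p2⟩ := Finset.mem_filter.1 hP
      obtain ⟨q1, q2⟩ := Finset.mem_filter.1 hQ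
      have := sep P (Finset.mem_filter.1 p1).1 Q (Finset.mem_filter.1 q1).1 hne
      rw [add_sub_add_right_eq_sub, div_le_iff₀ (by positivity)]
      linarith)
  have c3 := card2 ((T.filter fun P => ¬ 2 ≤ P.1).filter fun P => ¬ d / 25 ≤ P.2)
    (fun P => P.1 + 2) (fun P => P.2) (e := d / 72) (η := d / (12 * s)) (A := 4) (B := 1)
    (by positivity) (by positivity) (by norm_num) zero_le_one
    (fun P hP => by
      obtain ⟨p1, p2⟩ := Finset.mem_filter.1 (Finset.mem_filter.1 hP).1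
      constructor <;> linarith [lo P p1])
    (fun P hP => by
      obtain ⟨p1, p2⟩ := Finset.mem_filter.1 hP
      exact ⟨(hT P (Finset.mem_filter.1 p1).1).1.le, by linarith⟩)
    (fun P hP Q hQ hne hx => by
      obtain ⟨p1, p2⟩ := Finset.mem_filter.1 hP
      obtain ⟨p1, p3⟩ := Finset.mem_filter.1 p1
      obtain ⟨q1, q3⟩ := Finset.mem_filter.1 (Finset.mem_filter.1 hQ).1
      obtain ⟨p0, pe⟩ := hT P p1
      obtain ⟨q0, qe⟩ := hT Q q1
      have h1 := sep P p1 Q q1 hne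
      have px : |P.1| ≤ 2 := abs_le.2 ⟨lo P p1, by linarith⟩
      have qx : |Q.1| ≤ 2 := abs_le.2 ⟨lo Q q1, by linarith⟩
      have h2 := low ha hb px p0 pe hd d1 d2 hD (not_le.1 p2)
      rw [add_sub_add_right_eq_sub] at hx
      have h3 : |(P.1 - Q.1) * (Q.1 + 2 * P.1)| ≤ d / 72 * 6 := by
        rw [abs_mul]
        have : |Q.1 + 2 * P.1| ≤ 6 := by
          rw [abs_le] at *; constructor <;> linarith [px.1, px.2, qx.1, qx.2]
        gcongr
      have h4 : d / 12 ≤ |P.1 ^ 2 + P.1 * Q.1 + Q.1 ^ 2 + a| := by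
        have : 3 * P.1 ^ 2 + a =
          (P.1 ^ 2 + P.1 * Q.1 + Q.1 ^ 2 + a) + (P.1 - Q.1) * (Q.1 + 2 * P.1) := by ring
        rw [this] at h2
        linarith [abs_add_le (P.1 ^ 2 + P.1 * Q.1 + Q.1 ^ 2 + a) ((P.1 - Q.1) * (Q.1 + 2 * P.1))]
      have h5 : |P.2 - Q.2| * (P.2 + Q.2) = |P.1 - Q.1| * |P.1 ^ 2 + P.1 * Q.1 + Q.1 ^ 2 + a| := by
        rw [← abs_of_pos (add_pos p0 q0), ← abs_mul, ← abs_mul]
        congr 1
        linear_combination pe - qe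
      rw [div_le_iff₀ (by positivity)]
      refine le_of_mul_le_mul_right ?_ (add_pos p0 q0)
      calc d * (P.2 + Q.2) ≤ d * (s * |P.1 - Q.1|) := by gcongr
        _ = 12 * s * (|P.1 - Q.1| * (d / 12)) := by ring
        _ ≤ 12 * s * (|P.1 - Q.1| * |P.1 ^ 2 + P.1 * Q.1 + Q.1 ^ 2 + a|) := by gcongr
        _ = _ := by rw [← h5]; ring)
  have t1 := Finset.card_filter_add_card_filter_not (s := T) fun P => 2 ≤ P.1
  have t2 := Finset.card_filter_add_card_filter_not (s := T.filter fun P => ¬ 2 ≤ P.1)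
    fun P => d / 25 ≤ P.2
  have t3 : (T.card : ℝ) ≤ K * (s + 1) := by
    rw [← t1, ← t2]
    push_cast
    have e1 : 1 / (1 / (2 * s)) = 2 * s := by field_simp
    have e2 : 4 / (2 * d / (25 * s)) = 50 / d * s := by field_simp; ring
    have e3 : 4 / (d / 72) = 288 / d := by field_simp; ring
    have e4 : 1 / (d / (12 * s)) = 12 / d * s := by field_simp
    rw [e1] at c1
    rw [e2] at c2
    rw [e3, e4] at c3
    have f1 : 0 < 50 / d := by positivity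
    have f2 : (288 / d + 1) * (12 / d * s + 1) ≤ (288 / d + 1) * ((12 / d + 1) * (s + 1)) := by
      have : 0 < 12 / d := by positivity
      gcongr
      nlinarith
    rw [hK]
    nlinarith
  have t4 : (l : ℝ) ≤ 2 * T.card + 1 := by exact_mod_cast hc
  nlinarith

end Pool.Agent.MP_c481b3_nt.H31
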