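import Pool.Agent.MP_c481b3_nt.H31.SpecN

set_option autoImplicit false

namespace Pool.Agent.MP_c481b3_nt.H31

open Pool.Agent.MP_c481b3_nt.H63 Metric Filter ArithmeticFunction

/-- the logarithmic derivative is a sum over the near zeros plus a bounded holomorphic function -/
def LocFac2 : Prop :=
  ∃ K : ℝ, 1 ≤ K ∧ ∀ (f : ℂ → ℂ) (B : ℝ), DifferentiableOn ℂ f (ball 2 (7 / 4)) → 2 ≤ B →
    (∀ s ∈ ball (2 : ℂ) (7 / 4), ‖f s‖ ≤ B) → 1 / 3 ≤ ‖f 2‖ →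
    ∃ (Z : Multiset ℂ) (h : ℂ → ℂ), (Z.card : ℝ) ≤ K * Real.log B ∧
      (∀ ρ ∈ Z, ρ ∈ ball (2 : ℂ) (7 / 4) ∧ f ρ = 0) ∧
      (∀ ρ ∈ ball (2 : ℂ) (5 / 4), f ρ = 0 → ρ ∈ Z) ∧ DifferentiableOn ℂ h (ball 2 (5 / 4)) ∧
      ∀ s ∈ ball (2 : ℂ) (5 / 4), ‖h s‖ ≤ K * Real.log B ∧
        (f s ≠ 0 → deriv f s / f s = (Z.map fun ρ => (s - ρ)⁻¹).sum + h s)

/-- the second main theorem of Turan for pure power sums -/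
def Turan : Prop :=
  ∀ (Z : Multiset ℂ) (M : ℕ) (z : ℂ), z ∈ Z → Z.card ≤ M →
    ∃ ν : ℕ, M < ν ∧ ν ≤ 2 * M ∧ (‖z‖ / 200) ^ ν ≤ ‖(Z.map fun w => w ^ ν).sum‖

/-- moments at a complex point -/
noncomputable def MoC (χ : ℕ → ℝ) (j : ℕ) (s : ℂ) : ℂ :=
  ∑' n : ℕ, ((vonMangoldt n * χ n * Real.log n ^ j : ℝ) : ℂ) * (n : ℂ) ^ (-s)

/-- the moments of `χ` are power sums over the zeros `Z` -/
structure IsZ (K L : ℝ) (χ : ArithmeticFunction ℝ) (Z : Multiset ℂ) : Prop where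
  abs : ∀ n, |χ n| ≤ 1
  card : (Z.card : ℝ) ≤ K * L
  re : ∀ ρ ∈ Z, ρ.re ≤ 1
  zero : ∀ ρ ∈ Z, Lc χ ρ = 0
  exp : ∀ (j : ℕ) (s : ℂ), 1 < s.re → ‖s - 1‖ ≤ 1 / 8 →
    ‖MoC χ j s / j.factorial + (Z.map fun ρ => (s - ρ)⁻¹ ^ (j + 1)).sum‖ ≤ K * L * 16 ^ j

/-- existence of the expansion -/
def ZExp : Prop :=
  ∃ K : ℝ, 1 ≤ K ∧ ∀ (χ : ArithmeticFunction ℝ) (q L : ℝ), Ch χ q → 1 ≤ L →
    Real.log (2 * q) ≤ L → ∃ Z, IsZ K L χ Z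

/-- the logarithmic derivative of zeta close to one -/
def ZetaB : Prop :=
  ∃ C : ℝ, 1 ≤ C ∧ ∀ s : ℂ, 1 < s.re → ‖s - 1‖ ≤ 1 → ‖MoC (fun _ => 1) 0 s - (s - 1)⁻¹‖ ≤ C

/-- zeros close to the line of real part one are close to one -/
def ZFR : Prop :=
  ∀ K η : ℝ, 1 ≤ K → 0 < η → ∃ η' : ℝ, 0 < η' ∧ ∀ (L : ℝ) (χ : ArithmeticFunction ℝ)
    (Z : Multiset ℂ), 1 ≤ L → IsZ K L χ Z → ∀ ρ ∈ Z, |ρ.im| ≤ 1 / 32 → 1 - ρ.re ≤ η' / L →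
    ‖ρ - 1‖ ≤ η / L

/-- the generators of the family of characters -/
def TS (S : Finset ℕ) : Finset ℤ := insert (-1) (insert 2 (S.image fun r : ℕ => (r : ℤ)))

/-- the character attached to a set of generators -/
def ch (D : Finset ℤ) : ArithmeticFunction ℝ := ja (∏ t ∈ D, t)

/-- `S` consists of odd primes and `L` bounds the logarithms of all conductors -/
def Lg (S : Finset ℕ) (L : ℝ) : Prop :=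
  (∀ r ∈ S, r.Prime ∧ r ≠ 2) ∧ 4 + 2 * Real.log (∏ r ∈ S, (r : ℝ)) ≤ L

open Classical in
/-- an upper bound for primes with prescribed quadratic symbols -/
def BT : Prop :=
  ∃ C : ℝ, 1 ≤ C ∧ ∀ (S : Finset ℕ) (L : ℝ) (X : ℕ) (ε : ℤ → ℤ), Lg S L → Real.exp (C * L) ≤ X →
    (∀ t, ε t = 1 ∨ ε t = -1) →
    ∑ n ∈ (Finset.Ioc X (2 * X)).filter (fun n => ∀ t ∈ TS S, jz t n = ε t), vonMangoldt n
      ≤ C * X / 2 ^ S.card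

/-- the Dirichlet polynomial over the prime powers of an interval -/
noncomputable def DP (χ b : ℕ → ℝ) (X N : ℕ) (t : ℝ) : ℂ :=
  ∑ n ∈ Finset.Ioc X N, ((vonMangoldt n * χ n * b n : ℝ) : ℂ) * (n : ℂ) ^ (-(1 + t * Complex.I))

/-- the large sieve for the family -/
def LS : Prop :=
  ∃ C : ℝ, 1 ≤ C ∧ ∀ (S : Finset ℕ) (L : ℝ) (X N : ℕ) (b : ℕ → ℝ), Lg S L →
    Real.exp (C * L) ≤ X → X ≤ N → (∀ n, |b n| ≤ 1) →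
    ∑ D ∈ (TS S).powerset, ∫ t in (-1 : ℝ)..1, ‖DP (ch D) b X N t‖ ^ 2 ≤ C * Real.log N

/-- the weight of the detector -/
noncomputable def bw (r : ℝ) (j n : ℕ) : ℝ :=
  (r * Real.log n) ^ j * Real.exp (-(r * Real.log n)) / j.factorial

/-- a zero makes a Dirichlet polynomial large, and there are few zeros in a small disc -/
def Det : Prop :=
  ∃ A : ℝ, 1 ≤ A ∧ ∀ K : ℝ, 1 ≤ K → ∃ C : ℝ, 1 ≤ C ∧ ∀ (L r t : ℝ) (M : ℕ)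
    (χ : ArithmeticFunction ℝ) (Z : Multiset ℂ), IsZ K L χ Z → 1 ≤ r * L → 0 < r → r * A ≤ 1 →
    |t| ≤ 1 / 16 → C * (r * L) ≤ M →
    (((Z.filter fun ρ => ‖ρ - (1 + t * Complex.I)‖ ≤ 2 * r).card : ℝ) ≤ C * (r * L)) ∧
    ∀ ρ ∈ Z, ‖ρ - (1 + t * Complex.I)‖ ≤ 2 * r → ∃ j : ℕ, M ≤ j ∧ j < 2 * M ∧
      1 ≤ A ^ M * r * ‖DP χ (bw r j) ⌊Real.exp (M / (A * r))⌋₊ ⌊Real.exp (A * M / r)⌋₊ t‖

/-- the density estimate without logarithms -/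
def Dens : Prop :=
  ∀ K : ℝ, 1 ≤ K → ∃ C : ℝ, 1 ≤ C ∧ ∀ (S : Finset ℕ) (L r : ℝ) (Z : Finset ℤ → Multiset ℂ),
    Lg S L → (∀ D ∈ (TS S).powerset.erase ∅, IsZ K L (ch D) (Z D)) → 1 ≤ r * L → r * C ≤ 1 →
    ∑ D ∈ (TS S).powerset.erase ∅,
      (((Z D).filter fun ρ => 1 - ρ.re ≤ r ∧ |ρ.im| ≤ 1 / 32).card : ℝ) ≤ Real.exp (C * (r * L))

/-- the moments of all characters of the family together are small -/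
def SumB : Prop :=
  ∀ K η : ℝ, 1 ≤ K → 0 < η → ∃ δ₁ : ℝ, 0 < δ₁ ∧ ∀ δ : ℝ, 0 < δ → δ ≤ δ₁ → ∃ C : ℝ, 1 ≤ C ∧
    ∀ (S : Finset ℕ) (L : ℝ) (m : ℕ) (Z : Finset ℤ → Multiset ℂ), Lg S L → C ≤ L → C * L ≤ m →
    (∀ D ∈ (TS S).powerset.erase ∅, IsZ K L (ch D) (Z D) ∧
      ∀ ρ ∈ Z D, |ρ.im| ≤ 1 / 32 → η / L < 1 - ρ.re) →
    ∑ D ∈ (TS S).powerset.erase ∅, |Mo (ch D) m (1 + δ)| ≤ m.factorial / (4 * δ ^ (m + 1))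

/-- a large moment gives a long initial segment with a large sum -/
def Dyad2 : Prop :=
  ∃ c C : ℝ, 0 < c ∧ 1 ≤ C ∧ ∀ (g : ℕ → ℝ) (κ δ : ℝ) (m : ℕ), (∀ n, 0 ≤ g n ∧ g n ≤ 1) →
    0 < δ → δ ≤ 1 → C ≤ m → 1 ≤ κ * 2 ^ m → κ * m.factorial / δ ^ (m + 1) ≤ Mo g m (1 + δ) →
    ∃ Y : ℝ, Real.exp (m / (20 * δ)) ≤ Y ∧ Y ≤ Real.exp (C * m / δ) ∧
      c * κ * Y ≤ ∑ n ∈ Finset.range (⌊Y⌋₊ + 1), vonMangoldt n * g n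

open Classical in
/-- primes that split at all primes of `S` but one large prime, in the range of Linnik -/
def PrimesC : Prop :=
  ∃ c : ℝ, 0 < c ∧ ∀ (E : ℝ) (R : ℕ), ∃ C : ℝ, 1 ≤ C ∧ ∀ (S : Finset ℕ) (L : ℝ),
    (∀ r ∈ S, r.Prime ∧ r ≠ 2) → C ≤ L → Real.log (∏ r ∈ S, (r : ℝ)) ≤ L →
    ∃ r₀ : ℕ, R < r₀ ∧ ∃ Y : ℝ, Real.exp (E * L) ≤ Y ∧ Y ≤ Real.exp (C * L) ∧
      c * Y / (2 ^ (S.erase r₀).card * Real.log Y)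
        ≤ ((Finset.range (⌊Y⌋₊ + 1)).filter (Gd (S.erase r₀))).card

/-- the lower bound for all large `x` -/
def CountC : Prop :=
  ∀ (S : Set ℕ) (S₀ : Finset ℕ) (D L₀ : ℕ) (A : ℝ) (Cov : ℕ → ℕ → ℕ → Prop),
    (∀ p ∈ S, p.Prime) → (∀ r ∈ S₀, r.Prime ∧ r ≠ 2) →
    (∀ l, L₀ ≤ l → Gd S₀ l → l ∈ S ∨ ∃ p ∈ S, ∃ i < D, jacobiSym (-(l : ℤ)) p = -1 ∧ Cov p i l ∧
      Real.log p ≤ A * (l : ℝ) ^ 4) →
    (∀ p i l l', Cov p i l → Cov p i l' → ∃ a b : ℤ, 4 * (l : ℤ) * l' = a ^ 2 + p * b ^ 2) →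
    ∃ c : ℝ, 0 < c ∧ ∀ᶠ x : ℕ in atTop,
      c * (Real.log (Real.log x) / Real.log (Real.log (Real.log x)))
        ≤ ({p ∈ S | p ≤ x} : Set ℕ).ncard

end Pool.Agent.MP_c481b3_nt.H31
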