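import Pool.Agent.MP_c481b3_nt.H31.Glue
import Pool.Agent.MP_c481b3_nt.H31.SpecL

set_option autoImplicit false

namespace Pool.Agent.MP_c481b3_nt.H31

open Pool.Agent.MP_c481b3_nt.H81 Pool.Agent.MP_c481b3_nt.H28 NumberField Filter GlueAux

variable {K : Type} [Field K] [NumberField K]

open Classical in
theorem mainC_of (hC : CountC) (hE : Elk) (h2 : Cov2) (hH : Ht) (hK : Odd (Module.finrank ℚ K))
    {A B : 𝓞 K} (hΔ : (Wc A B).Δ ≠ 0) (H : NoCM (iK A) (iK B)) :
    ∃ c : ℝ, 0 < c ∧ ∀ᶠ x : ℝ in atTop,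
      c * (Real.log (Real.log x) / Real.log (Real.log (Real.log x))) ≤ (ZS A B x).ncard := by
  obtain ⟨M, hM⟩ := hE K A B hK hΔ H
  obtain ⟨S₀, e, P, p, s0, -, s2⟩ := exists_data hM
  obtain ⟨C, C1, hC1⟩ := hH K A B hΔ H
  obtain ⟨c, c0, hc⟩ := hC {p | SS A B p} S₀ (Module.finrank ℚ K) (M + 1) (27 * C * (C + 6))
    (fun q i l => Cv A B (e q i) q l) (fun _ h => h.1) s0
    (fun l hl g => (s2 l hl g).imp_right fun ⟨a, i, hi, b, d⟩ => ⟨_, a, i, hi, b, d, by
      have l0 := g.1.pos
      have l1 : (1 : ℝ) ≤ l := by exact_mod_cast l0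
      have k1 := hC1 (2 * l) {e (p l) i} (by
        simp only [Finset.mem_singleton, forall_eq]
        exact ⟨_, l, d, l0, by nlinarith⟩)
      rw [Finset.sum_singleton] at k1
      refine ((log_le d.max d.prime d.mem).trans k1).trans ?_
      have k2 : ((2 * l : ℕ) : ℝ) + 1 ≤ 3 * l := by push_cast; linarith
      have k0 : (1 : ℝ) ≤ ((2 * l : ℕ) : ℝ) + 1 := le_add_of_nonneg_left (Nat.cast_nonneg _)
      generalize ((2 * l : ℕ) : ℝ) + 1 = u at k0 k2
      have k3 : Real.log (C * u ^ 2) ≤ (C + 6) * l := by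
        rw [Real.log_mul (by positivity) (by positivity), Real.log_pow]
        have := Real.log_le_sub_one_of_pos (x := C) (by positivity)
        have := Real.log_le_sub_one_of_pos (x := u) (by positivity)
        push_cast
        nlinarith
      have k4 : 0 ≤ Real.log (C * u ^ 2) := Real.log_nonneg (by nlinarith)
      calc _ ≤ C * (3 * l) ^ 3 * ((C + 6) * l) := by gcongr
        _ = _ := by ring⟩)
    (fun q i l l' => h2 K A B _ q l l')
  set n := Module.finrank ℚ K with hn
  have n1 : (1 : ℝ) ≤ n := by exact_mod_cast hK.pos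
  have t1 : Tendsto (fun X : ℝ => X ^ (n : ℝ)⁻¹) atTop atTop := tendsto_rpow_atTop (by positivity)
  have t2 := tendsto_nat_floor_atTop.comp t1
  have t3 := (Real.tendsto_log_atTop.comp (Real.tendsto_log_atTop.comp
    tendsto_natCast_atTop_atTop)).comp t2
  refine ⟨c / 2, by positivity, ?_⟩
  filter_upwards [t2.eventually hc, t3.eventually_gt_atTop 1, t1.eventually_ge_atTop 4,
    Real.tendsto_log_atTop.eventually_ge_atTop ((2 * n) ^ 2), eventually_ge_atTop 1]
    with X h1 h3 h4 h5 h6
  simp only [Function.comp_apply] at h1 h3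
  set x := ⌊X ^ (n : ℝ)⁻¹⌋₊ with hx
  have x1 : (x : ℝ) ≤ X ^ (n : ℝ)⁻¹ := Nat.floor_le (by positivity)
  have x2 : X ^ (n : ℝ)⁻¹ < x + 1 := Nat.lt_floor_add_one _
  have x3 : (x : ℝ) ^ n ≤ X := by
    rw [← Real.rpow_inv_natCast_pow (by positivity : 0 ≤ X) hK.pos.ne']
    gcongr
  have x4 : (x : ℝ) ≤ X := (le_self_pow₀ (by linarith) hK.pos.ne').trans x3
  refine le_trans ?_ (h1.trans (Nat.cast_le.2 (ncard_le A B x x3)))
  have x5 : Real.log X ≤ 2 * n * Real.log x := by
    have : Real.log (X ^ (n : ℝ)⁻¹) ≤ Real.log ((x : ℝ) ^ 2) :=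
      Real.log_le_log (by positivity) (by nlinarith)
    rw [Real.log_rpow (by positivity), Real.log_pow, inv_mul_le_iff₀ (by positivity)] at this
    push_cast at this
    linarith
  have x6 : 0 < Real.log x := Real.log_pos (by linarith)
  have x7 : 0 < Real.log X := Real.log_pos (by linarith)
  have x8 : Real.log X ≤ Real.log x ^ 2 := by
    have : 2 * n ≤ Real.log x := le_of_mul_le_mul_left (by nlinarith) (by positivity : 0 < 2 * (n : ℝ))
    nlinarith
  have x9 : Real.log (Real.log X) ≤ 2 * Real.log (Real.log x) := by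
    have := Real.log_le_log x7 x8
    rwa [Real.log_pow] at this
  have y1 : Real.log (Real.log x) ≤ Real.log (Real.log X) :=
    Real.log_le_log x6 (Real.log_le_log (by linarith) x4)
  have y2 : 0 < Real.log (Real.log (Real.log x)) := Real.log_pos h3
  have y3 : Real.log (Real.log (Real.log x)) ≤ Real.log (Real.log (Real.log X)) :=
    Real.log_le_log (by linarith) y1
  have y4 : Real.log (Real.log X) / Real.log (Real.log (Real.log X))
      ≤ 2 * (Real.log (Real.log x) / Real.log (Real.log (Real.log x))) := by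
    rw [← mul_div_assoc]
    gcongr
  nlinarith

end Pool.Agent.MP_c481b3_nt.H31
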