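import Pool.Agent.MP_c481b3_nt.H31.SpecG

set_option autoImplicit false

namespace Pool.Agent.MP_c481b3_nt.H31

open Pool.Agent.MP_c481b3_nt.H81 Pool.Agent.MP_c481b3_nt.H28 Polynomial NumberField

namespace HtAux

variable {K : Type} [Field K] [NumberField K]

open Classical in
/-- a covering prime divides the invariant of a subgroup of small order that is not a square -/
theorem loc {A B : 𝓞 K} (hG : Good (iK A) (iK B)) (H : NoCM (iK A) (iK B)) {P : Ideal (𝓞 K)}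
    {p l m : ℕ} (cv : Cv A B P p l) (h0 : 0 < l) (h1 : 4 * l ≤ m ^ 2)
    (hm : ((((m + 1) ^ 2).factorial : ℕ) : 𝓞 K) ∉ P) :
    ∃ O : ValuationSubring (AlgebraicClosure K), (∀ r, iK r ∈ O) ∧
      (∀ r, O.valuation (iK r) < 1 ↔ r ∈ P) ∧
      ∃ C : Finset (Pt (iK A) (iK B)), IsSub C ∧ m ^ 2 < C.card ∧ C.card < (m + 1) ^ 2 ∧
        dl C ≠ 0 ∧ O.valuation (dl C) < 1 := by
  obtain ⟨O, q, n, c⟩ := exists_loc cv.max cv.good
  have := Fact.mk c.prime
  have := c.char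
  obtain rfl : q = p := (Nat.prime_dvd_prime_iff_eq c.prime cv.prime).1 (c.nat_mem.1 cv.mem)
  have h3 := c.three cv.five
  have cr := compRing h3 c.good
  obtain ⟨φ, f1, f2⟩ := cv.anti O q n c
  have π0 := frE_ne c.good h3 q n (c.fix A) (c.fix B)
  obtain ⟨t, t1, t2⟩ := exists_t (a := 0) (q := l) (m := m) (by omega) (by
    rw [zero_pow two_ne_zero, sub_zero]
    exact_mod_cast h1)
  rw [zero_mul, sub_zero] at t1 t2
  obtain ⟨N, hN⟩ : ∃ N : ℕ, (N : ℤ) = t ^ 2 + l :=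
    ⟨_, Int.toNat_of_nonneg ((sq_nonneg _).trans t1.le)⟩
  rw [← hN] at t1 t2
  have t1' : m ^ 2 < N := by exact_mod_cast t1
  have t2' : N < (m + 1) ^ 2 := by exact_mod_cast t2
  have N0 : (N : IsLocalRing.ResidueField O) ≠ 0 := c.nat_ne fun e => by
    obtain ⟨b, hb⟩ := Nat.dvd_factorial (show 0 < N by omega) t2'.le
    exact hm (by rw [hb, Nat.cast_mul]; exact P.mul_mem_right _ e)
  have tm : Tm (rs O A) (rs O B) N := ⟨c.good, h3, N0⟩
  have e1 : NE (φ - (t : EE c.good)) = N := by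
    have e := cr.pol_int' t 1 φ
    rw [mul_one, cr.tr_anti π0 f2, mul_zero] at e
    rw [cr.sub, e, cr.int, f1, hN]
    ring
  have e2 : cE c.good φ ^ 2 = -l := by
    rw [sq, ← map_mul, cr.sq_anti π0 f2, map_neg, map_intCast, f1, Int.cast_natCast]
  have e3 : cE c.good (φ - (t : EE c.good)) ≠ 0 := by
    intro e
    rw [map_sub, map_intCast, sub_eq_zero] at e
    have e4 := congrArg (Int.cast : ℤ → IsLocalRing.ResidueField O) hN
    push_cast at e4
    exact N0 (by rw [e4, ← e, e2, neg_add_cancel])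
  obtain ⟨D', d, d1, -⟩ := exists_vd h3 _ e3
  obtain ⟨D, hD, rfl⟩ := exists_lift_sub c.rd tm
    (tm.mem_subs.2 ⟨d.sub, by rw [e1] at d1; exact_mod_cast d1⟩)
  obtain ⟨c1, c2⟩ := (tm.up c.rd).mem_subs.1 hD
  have hf := red_sub_ne c.rd c1 (c2 ▸ N0)
  refine ⟨O, c.mem, c.lt, D, c1, by omega, by omega, H.dl_ne hG c1 ?_ ?_, ?_⟩
  · rintro ⟨s, hs⟩
    rw [c2, ← sq] at hs
    rw [hs, Nat.pow_lt_pow_iff_left two_ne_zero] at t1' t2'
    omega
  · refine fun h => (ev_vA c.rd c1 hf).ne_zero ?_ h.1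
    rw [d.hA]
    exact mul_ne_zero (pow_ne_zero _ d.hu) (c.rs_ne cv.hA)
  · have v1 := ev_dl c.rd c1 hf
    rw [d.dl_eq] at v1
    exact v1.v_lt

end HtAux

theorem ht : Ht := by
  classical
  intro K _ _ A B hΔ H
  have hG : Good (iK A) (iK B) := good_of_ne (by
    have e : Wc (iK A) (iK B) = (Wc A B).map iK := by ext <;> simp [Wc]
    rw [e, WeierstrassCurve.map_Δ]
    exact (map_ne_zero_iff _ iK_inj).2 hΔ)
  obtain ⟨T, hT⟩ : ∃ T : ℝ, T = 1 + ∑ τ : K →+* ℂ, (‖τ A‖ + ‖τ B‖) := ⟨_, rfl⟩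
  have sb : ∀ τ : K →+* ℂ, ‖τ A‖ + ‖τ B‖ ≤ ∑ τ : K →+* ℂ, (‖τ A‖ + ‖τ B‖) := fun τ =>
    Finset.single_le_sum (f := fun τ : K →+* ℂ => ‖τ A‖ + ‖τ B‖) (fun _ _ => by positivity)
      (Finset.mem_univ τ)
  have T1 : 1 ≤ T := by
    rw [hT]; exact le_add_of_nonneg_right (Finset.sum_nonneg fun _ _ => by positivity)
  have hA : ∀ τ : K →+* ℂ, ‖τ A‖ ≤ T := fun τ => by
    linarith [sb τ, norm_nonneg (τ B)]
  have hB : ∀ τ : K →+* ℂ, ‖τ B‖ ≤ T := fun τ => by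
    linarith [sb τ, norm_nonneg (τ A)]
  choose! d d0 d1 d2 using fun (N : ℕ) (hN : N ≠ 0) => exists_delta hG T1 hA hB hN
  have r1 : (1 : ℝ) ≤ Module.finrank ℚ K := by exact_mod_cast Module.finrank_pos
  have k1 : 100 * T ≤ 190 * Module.finrank ℚ K * T := by nlinarith
  have k2 : (190 : ℝ) * Module.finrank ℚ K ≤ 190 * Module.finrank ℚ K * T := by nlinarith
  refine ⟨190 * Module.finrank ℚ K * T, by linarith, fun m S hS => ?_⟩
  set M := (m + 1) ^ 2 with hM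
  have M1 : (1 : ℝ) ≤ M := by exact_mod_cast Nat.one_le_pow _ _ m.succ_pos
  have b1 : (1 : ℝ) ≤ 100 * T * M := by nlinarith
  have nz : ∀ N ∈ Finset.Ioo (m ^ 2) M, N ≠ 0 := fun N hN => by
    have := (Finset.mem_Ioo.1 hN).1
    omega
  have D0 : ((M.factorial : ℕ) : 𝓞 K) * ∏ N ∈ Finset.Ioo (m ^ 2) M, d N ≠ 0 :=
    mul_ne_zero (Nat.cast_ne_zero.2 M.factorial_ne_zero)
      (Finset.prod_ne_zero_iff.2 fun N hN => d0 N (nz N hN))
  have := sum_log_le D0 (T := (100 * T * M) ^ (190 * (m + 1) ^ 3)) (fun τ => ?_) S fun P hP => ?_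
  · have eM : (M : ℝ) = (m + 1) ^ 2 := by rw [hM]; push_cast; rfl
    have l0 := Real.log_nonneg b1
    rw [Real.log_pow] at this
    push_cast at this
    rw [← eM]
    calc _ ≤ _ := this
      _ = 190 * Module.finrank ℚ K * ((m : ℝ) + 1) ^ 3 * Real.log (100 * T * M) := by ring
      _ ≤ _ := by gcongr
  · have e : τ ((((M.factorial : ℕ) : 𝓞 K) * ∏ N ∈ Finset.Ioo (m ^ 2) M, d N : 𝓞 K) : K)
        = (M.factorial : ℕ) * ∏ N ∈ Finset.Ioo (m ^ 2) M, τ (d N) := by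
      change τ.comp (algebraMap (𝓞 K) K) _ = _
      rw [map_mul, map_natCast, map_prod]
      rfl
    rw [e, norm_mul, norm_prod, Complex.norm_natCast]
    calc _ ≤ (100 * T * M) ^ M * ∏ N ∈ Finset.Ioo (m ^ 2) M,
          (100 * T * M) ^ (27 * ∑ e ∈ N.divisors, e) := by
          gcongr with N hN
          · calc (M.factorial : ℝ) ≤ (M : ℝ) ^ M := by exact_mod_cast Nat.factorial_le_pow M
              _ ≤ _ := by gcongr; nlinarith
          · refine (d2 N (nz N hN) τ).trans ?_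
            gcongr
            exact (Finset.mem_Ioo.1 hN).2.le
      _ ≤ _ := by
          rw [Finset.prod_pow_eq_pow_sum, ← pow_add, ← Finset.mul_sum]
          refine pow_le_pow_right₀ b1 ?_
          have h1 := sigma_sum m
          have h2 : M ≤ (m + 1) ^ 3 := Nat.pow_le_pow_right m.succ_pos (by norm_num)
          rw [← hM] at h1
          omega
  · obtain ⟨p, l, cv, h0, h1⟩ := hS P hP
    refine ⟨cv.max, ?_⟩
    by_cases hm : ((M.factorial : ℕ) : 𝓞 K) ∈ P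
    · exact P.mul_mem_right _ hm
    obtain ⟨O, o1, o2, C, c1, c2, c3, c4, c5⟩ := HtAux.loc hG H cv h0 h1 hm
    have hN : C.card ∈ Finset.Ioo (m ^ 2) M := Finset.mem_Ioo.2 ⟨c2, c3⟩
    rw [← Finset.mul_prod_erase _ _ hN]
    exact P.mul_mem_left _ (P.mul_mem_right _ ((o2 _).1 (d1 _ (nz _ hN) O o1 C c1 rfl c4 c5)))

end Pool.Agent.MP_c481b3_nt.H31
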