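import Pool.Agent.MP_c481b3_nt.H31.SpecG

set_option autoImplicit false

namespace Pool.Agent.MP_c481b3_nt.H31

open Pool.Agent.MP_c481b3_nt.H81 Pool.Agent.MP_c481b3_nt.H28 Polynomial

namespace NSD

open ComplexConjugate

lemma conj_u {u : ℂ} {l : ℕ} (hl : 0 < l) (h : u ^ 2 = -l) : conj u = -u := by
  have h1 := congrArg Complex.re h
  have h2 := congrArg Complex.im h
  simp [sq] at h1 h2
  have hl' : (0 : ℝ) < l := by exact_mod_cast hl
  have h3 : u.re = 0 := by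
    by_contra h0
    have : u.im = 0 := by
      have : u.re * u.im = 0 := by linarith
      exact (mul_eq_zero.1 this).resolve_left h0
    rw [this] at h1
    nlinarith [mul_self_nonneg u.re]
  apply Complex.ext <;> simp [h3]

/-- the kernel is stable under conjugation, with a sign -/
lemma sign {A B u : ℂ} (hA : conj A = A) (hB : conj B = B) {D : Finset (Pt A B)} {l : ℕ}
    (hl : l.Prime) (d : VD D u A B) (hc : D.card = l) (hu : u ^ 2 = -l) :
    ∃ e : ℂ, (e = 1 ∨ e = -1) ∧ ∀ P ∈ D, conj (xc P) = xc P ∧ conj (yc P) = e * yc P := by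
  classical
  have h3 : (3 : ℂ) ≠ 0 := by norm_num
  set c := (Sc.ofHom (starRingEnd ℂ) hA hB d.good).map with hcd
  have cx : ∀ P, xc (c P) = conj (xc P) := fun P => xc_ofHom _ _ _ _ P
  have cy : ∀ P, yc (c P) = conj (yc P) := fun P => yc_ofHom _ _ _ _ P
  have cc : ∀ P, c (c P) = P := by
    intro P
    by_cases hP : P = 0
    · simp [hP]
    exact pt_ext (Sc.map_ne _ (Sc.map_ne _ hP)) hP (by rw [cx, cx, Complex.conj_conj])
      (by rw [cy, cy, Complex.conj_conj])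
  obtain ⟨d', -⟩ := vm_conj (starRingEnd ℂ) hA hB d.good d
  obtain ⟨φ, a1, a2, -⟩ := d.exists_end (hG := d.good) h3
  obtain ⟨ψ, b1, b2, -⟩ := d'.exists_end (hG := d.good) h3
  have z : φ + ψ = 0 := by
    have e0 : cE d.good (φ + ψ) = 0 := by rw [map_add, a2, b2, conj_u hl.pos hu, add_neg_cancel]
    have e1 := congrArg (cE d.good) ((compRing h3 d.good).char (φ + ψ))
    rw [map_sub, map_mul, map_mul, e0, mul_zero, mul_zero, map_intCast, zero_sub, eq_comm,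
      neg_eq_zero, Int.cast_eq_zero] at e1
    exact (compRing h3 d.good).eq_zero _ e1
  have st : ∀ P ∈ D, c P ∈ D := by
    intro P hP
    have e1 : ψ.1 (c P) = 0 := by
      rw [b1]
      exact (d'.hom_eq_zero h3).2 (Finset.mem_image_of_mem _ hP)
    have e2 : φ.1 (c P) + ψ.1 (c P) = 0 := by
      have := congrArg (fun f : EE d.good => f.1 (c P)) z
      exact this
    rw [e1, add_zero, a1] at e2
    exact (d.hom_eq_zero h3).1 e2
  set g : Pt A B →+ Pt A B := c - AddMonoidHom.id _ with hg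
  have s1 := isSub_ker g d.sub
  have s2 := card_dvd s1 d.sub (Finset.filter_subset _ _)
  rw [hc] at s2
  rcases (Nat.dvd_prime hl).1 s2 with h | h
  · refine ⟨-1, Or.inr rfl, fun P hP => ?_⟩
    have m : P + c P ∈ D.filter fun P => g P = 0 :=
      Finset.mem_filter.2 ⟨d.sub.add hP (st P hP), by simp [hg, cc, add_comm]⟩
    have e : P + c P = 0 := Finset.card_le_one.1 h.le _ m _ s1.zero
    have e' : c P = -P := by rw [eq_neg_iff_add_eq_zero, add_comm, e]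
    rw [← cx, ← cy, e', xc_neg, yc_neg]
    exact ⟨rfl, by ring⟩
  · refine ⟨1, Or.inl rfl, fun P hP => ?_⟩
    have e := Finset.eq_of_subset_of_card_le (Finset.filter_subset
      (fun P => g P = 0) D) (by rw [h, hc])
    rw [← e] at hP
    have e' : c P = P := by simpa [hg, sub_eq_zero] using (Finset.mem_filter.1 hP).2
    rw [← cx, ← cy, e', one_mul]
    exact ⟨rfl, rfl⟩

/-- a real subgroup has no steep chord -/
lemma core {a b : ℝ} {l : ℕ} (hl : Odd l) (ha : |a| ≤ 1) {D : Finset (Pt (a : ℂ) (b : ℂ))}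
    (hD : IsSub D) (hc : D.card = l) (hr : ∀ P ∈ D, conj (xc P) = xc P ∧ conj (yc P) = yc P)
    (hv : vA D = (l : ℂ) ^ 2 * a)
    (H : ∀ T : Finset (ℝ × ℝ), (∀ P ∈ T, 0 < P.2 ∧ P.2 ^ 2 = P.1 ^ 3 + a * P.1 + b) →
      l ≤ 2 * T.card + 1 → ∑ P ∈ T, P.1 ^ 2 ≤ (l : ℝ) ^ 2 →
      ∃ P ∈ T, ∃ Q ∈ T, P.1 ≠ Q.1 ∧ 3 * l * (P.1 - Q.1) ^ 2 < (P.2 + Q.2) ^ 2) : False := by
  classical
  have rx : ∀ P ∈ D, ((xc P).re : ℂ) = xc P := fun P hP => Complex.conj_eq_iff_re.1 (hr P hP).1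
  have ry : ∀ P ∈ D, ((yc P).re : ℂ) = yc P := fun P hP => Complex.conj_eq_iff_re.1 (hr P hP).2
  have c1 : (D.erase 0).card + 1 = l := by rw [Finset.card_erase_add_one hD.zero, hc]
  have l1 : (1 : ℝ) ≤ l := by exact_mod_cast hl.pos
  have sq : ∑ P ∈ D.erase 0, (xc P).re ^ 2 ≤ (l : ℝ) ^ 2 := by
    have e1 : ∑ P ∈ D.erase 0, ca P
        = ((3 * ∑ P ∈ D.erase 0, (xc P).re ^ 2 + ((l : ℝ) - 1) * a : ℝ) : ℂ) := by
      rw [Finset.sum_congr rfl (g := fun P => 3 * (((xc P).re : ℂ)) ^ 2 + a) fun P hP => by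
        rw [ca, rx P (Finset.mem_of_mem_erase hP)], Finset.sum_add_distrib, Finset.sum_const,
        ← Finset.mul_sum, ← c1]
      push_cast
      simp
    rw [vA, e1] at hv
    have e2 : a - 5 * (3 * ∑ P ∈ D.erase 0, (xc P).re ^ 2 + ((l : ℝ) - 1) * a)
        = (l : ℝ) ^ 2 * a := by exact_mod_cast hv
    have e3 := (abs_le.1 ha).1
    have e4 : 0 ≤ (a + 1) * ((l : ℝ) ^ 2 + 5 * l - 6) := mul_nonneg (by linarith) (by nlinarith)
    nlinarith
  have bd : ∀ P ∈ D.erase 0, (xc P).re ≤ l := by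
    intro P hP
    have := (Finset.single_le_sum (f := fun P => (xc P).re ^ 2) (fun _ _ => sq_nonneg _) hP).trans sq
    exact (abs_le_of_sq_le_sq' this (by linarith)).2
  set S := (D.erase 0).filter fun P => 0 < (yc P).re with hS
  set f : Pt (a : ℂ) (b : ℂ) → ℝ × ℝ := fun P => ((xc P).re, (yc P).re) with hf
  have inj : Set.InjOn f S := by
    intro P hP Q hQ e
    obtain ⟨p0, p1⟩ := Finset.mem_erase.1 (Finset.mem_filter.1 hP).1
    obtain ⟨q0, q1⟩ := Finset.mem_erase.1 (Finset.mem_filter.1 hQ).1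
    obtain ⟨e1, e2⟩ := Prod.mk.inj e
    exact pt_ext p0 q0 (by rw [← rx P p1, ← rx Q q1, e1]) (by rw [← ry P p1, ← ry Q q1, e2])
  have cd : (D.erase 0).card ≤ 2 * S.card := by
    have e1 := Finset.card_filter_add_card_filter_not (s := D.erase 0) fun P => 0 < (yc P).re
    have e2 : ((D.erase 0).filter fun P => ¬0 < (yc P).re).card ≤ S.card := by
      refine Finset.card_le_card_of_injOn (fun P => -P) (fun P hP => ?_) neg_injective.injOn
      obtain ⟨h1, h2⟩ := Finset.mem_filter.1 hP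
      obtain ⟨p0, p1⟩ := Finset.mem_erase.1 h1
      refine Finset.mem_filter.2 ⟨Finset.mem_erase.2 ⟨neg_ne_zero.2 p0, hD.neg p1⟩, ?_⟩
      rw [yc_neg, Complex.neg_re]
      refine lt_of_le_of_ne (by linarith) fun e => ?_
      have y0 : yc P = 0 := by rw [← ry P p1, ← neg_neg (yc P).re, ← e]; simp
      have e3 : -P = P := pt_ext (neg_ne_zero.2 p0) p0 (xc_neg P) (by rw [yc_neg, y0, neg_zero])
      refine two_not_mem hD (hc ▸ hl) p0 ?_ p1
      rw [two_nsmul]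
      nth_rewrite 1 [← e3]
      exact neg_add_cancel P
    rw [← hS] at e1
    omega
  obtain ⟨_, hp, _, hq, n1, n2⟩ := H (S.image f) (by
      intro z hz
      obtain ⟨P, hP, rfl⟩ := Finset.mem_image.1 hz
      obtain ⟨h1, h2⟩ := Finset.mem_filter.1 hP
      obtain ⟨p0, p1⟩ := Finset.mem_erase.1 h1
      refine ⟨h2, ?_⟩
      have := eqn p0
      rw [← rx P p1, ← ry P p1] at this
      simp only [hf]
      exact_mod_cast this)
    (by rw [Finset.card_image_of_injOn inj]; omega)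
    (by
      rw [Finset.sum_image inj]
      exact (Finset.sum_le_sum_of_subset_of_nonneg (Finset.filter_subset _ _)
        fun _ _ _ => sq_nonneg _).trans sq)
  obtain ⟨P, hP, rfl⟩ := Finset.mem_image.1 hp
  obtain ⟨Q, hQ, rfl⟩ := Finset.mem_image.1 hq
  have hP' := (Finset.mem_filter.1 hP).1
  have hQ' := (Finset.mem_filter.1 hQ).1
  obtain ⟨p0, p1⟩ := Finset.mem_erase.1 hP'
  obtain ⟨q0, q1⟩ := Finset.mem_erase.1 hQ'
  simp only [hf] at n1 n2
  have r0 : Q - P ≠ 0 := fun e => n1 (by rw [sub_eq_zero.1 e])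
  have r1 := hD.sub Q q1 P p1
  obtain ⟨m, n, col⟩ := col_of_sum p0 (neg_ne_zero.2 q0) r0 (by abel)
  have e1 : (yc P + yc Q) ^ 2 = (xc P + xc Q + xc (Q - P)) * (xc P - xc Q) ^ 2 := by
    have h1 := col.h1
    have h2 := col.h2
    have h3 := col.e1
    rw [yc_neg, xc_neg] at h2
    rw [xc_neg] at h3
    rw [h3, show yc P + yc Q = m * (xc P - xc Q) by linear_combination h1 - h2]
    ring
  rw [← rx P p1, ← rx Q q1, ← ry P p1, ← ry Q q1, ← rx _ r1] at e1
  have e2 : ((yc P).re + (yc Q).re) ^ 2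
      = ((xc P).re + (xc Q).re + (xc (Q - P)).re) * ((xc P).re - (xc Q).re) ^ 2 := by
    exact_mod_cast e1
  have b1 := bd P hP'
  have b2 := bd Q hQ'
  have b3 := bd _ (Finset.mem_erase.2 ⟨r0, r1⟩)
  have := mul_le_mul_of_nonneg_right
    (show (xc P).re + (xc Q).re + (xc (Q - P)).re ≤ 3 * l by linarith)
    (sq_nonneg ((xc P).re - (xc Q).re))
  linarith

lemma scale {δ w : ℝ} (hw : w ≠ 0) (h : δ * max |w| 1 ≤ |4 * w + 27|) :
    ∃ s : ℝ, 0 < s ∧ |w / s ^ 4| ≤ 1 ∧ |w / s ^ 6| ≤ 1 ∧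
      δ ≤ |4 * (w / s ^ 4) ^ 3 + 27 * (w / s ^ 6) ^ 2| := by
  have m0 : 0 < max |w| 1 := lt_max_of_lt_right one_pos
  have w0 : 0 < |w| := abs_pos.2 hw
  have p0 : 0 < |w| ^ 2 * max |w| 1 := by positivity
  obtain ⟨s, s0, hs⟩ : ∃ s : ℝ, 0 < s ∧ s ^ 12 = |w| ^ 2 * max |w| 1 :=
    ⟨_, Real.rpow_pos_of_pos p0 _, Real.rpow_inv_natCast_pow p0.le (n := 12) (by norm_num)⟩
  refine ⟨s, s0, ?_, ?_, ?_⟩
  · rw [abs_div, abs_of_pos (pow_pos s0 4), div_le_one (pow_pos s0 4)]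
    refine le_of_pow_le_pow_left₀ (n := 3) (by norm_num) (pow_pos s0 4).le ?_
    rw [← pow_mul, hs, pow_succ]
    exact mul_le_mul_of_nonneg_left (le_max_left _ _) (by positivity)
  · rw [abs_div, abs_of_pos (pow_pos s0 6), div_le_one (pow_pos s0 6)]
    refine le_of_pow_le_pow_left₀ (n := 2) (by norm_num) (pow_pos s0 6).le ?_
    rw [← pow_mul, hs]
    exact le_mul_of_one_le_right (by positivity) (le_max_right _ _)
  · have e : 4 * (w / s ^ 4) ^ 3 + 27 * (w / s ^ 6) ^ 2 = (4 * w + 27) / max |w| 1 := by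
      have e1 : 4 * (w / s ^ 4) ^ 3 + 27 * (w / s ^ 6) ^ 2 = w ^ 2 * (4 * w + 27) / s ^ 12 := by
        field_simp
      rw [e1, hs, sq_abs]
      field_simp
    rw [e, abs_div, abs_of_pos m0, le_div_iff₀ m0]
    exact h

end NSD

open ComplexConjugate in
theorem noSD_of : RealGap → NoSD := by
  intro H δ hδ
  obtain ⟨M, hM⟩ := H δ hδ
  refine ⟨max M 2, fun l w hl hlM hw hd D hD ⟨u, d, hu, _⟩ => ?_⟩
  have hc : D.card = l := by
    classical
    rw [subs, Finset.mem_filter] at hD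
    exact hD.2.2
  have ho : Odd l := hl.odd_of_ne_two (by omega)
  obtain ⟨e, he, hr⟩ := NSD.sign (Complex.conj_ofReal w) (Complex.conj_ofReal w) hl d hc hu
  obtain ⟨s, s0, a1, a2, a3⟩ := NSD.scale hw hd
  have s1 : (s : ℂ) ≠ 0 := by exact_mod_cast s0.ne'
  obtain ⟨v, ε, hε, v0, v1, v2, v3⟩ : ∃ (v : ℂ) (ε : ℝ), ε ^ 2 = 1 ∧ v ≠ 0 ∧ conj v = e * v ∧
      v ^ 2 = ε * s ^ 2 ∧ e ^ 2 = 1 := by
    rcases he with rfl | rfl
    · exact ⟨s, 1, by norm_num, s1, by simp, by simp, by simp⟩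
    · refine ⟨Complex.I * s, -1, by norm_num, mul_ne_zero Complex.I_ne_zero s1, by simp, ?_, by simp⟩
      rw [mul_pow, Complex.I_sq]
      simp
  have hε' : (ε : ℂ) ^ 2 = 1 := by exact_mod_cast hε
  have v4 : v ^ 4 = s ^ 4 := by
    rw [show v ^ 4 = (v ^ 2) ^ 2 by ring, v2, mul_pow, hε']; ring
  have v6 : v ^ 6 = ε * s ^ 6 := by
    rw [show v ^ 6 = v ^ 4 * v ^ 2 by ring, v4, v2]; ring
  have b2 : (ε * (w / s ^ 6)) ^ 2 = (w / s ^ 6) ^ 2 := by rw [mul_pow, hε, one_mul]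
  have gd : Good ((w / s ^ 4 : ℝ) : ℂ) ((ε * (w / s ^ 6) : ℝ) : ℂ) := by
    refine ⟨two_ne_zero, fun h => ?_⟩
    have h' : 4 * (w / s ^ 4) ^ 3 + 27 * (ε * (w / s ^ 6)) ^ 2 = 0 := by exact_mod_cast h
    rw [b2] at h'
    rw [h', abs_zero] at a3
    linarith
  let sc : Sc (w : ℂ) (w : ℂ) ((w / s ^ 4 : ℝ) : ℂ) ((ε * (w / s ^ 6) : ℝ) : ℂ) :=
    ⟨RingHom.id ℂ, v, v0, by rw [v4]; push_cast; field_simp; rfl, by
      rw [v6]; push_cast
      rw [show (ε : ℂ) * s ^ 6 * (ε * (w / s ^ 6)) = ε ^ 2 * w by field_simp, hε', one_mul]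
      rfl, gd⟩
  refine NSD.core ho a1 (isSub_image sc.map d.sub)
    (by rw [Finset.card_image_of_injective _ sc.injective, hc]) ?_ ?_
    fun T => hM _ _ l T (by omega) a1 ?_ (by rw [b2]; exact a3)
  · intro Q hQ
    obtain ⟨P, hP, rfl⟩ := Finset.mem_image.1 hQ
    obtain ⟨h1, h2⟩ := hr P hP
    have e0 : e ≠ 0 := fun h => by simp [h] at v3
    rw [sc.xc_map, sc.yc_map]
    change conj (xc P / v ^ 2) = xc P / v ^ 2 ∧ conj (yc P / v ^ 3) = yc P / v ^ 3
    rw [map_div₀, map_div₀, map_pow, map_pow, h1, h2, v1, mul_pow, v3, one_mul, mul_pow,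
      show e ^ 3 = e * e ^ 2 by ring, v3, mul_one, mul_div_mul_left _ _ e0]
    exact ⟨rfl, rfl⟩
  · rw [sc_vA]
    change vA D / v ^ 4 = _
    rw [d.hA, v4, show u ^ 4 = (u ^ 2) ^ 2 by ring, hu]
    push_cast
    ring
  · rw [← sq_le_one_iff_abs_le_one, b2, sq_le_one_iff_abs_le_one]
    exact a2

end Pool.Agent.MP_c481b3_nt.H31
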