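import Pool.Agent.MP_c481b3_nt.H31.SpecN

set_option autoImplicit false

namespace Pool.Agent.MP_c481b3_nt.H31

open Pool.Agent.MP_c481b3_nt.H63 Metric Filter ArithmeticFunction Finset Topology

namespace PB

theorem summ (χ : ℕ → ℝ) (h : ∀ n, |χ n| ≤ 1) (m : ℕ) {δ : ℝ} (hδ : 0 < δ) :
    Summable fun n : ℕ => vonMangoldt n * χ n * Real.log n ^ m / (n : ℝ) ^ (1 + δ) := by
  set ε : ℝ := δ / 2 / (m + 1) with hε
  have hε0 : 0 < ε := by positivity
  have hs : Summable fun n : ℕ => (1 / ε) ^ (m + 1) * (n : ℝ) ^ (-(1 + δ / 2)) :=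
    (Real.summable_nat_rpow.2 (by linarith)).mul_left _
  refine Summable.of_norm_bounded hs fun n => ?_
  rcases Nat.eq_zero_or_pos n with rfl | hn
  · simp only [ArithmeticFunction.map_zero, zero_mul, zero_div, norm_zero]
    positivity
  have hn0 : (0 : ℝ) < n := by exact_mod_cast hn
  have hl : 0 ≤ Real.log n := Real.log_natCast_nonneg n
  have h1 : Real.log n ≤ (n : ℝ) ^ ε / ε := Real.log_le_rpow_div hn0.le hε0
  have h2 : Real.log n ^ (m + 1) ≤ (1 / ε) ^ (m + 1) * (n : ℝ) ^ (δ / 2) := by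
    refine (pow_le_pow_left₀ hl h1 _).trans (le_of_eq ?_)
    rw [div_eq_mul_one_div, mul_pow, mul_comm, ← Real.rpow_natCast ((n : ℝ) ^ ε),
      ← Real.rpow_mul hn0.le]
    congr 2
    rw [hε]; push_cast; field_simp
  have h3 : |vonMangoldt n * χ n * Real.log n ^ m| ≤ Real.log n ^ (m + 1) := by
    rw [abs_mul, abs_mul, abs_of_nonneg vonMangoldt_nonneg, abs_of_nonneg (pow_nonneg hl m),
      pow_succ']
    refine mul_le_mul_of_nonneg_right ?_ (pow_nonneg hl m)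
    calc vonMangoldt n * |χ n| ≤ vonMangoldt n * 1 :=
          mul_le_mul_of_nonneg_left (h n) vonMangoldt_nonneg
      _ ≤ Real.log n := by rw [mul_one]; exact vonMangoldt_le_log
  rw [Real.norm_eq_abs, abs_div, abs_of_pos (Real.rpow_pos_of_pos hn0 _),
    div_le_iff₀ (Real.rpow_pos_of_pos hn0 _), mul_assoc ((1 / ε) ^ (m + 1)), ← Real.rpow_add hn0]
  refine h3.trans (h2.trans (le_of_eq ?_))
  congr 2
  ring

theorem Mo_sum {ι : Type} (s : Finset ι) (a : ι → ℝ) (χ : ι → ℕ → ℝ) (h : ∀ i n, |χ i n| ≤ 1)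
    (m : ℕ) {δ : ℝ} (hδ : 0 < δ) :
    Mo (fun n => ∑ i ∈ s, a i * χ i n) m (1 + δ) = ∑ i ∈ s, a i * Mo (χ i) m (1 + δ) := by
  unfold Mo
  simp only [← tsum_mul_left]
  rw [← Summable.tsum_finsetSum fun i _ => (summ (χ i) (h i) m hδ).mul_left (a i)]
  refine tsum_congr fun n => ?_
  rw [mul_sum, sum_mul, sum_div]
  refine sum_congr rfl fun i _ => ?_
  ring

/-- the generators of the group of characters -/
def TT (S : Finset ℕ) : Finset ℤ := insert (-1) (insert 2 (S.image Nat.cast))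

theorem mem_TT {S : Finset ℕ} {t : ℤ} : t ∈ TT S ↔ t = -1 ∨ t = 2 ∨ ∃ r ∈ S, (r : ℤ) = t := by
  simp [TT]

theorem TT_mono {S S' : Finset ℕ} (h : S ⊆ S') : TT S ⊆ TT S' := by
  intro t ht
  rw [mem_TT] at ht ⊢
  rcases ht with h1 | h1 | ⟨r, hr, h1⟩
  · exact Or.inl h1
  · exact Or.inr (Or.inl h1)
  · exact Or.inr (Or.inr ⟨r, h hr, h1⟩)

theorem prod_TT {S : Finset ℕ} (hS : ∀ r ∈ S, r.Prime ∧ r ≠ 2) {M : Type} [CommMonoid M]
    (f : ℤ → M) : ∏ t ∈ TT S, f t = f (-1) * (f 2 * ∏ r ∈ S, f r) := by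
  unfold TT
  rw [prod_insert, prod_insert, prod_image fun a _ b _ h => by exact_mod_cast h]
  · simp only [mem_image, not_exists, not_and]
    intro r hr h
    exact (hS r hr).2 (by exact_mod_cast h)
  · simp only [mem_insert, mem_image, not_or, not_exists, not_and]
    refine ⟨by norm_num, fun r _ h => ?_⟩
    omega

theorem card_TT {S : Finset ℕ} (hS : ∀ r ∈ S, r.Prime ∧ r ≠ 2) :
    (2 : ℝ) ^ (TT S).card = 4 * 2 ^ S.card := by
  have := prod_TT hS (fun _ => (2 : ℝ))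
  rw [prod_const, prod_const] at this
  rw [this]; ring

theorem recip3 {r n : ℕ} (hr : Odd r) (hn : n % 4 = 3) :
    jacobiSym r n = jacobiSym (-(n : ℤ)) r := by
  have ho : Odd n := Nat.odd_iff.2 (by omega)
  rw [jacobiSym.quadratic_reciprocity' hr ho, qrSign, ZMod.χ₄_nat_three_mod_four hn,
    ← jacobiSym.mul_left, neg_one_mul]

theorem recip1 {r n : ℕ} (hr : Odd r) (hn : n % 4 = 1) (h : n ≡ 1 [MOD r]) :
    jacobiSym r n = 1 := by
  have h5 : jacobiSym n r = jacobiSym 1 r := by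
    refine jacobiSym.mod_left' ?_
    exact_mod_cast Int.natCast_modEq_iff.2 h
  rw [jacobiSym.quadratic_reciprocity_one_mod_four' hr hn, h5, jacobiSym.one_left]

theorem jz_neg_one {n : ℕ} (hn : Odd n) : jz (-1) n = if n % 4 = 1 then 1 else -1 := by
  rw [jz, if_pos hn, jacobiSym.at_neg_one hn, ZMod.χ₄_nat_eq_if_mod_four,
    if_neg (by have := Nat.odd_iff.1 hn; omega)]

theorem jz_two {n : ℕ} (hn : Odd n) : jz 2 n = if n % 8 = 1 ∨ n % 8 = 7 then 1 else -1 := by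
  rw [jz, if_pos hn, jacobiSym.at_two hn, ZMod.χ₈_nat_eq_if_mod_eight,
    if_neg (by have := Nat.odd_iff.1 hn; omega)]

theorem sep {S : Finset ℕ} (hS : ∀ r ∈ S, r.Prime ∧ r ≠ 2) {t : ℤ} (ht : t ∈ TT S) :
    ∃ n, Odd n ∧ jz t n = -1 ∧ ∀ t' ∈ TT S, t' ≠ t → jz t' n = 1 := by
  have hodd : ∀ r ∈ S, Odd r := fun r hr => (hS r hr).1.odd_of_ne_two (hS r hr).2
  rcases mem_TT.1 ht with rfl | rfl | ⟨r, hr, rfl⟩
  · obtain ⟨P, hP, hP0⟩ : ∃ P, P = ∏ r ∈ S, r ∧ 0 < P :=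
      ⟨_, rfl, prod_pos fun r hr => (hS r hr).1.pos⟩
    have ho : Odd (8 * P - 1) := Nat.odd_iff.2 (by omega)
    refine ⟨8 * P - 1, ho, by rw [jz_neg_one ho, if_neg (by omega)], fun t' ht' hne => ?_⟩
    rcases mem_TT.1 ht' with rfl | rfl | ⟨r, hr, rfl⟩
    · exact absurd rfl hne
    · rw [jz_two ho, if_pos (by omega)]
    · rw [jz, if_pos ho, recip3 (hodd r hr) (by omega)]
      obtain ⟨c, hc⟩ : r ∣ P := hP ▸ dvd_prod_of_mem _ hr
      have h5 : jacobiSym (-((8 * P - 1 : ℕ) : ℤ)) r = jacobiSym 1 r := by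
        refine jacobiSym.mod_left' ?_
        rw [Nat.cast_sub (by omega), hc]
        push_cast
        rw [show -(8 * ((r : ℤ) * c) - 1) = 1 + r * (-8 * c) by ring, Int.add_mul_emod_self_left]
      rw [h5, jacobiSym.one_left]
  · obtain ⟨P, hP, hP0⟩ : ∃ P, P = ∏ r ∈ S, r ∧ Odd P :=
      ⟨_, rfl, prod_induction _ Odd (fun a b => Odd.mul) odd_one hodd⟩
    have hP1 := Nat.odd_iff.1 hP0
    have ho : Odd (4 * P + 1) := Nat.odd_iff.2 (by omega)
    refine ⟨4 * P + 1, ho, by rw [jz_two ho, if_neg (by omega)], fun t' ht' hne => ?_⟩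
    rcases mem_TT.1 ht' with rfl | rfl | ⟨r, hr, rfl⟩
    · rw [jz_neg_one ho, if_pos (by omega)]
    · exact absurd rfl hne
    · rw [jz, if_pos ho]
      obtain ⟨c, hc⟩ : r ∣ P := hP ▸ dvd_prod_of_mem _ hr
      refine recip1 (hodd r hr) (by omega) ?_
      rw [hc, show 4 * (r * c) + 1 = 1 + r * (4 * c) by ring]
      exact Nat.add_mul_mod_self_left _ _ _
  · have hc : (8 * ∏ s ∈ S.erase r, s).Coprime r := by
      refine Nat.Coprime.mul_left
        (Nat.Coprime.pow_left 3 (Nat.coprime_two_left.2 (hodd r hr))) ?_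
      refine Nat.Coprime.prod_left fun s hs => ?_
      exact (Nat.coprime_primes (hS s (mem_of_mem_erase hs)).1 (hS r hr).1).2 (ne_of_mem_erase hs)
    obtain ⟨n, h1, h2, h3⟩ := exists_neg (hS r hr).1 (hS r hr).2
      (coprime_four (hS r hr).1 (hS r hr).2 hc)
    have ho : Odd n := Nat.odd_iff.2 (by omega)
    have h8 : n % 8 = 1 := (h2.of_mul_right _ : n ≡ 1 [MOD 8])
    refine ⟨n, ho, by rw [jz, if_pos ho, h3], fun t' ht' hne => ?_⟩
    rcases mem_TT.1 ht' with rfl | rfl | ⟨s, hs, rfl⟩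
    · rw [jz_neg_one ho, if_pos h1]
    · rw [jz_two ho, if_pos (Or.inl h8)]
    · rw [jz, if_pos ho]
      refine recip1 (hodd s hs) h1 ((h2.of_mul_left 8).of_dvd ?_)
      exact dvd_prod_of_mem _ (mem_erase.2 ⟨fun h => hne (by rw [h]), hs⟩)

theorem jz_prod (D : Finset ℤ) (n : ℕ) : jz (∏ t ∈ D, t) n = jz 1 n * ∏ t ∈ D, jz t n := by
  induction D using Finset.induction_on with
  | empty => simp
  | insert a D ha ih => rw [prod_insert ha, prod_insert ha, jz_mul_left, ih]; ring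

theorem jz_one_odd {n : ℕ} (hn : Odd n) : jz 1 n = 1 := by
  rw [jz, if_pos hn, jacobiSym.one_left]

theorem nonsq {S : Finset ℕ} (hS : ∀ r ∈ S, r.Prime ∧ r ≠ 2) {D D' : Finset ℤ} (hD : D ⊆ TT S)
    (hD' : D' ⊆ TT S) (hne : D ≠ D') : ∃ n, jz ((∏ t ∈ D, t) * ∏ t ∈ D', t) n = -1 := by
  have key : ∀ {A B : Finset ℤ}, A ⊆ TT S → B ⊆ TT S → ∀ t ∈ A, t ∉ B →
      ∃ n, jz (∏ t ∈ A, t) n * jz (∏ t ∈ B, t) n = -1 := by
    intro A B hA hB t htA htB
    obtain ⟨n, ho, h1, h2⟩ := sep hS (hA htA)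
    refine ⟨n, ?_⟩
    rw [jz_prod, jz_prod, jz_one_odd ho, ← mul_prod_erase A _ htA, h1,
      prod_eq_one fun s hs => h2 s (hA (mem_of_mem_erase hs)) (ne_of_mem_erase hs),
      prod_eq_one fun s hs => h2 s (hB hs) fun h => htB (h ▸ hs)]
    norm_num
  by_cases h : D ⊆ D'
  · obtain ⟨t, ht, ht'⟩ := exists_of_ssubset (Finset.ssubset_iff_subset_ne.2 ⟨h, hne⟩)
    obtain ⟨n, hn⟩ := key hD' hD t ht ht'
    exact ⟨n, by rw [jz_mul_left, mul_comm, hn]⟩
  · obtain ⟨t, ht, ht'⟩ := not_subset.1 h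
    obtain ⟨n, hn⟩ := key hD hD' t ht ht'
    exact ⟨n, by rw [jz_mul_left, hn]⟩

theorem one_le_TT {S : Finset ℕ} (hS : ∀ r ∈ S, r.Prime ∧ r ≠ 2) {t : ℤ} (ht : t ∈ TT S) :
    1 ≤ t.natAbs := by
  rcases mem_TT.1 ht with rfl | rfl | ⟨r, hr, rfl⟩
  · simp
  · simp
  · simpa using (hS r hr).1.one_le

theorem absle {S : Finset ℕ} (hS : ∀ r ∈ S, r.Prime ∧ r ≠ 2) {D : Finset ℤ} (hD : D ⊆ TT S) :
    1 ≤ (∏ t ∈ D, t).natAbs ∧ (∏ t ∈ D, t).natAbs ≤ 2 * ∏ r ∈ S, r := by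
  have h : (∏ t ∈ D, t).natAbs = ∏ t ∈ D, t.natAbs := map_prod Int.natAbsHom _ _
  rw [h]
  refine ⟨one_le_prod' fun t ht => one_le_TT hS (hD ht), ?_⟩
  refine (prod_le_prod_of_subset_of_one_le' hD fun t ht _ => one_le_TT hS ht).trans (le_of_eq ?_)
  rw [prod_TT hS]
  simp

theorem ch_two {S : Finset ℕ} (hS : ∀ r ∈ S, r.Prime ∧ r ≠ 2) {D D' : Finset ℤ} (hD : D ⊆ TT S)
    (hD' : D' ⊆ TT S) (hne : D ≠ D') :
    Ch (ja ((∏ t ∈ D, t) * ∏ t ∈ D', t)) (16 * (∏ r ∈ S, (r : ℝ)) ^ 2) := by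
  obtain ⟨h1, h2⟩ := absle hS hD
  obtain ⟨h3, h4⟩ := absle hS hD'
  refine (ja_ch (mul_ne_zero (Int.natAbs_ne_zero.1 (by omega)) (Int.natAbs_ne_zero.1 (by omega)))
    (nonsq hS hD hD' hne)).mono ?_
  rw [Int.natAbs_mul, ← Nat.cast_prod]
  have := Nat.mul_le_mul h2 h4
  exact_mod_cast (by nlinarith : 4 * ((∏ t ∈ D, t).natAbs * (∏ t ∈ D', t).natAbs) ≤
    16 * (∏ r ∈ S, r) ^ 2)

theorem ch_one {S : Finset ℕ} (hS : ∀ r ∈ S, r.Prime ∧ r ≠ 2) {D : Finset ℤ} (hD : D ⊆ TT S)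
    (hne : D ≠ ∅) : Ch (ja (∏ t ∈ D, t)) (16 * (∏ r ∈ S, (r : ℝ)) ^ 2) := by
  simpa using ch_two hS hD (empty_subset _) hne

theorem small (R : ℕ) : ∃ e : ℝ, 0 < e ∧ ∀ (S : Finset ℕ), (∀ r ∈ S, r.Prime ∧ r ≠ 2) →
    ∀ D, D ⊆ TT S → D ≠ ∅ → (∀ r ∈ S, (r : ℤ) ∈ D → r ≤ R) → ∀ ρ : ℂ, ‖ρ - 1‖ ≤ e →
      Lc (ja (∏ t ∈ D, t)) ρ ≠ 0 := by
  classical
  set S₀ := (range (R + 1)).filter fun r => r.Prime ∧ r ≠ 2 with hS₀
  have h0 : ∀ r ∈ S₀, r.Prime ∧ r ≠ 2 := fun r hr => (mem_filter.1 hr).2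
  have hev : ∀ᶠ ρ in 𝓝 (1 : ℂ), ∀ D ∈ (TT S₀).powerset.erase ∅, Lc (ja (∏ t ∈ D, t)) ρ ≠ 0 := by
    rw [eventually_all_finset]
    intro D hD
    have hD1 := mem_powerset.1 (mem_of_mem_erase hD)
    have hD2 := ne_of_mem_erase hD
    have hc := ch_one h0 hD1 hD2
    have h1 : (1 : ℂ) ∈ ball (2 : ℂ) (7 / 4) := by
      simpa using real_mem (β := 1) (by norm_num) (by norm_num)
    have hcont : ContinuousAt (Lc (ja (∏ t ∈ D, t))) 1 :=
      hc.differentiableOn.continuousOn.continuousAt (isOpen_ball.mem_nhds h1)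
    refine hcont.eventually_ne (ja_ne_zero (Int.natAbs_ne_zero.1 ?_) ?_)
    · have := (absle h0 hD1).1; omega
    · simpa using nonsq h0 hD1 (empty_subset _) hD2
  obtain ⟨e, he, h⟩ := Metric.eventually_nhds_iff.1 hev
  refine ⟨e / 2, by positivity, fun S hS D hD hne hR ρ hρ => h ?_ D ?_⟩
  · rw [dist_eq_norm]; linarith
  · refine mem_erase.2 ⟨hne, mem_powerset.2 fun t ht => ?_⟩
    rcases mem_TT.1 (hD ht) with rfl | rfl | ⟨r, hr, rfl⟩
    · exact mem_TT.2 (Or.inl rfl)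
    · exact mem_TT.2 (Or.inr (Or.inl rfl))
    · exact mem_TT.2 (Or.inr (Or.inr ⟨r, mem_filter.2
        ⟨mem_range.2 (Nat.lt_succ_of_le (hR r hr ht)), hS r hr⟩, rfl⟩))

theorem logq {S : Finset ℕ} (hS : ∀ r ∈ S, r.Prime ∧ r ≠ 2) {L : ℝ} (hL : 4 ≤ L)
    (h : Real.log (∏ r ∈ S, (r : ℝ)) ≤ L) :
    Real.log (2 * (16 * (∏ r ∈ S, (r : ℝ)) ^ 2)) ≤ 3 * L := by
  have hP : 0 < ∏ r ∈ S, (r : ℝ) := prod_pos fun r hr => by exact_mod_cast (hS r hr).1.pos
  rw [show 2 * (16 * (∏ r ∈ S, (r : ℝ)) ^ 2) = 2 ^ 5 * (∏ r ∈ S, (r : ℝ)) ^ 2 by ring,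
    Real.log_mul (by norm_num) (by positivity), Real.log_pow, Real.log_pow]
  have := Real.log_two_lt_d9
  push_cast
  linarith

theorem exc (hR : Repel) : ∃ η : ℝ, 0 < η ∧ η ≤ 1 / 16 ∧ ∀ R : ℕ, ∃ C : ℝ, ∀ (S : Finset ℕ) (L : ℝ),
    (∀ r ∈ S, r.Prime ∧ r ≠ 2) → C ≤ L → 4 ≤ L → Real.log (∏ r ∈ S, (r : ℝ)) ≤ L →
    ∃ r₀ : ℕ, R < r₀ ∧ ∀ D, D ⊆ TT (S.erase r₀) → D ≠ ∅ → ∀ ρ : ℂ, ‖ρ - 1‖ ≤ η / (3 * L) →
      Lc (ja (∏ t ∈ D, t)) ρ ≠ 0 := by
  obtain ⟨η, h0, h1, h⟩ := hR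
  refine ⟨η, h0, h1, fun R => ?_⟩
  obtain ⟨e, he, hsm⟩ := small R
  refine ⟨1 / e, fun S L hS hC hL hlog => ?_⟩
  by_cases hb : ∃ D, D ⊆ TT S ∧ D ≠ ∅ ∧ ∃ ρ : ℂ, ‖ρ - 1‖ ≤ η / (3 * L) ∧
      Lc (ja (∏ t ∈ D, t)) ρ = 0
  · obtain ⟨D₀, hD₀, hne₀, ρ₀, hρ₀, hz⟩ := hb
    have hle : η / (3 * L) ≤ e := by
      rw [div_le_iff₀ (by linarith)]
      rw [div_le_iff₀ he] at hC
      nlinarith
    obtain ⟨r₀, hr₀, hrD, hrR⟩ : ∃ r ∈ S, (r : ℤ) ∈ D₀ ∧ R < r := by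
      by_contra hc
      push Not at hc
      exact hsm S hS D₀ hD₀ hne₀ hc ρ₀ (hρ₀.trans hle) hz
    refine ⟨r₀, hrR, fun D hD hne ρ hρ => ?_⟩
    have hD' : D ⊆ TT S := hD.trans (TT_mono (erase_subset _ _))
    have hDD : D₀ ≠ D := by
      rintro rfl
      rcases mem_TT.1 (hD hrD) with h2 | h2 | ⟨r, hr, h2⟩
      · omega
      · exact (hS r₀ hr₀).2 (by exact_mod_cast h2)
      · exact ne_of_mem_erase hr (by exact_mod_cast h2)
    refine h _ _ _ (3 * L) (ch_one hS hD₀ hne₀) (ch_one hS hD' hne) ?_ (by linarith)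
      (logq hS hL hlog) ρ₀ ρ hρ₀ hρ hz
    rw [ja_mul]
    exact ch_two hS hD₀ hD' hDD
  · refine ⟨R + 1, Nat.lt_succ_self R, fun D hD hne ρ hρ hz => hb ⟨D, ?_, hne, ρ, hρ, hz⟩⟩
    exact hD.trans (TT_mono (erase_subset _ _))

/-- the signs -/
def sg (t : ℤ) : ℝ := if t = -1 then -1 else 1

theorem abs_sg (t : ℤ) : |sg t| = 1 := by
  unfold sg; split_ifs <;> simp

theorem ja_abs (a : ℤ) (n : ℕ) : |ja a n| ≤ 1 := by
  rw [ja_apply]; exact_mod_cast jz_abs a n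

/-- the weight -/
noncomputable def gf (S : Finset ℕ) (n : ℕ) : ℝ :=
  ja 1 n * ∏ t ∈ TT S, ((1 + sg t * ja t n) / 2)

theorem gf_bd (S : Finset ℕ) (n : ℕ) : 0 ≤ gf S n ∧ gf S n ≤ 1 := by
  have h1 : ∀ t, |sg t * ja t n| ≤ 1 := fun t => by
    rw [abs_mul, abs_sg, one_mul]; exact ja_abs t n
  have h2 : 0 ≤ ja 1 n := by
    rw [ja_apply, jz]; split_ifs <;> simp
  have h3 : ja 1 n ≤ 1 := (le_abs_self _).trans (ja_abs 1 n)
  have h4 : 0 ≤ ∏ t ∈ TT S, ((1 + sg t * ja t n) / 2) :=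
    prod_nonneg fun t _ => by have := abs_le.1 (h1 t); linarith
  have h5 : ∏ t ∈ TT S, ((1 + sg t * ja t n) / 2) ≤ 1 :=
    prod_le_one (fun t _ => by have := abs_le.1 (h1 t); linarith)
      fun t _ => by have := abs_le.1 (h1 t); linarith
  exact ⟨mul_nonneg h2 h4, mul_le_one₀ h3 h4 h5⟩

theorem gf_eq (S : Finset ℕ) : gf S = fun n => ∑ D ∈ (TT S).powerset,
    ((∏ t ∈ D, sg t) / 2 ^ (TT S).card) * ja (∏ t ∈ D, t) n := by
  funext n
  rw [gf, prod_div_distrib, prod_const, prod_one_add, sum_div, mul_sum]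
  refine sum_congr rfl fun D _ => ?_
  rw [prod_mul_distrib, ja_apply (∏ t ∈ D, t), jz_prod]
  simp only [ja_apply]
  push_cast
  ring

theorem gf_Gd {S : Finset ℕ} (hS : ∀ r ∈ S, r.Prime ∧ r ≠ 2) {l : ℕ} (hl : l.Prime) (hlS : l ∉ S)
    (h : gf S l ≠ 0) : Gd S l := by
  obtain ⟨h1, h2⟩ := mul_ne_zero_iff.1 h
  have ho : Odd l := by
    by_contra hc
    exact h1 (by rw [ja_apply, jz, if_neg hc, Int.cast_zero])
  rw [prod_ne_zero_iff] at h2
  have h3 : l % 4 ≠ 1 := fun hc => h2 (-1) (mem_TT.2 (Or.inl rfl)) (by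
    rw [ja_apply, jz_neg_one ho, if_pos hc]; simp [sg])
  have h4 : l % 8 = 1 ∨ l % 8 = 7 := by
    by_contra hc
    exact h2 2 (mem_TT.2 (Or.inr (Or.inl rfl))) (by
      rw [ja_apply, jz_two ho, if_neg hc]; simp [sg])
  refine ⟨hl, by omega, fun r hr => ?_⟩
  rw [← recip3 ((hS r hr).1.odd_of_ne_two (hS r hr).2) (by omega)]
  have h5 := h2 r (mem_TT.2 (Or.inr (Or.inr ⟨r, hr, rfl⟩)))
  rw [ja_apply, jz, if_pos ho, sg, if_neg (by omega)] at h5
  have h6 : (r : ℤ).gcd l = 1 := by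
    rw [Int.gcd_natCast_natCast]
    exact (Nat.coprime_primes (hS r hr).1 hl).2 fun h => hlS (h ▸ hr)
  rcases jacobiSym.eq_one_or_neg_one h6 with h7 | h7
  · exact h7
  · exact absurd (by rw [h7]; simp) h5

theorem Mo_lower {S : Finset ℕ} {m : ℕ} {δ A : ℝ} (hδ : 0 < δ) (hA : 0 ≤ A)
    (h0 : A / 2 ≤ Mo (ja 1) m (1 + δ))
    (h : ∀ D, D ⊆ TT S → D ≠ ∅ → |Mo (ja (∏ t ∈ D, t)) m (1 + δ)| ≤ A / (4 * 2 ^ (TT S).card)) :
    A / (4 * 2 ^ (TT S).card) ≤ Mo (gf S) m (1 + δ) := by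
  rw [gf_eq, Mo_sum _ _ (fun D => ja (∏ t ∈ D, t)) (fun D n => ja_abs _ n) m hδ,
    ← add_sum_erase _ _ (empty_mem_powerset (TT S))]
  set N : ℝ := 2 ^ (TT S).card with hN
  have hN0 : 0 < N := by positivity
  have h1 : |∑ D ∈ (TT S).powerset.erase ∅,
      (∏ t ∈ D, sg t) / N * Mo (ja (∏ t ∈ D, t)) m (1 + δ)| ≤ A / (4 * N) := by
    refine (abs_sum_le_sum_abs _ _).trans
      ((sum_le_card_nsmul _ _ (1 / N * (A / (4 * N))) fun D hD => ?_).trans ?_)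
    · rw [abs_mul, abs_div, abs_prod, prod_eq_one fun t _ => abs_sg t, abs_of_pos hN0]
      exact mul_le_mul_of_nonneg_left
        (h D (mem_powerset.1 (mem_of_mem_erase hD)) (ne_of_mem_erase hD)) (by positivity)
    · have h2 : (((TT S).powerset.erase ∅).card : ℝ) ≤ N := by
        rw [hN]
        exact_mod_cast (card_erase_le).trans (card_powerset _).le
      rw [nsmul_eq_mul]
      refine (mul_le_mul_of_nonneg_right h2 (by positivity)).trans (le_of_eq ?_)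
      field_simp
  have h3 := (abs_le.1 h1).1
  simp only [prod_empty]
  have h4 : 1 / N * (A / 2) ≤ 1 / N * Mo (ja 1) m (1 + δ) :=
    mul_le_mul_of_nonneg_left h0 (by positivity)
  have h5 : 1 / N * (A / 2) = A / (4 * N) + A / (4 * N) := by field_simp; ring
  linarith

open Classical in
theorem sum_upper {S : Finset ℕ} (hS : ∀ r ∈ S, r.Prime ∧ r ≠ 2) {Y : ℝ} (hY : 1 ≤ Y) :
    ∑ n ∈ range (⌊Y⌋₊ + 1), vonMangoldt n * gf S n ≤
      ((range (⌊Y⌋₊ + 1)).filter (Gd S)).card * Real.log Y + Real.log (∏ r ∈ S, (r : ℝ)) +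
        2 * √Y * Real.log Y := by
  have hlY : 0 ≤ Real.log Y := Real.log_nonneg hY
  have h1 : ∀ n ∈ range (⌊Y⌋₊ + 1), vonMangoldt n * gf S n ≤
      (if Gd S n then Real.log Y else 0) + (if n ∈ S then Real.log n else 0) +
        (if ¬ n.Prime then vonMangoldt n else 0) := by
    intro n hn
    have a1 : 0 ≤ if Gd S n then Real.log Y else 0 := by split_ifs <;> simp [hlY]
    have a2 : 0 ≤ if n ∈ S then Real.log n else 0 := by
      split_ifs <;> simp [Real.log_natCast_nonneg]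
    have a3 : 0 ≤ if ¬ n.Prime then vonMangoldt n else 0 := by
      split_ifs <;> simp [vonMangoldt_nonneg]
    have a4 : vonMangoldt n * gf S n ≤ vonMangoldt n := by
      have := mul_le_mul_of_nonneg_left (gf_bd S n).2 (vonMangoldt_nonneg (n := n))
      rwa [mul_one] at this
    by_cases hp : n.Prime
    · by_cases hs : n ∈ S
      · rw [if_pos hs]
        have := vonMangoldt_le_log (n := n)
        linarith
      · by_cases hg : gf S n = 0
        · rw [hg, mul_zero]; linarith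
        · rw [if_pos (gf_Gd hS hp hs hg)]
          have a5 := vonMangoldt_le_log (n := n)
          have a6 : Real.log n ≤ Real.log Y := by
            refine Real.log_le_log (by exact_mod_cast hp.pos) ?_
            exact (Nat.le_floor_iff (by linarith)).1 (Nat.lt_succ_iff.1 (mem_range.1 hn))
          linarith
    · rw [if_pos hp]; linarith
  refine (sum_le_sum h1).trans ?_
  rw [sum_add_distrib, sum_add_distrib, ← sum_filter, ← sum_filter, ← sum_filter, sum_const,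
    nsmul_eq_mul]
  refine add_le_add (add_le_add le_rfl ?_) ?_
  · rw [Real.log_prod fun r hr => by exact_mod_cast (hS r hr).1.ne_zero]
    exact sum_le_sum_of_subset_of_nonneg (fun r hr => (mem_filter.1 hr).2)
      fun r _ _ => Real.log_natCast_nonneg r
  · refine le_trans (le_of_eq ?_)
      ((le_abs_self _).trans (Chebyshev.abs_psi_sub_theta_le_sqrt_mul_log hY))
    rw [Chebyshev.psi_sub_theta_eq_sum_not_prime]
    symm
    refine sum_subset (fun n hn => ?_) fun n hn hn' => ?_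
    · simp only [mem_filter, mem_Ioc, mem_range] at hn ⊢
      exact ⟨by omega, hn.2⟩
    · simp only [mem_filter, mem_Ioc, mem_range, not_and, not_not] at hn hn'
      rcases Nat.eq_zero_or_pos n with rfl | h0
      · simp
      · exact absurd (hn' ⟨h0, by omega⟩) hn.2

theorem card_le {S : Finset ℕ} (hS : ∀ r ∈ S, r.Prime ∧ r ≠ 2) :
    (S.card : ℝ) ≤ Real.log (∏ r ∈ S, (r : ℝ)) := by
  rw [Real.log_prod fun r hr => by exact_mod_cast (hS r hr).1.ne_zero, card_eq_sum_ones]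
  push_cast
  refine sum_le_sum fun r hr => ?_
  have h3 : (3 : ℝ) ≤ r := by
    have := (hS r hr).1.two_le
    have := (hS r hr).2
    exact_mod_cast (by omega : 3 ≤ r)
  rw [Real.le_log_iff_exp_le (by linarith)]
  linarith [Real.exp_one_lt_d9]

theorem log_erase {S : Finset ℕ} (hS : ∀ r ∈ S, r.Prime ∧ r ≠ 2) (r₀ : ℕ) :
    Real.log (∏ r ∈ S.erase r₀, (r : ℝ)) ≤ Real.log (∏ r ∈ S, (r : ℝ)) := by
  rw [Real.log_prod (s := S) fun r hr => by exact_mod_cast (hS r hr).1.ne_zero,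
    Real.log_prod (s := S.erase r₀) fun r hr => by
      exact_mod_cast (hS r (mem_of_mem_erase hr)).1.ne_zero]
  exact sum_le_sum_of_subset_of_nonneg (erase_subset _ _) fun r _ _ => Real.log_natCast_nonneg r

theorem err_small {c L Y : ℝ} {k : ℕ} (hc : 0 < c) (hL : 288 / c ≤ L) (hk : (k : ℝ) ≤ L)
    (hY : Real.exp (10 * L) ≤ Y) : L + 2 * √Y * Real.log Y ≤ c * Y / (32 * 2 ^ k) := by
  have hL0 : 0 < L := lt_of_lt_of_le (by positivity) hL
  have hY0 : 0 < Y := (Real.exp_pos _).trans_le hY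
  set z : ℝ := Y ^ (1 / 4 : ℝ) with hz
  have hz0 : 0 < z := Real.rpow_pos_of_pos hY0 _
  have hz4 : Y = z ^ 4 := by
    rw [hz, ← Real.rpow_natCast, ← Real.rpow_mul hY0.le]; norm_num
  have hs : √Y = z ^ 2 := by
    rw [hz4, show z ^ 4 = (z ^ 2) ^ 2 by ring, Real.sqrt_sq (by positivity)]
  have hl : Real.log Y ≤ 4 * z := by
    have := Real.log_le_rpow_div hY0.le (ε := 1 / 4) (by norm_num)
    rw [← hz] at this
    linarith
  have he : Real.exp L * Real.exp L ≤ z := by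
    rw [← Real.exp_add]
    refine le_of_pow_le_pow_left₀ (n := 4) (by norm_num) hz0.le ?_
    rw [← hz4, ← Real.exp_nat_mul]
    exact (Real.exp_le_exp.2 (by push_cast; linarith)).trans hY
  have h1 : L + 1 ≤ Real.exp L := Real.add_one_le_exp L
  have h2 : (2 : ℝ) ^ k ≤ Real.exp L := by
    refine le_trans ?_ (Real.exp_le_exp.2 hk)
    rw [← mul_one (k : ℝ), Real.exp_nat_mul]
    exact pow_le_pow_left₀ (by norm_num) (by linarith [Real.add_one_le_exp (1 : ℝ)]) k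
  have h3 : 1 ≤ z := by nlinarith
  have h4 : L ≤ z ^ 3 := by
    have : z ≤ z ^ 3 := le_self_pow₀ h3 (by norm_num)
    nlinarith
  have h5 : 288 * 2 ^ k ≤ c * z := by
    rw [div_le_iff₀ hc] at hL
    have h6 : 2 ^ k * L ≤ z := le_trans (mul_le_mul h2 (by linarith) hL0.le (by positivity)) he
    have h7 : (0 : ℝ) < 2 ^ k := by positivity
    nlinarith
  rw [le_div_iff₀ (by positivity), hs]
  have h8 : L + 2 * z ^ 2 * Real.log Y ≤ 9 * z ^ 3 := by
    have := mul_le_mul_of_nonneg_left hl (by positivity : 0 ≤ 2 * z ^ 2)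
    nlinarith
  calc (L + 2 * z ^ 2 * Real.log Y) * (32 * 2 ^ k) ≤ 9 * z ^ 3 * (32 * 2 ^ k) :=
        mul_le_mul_of_nonneg_right h8 (by positivity)
    _ = z ^ 3 * (288 * 2 ^ k) := by ring
    _ ≤ z ^ 3 * (c * z) := mul_le_mul_of_nonneg_left h5 (by positivity)
    _ = c * Y := by rw [hz4]; ring

theorem exists_j {K L : ℝ} (hK : 1 ≤ K) (hL : 1 ≤ L) :
    ∃ j : ℕ, K * (3 * L) ≤ 2 ^ j ∧ (j : ℝ) ≤ 2 * Real.log (3 * K) + 1 + 2 * Real.log L := by
  have h0 : 1 ≤ K * (3 * L) := by nlinarith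
  have h1 : 0 ≤ Real.log (K * (3 * L)) := Real.log_nonneg h0
  refine ⟨⌈2 * Real.log (K * (3 * L))⌉₊, ?_, ?_⟩
  · rw [← Real.log_le_log_iff (by linarith) (by positivity), Real.log_pow]
    have h2 := Nat.le_ceil (2 * Real.log (K * (3 * L)))
    have h3 := Real.log_two_gt_d9
    nlinarith
  · have h2 := (Nat.ceil_lt_add_one (by linarith : 0 ≤ 2 * Real.log (K * (3 * L)))).le
    rw [show K * (3 * L) = 3 * K * L by ring, Real.log_mul (by linarith) (by linarith)] at h2 ⊢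
    linarith

end PB

open PB in
theorem primesB_of : Repel → Mom → MomOne → Dyad → PrimesB := by
  intro hR hM hO hD
  obtain ⟨η, hη0, hη1, hexc⟩ := exc hR
  obtain ⟨K, hK, hM⟩ := hM
  obtain ⟨δ₀, hδ₀, hO⟩ := hO
  obtain ⟨c, hc, hD⟩ := hD
  refine ⟨c / 32, by positivity, fun E R => ?_⟩
  obtain ⟨C₀, hexc⟩ := hexc R
  obtain ⟨Cd, hD⟩ := hD (|E| + 10)
  set C₁ : ℝ := 2 * Real.log (3 * K) + 6 + |Cd| with hC₁
  have hlK : 0 ≤ Real.log (3 * K) := Real.log_nonneg (by linarith)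
  have hC₁0 : 0 ≤ C₁ := by positivity
  refine ⟨4 + |C₀| + C₁ + 1 / δ₀ + 288 / c + |Cd| * (12 / η) * (2 + C₁), ?_, fun S L hS hL hlog => ?_⟩
  · have : 0 ≤ |C₀| + C₁ + 1 / δ₀ + 288 / c + |Cd| * (12 / η) * (2 + C₁) := by positivity
    linarith
  have p1 : 0 ≤ |C₀| := abs_nonneg _
  have p2 : 0 ≤ 1 / δ₀ := by positivity
  have p3 : 0 ≤ 288 / c := by positivity
  have p4 : 0 ≤ |Cd| * (12 / η) * (2 + C₁) := by positivity
  have hL4 : 4 ≤ L := by linarith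
  obtain ⟨r₀, hr₀, hz⟩ := hexc S L hS (by linarith [le_abs_self C₀]) hL4 hlog
  refine ⟨r₀, hr₀, ?_⟩
  have hS' : ∀ r ∈ S.erase r₀, r.Prime ∧ r ≠ 2 := fun r hr => hS r (mem_of_mem_erase hr)
  have hlog' := (log_erase hS r₀).trans hlog
  set k := (S.erase r₀).card with hk
  have hkL : (k : ℝ) ≤ L := (card_le hS').trans hlog'
  have hkS : (k : ℝ) ≤ S.card := by exact_mod_cast card_erase_le
  obtain ⟨j, hj1, hj2⟩ := exists_j hK (by linarith : 1 ≤ L)
  set δ : ℝ := η / (12 * L) with hδ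
  have hδ0 : 0 < δ := by positivity
  have hδL : δ * L = η / 12 := by rw [hδ]; field_simp
  set m : ℕ := k + 4 + j + ⌈|Cd|⌉₊ with hm
  have hlL : 1 ≤ Real.log L := by
    rw [Real.le_log_iff_exp_le (by linarith)]
    linarith [Real.exp_one_lt_d9]
  have hlL' : Real.log L ≤ L := (Real.log_le_sub_one_of_pos (by linarith)).trans (by linarith)
  have hm1 : (m : ℝ) ≤ k + 2 * Real.log L + C₁ := by
    have := (Nat.ceil_lt_add_one (abs_nonneg Cd)).le
    rw [hm]; push_cast; linarith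
  have hm2 : Cd ≤ m := by
    have := Nat.le_ceil |Cd|
    have := le_abs_self Cd
    have : (0 : ℝ) ≤ k + 4 + j := by positivity
    rw [hm]; push_cast; linarith
  have hA : 0 ≤ (m.factorial : ℝ) / δ ^ (m + 1) := by positivity
  have hlow := Mo_lower (S := S.erase r₀) (m := m) hδ0 hA
    (by
      refine le_trans (le_of_eq ?_) (hO δ m hδ0 ?_)
      · field_simp
      · have h1 : 1 / δ₀ ≤ L := by linarith
        rw [div_le_iff₀ hδ₀] at h1
        rw [hδ, div_le_iff₀ (by linarith)]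
        nlinarith)
    (fun D hD1 hD2 => by
      refine (hM _ _ (3 * L) δ m (ch_one hS' hD1 hD2) (by linarith) (logq hS' hL4 hlog') hδ0 ?_
        fun ρ hρ => hz D hD1 hD2 ρ (hρ.trans (le_of_eq ?_))).trans ?_
      · nlinarith
      · rw [hδ]; field_simp; norm_num
      · rw [card_TT hS', ← hk, div_div, div_le_div_iff₀ (by positivity) (by positivity)]
        have h1 : (2 : ℝ) ^ j * (16 * 2 ^ k) ≤ 2 ^ m := by
          rw [hm, pow_add, pow_add, pow_add]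
          have : (1 : ℝ) ≤ 2 ^ ⌈|Cd|⌉₊ := one_le_pow₀ (by norm_num)
          have h2 : (0 : ℝ) ≤ 2 ^ k * 2 ^ 4 * 2 ^ j := by positivity
          nlinarith
        have h2 : K * (3 * L) * (16 * 2 ^ k) ≤ 2 ^ m :=
          (mul_le_mul_of_nonneg_right hj1 (by positivity)).trans h1
        have h3 := mul_le_mul_of_nonneg_right h2
          (by positivity : (0 : ℝ) ≤ m.factorial * δ ^ (m + 1))
        nlinarith)
  rw [card_TT hS', ← hk] at hlow
  obtain ⟨Y, hY1, hY2, hY3⟩ := hD (gf (S.erase r₀)) (1 / (16 * 2 ^ k)) δ m (gf_bd _) hδ0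
    (by
      have : (m : ℝ) ≤ 4 * L := by linarith
      nlinarith)
    hm2
    (by
      rw [one_div, inv_mul_eq_div, le_div_iff₀ (by positivity), one_mul,
        show (16 : ℝ) * 2 ^ k = 2 ^ (k + 4) by ring]
      exact pow_le_pow_right₀ (by norm_num) (by omega))
    (by
      refine le_trans (le_of_eq ?_) hlow
      field_simp
      norm_num)
  have hE : (|E| + 10) * L ≤ (|E| + 10) / δ := by
    rw [le_div_iff₀ hδ0, mul_assoc, mul_comm L δ, hδL]
    have := abs_nonneg E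
    nlinarith
  have hY10 : Real.exp (10 * L) ≤ Y := by
    refine (Real.exp_le_exp.2 (le_trans ?_ hE)).trans hY1
    have := abs_nonneg E
    nlinarith
  have hY1' : 1 < Y := lt_of_lt_of_le (Real.one_lt_exp_iff.2 (by linarith)) hY10
  refine ⟨Y, (Real.exp_le_exp.2 (le_trans ?_ hE)).trans hY1, hY2.trans (Real.exp_le_exp.2 ?_), ?_⟩
  · have := le_abs_self E
    nlinarith
  · have h1 : (m : ℝ) ≤ (2 + C₁) * (S.card + Real.log L) := by
      have : (0 : ℝ) ≤ S.card := Nat.cast_nonneg _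
      nlinarith
    have h2 : Cd * m / δ ≤ |Cd| * (12 / η) * (2 + C₁) * (S.card + Real.log L) * L := by
      have h3 : Cd * m ≤ |Cd| * ((2 + C₁) * (S.card + Real.log L)) :=
        mul_le_mul (le_abs_self _) h1 (Nat.cast_nonneg _) (abs_nonneg _)
      refine (div_le_div_of_nonneg_right h3 hδ0.le).trans (le_of_eq ?_)
      rw [hδ]; field_simp
    refine h2.trans (mul_le_mul_of_nonneg_right (mul_le_mul_of_nonneg_right (by linarith) ?_)
      (by linarith))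
    positivity
  · have h1 := sum_upper hS' hY1'.le
    have h2 := err_small hc (by linarith) hkL hY10
    have h3 : 0 < Real.log Y := Real.log_pos hY1'
    rw [div_le_iff₀ (by positivity)]
    have h4 : c * Y / (32 * 2 ^ k) ≤ _ * Real.log Y :=
      le_of_add_le_add_right (a := c * Y / (32 * 2 ^ k)) (by
        have h5 : c * Y / (32 * 2 ^ k) + c * Y / (32 * 2 ^ k) = c * (1 / (16 * 2 ^ k)) * Y := by
          field_simp; norm_num
        rw [h5]
        refine hY3.trans (h1.trans ?_)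
        rw [add_assoc]
        exact add_le_add le_rfl (le_trans (by linarith) h2))
    rw [div_le_iff₀ (by positivity)] at h4
    nlinarith

end Pool.Agent.MP_c481b3_nt.H31
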