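import Pool.Agent.MP_c481b3_nt.H31.SpecL
import Pool.Agent.MP_c481b3_nt.H31.PrimesB

set_option autoImplicit false

namespace Pool.Agent.MP_c481b3_nt.H31

open Pool.Agent.MP_c481b3_nt.H63 Metric Filter ArithmeticFunction Finset Topology

namespace PC

open PB

theorem Mo_lower2 {S : Finset ℕ} {m : ℕ} {δ A : ℝ} (hδ : 0 < δ)
    (h0 : A / 2 ≤ Mo (ja 1) m (1 + δ))
    (h : ∑ D ∈ (TT S).powerset.erase ∅, |Mo (ja (∏ t ∈ D, t)) m (1 + δ)| ≤ A / 4) :
    A / (4 * 2 ^ (TT S).card) ≤ Mo (gf S) m (1 + δ) := by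
  rw [gf_eq, Mo_sum _ _ (fun D => ja (∏ t ∈ D, t)) (fun D n => ja_abs _ n) m hδ,
    ← add_sum_erase _ _ (empty_mem_powerset (TT S))]
  set N : ℝ := 2 ^ (TT S).card with hN
  have hN0 : 0 < N := by positivity
  have h1 : |∑ D ∈ (TT S).powerset.erase ∅,
      (∏ t ∈ D, sg t) / N * Mo (ja (∏ t ∈ D, t)) m (1 + δ)| ≤ 1 / N * (A / 4) := by
    refine (abs_sum_le_sum_abs _ _).trans
      (le_trans (le_of_eq ?_) (mul_le_mul_of_nonneg_left h (by positivity)))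
    rw [mul_sum]
    refine sum_congr rfl fun D _ => ?_
    rw [abs_mul, abs_div, abs_prod, prod_eq_one fun t _ => abs_sg t, abs_of_pos hN0]
  have h3 := (abs_le.1 h1).1
  simp only [prod_empty]
  have h4 : 1 / N * (A / 2) ≤ 1 / N * Mo (ja 1) m (1 + δ) :=
    mul_le_mul_of_nonneg_left h0 (by positivity)
  have h5 : 1 / N * (A / 2) = A / (4 * N) + 1 / N * (A / 4) := by field_simp; ring
  linarith

end PC

open PB PC in
theorem primesC_of : ZExp → ZFR → Repel → SumB → MomOne → Dyad2 → PrimesC := by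
  intro hX hF hR hB hO hD
  obtain ⟨η, hη0, -, hexc⟩ := exc hR
  obtain ⟨K, hK, hX⟩ := hX
  obtain ⟨η', hη', hF⟩ := hF K η hK hη0
  obtain ⟨δ₁, hδ₁, hB⟩ := hB K η' hK hη'
  obtain ⟨δ₀, hδ₀, hO⟩ := hO
  obtain ⟨c, Cd, hc, hCd, hD⟩ := hD
  obtain ⟨δ, hδ0, hδa, hδb, hδc⟩ : ∃ δ : ℝ, 0 < δ ∧ δ ≤ δ₁ ∧ δ ≤ δ₀ ∧ δ ≤ 1 :=
    ⟨min δ₁ (min δ₀ 1), by positivity, min_le_left _ _,
      (min_le_right _ _).trans (min_le_left _ _), (min_le_right _ _).trans (min_le_right _ _)⟩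
  obtain ⟨Cs, hCs, hB⟩ := hB δ hδ0 hδa
  refine ⟨c / 32, by positivity, fun E R => ?_⟩
  obtain ⟨C₀, hexc⟩ := hexc R
  have pE : 0 ≤ |E| := abs_nonneg _
  obtain ⟨C₁, a1, a2, a3, a4⟩ : ∃ C₁ : ℝ, 3 * Cs ≤ C₁ ∧ Cd ≤ C₁ ∧ 2 ≤ C₁ ∧ 20 * (|E| + 10) ≤ C₁ :=
    ⟨3 * Cs + Cd + 20 * (|E| + 10), by linarith, by linarith, by linarith, by linarith⟩
  have p1 : 0 ≤ |C₀| := abs_nonneg _
  have p3 : 0 ≤ 288 / c := by positivity
  have p4 : 0 ≤ Cd * (C₁ + 1) / δ := div_nonneg (mul_nonneg (by linarith) (by linarith)) hδ0.le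
  refine ⟨4 + |C₀| + Cs + 288 / c + Cd * (C₁ + 1) / δ, by linarith, fun S L hS hL hlog => ?_⟩
  have hL4 : 4 ≤ L := by linarith
  obtain ⟨r₀, hr₀, hz⟩ := hexc S L hS (by linarith [le_abs_self C₀]) hL4 hlog
  refine ⟨r₀, hr₀, ?_⟩
  have hS' : ∀ r ∈ S.erase r₀, r.Prime ∧ r ≠ 2 := fun r hr => hS r (mem_of_mem_erase hr)
  have hlog' := (log_erase hS r₀).trans hlog
  set k := (S.erase r₀).card with hk
  have hkL : (k : ℝ) ≤ L := (card_le hS').trans hlog'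
  obtain ⟨m, hm1, hm2⟩ : ∃ m : ℕ, C₁ * L ≤ m ∧ (m : ℝ) ≤ (C₁ + 1) * L :=
    ⟨⌈C₁ * L⌉₊, Nat.le_ceil _, by
      have := (Nat.ceil_lt_add_one (by positivity : 0 ≤ C₁ * L)).le
      linarith⟩
  have hZ : ∀ D : Finset ℤ, ∃ Z, D ∈ (TS (S.erase r₀)).powerset.erase ∅ →
      IsZ K (3 * L) (ch D) Z := by
    intro D
    by_cases hD1 : D ∈ (TS (S.erase r₀)).powerset.erase ∅
    · obtain ⟨Z, h⟩ := hX _ _ (3 * L)
        (ch_one hS' (mem_powerset.1 (mem_of_mem_erase hD1)) (ne_of_mem_erase hD1)) (by linarith)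
        (logq hS' hL4 hlog')
      exact ⟨Z, fun _ => h⟩
    · exact ⟨0, fun h => absurd h hD1⟩
  choose Z hZ using hZ
  have hsum := hB (S.erase r₀) (3 * L) m Z ⟨hS', by linarith⟩ (by linarith) (by nlinarith)
    (fun D hD1 => ⟨hZ D hD1, fun ρ hρ him => by
      by_contra hle
      exact hz D (mem_powerset.1 (mem_of_mem_erase hD1)) (ne_of_mem_erase hD1) ρ
        (hF (3 * L) _ _ (by linarith) (hZ D hD1) ρ hρ him (not_lt.1 hle)) ((hZ D hD1).zero ρ hρ)⟩)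
  have hlow := Mo_lower2 (S := S.erase r₀) (m := m) (A := m.factorial / δ ^ (m + 1)) hδ0
    (by
      refine le_trans (le_of_eq ?_) (hO δ m hδ0 hδb)
      field_simp)
    (by
      refine le_trans hsum (le_of_eq ?_)
      field_simp)
  rw [card_TT hS', ← hk] at hlow
  have hkm : k + 4 ≤ m := by
    have : (k : ℝ) + 4 ≤ m := by nlinarith
    exact_mod_cast this
  obtain ⟨Y, hY1, hY2, hY3⟩ := hD (gf (S.erase r₀)) (1 / (16 * 2 ^ k)) δ m (gf_bd _) hδ0 hδc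
    (by nlinarith)
    (by
      rw [one_div, inv_mul_eq_div, le_div_iff₀ (by positivity), one_mul,
        show (16 : ℝ) * 2 ^ k = 2 ^ (k + 4) by ring]
      exact pow_le_pow_right₀ (by norm_num) hkm)
    (by
      refine le_trans (le_of_eq ?_) hlow
      field_simp
      norm_num)
  have hE : (|E| + 10) * L ≤ m / (20 * δ) := by
    rw [le_div_iff₀ (by positivity)]
    have h1 : 0 ≤ (|E| + 10) * L := by positivity
    have h2 : (|E| + 10) * L * (20 * δ) ≤ (|E| + 10) * L * 20 :=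
      mul_le_mul_of_nonneg_left (by linarith) h1
    have h3 : 20 * (|E| + 10) * L ≤ C₁ * L := mul_le_mul_of_nonneg_right a4 (by linarith)
    linarith
  have hY10 : Real.exp (10 * L) ≤ Y := by
    refine (Real.exp_le_exp.2 (le_trans ?_ hE)).trans hY1
    nlinarith
  have hY1' : 1 < Y := lt_of_lt_of_le (Real.one_lt_exp_iff.2 (by linarith)) hY10
  refine ⟨Y, (Real.exp_le_exp.2 (le_trans ?_ hE)).trans hY1, hY2.trans (Real.exp_le_exp.2 ?_), ?_⟩
  · have := le_abs_self E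
    nlinarith
  · have h2 : Cd * m / δ ≤ Cd * (C₁ + 1) / δ * L := by
      have h3 : Cd * m ≤ Cd * ((C₁ + 1) * L) := mul_le_mul_of_nonneg_left hm2 (by linarith)
      refine (div_le_div_of_nonneg_right h3 hδ0.le).trans (le_of_eq ?_)
      ring
    exact h2.trans (mul_le_mul_of_nonneg_right (by linarith) (by linarith))
  · have h1 := sum_upper hS' hY1'.le
    have h2 := err_small hc (by linarith) hkL hY10
    have h3 : 0 < Real.log Y := Real.log_pos hY1'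
    rw [div_le_iff₀ (by positivity)]
    have h4 : c * Y / (32 * 2 ^ k) ≤ _ * Real.log Y :=
      le_of_add_le_add_right (a := c * Y / (32 * 2 ^ k)) (by
        have h5 : c * Y / (32 * 2 ^ k) + c * Y / (32 * 2 ^ k) = c * (1 / (16 * 2 ^ k)) * Y := by
          field_simp; norm_num
        rw [h5]
        refine hY3.trans (h1.trans ?_)
        rw [add_assoc]
        exact add_le_add le_rfl (le_trans (by linarith) h2))
    rw [div_le_iff₀ (by positivity)] at h4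
    nlinarith

end Pool.Agent.MP_c481b3_nt.H31
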