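import Pool.Agent.MP_c481b3_nt.H28.Main

set_option autoImplicit false

namespace Pool.Agent.MP_c481b3_nt.H31

open Pool.Agent.MP_c481b3_nt.H81 Pool.Agent.MP_c481b3_nt.H28 Polynomial NumberField

/-- many real points of a real curve contain two points with a steep chord -/
def RealGap : Prop :=
  ∀ δ : ℝ, 0 < δ → ∃ M : ℕ, ∀ (a b : ℝ) (l : ℕ) (T : Finset (ℝ × ℝ)), M < l → |a| ≤ 1 → |b| ≤ 1 →
    δ ≤ |4 * a ^ 3 + 27 * b ^ 2| → (∀ P ∈ T, 0 < P.2 ∧ P.2 ^ 2 = P.1 ^ 3 + a * P.1 + b) →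
    l ≤ 2 * T.card + 1 → ∑ P ∈ T, P.1 ^ 2 ≤ (l : ℝ) ^ 2 →
    ∃ P ∈ T, ∃ Q ∈ T, P.1 ≠ Q.1 ∧ 3 * l * (P.1 - Q.1) ^ 2 < (P.2 + Q.2) ^ 2

open Classical in
/-- a real curve away from the cusp has no endomorphism of square `-l` for large `l` -/
def NoSD : Prop :=
  ∀ δ : ℝ, 0 < δ → ∃ M : ℕ, ∀ (l : ℕ) (w : ℝ), l.Prime → M < l → w ≠ 0 →
    δ * max |w| 1 ≤ |4 * w + 27| → ∀ D ∈ subs (w : ℂ) (w : ℂ) l, ¬SD l D

/-- the universal polynomial at infinity and at zero -/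
def PsiEnds : Prop :=
  ∀ (l : ℕ) (Ψ : ℤ[X]), l.Prime → l % 4 = 3 → l % 3 = 2 → IsUnivPsi l Ψ →
    Even Ψ.natDegree ∧ 0 < Ψ.leadingCoeff ∧ Even Ψ.natTrailingDegree

/-- the sign of the universal polynomial at a real point -/
def Arch : Prop :=
  ∀ w : ℝ, w ≠ 0 → 4 * w + 27 ≠ 0 → ∃ M : ℕ, ∀ (l : ℕ) (Ψ : ℤ[X]), l.Prime → M < l → l % 4 = 3 →
    l % 3 = 2 → IsUnivPsi l Ψ → 0 ≤ aeval w Ψ

/-- quadratic reciprocity for an element that is negative at the real places -/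
def GlobalOdd : Prop :=
  ∀ (K : Type) [Field K] [NumberField K] (l : ℕ), Odd (Module.finrank ℚ K) → l.Prime → l % 8 = 7 →
    ∀ x y z : 𝓞 K, x = y ^ 2 + l * z → (∀ τ : K →+* ℝ, τ x < 0) →
    (∀ P : Ideal (𝓞 K), P.IsMaximal → (l : 𝓞 K) ∈ P → x ∉ P) →
    ∃ P : Ideal (𝓞 K), P.IsMaximal ∧ Odd (Ideal.absNorm P) ∧
      jacobiSym (-(l : ℤ)) (Ideal.absNorm P) = -1 ∧ OddAt P x

/-- a rational residue of `a / b` is also taken at a prime of odd degree -/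
def OddAbove : Prop :=
  ∀ (K : Type) [Field K] [NumberField K] (a b : 𝓞 K), Odd (Module.finrank ℚ K) → b ≠ 0 →
    ∃ d : ℕ, ∀ (l : ℕ) (P : Ideal (𝓞 K)), l.Prime → d < l → P.IsMaximal → (l : 𝓞 K) ∈ P →
      a ^ l * b - a * b ^ l ∈ P → ∃ (c : ℤ) (Q : Ideal (𝓞 K)) (n : ℕ), Q.IsMaximal ∧
        (l : 𝓞 K) ∈ Q ∧ a - c * b ∈ P ∧ a - c * b ∈ Q ∧ Odd n ∧ Ideal.absNorm Q = l ^ n

/-- a prime of odd degree above `l` at which the invariant is a rational root of the odd part has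
trace zero -/
def AtL : Prop :=
  ∀ (K : Type) [Field K] [NumberField K] (A B : 𝓞 K) (P : Ideal (𝓞 K)) (l n : ℕ) (Ψ F G : ℤ[X])
    (a c : ℤ), P.IsMaximal → l.Prime → 5 ≤ l → Odd n → Ideal.absNorm P = l ^ n → A ∉ P → B ∉ P →
    (Wc A B).Δ ∉ P → IsUnivPsi l Ψ → a ≠ 0 → Ψ = C a * (G ^ 2 * F) → G ≠ 0 →
    F.map (Int.castRingHom (ZMod l)) ≠ 0 →
    (∀ m : ℚ[X], 0 < m.natDegree → ¬m ^ 2 ∣ F.map (algebraMap ℤ ℚ)) →
    A ^ 3 - c * B ^ 2 ∈ P → (l : ℤ) ∣ F.eval c → aP A B P = 0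

section
variable {K : Type} [Field K] [NumberField K]

open Classical in
/-- the reduced curve has an endomorphism of degree `l` that anticommutes with Frobenius -/
def Anti (A B : 𝓞 K) (P : Ideal (𝓞 K)) (l : ℕ) : Prop :=
  ∀ (O : ValuationSubring (AlgebraicClosure K)) (q n : ℕ) (c : Loc A B P O q n) [Fact q.Prime]
    [CharP (IsLocalRing.ResidueField O) q], ∃ φ : EE c.good, NE φ = l ∧
      φ * frE c.good q n (c.fix A) (c.fix B) = -(frE c.good q n (c.fix A) (c.fix B) * φ)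

/-- the prime `P` above `p` has trace zero and covers `l` -/
structure Cv (A B : 𝓞 K) (P : Ideal (𝓞 K)) (p l : ℕ) : Prop where
  max : P.IsMaximal
  prime : p.Prime
  five : 5 ≤ p
  mem : (p : 𝓞 K) ∈ P
  odd : ∃ n, Odd n ∧ Ideal.absNorm P = p ^ n
  hA : A ∉ P
  hB : B ∉ P
  good : (Wc A B).Δ ∉ P
  zero : aP A B P = 0
  anti : Anti A B P l

/-- the rational prime `p` lies below a good prime of trace zero -/
def SS (A B : 𝓞 K) (p : ℕ) : Prop :=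
  p.Prime ∧ ∃ P : Ideal (𝓞 K), P.IsMaximal ∧ (p : 𝓞 K) ∈ P ∧ (Wc A B).Δ ∉ P ∧ aP A B P = 0

end

open Classical in
/-- a prime of odd order at which `-l` is not a square covers `l` -/
def OddCov : Prop :=
  ∀ (K : Type) [Field K] [NumberField K] (A B : 𝓞 K) (P : Ideal (𝓞 K)) (p l : ℕ)
    (s s' x g : 𝓞 K), NoCM (iK A) (iK B) → P.IsMaximal → p.Prime → 5 ≤ p → (p : 𝓞 K) ∈ P →
    A ∉ P → B ∉ P → (Wc A B).Δ ∉ P → l.Prime → l ≠ 2 →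
    jacobiSym (-(l : ℤ)) (Ideal.absNorm P) = -1 → s ∉ P → s' ∉ P → g ≠ 0 →
    iK (s * x * g ^ 2) = iK s' * ∏ D ∈ subs (iK A) (iK B) l, dl D → OddAt P x → Cv A B P p l

/-- two numbers covered by the same prime -/
def Cov2 : Prop :=
  ∀ (K : Type) [Field K] [NumberField K] (A B : 𝓞 K) (P : Ideal (𝓞 K)) (p l l' : ℕ),
    Cv A B P p l → Cv A B P p l' → ∃ a b : ℤ, 4 * (l : ℤ) * l' = a ^ 2 + p * b ^ 2

open Classical in
/-- the height bound for the primes that cover a small number -/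
def Ht : Prop :=
  ∀ (K : Type) [Field K] [NumberField K] (A B : 𝓞 K), (Wc A B).Δ ≠ 0 → NoCM (iK A) (iK B) →
    ∃ C : ℝ, 1 ≤ C ∧ ∀ (m : ℕ) (S : Finset (Ideal (𝓞 K))),
      (∀ P ∈ S, ∃ p l : ℕ, Cv A B P p l ∧ 0 < l ∧ 4 * l ≤ m ^ 2) →
      ∑ P ∈ S, Real.log (Ideal.absNorm P) ≤ C * ((m : ℝ) + 1) ^ 3 * Real.log (C * (m + 1) ^ 2)

open Classical in
/-- the argument of Elkies with the extra parity at the new prime -/
def Elk : Prop :=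
  ∀ (K : Type) [Field K] [NumberField K] (A B : 𝓞 K), Odd (Module.finrank ℚ K) →
    (Wc A B).Δ ≠ 0 → NoCM (iK A) (iK B) → ∃ M : ℕ, ∀ l : ℕ, l.Prime → l % 8 = 7 → M < l →
      (∀ r : ℕ, r.Prime → r ≠ 2 → r ≤ M → jacobiSym (-(l : ℤ)) r = 1) →
      SS A B l ∨ ∃ (P : Ideal (𝓞 K)) (p : ℕ), jacobiSym (-(l : ℤ)) p = -1 ∧ Cv A B P p l

end Pool.Agent.MP_c481b3_nt.H31
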