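import Pool.Agent.MP_c481b3_nt.H31.SpecL

set_option autoImplicit false

/-! The moments of all characters of the family together are small. -/

namespace Pool.Agent.MP_c481b3_nt.H31

open Pool.Agent.MP_c481b3_nt.H63 ArithmeticFunction

namespace SUM

lemma moC_real (χ : ℕ → ℝ) (m : ℕ) (σ : ℝ) : MoC χ m σ = (Mo χ m σ : ℂ) := by
  rw [MoC, Mo, Complex.ofReal_tsum]
  refine tsum_congr fun n => ?_
  have h : (n : ℂ) ^ (-(σ : ℂ)) = (((n : ℝ) ^ (-σ) : ℝ) : ℂ) := by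
    rw [Complex.ofReal_cpow (Nat.cast_nonneg n)]
    simp
  rw [h, ← Complex.ofReal_mul, Real.rpow_neg (Nat.cast_nonneg n), div_eq_mul_inv]

lemma sum_le (Z : Multiset ℂ) (w : ℂ → ℝ) (b : ℝ) (T : Finset ℕ) (p : ℕ → ℂ → Prop)
    [∀ i, DecidablePred (p i)] (a : ℕ → ℝ)
    (h : ∀ ρ ∈ Z, w ρ ≤ b + ∑ i ∈ T, if p i ρ then a i else 0) :
    (Z.map w).sum ≤ Z.card * b + ∑ i ∈ T, a i * ((Z.filter (p i)).card : ℝ) := by
  induction Z using Multiset.induction_on with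
  | empty => simp
  | cons x Z ih =>
    have h1 := ih fun ρ hρ => h ρ (Multiset.mem_cons_of_mem hρ)
    have h2 := h x (Multiset.mem_cons_self x Z)
    have h3 : ∑ i ∈ T, a i * (((x ::ₘ Z).filter (p i)).card : ℝ) =
        (∑ i ∈ T, if p i x then a i else 0) + ∑ i ∈ T, a i * ((Z.filter (p i)).card : ℝ) := by
      rw [← Finset.sum_add_distrib]
      refine Finset.sum_congr rfl fun i _ => ?_
      by_cases hp : p i x
      · rw [Multiset.filter_cons_of_pos _ hp, if_pos hp, Multiset.card_cons]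
        push_cast
        ring
      · rw [Multiset.filter_cons_of_neg _ hp, if_neg hp, zero_add]
    rw [Multiset.map_cons, Multiset.sum_cons, Multiset.card_cons, h3]
    push_cast
    linarith

lemma inv_le_exp {x : ℝ} (h0 : 0 ≤ x) (h1 : x ≤ 1) : (1 + x)⁻¹ ≤ Real.exp (-(x / 2)) := by
  have h2 := Real.add_one_le_exp (-(x / 2))
  refine le_trans ?_ h2
  rw [inv_le_iff_one_le_mul₀ (by linarith)]
  nlinarith

/-- the weight of one zero -/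
lemma pt {δ L η η' C : ℝ} {m : ℕ} (hδ : 0 < δ) (hδ1 : δ ≤ 1 / 64) (hL : 0 < L) (hη' : 0 < η')
    (h1 : η' ≤ η) (h2 : η' ≤ 1 / 2) (hC : 0 ≤ C) (hm : C * L ≤ m) {ρ : ℂ} (hre : ρ.re ≤ 1)
    (hz : |ρ.im| ≤ 1 / 32 → η / L < 1 - ρ.re) :
    δ ^ (m + 1) * ‖(((1 + δ : ℝ) : ℂ) - ρ)⁻¹ ^ (m + 1)‖ ≤ (1 / 2) ^ (m + 1) +
      ∑ i ∈ Finset.Icc 1 ⌈δ * L⌉₊, if 1 - ρ.re ≤ (i : ℝ) / L ∧ |ρ.im| ≤ 1 / 32 then
        Real.exp (-(C * η' / 2)) ^ i else 0 := by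
  have hnn : 0 ≤ ∑ i ∈ Finset.Icc 1 ⌈δ * L⌉₊, if 1 - ρ.re ≤ (i : ℝ) / L ∧ |ρ.im| ≤ 1 / 32 then
      Real.exp (-(C * η' / 2)) ^ i else 0 := by
    refine Finset.sum_nonneg fun i _ => ?_
    split_ifs
    · exact pow_nonneg (Real.exp_pos _).le _
    · exact le_rfl
  have hre' : δ + (1 - ρ.re) ≤ ‖((1 + δ : ℝ) : ℂ) - ρ‖ := by
    have := Complex.re_le_norm (((1 + δ : ℝ) : ℂ) - ρ)
    rw [Complex.sub_re, Complex.ofReal_re] at this
    linarith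
  have him' : |ρ.im| ≤ ‖((1 + δ : ℝ) : ℂ) - ρ‖ := by
    have := Complex.abs_im_le_norm (((1 + δ : ℝ) : ℂ) - ρ)
    rwa [Complex.sub_im, Complex.ofReal_im, zero_sub, abs_neg] at this
  have hpos : 0 < ‖((1 + δ : ℝ) : ℂ) - ρ‖ := by linarith
  rw [norm_pow, norm_inv, ← mul_pow]
  have hq0 : 0 ≤ δ * ‖((1 + δ : ℝ) : ℂ) - ρ‖⁻¹ := mul_nonneg hδ.le (inv_nonneg.2 hpos.le)
  by_cases hfar : 2 * δ ≤ ‖((1 + δ : ℝ) : ℂ) - ρ‖
  · have : δ * ‖((1 + δ : ℝ) : ℂ) - ρ‖⁻¹ ≤ 1 / 2 := by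
      rw [← div_eq_mul_inv, div_le_iff₀ hpos]
      linarith
    linarith [pow_le_pow_left₀ hq0 this (m + 1)]
  push Not at hfar
  have him : |ρ.im| ≤ 1 / 32 := by linarith
  have hu := hz him
  set u := 1 - ρ.re with hudef
  have hu0 : 0 ≤ u := by linarith
  have huδ : u ≤ δ := by linarith
  have hv : η < u * L := (div_lt_iff₀ hL).1 hu
  have hi1 : 1 ≤ ⌈u * L⌉₊ := Nat.one_le_ceil_iff.2 (by linarith)
  have hi2 : ⌈u * L⌉₊ ≤ ⌈δ * L⌉₊ := Nat.ceil_mono (mul_le_mul_of_nonneg_right huδ hL.le)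
  have hi3 : u ≤ (⌈u * L⌉₊ : ℝ) / L := by
    rw [le_div_iff₀ hL]
    exact Nat.le_ceil _
  have hi4 : η' * ⌈u * L⌉₊ ≤ u * L := by
    rcases hi1.eq_or_lt with h | h
    · rw [← h]
      push_cast
      linarith
    · have h3 : (2 : ℝ) ≤ ⌈u * L⌉₊ := by exact_mod_cast h
      have h4 := Nat.ceil_lt_add_one (mul_nonneg hu0 hL.le)
      nlinarith
  have hq : δ * ‖((1 + δ : ℝ) : ℂ) - ρ‖⁻¹ ≤ Real.exp (-(u / 2)) := by
    have hx0 : 0 ≤ u / δ := div_nonneg hu0 hδ.le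
    have hx1 : u / δ ≤ 1 := (div_le_one hδ).2 huδ
    have h3 := inv_le_exp hx0 hx1
    have h4 : δ * ‖((1 + δ : ℝ) : ℂ) - ρ‖⁻¹ ≤ (1 + u / δ)⁻¹ := by
      have e : (1 + u / δ)⁻¹ = δ / (δ + u) := by field_simp
      rw [e, ← div_eq_mul_inv]
      exact div_le_div_of_nonneg_left hδ.le (by linarith) hre'
    have h5 : u ≤ u / δ := by
      rw [le_div_iff₀ hδ]
      nlinarith
    exact h4.trans (h3.trans (Real.exp_le_exp.2 (by linarith)))
  have h6 : (δ * ‖((1 + δ : ℝ) : ℂ) - ρ‖⁻¹) ^ (m + 1) ≤ Real.exp (-(C * η' / 2)) ^ ⌈u * L⌉₊ := by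
    refine (pow_le_pow_left₀ hq0 hq (m + 1)).trans ?_
    rw [← Real.exp_nat_mul, ← Real.exp_nat_mul, Real.exp_le_exp]
    push_cast
    have h7 := mul_le_mul_of_nonneg_left hi4 hC
    have h8 := mul_le_mul_of_nonneg_right hm hu0
    nlinarith
  have h9 := Finset.single_le_sum (f := fun i : ℕ => if u ≤ (i : ℝ) / L ∧ |ρ.im| ≤ 1 / 32 then
    Real.exp (-(C * η' / 2)) ^ i else 0) (s := Finset.Icc 1 ⌈δ * L⌉₊) (fun i _ => by
      split_ifs
      · exact pow_nonneg (Real.exp_pos _).le _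
      · exact le_rfl) (Finset.mem_Icc.2 ⟨hi1, hi2⟩)
  simp only [if_pos (And.intro hi3 him)] at h9
  have h10 : (0 : ℝ) ≤ (1 / 2) ^ (m + 1) := pow_nonneg (by norm_num) _
  linarith

/-- one character -/
lemma one_char {K δ L η η' C : ℝ} {m : ℕ} (hK : 0 ≤ K) (hδ : 0 < δ) (hδ1 : δ ≤ 1 / 64)
    (hL : 0 < L) (hη' : 0 < η') (h1 : η' ≤ η) (h2 : η' ≤ 1 / 2) (hC : 0 ≤ C) (hm : C * L ≤ m)
    {χ : ArithmeticFunction ℝ} {Z : Multiset ℂ} (hZ : IsZ K L χ Z)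
    (hz : ∀ ρ ∈ Z, |ρ.im| ≤ 1 / 32 → η / L < 1 - ρ.re) :
    δ ^ (m + 1) / m.factorial * |Mo χ m (1 + δ)| ≤ K * L * (1 / 2) ^ m +
      ∑ i ∈ Finset.Icc 1 ⌈δ * L⌉₊, Real.exp (-(C * η' / 2)) ^ i *
        ((Z.filter fun ρ => 1 - ρ.re ≤ (i : ℝ) / L ∧ |ρ.im| ≤ 1 / 32).card : ℝ) := by
  have hf : (0 : ℝ) < m.factorial := by exact_mod_cast m.factorial_pos
  have hp : 0 < δ ^ (m + 1) := pow_pos hδ _
  have e1 := hZ.exp m ((1 + δ : ℝ) : ℂ) (by rw [Complex.ofReal_re]; linarith) (by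
    rw [Complex.ofReal_add, Complex.ofReal_one, add_sub_cancel_left, Complex.norm_real,
      Real.norm_eq_abs, abs_of_pos hδ]
    linarith)
  rw [moC_real] at e1
  have e2 := norm_sub_le (((Mo χ m (1 + δ) : ℝ) : ℂ) / m.factorial +
    (Z.map fun ρ => (((1 + δ : ℝ) : ℂ) - ρ)⁻¹ ^ (m + 1)).sum)
    (Z.map fun ρ => (((1 + δ : ℝ) : ℂ) - ρ)⁻¹ ^ (m + 1)).sum
  rw [add_sub_cancel_right, norm_div, Complex.norm_real, Real.norm_eq_abs,
    Complex.norm_natCast] at e2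
  have e3 := norm_multiset_sum_le (Z.map fun ρ => (((1 + δ : ℝ) : ℂ) - ρ)⁻¹ ^ (m + 1))
  rw [Multiset.map_map] at e3
  have e4 := sum_le Z (fun ρ => δ ^ (m + 1) * ‖(((1 + δ : ℝ) : ℂ) - ρ)⁻¹ ^ (m + 1)‖)
    ((1 / 2) ^ (m + 1)) (Finset.Icc 1 ⌈δ * L⌉₊)
    (fun i ρ => 1 - ρ.re ≤ (i : ℝ) / L ∧ |ρ.im| ≤ 1 / 32)
    (fun i => Real.exp (-(C * η' / 2)) ^ i)
    fun ρ hρ => pt hδ hδ1 hL hη' h1 h2 hC hm (hZ.re ρ hρ) (hz ρ hρ)
  rw [Multiset.sum_map_mul_left] at e4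
  have hKL : 0 ≤ K * L := mul_nonneg hK hL.le
  have e5 : (Z.card : ℝ) * (1 / 2) ^ (m + 1) ≤ K * L * (1 / 2) ^ (m + 1) :=
    mul_le_mul_of_nonneg_right hZ.card (pow_nonneg (by norm_num) _)
  have e6 : δ ^ (m + 1) * (K * L * 16 ^ m) ≤ K * L * (1 / 2) ^ (m + 1) := by
    have e7 : δ ^ (m + 1) * 16 ^ m ≤ (1 / 2 : ℝ) ^ (m + 1) := by
      rw [pow_succ, pow_succ, mul_right_comm, ← mul_pow]
      exact mul_le_mul (pow_le_pow_left₀ (by linarith) (by linarith) m) (by linarith) hδ.le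
        (pow_nonneg (by norm_num) _)
    calc δ ^ (m + 1) * (K * L * 16 ^ m) = K * L * (δ ^ (m + 1) * 16 ^ m) := by ring
      _ ≤ _ := mul_le_mul_of_nonneg_left e7 hKL
  have e8 := mul_le_mul_of_nonneg_left (e2.trans (add_le_add e1 e3)) hp.le
  have e9 : δ ^ (m + 1) / m.factorial * |Mo χ m (1 + δ)| =
      δ ^ (m + 1) * (|Mo χ m (1 + δ)| / m.factorial) := by ring
  have e10 : K * L * (1 / 2) ^ m = K * L * (1 / 2) ^ (m + 1) + K * L * (1 / 2) ^ (m + 1) := by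
    ring
  rw [e9, e10]
  rw [mul_add] at e8
  simp only [Function.comp_def] at e8
  linarith

lemma card_le {S : Finset ℕ} {L : ℝ} (h : Lg S L) :
    (((TS S).powerset.erase ∅).card : ℝ) ≤ Real.exp (L / 2) := by
  have h1 : (TS S).card ≤ S.card + 2 := by
    refine (Finset.card_insert_le _ _).trans (Nat.succ_le_succ ?_)
    exact (Finset.card_insert_le _ _).trans (Nat.succ_le_succ Finset.card_image_le)
  have h2 : ((TS S).powerset.erase ∅).card ≤ 2 ^ (S.card + 2) := by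
    refine Finset.card_erase_le.trans ?_
    rw [Finset.card_powerset]
    exact Nat.pow_le_pow_right (by norm_num) h1
  have h3 : (2 : ℝ) ^ S.card ≤ ∏ r ∈ S, (r : ℝ) := by
    rw [← Finset.prod_const]
    refine Finset.prod_le_prod (fun _ _ => by norm_num) fun r hr => ?_
    exact_mod_cast (h.1 r hr).1.two_le
  have h4 : (0 : ℝ) < ∏ r ∈ S, (r : ℝ) := lt_of_lt_of_le (pow_pos (by norm_num) _) h3
  have h5 : ∏ r ∈ S, (r : ℝ) ≤ Real.exp (L / 2 - 2) := by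
    rw [← Real.log_le_iff_le_exp h4]
    linarith [h.2]
  have h6 : (4 : ℝ) ≤ Real.exp 2 := by
    have e1 := Real.add_one_le_exp (1 : ℝ)
    have e2 : Real.exp 2 = Real.exp 1 * Real.exp 1 := by
      rw [← Real.exp_add]
      norm_num
    nlinarith
  have h7 : Real.exp (L / 2) = Real.exp (L / 2 - 2) * Real.exp 2 := by
    rw [← Real.exp_add]
    ring_nf
  calc (((TS S).powerset.erase ∅).card : ℝ) ≤ (2 : ℝ) ^ (S.card + 2) := by exact_mod_cast h2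
    _ = 2 ^ S.card * 4 := by ring
    _ ≤ _ := by
      rw [h7]
      exact mul_le_mul (h3.trans h5) h6 (by norm_num) (Real.exp_pos _).le

lemma err_le {K L C : ℝ} {m : ℕ} (hK : 1 ≤ K) (hL : 1 ≤ L) (hC : 20 * K ≤ C) (hm : C * L ≤ m) :
    Real.exp (L / 2) * (K * L * (1 / 2) ^ m) ≤ 1 / 8 := by
  have h1 : L ≤ Real.exp L := by linarith [Real.add_one_le_exp L]
  have h2 : 8 * K ≤ Real.exp (8 * K * L) := by
    have := Real.add_one_le_exp (8 * K * L)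
    nlinarith
  have h3 : (1 / 2 : ℝ) ≤ Real.exp (-(1 / 2)) := by
    have := Real.add_one_le_exp (-(1 / 2) : ℝ)
    linarith
  have h4 : (1 / 2 : ℝ) ^ m ≤ Real.exp (m * -(1 / 2)) := by
    rw [Real.exp_nat_mul]
    exact pow_le_pow_left₀ (by norm_num) h3 m
  have h5 : Real.exp (L / 2) * (Real.exp (8 * K * L) * Real.exp L * Real.exp (m * -(1 / 2))) ≤ 1 := by
    rw [← Real.exp_add, ← Real.exp_add, ← Real.exp_add, Real.exp_le_one_iff]
    have h6 := mul_le_mul_of_nonneg_right hC (show 0 ≤ L by linarith)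
    have h7 := mul_le_mul_of_nonneg_right hK (show 0 ≤ L by linarith)
    nlinarith
  have h8 : 8 * K * L * (1 / 2) ^ m ≤
      Real.exp (8 * K * L) * Real.exp L * Real.exp (m * -(1 / 2)) :=
    mul_le_mul (mul_le_mul h2 h1 (by linarith) (Real.exp_pos _).le) h4
      (pow_nonneg (by norm_num) _) (mul_pos (Real.exp_pos _) (Real.exp_pos _)).le
  have h9 := mul_le_mul_of_nonneg_left h8 (Real.exp_pos (L / 2)).le
  nlinarith

lemma geom_le (I : ℕ) : ∑ i ∈ Finset.Icc 1 I, (1 / 16 : ℝ) ^ i ≤ 1 / 15 - (1 / 15) * (1 / 16) ^ I := by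
  induction I with
  | zero => simp
  | succ I ih =>
    rw [Finset.sum_Icc_succ_top (by omega), pow_succ]
    linarith

end SUM

theorem sumB_of (hD : Dens) : SumB := by
  intro K η hK hη
  obtain ⟨Cd, hCd, hd⟩ := hD K hK
  have hCd0 : 0 < Cd := by linarith
  refine ⟨min (1 / 64) (1 / (2 * Cd)), lt_min (by norm_num) (by positivity), fun δ hδ hδ1 => ?_⟩
  have hδa : δ ≤ 1 / 64 := hδ1.trans (min_le_left _ _)
  have hδb : δ * (2 * Cd) ≤ 1 := (le_div_iff₀ (by linarith)).1 (hδ1.trans (min_le_right _ _))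
  obtain ⟨η', hη', h1, h2⟩ : ∃ η' : ℝ, 0 < η' ∧ η' ≤ η ∧ η' ≤ 1 / 2 :=
    ⟨min η (1 / 2), lt_min hη (by norm_num), min_le_left _ _, min_le_right _ _⟩
  obtain ⟨C, c1, c2, c3⟩ : ∃ C : ℝ, 20 * K ≤ C ∧ 2 * Cd ≤ C ∧ 2 * (Cd + 3) ≤ C * η' := by
    have hq : 0 ≤ 2 * (Cd + 3) / η' := div_nonneg (by linarith) hη'.le
    refine ⟨20 * K + 2 * Cd + 2 * (Cd + 3) / η', by linarith, by linarith, ?_⟩
    rw [add_mul, div_mul_cancel₀ _ hη'.ne']
    nlinarith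
  refine ⟨C, by linarith, fun S L m Z hS hCL hm hZ => ?_⟩
  have hL1 : 1 ≤ L := by linarith
  have hL : 0 < L := by linarith
  have hf : (0 : ℝ) < m.factorial := by exact_mod_cast m.factorial_pos
  have hp : 0 < δ ^ (m + 1) := pow_pos hδ _
  have s1 := Finset.sum_le_sum fun D hD =>
    SUM.one_char (by linarith) hδ hδa hL hη' h1 h2 (by linarith) hm (hZ D hD).1 (hZ D hD).2
  rw [← Finset.mul_sum, Finset.sum_add_distrib, Finset.sum_const, nsmul_eq_mul,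
    Finset.sum_comm] at s1
  have s2 : (((TS S).powerset.erase ∅).card : ℝ) * (K * L * (1 / 2) ^ m) ≤ 1 / 8 :=
    (mul_le_mul_of_nonneg_right (SUM.card_le hS) (mul_nonneg (mul_nonneg (by linarith) hL.le)
      (pow_nonneg (by norm_num) _))).trans (SUM.err_le hK hL1 c1 hm)
  have hq : Real.exp (-(C * η' / 2)) * Real.exp Cd ≤ 1 / 16 := by
    rw [← Real.exp_add]
    have e1 : Real.exp (-(C * η' / 2) + Cd) ≤ Real.exp (-3) := Real.exp_le_exp.2 (by linarith)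
    refine e1.trans ?_
    rw [Real.exp_neg, one_div]
    refine inv_anti₀ (by norm_num) ?_
    have e2 := Real.exp_one_gt_d9
    have e3 : Real.exp 3 = Real.exp 1 ^ 3 := by
      rw [← Real.exp_nat_mul]
      norm_num
    rw [e3]
    calc (16 : ℝ) ≤ 2.7 ^ 3 := by norm_num
      _ ≤ _ := pow_le_pow_left₀ (by norm_num) (by linarith) 3
  have s3 : ∑ i ∈ Finset.Icc 1 ⌈δ * L⌉₊, ∑ D ∈ (TS S).powerset.erase ∅,
      Real.exp (-(C * η' / 2)) ^ i *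
        (((Z D).filter fun ρ => 1 - ρ.re ≤ (i : ℝ) / L ∧ |ρ.im| ≤ 1 / 32).card : ℝ) ≤
      ∑ i ∈ Finset.Icc 1 ⌈δ * L⌉₊, (1 / 16 : ℝ) ^ i := by
    refine Finset.sum_le_sum fun i hi => ?_
    obtain ⟨i1, i2⟩ := Finset.mem_Icc.1 hi
    have i3 : (i : ℝ) / L * L = i := div_mul_cancel₀ _ hL.ne'
    have i4 : (i : ℝ) ≤ δ * L + 1 :=
      (Nat.cast_le.2 i2).trans (Nat.ceil_lt_add_one (mul_nonneg hδ.le hL.le)).le
    have i5 : (i : ℝ) / L * Cd ≤ 1 := by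
      rw [div_mul_eq_mul_div, div_le_one hL]
      have := mul_le_mul_of_nonneg_right i4 hCd0.le
      have := mul_le_mul_of_nonneg_right hδb hL.le
      nlinarith
    have := hd S L ((i : ℝ) / L) Z hS (fun D hD => (hZ D hD).1)
      (by rw [i3]; exact_mod_cast i1) i5
    rw [i3, mul_comm Cd, Real.exp_nat_mul] at this
    rw [← Finset.mul_sum]
    refine (mul_le_mul_of_nonneg_left this (pow_nonneg (Real.exp_pos _).le _)).trans ?_
    rw [← mul_pow]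
    exact pow_le_pow_left₀ (mul_pos (Real.exp_pos _) (Real.exp_pos _)).le hq i
  have s4 := SUM.geom_le ⌈δ * L⌉₊
  have s5 : (0 : ℝ) ≤ (1 / 16) ^ ⌈δ * L⌉₊ := pow_nonneg (by norm_num) _
  have s6 : δ ^ (m + 1) / m.factorial *
      ∑ D ∈ (TS S).powerset.erase ∅, |Mo (ch D) m (1 + δ)| ≤ 1 / 4 := by linarith
  rw [div_mul_eq_mul_div, div_le_iff₀ hf] at s6
  rw [le_div_iff₀ (by linarith)]
  linarith

end Pool.Agent.MP_c481b3_nt.H31
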