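import Pool.Agent.MP_c481b3_nt.H31.SpecL

set_option autoImplicit false

/-! The second main theorem of Turan for pure power sums. -/

namespace Pool.Agent.MP_c481b3_nt.H31

open Finset Metric Polynomial Real Complex

namespace Tur

variable {ι : Type} [Fintype ι]

lemma pow_le_fac (N : ℕ) (hN : 1 ≤ N) : ((N : ℝ) + 1) ^ N ≤ 6 ^ N * N.factorial := by
  have h1 : (N : ℝ) ^ N / N.factorial ≤ Real.exp N := Real.pow_div_factorial_le_exp _ (by positivity) N
  have h2 : Real.exp N ≤ 3 ^ N := by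
    rw [← Real.exp_one_pow]
    exact pow_le_pow_left₀ (Real.exp_pos _).le (Real.exp_one_lt_d9.le.trans (by norm_num)) N
  have h3 : (0 : ℝ) < N.factorial := by positivity
  have h4 : (1 : ℝ) ≤ N := by exact_mod_cast hN
  calc ((N : ℝ) + 1) ^ N ≤ (2 * N) ^ N := pow_le_pow_left₀ (by positivity) (by linarith) N
    _ = 2 ^ N * N ^ N := mul_pow _ _ _
    _ ≤ 2 ^ N * (3 ^ N * N.factorial) := by
        gcongr
        exact (div_le_iff₀ h3).1 (h1.trans h2)
    _ = 6 ^ N * N.factorial := by rw [← mul_assoc, ← mul_pow]; norm_num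

lemma exists_node (a : ι → ℝ) : ∃ k : ℕ, k ≤ Fintype.card ι ∧
    ((Fintype.card ι).factorial : ℝ) ≤ 2 ^ Fintype.card ι * ∏ i, |(k : ℝ) - a i| := by
  set N := Fintype.card ι with hN
  set V : ℝ[X] := ∏ i, (X - C (a i)) with hV
  have hm : V.Monic := monic_prod_of_monic _ _ fun i _ => monic_X_sub_C _
  have hd : V.natDegree = N := by
    rw [hV, natDegree_prod_of_monic _ _ fun i _ => monic_X_sub_C _]
    simp [hN]
  have h1 := congrFun V.fwdDiff_iter_degree_eq_factorial 0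
  rw [fwdDiff_iter_eq_sum_shift, hd, hm.leadingCoeff] at h1
  obtain ⟨k, hk, hmax⟩ := exists_max_image (range (N + 1)) (fun k : ℕ => |V.eval (k : ℝ)|) (by simp)
  refine ⟨k, Nat.lt_succ_iff.1 (mem_range.1 hk), ?_⟩
  have h2 : ∏ i, |(k : ℝ) - a i| = |V.eval (k : ℝ)| := by
    rw [hV, eval_prod, abs_prod]
    simp
  have h3 : (N.factorial : ℝ) = ∑ j ∈ range (N + 1),
      ((-1 : ℤ) ^ (N - j) * N.choose j) • V.eval ((0 : ℝ) + j • (1 : ℝ)) := by
    rw [h1]; simp
  rw [h2, h3]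
  calc _ ≤ ∑ j ∈ range (N + 1), (N.choose j : ℝ) * |V.eval (k : ℝ)| := by
        refine sum_le_sum fun j hj => (le_abs_self _).trans ?_
        have := hmax j hj
        simp only [zsmul_eq_mul, abs_mul, zero_add, nsmul_eq_mul, mul_one, Int.cast_mul,
          Int.cast_pow, Int.cast_neg, Int.cast_one, Int.cast_natCast, abs_pow, abs_neg, abs_one,
          one_pow, one_mul, Nat.abs_cast]
        gcongr
    _ = 2 ^ N * |V.eval (k : ℝ)| := by
        rw [← sum_mul, ← Nat.cast_sum, Nat.sum_range_choose]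
        norm_num

lemma exists_radius (a : ι → ℝ) (hN : 1 ≤ Fintype.card ι) : ∃ ρ : ℝ, 1 / 2 ≤ ρ ∧ ρ < 1 ∧
    1 ≤ 24 ^ Fintype.card ι * ∏ i, |ρ - a i| := by
  set N := Fintype.card ι with hN'
  have h0 : (0 : ℝ) < 2 * (N + 1) := by positivity
  obtain ⟨k, hk, h⟩ := exists_node fun i => (a i - 1 / 2) * (2 * (N + 1))
  rw [← hN'] at hk h
  have hk' : (k : ℝ) ≤ N := by exact_mod_cast hk
  refine ⟨1 / 2 + k / (2 * (N + 1)), le_add_of_nonneg_right (by positivity), ?_, ?_⟩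
  · have : (k : ℝ) / (2 * (N + 1)) < 1 / 2 := by
      rw [div_lt_iff₀ h0]; linarith
    linarith
  have h1 : ∏ i, |(k : ℝ) - (a i - 1 / 2) * (2 * (N + 1))| =
      (2 * (N + 1)) ^ N * ∏ i, |1 / 2 + k / (2 * (N + 1)) - a i| := by
    rw [hN', ← card_univ, ← prod_const, ← prod_mul_distrib]
    refine prod_congr rfl fun i _ => ?_
    rw [card_univ, ← hN', ← abs_of_pos h0, ← abs_mul, abs_of_pos h0]
    congr 1
    field_simp
    ring
  rw [h1] at h
  set P := ∏ i, |1 / 2 + k / (2 * ((N : ℝ) + 1)) - a i|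
  have hP : 0 ≤ P := prod_nonneg fun _ _ => abs_nonneg _
  have h2 := pow_le_fac N hN
  have h3 : (0 : ℝ) < N.factorial := by positivity
  refine le_of_mul_le_mul_left ?_ h3
  calc (N.factorial : ℝ) * 1 ≤ 2 ^ N * ((2 * (N + 1)) ^ N * P) := by rwa [mul_one]
    _ = 4 ^ N * (N + 1) ^ N * P := by
        rw [mul_pow, show (4 : ℝ) = 2 * 2 by norm_num, mul_pow]; ring
    _ ≤ 4 ^ N * (6 ^ N * N.factorial) * P := by gcongr
    _ = N.factorial * (24 ^ N * P) := by
        rw [show (24 : ℝ) = 4 * 6 by norm_num, mul_pow]; ring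

variable {z : ι → ℂ} {M : ℕ} {S : ℝ}

lemma sum_prod_le (hz : ∀ i, ‖z i‖ ≤ 1) {N : ℕ} (hS : ∀ ν, M < ν → ν ≤ M + N → ‖∑ i, z i ^ ν‖ ≤ S)
    (s : Finset ι) : ∀ m, M < m → m + s.card ≤ M + N →
      ‖∑ i, z i ^ m * ∏ j ∈ s, (z i - z j)‖ ≤ 2 ^ s.card * S := by
  classical
  induction s using Finset.induction_on with
  | empty => intro m h1 h2; simpa using hS m h1 (by simpa using h2)
  | insert c s hc ih =>
    intro m h1 h2
    rw [card_insert_of_notMem hc] at h2 ⊢
    have e : ∑ i, z i ^ m * ∏ j ∈ insert c s, (z i - z j) =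
        ∑ i, z i ^ (m + 1) * ∏ j ∈ s, (z i - z j) - z c * ∑ i, z i ^ m * ∏ j ∈ s, (z i - z j) := by
      rw [mul_sum, ← sum_sub_distrib]
      refine sum_congr rfl fun i _ => ?_
      rw [prod_insert hc]; ring
    have a1 := ih (m + 1) (by omega) (by omega)
    have a2 := ih m h1 (by omega)
    have a3 := mul_le_mul (hz c) a2 (norm_nonneg _) zero_le_one
    rw [e]
    refine (norm_sub_le _ _).trans ?_
    rw [norm_mul, pow_succ]
    linarith

lemma quot_le (hz : ∀ i, ‖z i‖ ≤ 1) {N : ℕ} (hS : ∀ ν, M < ν → ν ≤ M + N → ‖∑ i, z i ^ ν‖ ≤ S)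
    (h0 : 0 ≤ S) {w : ℂ} (hw : ‖w‖ ≤ 1) (hne : ∀ i, w - z i ≠ 0) (s : Finset ι) : s.card ≤ N →
      ‖∑ i, z i ^ (M + 1) * ((∏ j ∈ s, (w - z j) - ∏ j ∈ s, (z i - z j)) / (w - z i))‖ ≤
        s.card * 2 ^ s.card * S := by
  classical
  induction s using Finset.induction_on with
  | empty => simp
  | insert c s hc ih =>
    intro h2
    rw [card_insert_of_notMem hc] at h2 ⊢
    have e : ∑ i, z i ^ (M + 1) * ((∏ j ∈ insert c s, (w - z j) -
        ∏ j ∈ insert c s, (z i - z j)) / (w - z i)) =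
        (w - z c) * ∑ i, z i ^ (M + 1) * ((∏ j ∈ s, (w - z j) - ∏ j ∈ s, (z i - z j)) / (w - z i)) +
          ∑ i, z i ^ (M + 1) * ∏ j ∈ s, (z i - z j) := by
      rw [mul_sum, ← sum_add_distrib]
      refine sum_congr rfl fun i _ => ?_
      have := hne i
      rw [prod_insert hc, prod_insert hc]
      field_simp
      ring
    have a1 := ih (by omega)
    have a2 := sum_prod_le hz hS s (M + 1) (by omega) (by omega)
    have a4 : ‖w - z c‖ ≤ 2 := (norm_sub_le _ _).trans (by linarith [hz c])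
    have a3 := mul_le_mul a4 a1 (norm_nonneg _) zero_le_two
    have a5 : 0 ≤ 2 ^ s.card * S := by positivity
    rw [e]
    refine (norm_add_le _ _).trans ?_
    rw [norm_mul, pow_succ]
    push_cast
    linarith

lemma cont_on {ρ : ℝ} (hρ : 0 < ρ) {x : ℂ} (hx : ‖x‖ ≠ ρ) (m : ℕ) :
    ContinuousOn (fun w : ℂ => x ^ m / (w ^ m * (w - x))) (sphere 0 ρ) := by
  refine continuousOn_const.div (by fun_prop) fun w hw => ?_
  rw [mem_sphere_zero_iff_norm] at hw
  refine mul_ne_zero (pow_ne_zero _ ?_) (sub_ne_zero.2 ?_)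
  · rintro rfl
    rw [norm_zero] at hw
    exact hρ.ne hw
  · rintro rfl
    exact hx hw

lemma int_eq {ρ : ℝ} (hρ : 0 < ρ) {x : ℂ} (hx : ‖x‖ ≠ ρ) (m : ℕ) :
    (∮ w in C(0, ρ), x ^ (m + 1) / (w ^ (m + 1) * (w - x))) =
      if ‖x‖ < ρ then 0 else -(2 * π * I) := by
  have hstep : ∀ m : ℕ, (∮ w in C(0, ρ), x ^ (m + 1) / (w ^ (m + 1) * (w - x))) =
      (∮ w in C(0, ρ), x ^ m / (w ^ m * (w - x))) -
        x ^ m * ∮ w in C(0, ρ), (w - 0) ^ (-(m + 1 : ℕ) : ℤ) := by
    intro m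
    have h0 : ∀ w ∈ sphere (0 : ℂ) ρ, w ≠ 0 ∧ w - x ≠ 0 := by
      intro w hw
      rw [mem_sphere_zero_iff_norm] at hw
      refine ⟨?_, sub_ne_zero.2 ?_⟩
      · rintro rfl
        rw [norm_zero] at hw
        exact hρ.ne hw
      · rintro rfl
        exact hx hw
    rw [← circleIntegral.integral_const_mul, ← circleIntegral.integral_sub
      ((cont_on hρ hx m).circleIntegrable hρ.le)]
    · refine circleIntegral.integral_congr hρ.le fun w hw => ?_
      obtain ⟨h1, h2⟩ := h0 w hw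
      simp only [sub_zero, zpow_neg, zpow_natCast]
      field_simp
      ring
    · refine ContinuousOn.circleIntegrable hρ.le (continuousOn_const.mul ?_)
      exact ContinuousOn.zpow₀ (by fun_prop) _ fun w hw => Or.inl (by simpa using (h0 w hw).1)
  induction m with
  | zero =>
    rw [hstep]
    have h1 : (∮ w in C(0, ρ), (w - 0) ^ (-(0 + 1 : ℕ) : ℤ)) = 2 * π * I := by
      rw [← circleIntegral.integral_sub_center_inv 0 hρ.ne']
      simp
    rw [h1]
    simp only [pow_zero, one_mul, one_div]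
    split_ifs with h
    · rw [circleIntegral.integral_sub_inv_of_mem_ball (by simpa using h), sub_self]
    · have h2 : ρ < ‖x‖ := lt_of_le_of_ne (not_lt.1 h) hx.symm
      have h3 : ∀ w ∈ closedBall (0 : ℂ) ρ, w - x ≠ 0 := by
        intro w hw
        rw [mem_closedBall_zero_iff] at hw
        refine sub_ne_zero.2 ?_
        rintro rfl
        linarith
      rw [circleIntegral_eq_zero_of_differentiable_on_off_countable (f := fun w => (w - x)⁻¹)
        hρ.le Set.countable_empty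
        (ContinuousOn.inv₀ (by fun_prop) h3) fun w hw =>
          DifferentiableAt.inv (by fun_prop) (h3 w (ball_subset_closedBall hw.1)), zero_sub]
  | succ m ih =>
    rw [hstep, ih, circleIntegral.integral_sub_zpow_of_ne (by push_cast; omega), mul_zero, sub_zero]

lemma core (hz : ∀ i, ‖z i‖ ≤ 1) {i0 : ι} (h1 : ‖z i0‖ = 1) (hM : Fintype.card ι ≤ M)
    (h0 : 0 ≤ S) (hS : ∀ ν, M < ν → ν ≤ M + Fintype.card ι → ‖∑ i, z i ^ ν‖ ≤ S) :
    1 ≤ 192 ^ M * S := by
  classical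
  set N := Fintype.card ι with hN
  have hN1 : 1 ≤ N := Fintype.card_pos_iff.2 ⟨i0⟩
  obtain ⟨ρ, r1, r2, r3⟩ := exists_radius (fun i => ‖z i‖) hN1
  rw [← hN] at r3
  have hρ : 0 < ρ := by linarith
  have hne : ∀ i, ‖z i‖ ≠ ρ := by
    intro i h
    rw [prod_eq_zero (mem_univ i) (by rw [h, sub_self, abs_zero]), mul_zero] at r3
    linarith
  have hb : ∀ w ∈ sphere (0 : ℂ) ρ, ‖∑ i, z i ^ (M + 1) / (w ^ (M + 1) * (w - z i))‖ ≤
      24 ^ N * (N * 2 ^ N * S) / ρ ^ (M + 1) := by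
    intro w hw
    rw [mem_sphere_zero_iff_norm] at hw
    have w0 : w ≠ 0 := by
      rintro rfl
      rw [norm_zero] at hw
      exact hρ.ne hw
    have hw' : ∀ i, w - z i ≠ 0 := fun i => sub_ne_zero.2 fun h => hne i (h ▸ hw)
    have q := quot_le hz hS h0 (hw.le.trans r2.le) hw' univ le_rfl
    have e : ∑ i, z i ^ (M + 1) * ((∏ j, (w - z j) - ∏ j, (z i - z j)) / (w - z i)) =
        (∏ j, (w - z j)) * (w ^ (M + 1) * ∑ i, z i ^ (M + 1) / (w ^ (M + 1) * (w - z i))) := by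
      rw [mul_sum, mul_sum]
      refine sum_congr rfl fun i _ => ?_
      have := hw' i
      rw [prod_eq_zero (f := fun j => z i - z j) (mem_univ i) (sub_self (z i))]
      field_simp
      ring
    rw [e, norm_mul, norm_mul, norm_pow, hw, card_univ, ← hN] at q
    have p : ∏ i, |ρ - ‖z i‖| ≤ ‖∏ j, (w - z j)‖ := by
      rw [norm_prod]
      exact prod_le_prod (fun _ _ => abs_nonneg _) fun i _ => hw ▸ abs_norm_sub_norm_le _ _
    rw [le_div_iff₀ (by positivity), mul_comm]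
    set T := ρ ^ (M + 1) * ‖∑ i, z i ^ (M + 1) / (w ^ (M + 1) * (w - z i))‖
    have hT : 0 ≤ T := by positivity
    calc T = 1 * T := (one_mul _).symm
      _ ≤ 24 ^ N * ‖∏ j, (w - z j)‖ * T := by
          gcongr
          exact r3.trans (by gcongr)
      _ ≤ _ := by rw [mul_assoc]; gcongr
  have hi := circleIntegral.norm_integral_le_of_norm_le_const hρ.le hb
  rw [circleIntegral.integral_fun_sum fun i _ => (cont_on hρ (hne i) _).circleIntegrable hρ.le,
    sum_congr rfl fun i _ => int_eq hρ (hne i) M, sum_ite, sum_const_zero, zero_add, sum_const,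
    nsmul_eq_mul, norm_mul, norm_neg] at hi
  have c1 : (1 : ℝ) ≤ ‖((univ.filter fun i => ¬‖z i‖ < ρ).card : ℂ)‖ := by
    rw [Complex.norm_natCast]
    exact_mod_cast card_pos.2 ⟨i0, by simp [h1, r2.le]⟩
  have c2 : ‖(2 * π * I : ℂ)‖ = 2 * π := by simp [abs_of_pos Real.pi_pos]
  have c3 : 0 < 2 * π := by positivity
  rw [c2] at hi
  have c4 : 1 ≤ ρ * (24 ^ N * (N * 2 ^ N * S) / ρ ^ (M + 1)) := by
    refine le_of_mul_le_mul_left ?_ c3
    nlinarith
  have c5 : (N : ℝ) ≤ 2 ^ N := by exact_mod_cast Nat.lt_two_pow_self.le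
  have c6 : 1 ≤ 2 ^ M * ρ ^ M := by
    rw [← mul_pow]
    exact one_le_pow₀ (by linarith)
  calc (1 : ℝ) ≤ _ := c4
    _ = 1 * (24 ^ N * (N * 2 ^ N * S)) / ρ ^ M := by rw [pow_succ]; field_simp
    _ ≤ 2 ^ M * ρ ^ M * (24 ^ M * (2 ^ M * 2 ^ M * S)) / ρ ^ M := by
        gcongr
        · norm_num
        · exact c5.trans (pow_le_pow_right₀ one_le_two hM)
        · norm_num
    _ = 192 ^ M * S := by
        rw [show (192 : ℝ) = 2 * 24 * 2 * 2 by norm_num, mul_pow, mul_pow, mul_pow]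
        field_simp

lemma main (z : ι → ℂ) (i : ι) (hM : Fintype.card ι ≤ M) :
    ∃ ν : ℕ, M < ν ∧ ν ≤ 2 * M ∧ (‖z i‖ / 200) ^ ν ≤ ‖∑ j, z j ^ ν‖ := by
  have hN1 : 1 ≤ Fintype.card ι := Fintype.card_pos_iff.2 ⟨i⟩
  obtain ⟨i0, -, hmax⟩ := exists_max_image univ (fun j => ‖z j‖) ⟨i, mem_univ i⟩
  have hi := hmax i (mem_univ i)
  rcases (norm_nonneg (z i0)).eq_or_lt with h0 | h0
  · refine ⟨M + 1, by omega, by omega, ?_⟩
    rw [le_antisymm (hi.trans h0.ge) (norm_nonneg _)]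
    simp
  by_contra hc
  push Not at hc
  have hz0 : z i0 ≠ 0 := norm_pos_iff.1 h0
  have := core (z := fun j => z j / z i0) (i0 := i0) (S := (1 / 200) ^ (M + 1))
    (fun j => by rw [norm_div]; exact (div_le_one h0).2 (hmax j (mem_univ j)))
    (by rw [div_self hz0, norm_one]) hM (by positivity) fun ν a1 a2 => by
      simp only [div_pow]
      rw [← sum_div, norm_div, norm_pow, div_le_iff₀ (by positivity), ← div_pow]
      calc _ ≤ (‖z i‖ / 200) ^ ν := (hc ν a1 (by omega)).le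
        _ ≤ (‖z i0‖ / 200) ^ ν := by gcongr
        _ = (1 / 200) ^ ν * ‖z i0‖ ^ ν := by rw [← mul_pow]; congr 1; ring
        _ ≤ _ := by
          gcongr ?_ * _
          exact pow_le_pow_of_le_one (by norm_num) (by norm_num) a1
  have h2 : (192 : ℝ) ^ M * (1 / 200) ^ M ≤ 1 := by
    rw [← mul_pow]
    exact pow_le_one₀ (by norm_num) (by norm_num)
  rw [pow_succ, ← mul_assoc] at this
  linarith

end Tur

theorem turan : Turan := by
  classical
  intro Z M z hz hM
  obtain ⟨ν, h1, h2, h3⟩ := Tur.main (M := M) (fun x : Z => (x : ℂ))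
    (⟨z, 0, Multiset.count_pos.2 hz⟩ : Z) (by rwa [Multiset.card_coe])
  refine ⟨ν, h1, h2, h3.trans (le_of_eq ?_)⟩
  congr 1
  rw [← Multiset.map_univ Z fun w => w ^ ν]
  rfl

end Pool.Agent.MP_c481b3_nt.H31
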